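import Pool.Agent.NH23.MC.PathB

set_option autoImplicit false
open MeasureTheory ProbabilityTheory Filter Topology

namespace Pool.NH23.MC

variable {S : Type} [MeasurableSpace S] {ν : Measure S} {P : (S → ℝ) → (S → ℝ)}
  {Ω : Type} {mΩ : MeasurableSpace Ω} {μ : Measure Ω} {ℱ : Filtration ℕ mΩ} {X : ℕ → Ω → S}

/-- the deterministic coefficients `exp(-θ² V (n-j)/2)` -/
noncomputable def coef (θ V : ℝ) (n j : ℕ) : ℝ := Real.exp (-(θ ^ 2 * V * ((n : ℝ) - j) / 2))

theorem Tele_aux (x : ℝ) {y : ℝ} (hy : 0 ≤ y) :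
    |Real.cos (x + y) - (Real.cos x - y * Real.sin x - y ^ 2 / 2 * Real.cos x)| ≤ y ^ 3 / 6 ∧
    |Real.cos (x + y) - (Real.cos x - y * Real.sin x - y ^ 2 / 2 * Real.cos x)| ≤ y ^ 2 := by
  have d2 : ∀ t : ℝ, HasDerivAt (fun t => Real.cos x - Real.cos (x + t)) (Real.sin (x + t)) t := by
    intro t
    have h1 : HasDerivAt (fun t : ℝ => x + t) 1 t := (hasDerivAt_id t).const_add x
    have h2 := (h1.cos).const_sub (Real.cos x)
    exact h2.congr_deriv (by ring)
  have d1 : ∀ t : ℝ, HasDerivAt (fun t => Real.sin x - Real.sin (x + t) + t * Real.cos x)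
      (Real.cos x - Real.cos (x + t)) t := by
    intro t
    have h1 : HasDerivAt (fun t : ℝ => x + t) 1 t := (hasDerivAt_id t).const_add x
    have h2 := ((h1.sin).const_sub (Real.sin x)).add ((hasDerivAt_id t).mul_const (Real.cos x))
    exact h2.congr_deriv (by ring)
  have d0 : ∀ t : ℝ, HasDerivAt (fun t => Real.cos (x + t) -
      (Real.cos x - t * Real.sin x - t ^ 2 / 2 * Real.cos x))
      (Real.sin x - Real.sin (x + t) + t * Real.cos x) t := by
    intro t
    have h1 : HasDerivAt (fun t : ℝ => x + t) 1 t := (hasDerivAt_id t).const_add x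
    have h3 : HasDerivAt (fun t : ℝ => t ^ 2 / 2 * Real.cos x) (t * Real.cos x) t := by
      have := ((hasDerivAt_pow 2 t).div_const 2).mul_const (Real.cos x)
      exact this.congr_deriv (by norm_num)
    have h2 := (h1.cos).sub ((((hasDerivAt_id t).mul_const (Real.sin x)).const_sub
      (Real.cos x)).sub h3)
    exact h2.congr_deriv (by ring)
  have b2 : ∀ t : ℝ, 0 ≤ t → |Real.cos x - Real.cos (x + t)| ≤ t := by
    intro t ht
    have := image_norm_le_of_norm_deriv_right_le_deriv_boundary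
      (f := fun t => Real.cos x - Real.cos (x + t)) (a := 0) (b := t)
      (f' := fun t => Real.sin (x + t)) (B := fun t => t) (B' := fun _ => 1)
      (fun s _ => (d2 s).continuousAt.continuousWithinAt)
      (fun s _ => (d2 s).hasDerivWithinAt) (by simp) (fun s => hasDerivAt_id s)
      (fun s _ => by
        rw [Real.norm_eq_abs]
        exact Real.abs_sin_le_one _) (Set.right_mem_Icc.2 ht)
    simpa using this
  have b2' : ∀ t : ℝ, |Real.cos x - Real.cos (x + t)| ≤ 2 := by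
    intro t
    have h1 := Real.abs_cos_le_one x
    have h2 := Real.abs_cos_le_one (x + t)
    have h3 := abs_sub (Real.cos x) (Real.cos (x + t))
    linarith
  have b1 : ∀ t : ℝ, 0 ≤ t → |Real.sin x - Real.sin (x + t) + t * Real.cos x| ≤ t ^ 2 / 2 := by
    intro t ht
    have := image_norm_le_of_norm_deriv_right_le_deriv_boundary
      (f := fun t => Real.sin x - Real.sin (x + t) + t * Real.cos x) (a := 0) (b := t)
      (f' := fun t => Real.cos x - Real.cos (x + t)) (B := fun t => t ^ 2 / 2) (B' := fun t => t)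
      (fun s _ => (d1 s).continuousAt.continuousWithinAt)
      (fun s _ => (d1 s).hasDerivWithinAt) (by simp) (fun s => by
        have := (hasDerivAt_pow 2 s).div_const 2
        exact this.congr_deriv (by norm_num))
      (fun s hs => by
        rw [Real.norm_eq_abs]
        exact b2 s hs.1) (Set.right_mem_Icc.2 ht)
    simpa using this
  have b1' : ∀ t : ℝ, 0 ≤ t → |Real.sin x - Real.sin (x + t) + t * Real.cos x| ≤ 2 * t := by
    intro t ht
    have := image_norm_le_of_norm_deriv_right_le_deriv_boundary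
      (f := fun t => Real.sin x - Real.sin (x + t) + t * Real.cos x) (a := 0) (b := t)
      (f' := fun t => Real.cos x - Real.cos (x + t)) (B := fun t => 2 * t) (B' := fun t => 2)
      (fun s _ => (d1 s).continuousAt.continuousWithinAt)
      (fun s _ => (d1 s).hasDerivWithinAt) (by simp) (fun s => by
        have := (hasDerivAt_id s).const_mul (2:ℝ)
        exact this.congr_deriv (by norm_num))
      (fun s hs => by
        rw [Real.norm_eq_abs]
        exact b2' s) (Set.right_mem_Icc.2 ht)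
    simpa using this
  constructor
  · have := image_norm_le_of_norm_deriv_right_le_deriv_boundary
      (f := fun t => Real.cos (x + t) -
        (Real.cos x - t * Real.sin x - t ^ 2 / 2 * Real.cos x)) (a := 0) (b := y)
      (f' := fun t => Real.sin x - Real.sin (x + t) + t * Real.cos x) (B := fun t => t ^ 3 / 6)
      (B' := fun t => t ^ 2 / 2)
      (fun s _ => (d0 s).continuousAt.continuousWithinAt)
      (fun s _ => (d0 s).hasDerivWithinAt) (by simp) (fun s => by
        have := (hasDerivAt_pow 3 s).div_const 6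
        exact this.congr_deriv (by norm_num; ring))
      (fun s hs => by
        rw [Real.norm_eq_abs]
        exact b1 s hs.1) (Set.right_mem_Icc.2 hy)
    simpa using this
  · have := image_norm_le_of_norm_deriv_right_le_deriv_boundary
      (f := fun t => Real.cos (x + t) -
        (Real.cos x - t * Real.sin x - t ^ 2 / 2 * Real.cos x)) (a := 0) (b := y)
      (f' := fun t => Real.sin x - Real.sin (x + t) + t * Real.cos x) (B := fun t => t ^ 2)
      (B' := fun t => 2 * t)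
      (fun s _ => (d0 s).continuousAt.continuousWithinAt)
      (fun s _ => (d0 s).hasDerivWithinAt) (by simp) (fun s => by
        have := hasDerivAt_pow 2 s
        exact this.congr_deriv (by norm_num))
      (fun s hs => by
        rw [Real.norm_eq_abs]
        exact b1' s hs.1) (Set.right_mem_Icc.2 hy)
    simpa using this

theorem cos_taylor (x y : ℝ) :
    |Real.cos (x + y) - (Real.cos x - y * Real.sin x - y ^ 2 / 2 * Real.cos x)| ≤
      min (|y| ^ 3 / 6) (y ^ 2) := by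
  rcases le_total 0 y with hy | hy
  · rw [abs_of_nonneg hy]
    exact le_min (Tele_aux x hy).1 (Tele_aux x hy).2
  · have h1 := Tele_aux (-x) (neg_nonneg.2 hy)
    have h2 : Real.cos (-x + -y) = Real.cos (x + y) := by
      rw [← Real.cos_neg (x + y)]
      congr 1
      ring
    have h3 : Real.cos (x + y) - (Real.cos x - y * Real.sin x - y ^ 2 / 2 * Real.cos x) =
        Real.cos (-x + -y) - (Real.cos (-x) - -y * Real.sin (-x) -
          (-y) ^ 2 / 2 * Real.cos (-x)) := by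
      rw [h2, Real.cos_neg, Real.sin_neg]
      ring
    rw [h3, abs_of_nonpos hy]
    exact le_min h1.1 (h1.2.trans_eq (neg_sq y))

/-- Telescoping. -/
theorem telescope [IsProbabilityMeasure μ] [IsProbabilityMeasure ν] (hP : MOp ν P)
    (h : Path μ ν P ℱ X) {r ρ : S → ℝ} (hr : MemLp r 2 ν) (hrm : Measurable r)
    (hPr : Measurable (P r)) {V C₀ B ε : ℝ} (hV : 0 ≤ V) (hB : 0 ≤ B) (hε : 0 ≤ ε)
    (hC : ∫ x, r x ^ 2 ∂ν - ∫ x, (P r x) ^ 2 ∂ν ≤ C₀)
    (hρ : MemLp ρ 2 ν) (hρB : ∀ᵐ x ∂ν, |r x - ρ x| ≤ B)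
    (hρε : ∫ x, ρ x ^ 2 ∂ν - ∫ x, (P ρ x) ^ 2 ∂ν ≤ ε) (θ α : ℝ) (n : ℕ) :
    |∫ ω, Real.cos (θ * Mart P r X n ω + α) ∂μ - Real.cos α * Real.exp (-(θ ^ 2 * V * n / 2))| ≤
      θ ^ 2 / 2 * |∑ j ∈ Finset.range n, coef θ V n (j + 1) *
        ∫ ω, Real.cos (θ * Mart P r X j ω + α) * (Gam P r (X j ω) - V) ∂μ| +
      n * (B * |θ| ^ 3 * C₀ + 4 * θ ^ 2 * ε) + n * (θ ^ 4 * V ^ 2 / 8) := by
  set M := Mart P r X with hMdef
  set d : ℕ → Ω → ℝ := fun j ω => r (X (j + 1) ω) - P r (X j ω) with hd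
  set dρ : ℕ → Ω → ℝ := fun j ω => ρ (X (j + 1) ω) - P ρ (X j ω) with hdρ
  have hMs : ∀ j ω, M (j + 1) ω = M j ω + d j ω := by
    intro j ω
    simp only [hMdef, Mart, hd]
    rw [Finset.sum_range_succ]
  have hM : ∀ j, StronglyMeasurable[ℱ j] (M j) := fun j =>
    (Path.mart_martingale hP h hr hrm hPr).1 j
  have hcm : ∀ j, StronglyMeasurable[ℱ j] (fun ω => Real.cos (θ * M j ω + α)) := fun j =>
    Real.continuous_cos.comp_stronglyMeasurable (((hM j).const_mul θ).add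
      stronglyMeasurable_const)
  have hsm : ∀ j, StronglyMeasurable[ℱ j] (fun ω => Real.sin (θ * M j ω + α)) := fun j =>
    Real.continuous_sin.comp_stronglyMeasurable (((hM j).const_mul θ).add
      stronglyMeasurable_const)
  have hcb : ∀ j ω, |Real.cos (θ * M j ω + α)| ≤ 1 := fun j ω => Real.abs_cos_le_one _
  have hsb : ∀ j ω, |Real.sin (θ * M j ω + α)| ≤ 1 := fun j ω => Real.abs_sin_le_one _
  have hci : ∀ j, Integrable (fun ω => Real.cos (θ * M j ω + α)) μ := fun j =>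
    Integrable.of_bound ((hcm j).mono (ℱ.le j)).aestronglyMeasurable 1
      (ae_of_all _ fun ω => hcb j ω)
  have hPr2 : MemLp (P r) 2 ν := hP.memLp hr
  have hPρ2 : MemLp (P ρ) 2 ν := hP.memLp hρ
  have hd2 : ∀ j, MemLp (d j) 2 μ := fun j => (h.memLp_comp hr (j + 1)).sub (h.memLp_comp hPr2 j)
  have hdρ2 : ∀ j, MemLp (dρ j) 2 μ := fun j =>
    (h.memLp_comp hρ (j + 1)).sub (h.memLp_comp hPρ2 j)
  have hdi : ∀ j, Integrable (d j) μ := fun j => (hd2 j).integrable one_le_two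
  have hd2i : ∀ j, Integrable (fun ω => d j ω ^ 2) μ := fun j => (hd2 j).integrable_sq
  have hdρ2i : ∀ j, Integrable (fun ω => dρ j ω ^ 2) μ := fun j => (hdρ2 j).integrable_sq
  have hsdi : ∀ j, Integrable (fun ω => Real.sin (θ * M j ω + α) * d j ω) μ := fun j =>
    (hdi j).bdd_mul ((hsm j).mono (ℱ.le j)).aestronglyMeasurable
      (ae_of_all _ fun ω => hsb j ω)
  have hcdi : ∀ j, Integrable (fun ω => Real.cos (θ * M j ω + α) * d j ω ^ 2) μ := fun j =>
    (hd2i j).bdd_mul ((hcm j).mono (ℱ.le j)).aestronglyMeasurable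
      (ae_of_all _ fun ω => hcb j ω)
  have hGi : ∀ j, Integrable (fun ω => Gam P r (X j ω)) μ := fun j =>
    h.integrable_comp (hP.gam_integrable hr) j
  have hcGi : ∀ j, Integrable (fun ω => Real.cos (θ * M j ω + α) * Gam P r (X j ω)) μ :=
    fun j => (hGi j).bdd_mul ((hcm j).mono (ℱ.le j)).aestronglyMeasurable
      (ae_of_all _ fun ω => hcb j ω)
  set Rem : ℕ → Ω → ℝ := fun j ω => Real.cos (θ * M (j + 1) ω + α) -
    (Real.cos (θ * M j ω + α) - θ * (Real.sin (θ * M j ω + α) * d j ω) -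
      θ ^ 2 / 2 * (Real.cos (θ * M j ω + α) * d j ω ^ 2)) with hRem
  have hRb : ∀ j ω, |Rem j ω| ≤ min (|θ * d j ω| ^ 3 / 6) ((θ * d j ω) ^ 2) := by
    intro j ω
    have h1 := cos_taylor (θ * M j ω + α) (θ * d j ω)
    have h2 : Rem j ω = Real.cos (θ * M j ω + α + θ * d j ω) -
        (Real.cos (θ * M j ω + α) - θ * d j ω * Real.sin (θ * M j ω + α) -
          (θ * d j ω) ^ 2 / 2 * Real.cos (θ * M j ω + α)) := by
      simp only [hRem]
      rw [hMs]
      ring_nf
    rw [h2]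
    exact h1
  have hRi : ∀ j, Integrable (Rem j) μ := fun j =>
    (hci (j + 1)).sub (((hci j).sub ((hsdi j).const_mul θ)).sub ((hcdi j).const_mul (θ ^ 2 / 2)))
  have hbd : ∀ j, ∀ᵐ ω ∂μ, |d j ω - dρ j ω| ≤ 2 * B := by
    intro j
    have h1 := h.ae_comp hρB (j + 1)
    have h2 : ∀ᵐ x ∂ν, |P (fun y => r y - ρ y) x| ≤ B :=
      hP.abs_le_of_abs_le ((hr.integrable one_le_two).sub (hρ.integrable one_le_two)) hρB
    have h3 := hP.sub' (hr.integrable one_le_two) (hρ.integrable one_le_two)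
    have h4 := h.ae_comp h2 j
    have h5 := h.ae_comp h3 j
    filter_upwards [h1, h4, h5] with ω h1 h4 h5
    rw [h5] at h4
    have h6 : d j ω - dρ j ω = (r (X (j + 1) ω) - ρ (X (j + 1) ω)) -
        (P r (X j ω) - P ρ (X j ω)) := by
      simp only [hd, hdρ]
      ring
    rw [h6]
    have h7 := abs_sub (r (X (j + 1) ω) - ρ (X (j + 1) ω)) (P r (X j ω) - P ρ (X j ω))
    linarith
  have hRp : ∀ j, ∀ᵐ ω ∂μ, |Rem j ω| ≤ B * |θ| ^ 3 * d j ω ^ 2 + 4 * θ ^ 2 * dρ j ω ^ 2 := by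
    intro j
    filter_upwards [hbd j] with ω hω
    have h1 := hRb j ω
    have h2 : 0 ≤ B * |θ| ^ 3 * d j ω ^ 2 := by positivity
    have h3 : 0 ≤ 4 * θ ^ 2 * dρ j ω ^ 2 := by positivity
    by_cases hc : |d j ω| ≤ 4 * B
    · have h4 : |θ * d j ω| ^ 3 / 6 ≤ B * |θ| ^ 3 * d j ω ^ 2 := by
        rw [abs_mul, mul_pow, ← sq_abs (d j ω)]
        have h5 : |d j ω| ^ 3 ≤ 4 * B * |d j ω| ^ 2 := by
          have := mul_le_mul_of_nonneg_right hc (sq_nonneg (|d j ω|))
          calc |d j ω| ^ 3 = |d j ω| * |d j ω| ^ 2 := by ring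
            _ ≤ 4 * B * |d j ω| ^ 2 := this
        have h6 := mul_le_mul_of_nonneg_left h5 (by positivity : (0:ℝ) ≤ |θ| ^ 3)
        have h7 : 0 ≤ B * |θ| ^ 3 * |d j ω| ^ 2 := by positivity
        nlinarith
      linarith [h1.trans (min_le_left _ _)]
    · push Not at hc
      have h4 : |d j ω| ≤ 2 * |dρ j ω| := by
        have h5 := abs_sub_abs_le_abs_sub (d j ω) (dρ j ω)
        linarith
      have h5 : (θ * d j ω) ^ 2 ≤ 4 * θ ^ 2 * dρ j ω ^ 2 := by
        have h6 : d j ω ^ 2 ≤ 4 * dρ j ω ^ 2 := by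
          rw [← sq_abs (d j ω), ← sq_abs (dρ j ω)]
          have h7 := abs_nonneg (d j ω)
          nlinarith
        rw [mul_pow]
        nlinarith [sq_nonneg θ]
      linarith [h1.trans (min_le_right _ _)]
  have hRE : ∀ j, |∫ ω, Rem j ω ∂μ| ≤ B * |θ| ^ 3 * C₀ + 4 * θ ^ 2 * ε := by
    intro j
    have h1 : |∫ ω, Rem j ω ∂μ| ≤ ∫ ω, |Rem j ω| ∂μ := abs_integral_le_integral_abs
    have h2 : ∫ ω, |Rem j ω| ∂μ ≤
        ∫ ω, (B * |θ| ^ 3 * d j ω ^ 2 + 4 * θ ^ 2 * dρ j ω ^ 2) ∂μ :=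
      integral_mono_ae (hRi j).abs (((hd2i j).const_mul _).add ((hdρ2i j).const_mul _)) (hRp j)
    rw [integral_add ((hd2i j).const_mul _) ((hdρ2i j).const_mul _), integral_const_mul,
      integral_const_mul] at h2
    have h3 : ∫ ω, d j ω ^ 2 ∂μ ≤ C₀ := by
      rw [Path.integral_incr_sq hP h hr j]
      exact hC
    have h4 : ∫ ω, dρ j ω ^ 2 ∂μ ≤ ε := by
      rw [Path.integral_incr_sq hP h hρ j]
      exact hρε
    have h5 := mul_le_mul_of_nonneg_left h3 (by positivity : 0 ≤ B * |θ| ^ 3)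
    have h6 := mul_le_mul_of_nonneg_left h4 (by positivity : 0 ≤ 4 * θ ^ 2)
    linarith
  have hstep : ∀ j, ∫ ω, Real.cos (θ * M (j + 1) ω + α) ∂μ =
      ∫ ω, Real.cos (θ * M j ω + α) ∂μ -
        θ ^ 2 / 2 * (∫ ω, Real.cos (θ * M j ω + α) * (Gam P r (X j ω) - V) ∂μ +
          V * ∫ ω, Real.cos (θ * M j ω + α) ∂μ) + ∫ ω, Rem j ω ∂μ := by
    intro j
    have h1 : ∫ ω, Real.sin (θ * M j ω + α) * d j ω ∂μ = 0 :=
      Path.integral_mul_incr hP h (hsm j) (hsb j) hr
    have h2 : ∫ ω, Real.cos (θ * M j ω + α) * d j ω ^ 2 ∂μ =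
        ∫ ω, Real.cos (θ * M j ω + α) * Gam P r (X j ω) ∂μ :=
      Path.integral_mul_incr_sq hP h (hcm j) (hcb j) hr
    have h3 : ∫ ω, Real.cos (θ * M j ω + α) * (Gam P r (X j ω) - V) ∂μ =
        ∫ ω, Real.cos (θ * M j ω + α) * Gam P r (X j ω) ∂μ -
          V * ∫ ω, Real.cos (θ * M j ω + α) ∂μ := by
      rw [← integral_const_mul, ← integral_sub (hcGi j) ((hci j).const_mul V)]
      congr 1
      ext ω
      ring
    have h4 : ∫ ω, Rem j ω ∂μ = ∫ ω, Real.cos (θ * M (j + 1) ω + α) ∂μ -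
        (∫ ω, Real.cos (θ * M j ω + α) ∂μ - θ * ∫ ω, Real.sin (θ * M j ω + α) * d j ω ∂μ -
          θ ^ 2 / 2 * ∫ ω, Real.cos (θ * M j ω + α) * d j ω ^ 2 ∂μ) := by
      have i1 : Integrable (fun ω => θ * (Real.sin (θ * M j ω + α) * d j ω)) μ :=
        (hsdi j).const_mul θ
      have i2 : Integrable (fun ω => θ ^ 2 / 2 * (Real.cos (θ * M j ω + α) * d j ω ^ 2)) μ :=
        (hcdi j).const_mul (θ ^ 2 / 2)
      have i3 : Integrable (fun ω => Real.cos (θ * M j ω + α) -
        θ * (Real.sin (θ * M j ω + α) * d j ω)) μ := (hci j).sub i1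
      have i4 : Integrable (fun ω => Real.cos (θ * M j ω + α) -
        θ * (Real.sin (θ * M j ω + α) * d j ω) -
        θ ^ 2 / 2 * (Real.cos (θ * M j ω + α) * d j ω ^ 2)) μ := i3.sub i2
      have e1 := integral_sub (hci (j + 1)) i4
      have e2 := integral_sub i3 i2
      have e3 := integral_sub (hci j) i1
      rw [e2, e3, integral_const_mul, integral_const_mul] at e1
      exact e1
    rw [h4, h3, h1, h2]
    ring
  have hE1 : ∀ j, |∫ ω, Real.cos (θ * M j ω + α) ∂μ| ≤ 1 := by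
    intro j
    have h1 : |∫ ω, Real.cos (θ * M j ω + α) ∂μ| ≤ ∫ ω, |Real.cos (θ * M j ω + α)| ∂μ :=
      abs_integral_le_integral_abs
    have h2 : ∫ ω, |Real.cos (θ * M j ω + α)| ∂μ ≤ ∫ _ω, (1:ℝ) ∂μ :=
      integral_mono_ae (hci j).abs (integrable_const _) (ae_of_all _ fun ω => hcb j ω)
    simp only [integral_const, probReal_univ, smul_eq_mul, mul_one] at h2
    exact h1.trans h2
  set y := θ ^ 2 * V / 2 with hy
  have hy0 : 0 ≤ y := by positivity
  have hexp : |1 - y - Real.exp (-y)| ≤ y ^ 2 / 2 := by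
    rw [abs_le]
    constructor
    · have h1 : Real.exp (-y) ≤ 1 - y + y ^ 2 / 2 := by
        have h2 := Real.quadratic_le_exp_of_nonneg hy0
        have h3 : 0 < Real.exp y := Real.exp_pos y
        rw [Real.exp_neg, inv_le_iff_one_le_mul₀ h3]
        nlinarith [mul_nonneg (mul_nonneg hy0 hy0) (mul_nonneg hy0 hy0), sq_nonneg (y - 1)]
      linarith
    · have := Real.add_one_le_exp (-y)
      nlinarith [sq_nonneg y]
  have hcoef : ∀ j, coef θ V n j = coef θ V n (j + 1) * Real.exp (-y) := by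
    intro j
    rw [coef, coef, ← Real.exp_add]
    congr 1
    rw [hy]
    push_cast
    ring
  have hcoef0 : ∀ j, 0 < coef θ V n j := fun j => Real.exp_pos _
  have hcoef1 : ∀ j, j ≤ n → coef θ V n j ≤ 1 := by
    intro j hj
    rw [coef, Real.exp_le_one_iff]
    have : (j : ℝ) ≤ n := by exact_mod_cast hj
    have : 0 ≤ θ ^ 2 * V * ((n : ℝ) - j) / 2 := by
      have h0 : 0 ≤ (n : ℝ) - j := by linarith
      positivity
    linarith
  have htel : ∫ ω, Real.cos (θ * M n ω + α) ∂μ - Real.cos α * Real.exp (-(θ ^ 2 * V * n / 2)) =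
      ∑ j ∈ Finset.range n, (coef θ V n (j + 1) * ∫ ω, Real.cos (θ * M (j + 1) ω + α) ∂μ -
        coef θ V n j * ∫ ω, Real.cos (θ * M j ω + α) ∂μ) := by
    rw [Finset.sum_range_sub (fun j => coef θ V n j * ∫ ω, Real.cos (θ * M j ω + α) ∂μ) n]
    have h1 : coef θ V n n = 1 := by simp [coef]
    have h2 : ∀ ω, M 0 ω = 0 := fun ω => by simp [hMdef, Mart]
    rw [h1, one_mul]
    simp only [h2, mul_zero, zero_add, integral_const, probReal_univ, smul_eq_mul, one_mul]
    rw [coef]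
    simp only [Nat.cast_zero, sub_zero]
    ring
  have hterm : ∀ j, coef θ V n (j + 1) * ∫ ω, Real.cos (θ * M (j + 1) ω + α) ∂μ -
        coef θ V n j * ∫ ω, Real.cos (θ * M j ω + α) ∂μ =
      -(θ ^ 2 / 2) * (coef θ V n (j + 1) *
        ∫ ω, Real.cos (θ * M j ω + α) * (Gam P r (X j ω) - V) ∂μ) +
      coef θ V n (j + 1) * (∫ ω, Rem j ω ∂μ +
        (1 - y - Real.exp (-y)) * ∫ ω, Real.cos (θ * M j ω + α) ∂μ) := by
    intro j
    rw [hstep j, hcoef j, hy]
    ring
  rw [htel, Finset.sum_congr rfl fun j _ => hterm j, Finset.sum_add_distrib, ← Finset.mul_sum]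
  have hA : |-(θ ^ 2 / 2) * ∑ j ∈ Finset.range n, coef θ V n (j + 1) *
        ∫ ω, Real.cos (θ * M j ω + α) * (Gam P r (X j ω) - V) ∂μ| =
      θ ^ 2 / 2 * |∑ j ∈ Finset.range n, coef θ V n (j + 1) *
        ∫ ω, Real.cos (θ * M j ω + α) * (Gam P r (X j ω) - V) ∂μ| := by
    rw [abs_mul, abs_neg, abs_of_nonneg (by positivity : 0 ≤ θ ^ 2 / 2)]
  have hB' : |∑ j ∈ Finset.range n, coef θ V n (j + 1) * (∫ ω, Rem j ω ∂μ +
        (1 - y - Real.exp (-y)) * ∫ ω, Real.cos (θ * M j ω + α) ∂μ)| ≤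
      n * (B * |θ| ^ 3 * C₀ + 4 * θ ^ 2 * ε) + n * (θ ^ 4 * V ^ 2 / 8) := by
    refine (Finset.abs_sum_le_sum_abs _ _).trans ?_
    have h1 : ∀ j ∈ Finset.range n, |coef θ V n (j + 1) * (∫ ω, Rem j ω ∂μ +
        (1 - y - Real.exp (-y)) * ∫ ω, Real.cos (θ * M j ω + α) ∂μ)| ≤
        (B * |θ| ^ 3 * C₀ + 4 * θ ^ 2 * ε) + θ ^ 4 * V ^ 2 / 8 := by
      intro j hj
      have hjn : j + 1 ≤ n := Finset.mem_range.1 hj
      rw [abs_mul, abs_of_pos (hcoef0 _)]
      have h2 : |∫ ω, Rem j ω ∂μ +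
          (1 - y - Real.exp (-y)) * ∫ ω, Real.cos (θ * M j ω + α) ∂μ| ≤
          (B * |θ| ^ 3 * C₀ + 4 * θ ^ 2 * ε) + θ ^ 4 * V ^ 2 / 8 := by
        refine (abs_add_le _ _).trans (add_le_add (hRE j) ?_)
        rw [abs_mul]
        calc |1 - y - Real.exp (-y)| * |∫ ω, Real.cos (θ * M j ω + α) ∂μ|
            ≤ (y ^ 2 / 2) * 1 := mul_le_mul hexp (hE1 j) (abs_nonneg _) (by positivity)
          _ = θ ^ 4 * V ^ 2 / 8 := by rw [hy]; ring
      calc _ ≤ 1 * _ := mul_le_mul_of_nonneg_right (hcoef1 _ hjn) (abs_nonneg _)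
        _ ≤ _ := by rw [one_mul]; exact h2
    refine (Finset.sum_le_sum h1).trans (le_of_eq ?_)
    rw [Finset.sum_const, Finset.card_range, nsmul_eq_mul]
    ring
  refine (abs_add_le _ _).trans ?_
  rw [hA, add_assoc]
  exact add_le_add (le_refl _) hB'

end Pool.NH23.MC
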