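import Pool.Agent.NH23.MC.DomSum
import Pool.Agent.NH23.MC.Tele

set_option autoImplicit false
open MeasureTheory ProbabilityTheory Filter Topology

namespace Pool.NH23.MC

set_option linter.unusedSectionVars false

variable {S : Type} [MeasurableSpace S] {ν : Measure S} {P : (S → ℝ) → (S → ℝ)}
  {Ω : Type} {mΩ : MeasurableSpace Ω} {μ : Measure Ω} {ℱ : Filtration ℕ mΩ} {X : ℕ → Ω → S}

theorem Aver_coef_le_one {θ V : ℝ} (hV : 0 ≤ V) {n j : ℕ} (hj : j ≤ n) : coef θ V n j ≤ 1 := by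
  unfold coef
  rw [Real.exp_le_one_iff]
  have : (j : ℝ) ≤ n := by exact_mod_cast hj
  have h1 : 0 ≤ θ ^ 2 * V * ((n : ℝ) - j) :=
    mul_nonneg (by positivity) (by linarith)
  linarith

theorem Aver_coef_nonneg (θ V : ℝ) (n j : ℕ) : 0 ≤ coef θ V n j := (Real.exp_pos _).le

theorem Aver_coef_diff {θ V : ℝ} (hV : 0 ≤ V) {n m i : ℕ} (hj : m + i ≤ n) :
    |coef θ V n (m + i) - coef θ V n m| ≤ θ ^ 2 * V * i / 2 := by
  unfold coef
  push_cast
  have h0 : (m : ℝ) + i ≤ n := by exact_mod_cast hj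
  obtain ⟨a, ha⟩ : ∃ a, a = θ ^ 2 * V * ((n : ℝ) - (m + i)) / 2 := ⟨_, rfl⟩
  obtain ⟨d, hd⟩ : ∃ d, d = θ ^ 2 * V * (i : ℝ) / 2 := ⟨_, rfl⟩
  have ha0 : 0 ≤ a := by
    rw [ha]
    have : 0 ≤ (n : ℝ) - (m + i) := by linarith
    positivity
  have hd0 : 0 ≤ d := by rw [hd]; positivity
  have hb : θ ^ 2 * V * ((n : ℝ) - m) / 2 = a + d := by rw [ha, hd]; ring
  rw [← ha, hb, ← hd]
  have e1 : Real.exp (-a) - Real.exp (-(a + d)) = Real.exp (-a) * (1 - Real.exp (-d)) := by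
    rw [neg_add, Real.exp_add]; ring
  have h1 : Real.exp (-a) ≤ 1 := by rw [Real.exp_le_one_iff]; linarith
  have h2 : 1 - d ≤ Real.exp (-d) := by have := Real.add_one_le_exp (-d); linarith
  have h3 : 0 ≤ Real.exp (-a) := (Real.exp_pos _).le
  have h4 : Real.exp (-d) ≤ 1 := by rw [Real.exp_le_one_iff]; linarith
  rw [e1, abs_of_nonneg (mul_nonneg h3 (by linarith))]
  calc Real.exp (-a) * (1 - Real.exp (-d)) ≤ 1 * (1 - Real.exp (-d)) :=
        mul_le_mul_of_nonneg_right h1 (by linarith)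
    _ ≤ d := by linarith

/-- the weights -/
noncomputable def AverW (P : (S → ℝ) → (S → ℝ)) (r : S → ℝ) (X : ℕ → Ω → S) (θ V α : ℝ)
    (n j : ℕ) (ω : Ω) : ℝ :=
  coef θ V n (j + 1) * Real.cos (θ * Mart P r X j ω + α)

theorem Aver_abs_le {r : S → ℝ} {θ V α : ℝ} (hV : 0 ≤ V) {n j : ℕ} (hj : j < n) (ω : Ω) :
    |AverW P r X θ V α n j ω| ≤ 1 := by
  unfold AverW
  rw [abs_mul, abs_of_nonneg (Aver_coef_nonneg _ _ _ _)]
  have h1 := Aver_coef_le_one (θ := θ) hV (Nat.succ_le_of_lt hj)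
  have h2 := Real.abs_cos_le_one (θ * Mart P r X j ω + α)
  calc coef θ V n (j + 1) * |Real.cos (θ * Mart P r X j ω + α)| ≤ 1 * 1 :=
        mul_le_mul h1 h2 (abs_nonneg _) zero_le_one
    _ = 1 := one_mul 1

theorem Aver_mart_shift (P : (S → ℝ) → (S → ℝ)) (r : S → ℝ) (X : ℕ → Ω → S) (m i : ℕ) (ω : Ω) :
    Mart P r (fun k => X (m + k)) i ω = Mart P r X (m + i) ω - Mart P r X m ω := by
  unfold Mart
  rw [Finset.sum_range_add]
  simp [add_assoc]

theorem Aver_diff {r : S → ℝ} {θ V α : ℝ} (hV : 0 ≤ V) {n m i : ℕ} (hj : m + i < n) (ω : Ω) :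
    |AverW P r X θ V α n (m + i) ω - AverW P r X θ V α n m ω| ≤
      runMax P r (fun k => X (m + k)) θ i ω + θ ^ 2 * V * i / 2 := by
  have h1 : |coef θ V n (m + i + 1) - coef θ V n (m + 1)| ≤ θ ^ 2 * V * i / 2 := by
    have := Aver_coef_diff (θ := θ) hV (n := n) (m := m + 1) (i := i) (by omega)
    rwa [show m + 1 + i = m + i + 1 by ring] at this
  have h2 : |Real.cos (θ * Mart P r X (m + i) ω + α) - Real.cos (θ * Mart P r X m ω + α)| ≤
      runMax P r (fun k => X (m + k)) θ i ω := by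
    unfold runMax
    refine le_min ?_ ?_
    · have a1 := Real.abs_cos_le_one (θ * Mart P r X (m + i) ω + α)
      have a2 := Real.abs_cos_le_one (θ * Mart P r X m ω + α)
      rw [abs_le] at *
      constructor <;> linarith [a1.1, a1.2, a2.1, a2.2]
    · have a1 : |Real.cos (θ * Mart P r X (m + i) ω + α) - Real.cos (θ * Mart P r X m ω + α)| ≤
          |θ| * |Mart P r (fun k => X (m + k)) i ω| := by
        rw [Aver_mart_shift, ← abs_mul]
        have := Real.abs_cos_sub_cos_le (θ * Mart P r X (m + i) ω + α) (θ * Mart P r X m ω + α)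
        refine this.trans (le_of_eq ?_)
        congr 1; ring
      refine a1.trans (mul_le_mul_of_nonneg_left ?_ (abs_nonneg _))
      exact Finset.le_sup' (fun k => |Mart P r (fun k => X (m + k)) k ω|)
        (Finset.mem_range.2 (Nat.lt_succ_self i))
  have h3 : AverW P r X θ V α n (m + i) ω - AverW P r X θ V α n m ω =
      coef θ V n (m + i + 1) * (Real.cos (θ * Mart P r X (m + i) ω + α) -
        Real.cos (θ * Mart P r X m ω + α)) +
      (coef θ V n (m + i + 1) - coef θ V n (m + 1)) * Real.cos (θ * Mart P r X m ω + α) := by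
    unfold AverW; ring
  rw [h3]
  refine (abs_add_le _ _).trans (add_le_add ?_ ?_)
  · rw [abs_mul, abs_of_nonneg (Aver_coef_nonneg _ _ _ _)]
    calc _ ≤ 1 * _ := mul_le_mul_of_nonneg_right
          (Aver_coef_le_one hV (by omega)) (abs_nonneg _)
      _ ≤ _ := by rw [one_mul]; exact h2
  · rw [abs_mul]
    calc _ ≤ θ ^ 2 * V * i / 2 * 1 := mul_le_mul h1 (Real.abs_cos_le_one _) (abs_nonneg _)
          (by positivity)
      _ = _ := mul_one _

theorem Aver_runMax_nonneg (P : (S → ℝ) → (S → ℝ)) (r : S → ℝ) (X : ℕ → Ω → S) (θ : ℝ) (i : ℕ)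
    (ω : Ω) : 0 ≤ runMax P r X θ i ω := by
  unfold runMax
  refine le_min zero_le_two (mul_nonneg (abs_nonneg _) ?_)
  exact (abs_nonneg _).trans (Finset.le_sup' (fun k => |Mart P r X k ω|)
    (Finset.mem_range.2 (Nat.lt_succ_self i)))

theorem Aver_runMax_le_two (P : (S → ℝ) → (S → ℝ)) (r : S → ℝ) (X : ℕ → Ω → S) (θ : ℝ) (i : ℕ)
    (ω : Ω) : runMax P r X θ i ω ≤ 2 := min_le_left _ _

theorem Aver_runMax_mono (P : (S → ℝ) → (S → ℝ)) (r : S → ℝ) (X : ℕ → Ω → S) (θ : ℝ) (i : ℕ)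
    (ω : Ω) : runMax P r X θ i ω ≤ runMax P r X θ (i + 1) ω := by
  unfold runMax
  refine min_le_min le_rfl (mul_le_mul_of_nonneg_left ?_ (abs_nonneg _))
  refine Finset.sup'_mono _ ?_ _
  intro k hk
  rw [Finset.mem_range] at *
  omega

theorem Aver_mart_meas [IsProbabilityMeasure μ] [IsProbabilityMeasure ν] (hP : MOp ν P)
    (h : Path μ ν P ℱ X) {r : S → ℝ} (hr : MemLp r 2 ν) (hrm : Measurable r)
    (hPr : Measurable (P r)) {k i : ℕ} (hk : k ≤ i) : Measurable[ℱ i] (Mart P r X k) :=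
  (((h.mart_martingale hP hr hrm hPr).1 k).mono (ℱ.mono hk)).measurable

theorem Aver_runMax_meas [IsProbabilityMeasure μ] [IsProbabilityMeasure ν] (hP : MOp ν P)
    (h : Path μ ν P ℱ X) {r : S → ℝ} (hr : MemLp r 2 ν) (hrm : Measurable r)
    (hPr : Measurable (P r)) (θ : ℝ) (i : ℕ) : StronglyMeasurable[ℱ i] (runMax P r X θ i) := by
  have h1 : Measurable[ℱ i] (fun ω => (Finset.range (i + 1)).sup' Finset.nonempty_range_add_one
      (fun k => |Mart P r X k ω|)) := by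
    refine @Finset.measurable_range_sup'' ℝ _ Ω (ℱ i) _ _ (fun k ω => |Mart P r X k ω|) i
      (fun k hk => ?_)
    exact continuous_abs.measurable.comp (Aver_mart_meas hP h hr hrm hPr hk)
  have h2 : Measurable[ℱ i] (runMax P r X θ i) := by
    unfold runMax
    exact measurable_const.min (measurable_const.mul h1)
  exact h2.stronglyMeasurable

theorem Aver_W_meas [IsProbabilityMeasure μ] [IsProbabilityMeasure ν] (hP : MOp ν P)
    (h : Path μ ν P ℱ X) {r : S → ℝ} (hr : MemLp r 2 ν) (hrm : Measurable r)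
    (hPr : Measurable (P r)) (θ V α : ℝ) (n : ℕ) {j i : ℕ} (hj : j ≤ i) :
    StronglyMeasurable[ℱ i] (AverW P r X θ V α n j) := by
  have h1 := Aver_mart_meas hP h hr hrm hPr hj
  have h2 : Measurable[ℱ i] (AverW P r X θ V α n j) := by
    unfold AverW
    exact measurable_const.mul (Real.measurable_cos.comp ((measurable_const.mul h1).add
      measurable_const))
  exact h2.stronglyMeasurable


theorem Aver_integrable_mul (h : Path μ ν P ℱ X) {W : Ω → ℝ} (hW : AEStronglyMeasurable W μ)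
    {c : ℝ} (hW1 : ∀ ω, |W ω| ≤ c) {g : S → ℝ} (hg : Integrable g ν) (j : ℕ) :
    Integrable (fun ω => W ω * g (X j ω)) μ :=
  (h.integrable_comp hg j).bdd_mul (c := c) hW (Filter.Eventually.of_forall hW1)

theorem Aver_abs_integral_le (h : Path μ ν P ℱ X) {W : Ω → ℝ} (hW : AEStronglyMeasurable W μ)
    (hW1 : ∀ ω, |W ω| ≤ 1) {g : S → ℝ} (hg : Integrable g ν) (j : ℕ) :
    |∫ ω, W ω * g (X j ω) ∂μ| ≤ ∫ x, |g x| ∂ν := by
  rw [← h.integral_comp (g := fun x => |g x|) hg.abs.aestronglyMeasurable j]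
  refine (abs_integral_le_integral_abs).trans ?_
  refine integral_mono (Aver_integrable_mul h hW hW1 hg j).abs (h.integrable_comp hg.abs j) ?_
  intro ω
  simp only []
  rw [abs_mul]
  calc |W ω| * |g (X j ω)| ≤ 1 * |g (X j ω)| := mul_le_mul_of_nonneg_right (hW1 ω) (abs_nonneg _)
    _ = _ := one_mul _

theorem Aver_iter [IsProbabilityMeasure μ] [IsProbabilityMeasure ν] (hP : MOp ν P)
    (h : Path μ ν P ℱ X) {q : ℝ} {g z : S → ℝ} (hg : Integrable g ν) (hz : Integrable z ν)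
    (hze : ∀ᵐ x ∂ν, z x = (1 - q) * g x + q * P z x) {m : ℕ} {W : Ω → ℝ}
    (hW : StronglyMeasurable[ℱ m] W) (hW1 : ∀ ω, |W ω| ≤ 1) (N : ℕ) :
    ∫ ω, W ω * z (X m ω) ∂μ =
      (1 - q) * ∑ i ∈ Finset.range N, q ^ i * ∫ ω, W ω * g (X (m + i) ω) ∂μ
      + q ^ N * ∫ ω, W ω * z (X (m + N) ω) ∂μ := by
  have hWa : AEStronglyMeasurable W μ := (hW.mono (ℱ.le m)).aestronglyMeasurable
  induction N with
  | zero => simp
  | succ N ih =>
    rw [ih, Finset.sum_range_succ]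
    have h1 : ∫ ω, W ω * z (X (m + N) ω) ∂μ = (1 - q) * ∫ ω, W ω * g (X (m + N) ω) ∂μ +
        q * ∫ ω, W ω * z (X (m + (N + 1)) ω) ∂μ := by
      have h2 := h.integral_mul hP (hW.mono (ℱ.mono (Nat.le_add_right m N))) hW1 hz
      rw [← add_assoc, h2, ← integral_const_mul, ← integral_const_mul, ← integral_add]
      · refine integral_congr_ae ?_
        filter_upwards [h.ae_comp hze (m + N)] with ω hω
        rw [hω]; ring
      · exact (Aver_integrable_mul h hWa hW1 hg _).const_mul _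
      · exact (Aver_integrable_mul h hWa hW1 (hP.integrable z hz) _).const_mul _
    rw [h1]
    ring

theorem Aver_reindex (q : ℝ) (a : ℕ → ℝ) (n : ℕ) :
    ∑ m ∈ Finset.range n, ∑ i ∈ Finset.range (n - m), q ^ i * a (m + i) =
      ∑ j ∈ Finset.range n, (∑ i ∈ Finset.range (j + 1), q ^ i) * a j := by
  induction n with
  | zero => simp
  | succ n ih =>
    rw [Finset.sum_range_succ _ n, Finset.sum_range_succ _ n]
    have h1 : ∑ m ∈ Finset.range n, ∑ i ∈ Finset.range (n + 1 - m), q ^ i * a (m + i) =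
        ∑ m ∈ Finset.range n, (∑ i ∈ Finset.range (n - m), q ^ i * a (m + i) +
          q ^ (n - m) * a n) := by
      refine Finset.sum_congr rfl (fun m hm => ?_)
      rw [Finset.mem_range] at hm
      rw [show n + 1 - m = (n - m) + 1 by omega, Finset.sum_range_succ,
        show m + (n - m) = n by omega]
    have h2 : ∑ i ∈ Finset.range (n + 1), q ^ i = ∑ i ∈ Finset.range n, q ^ (n - i) + 1 := by
      rw [← Finset.sum_range_reflect (fun i => q ^ i) (n + 1), Finset.sum_range_succ]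
      simp
    rw [h1, Finset.sum_add_distrib, ih, h2, ← Finset.sum_mul, show n + 1 - n = 1 by omega,
      Finset.sum_range_one, pow_zero, add_zero]
    ring

theorem Aver_sum_pow {q : ℝ} (hq0 : 0 ≤ q) (N : ℕ) :
    (1 - q) * ∑ i ∈ Finset.range N, q ^ i ≤ 1 := by
  rw [mul_neg_geom_sum]
  have := pow_nonneg hq0 N
  linarith

theorem Aver_sum_pow_mul {q : ℝ} (hq0 : 0 ≤ q) (hq1 : q < 1) (N : ℕ) :
    (1 - q) * ∑ i ∈ Finset.range N, q ^ i * (i : ℝ) ≤ 1 / (1 - q) := by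
  have hl : 0 < 1 - q := by linarith
  have h1 : (1 - q) * ∑ i ∈ Finset.range N, q ^ i * (i : ℝ) + q ^ N * N ≤
      ∑ i ∈ Finset.range N, q ^ i := by
    induction N with
    | zero => simp
    | succ N ih =>
      rw [Finset.sum_range_succ, Finset.sum_range_succ (fun i => q ^ i)]
      have e : (1 - q) * (∑ x ∈ Finset.range N, q ^ x * (x : ℝ) + q ^ N * (N : ℝ)) +
          q ^ (N + 1) * ((N + 1 : ℕ) : ℝ) =
          ((1 - q) * ∑ x ∈ Finset.range N, q ^ x * (x : ℝ) + q ^ N * (N : ℝ)) + q ^ (N + 1) := by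
        push_cast; ring
      rw [e]
      have : q ^ (N + 1) ≤ q ^ N := pow_le_pow_of_le_one hq0 hq1.le (Nat.le_succ N)
      linarith
  have h2 := Aver_sum_pow hq0 N
  have h3 : 0 ≤ q ^ N * (N : ℝ) := by positivity
  rw [le_div_iff₀ hl]
  have h4 : (1 - q) * ∑ i ∈ Finset.range N, q ^ i * (i : ℝ) ≤ ∑ i ∈ Finset.range N, q ^ i := by
    linarith
  nlinarith


theorem Aver_third [IsProbabilityMeasure μ] [IsProbabilityMeasure ν] (hP : MOp ν P)
    (h : Path μ ν P ℱ X) {q : ℝ} (hq0 : 0 ≤ q) (hq1 : q < 1)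
    {r : S → ℝ} (hr : MemLp r 2 ν) (hrm : Measurable r) (hPr : Measurable (P r))
    {V C₀ C ε κ : ℝ} (hV : 0 ≤ V) (hκ : 0 < κ) (hCn : 0 ≤ C)
    (hC : ∫ x, r x ^ 2 ∂ν - ∫ x, (P r x) ^ 2 ∂ν ≤ C₀)
    {ψ D : S → ℝ} (hψ : Integrable ψ ν) (hD : Integrable D ν) (hψ0 : ∀ᵐ x ∂ν, 0 ≤ ψ x)
    (hD0 : ∀ᵐ x ∂ν, 0 ≤ D x) (hψε : ∫ x, ψ x ∂ν ≤ ε)
    (hDe : ∀ᵐ x ∂ν, D x = C + ψ x - Gam P r x + q * P D x)
    (θ α : ℝ) {n m : ℕ} (hm : m < n) :
    |(1 - q) * ∑ i ∈ Finset.range (n - m), q ^ i *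
      ∫ ω, (AverW P r X θ V α n (m + i) ω - AverW P r X θ V α n m ω) *
        (Gam P r (X (m + i) ω) - V) ∂μ| ≤
      (C + V) * (2 * κ + C₀ * θ ^ 2 / κ ^ 3 / (1 - q)) + 2 * ε +
        θ ^ 2 * V * (C₀ + V) / (1 - q) / 2 := by
  have hl : 0 < 1 - q := by linarith
  have hG : Integrable (Gam P r) ν := hP.gam_integrable hr
  have hG0 := hP.gam_nonneg hr
  have hGi : ∫ x, Gam P r x ∂ν ≤ C₀ := by rw [hP.integral_gam hr]; exact hC
  have hC00 : 0 ≤ C₀ := (integral_nonneg_of_ae hG0).trans hGi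
  obtain ⟨b, hb⟩ : ∃ b, b = C₀ * θ ^ 2 / κ ^ 3 := ⟨_, rfl⟩
  have hb0 : 0 ≤ b := by rw [hb]; positivity
  set Y : ℕ → Ω → ℝ := runMax P r (fun k => X (m + k)) θ with hYdef
  have hYm : ∀ i, StronglyMeasurable[Path.shiftF ℱ m i] (Y i) := fun i =>
    Aver_runMax_meas hP (h.shift m) hr hrm hPr θ i
  have hEY : ∀ i : ℕ, ∫ ω, Y i ω ∂μ ≤ 2 * κ + b * i := fun i => by
    rw [hb]; exact integral_runMax_le hP (h.shift m) hr hrm hPr hC θ hκ i
  have hdom := dom_sum hP (h.shift m) hq0 hq1 hCn hψ hD hG hψ0 hD0 hG0 hDe hYm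
    (fun i ω => Aver_runMax_nonneg P r _ θ i ω) (fun i ω => Aver_runMax_le_two P r _ θ i ω)
    (fun i ω => Aver_runMax_mono P r _ θ i ω) (by positivity) hb0 hEY (n - m)
  have hYae : ∀ i, AEStronglyMeasurable (Y i) μ := fun i =>
    ((hYm i).mono ((Path.shiftF ℱ m).le i)).aestronglyMeasurable
  have hYabs : ∀ i ω, |Y i ω| ≤ 2 := fun i ω => by
    rw [abs_of_nonneg (Aver_runMax_nonneg P r _ θ i ω)]
    exact Aver_runMax_le_two P r _ θ i ω
  have hYint : ∀ i, Integrable (Y i) μ := fun i =>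
    Integrable.of_bound (hYae i) 2 (Filter.Eventually.of_forall (hYabs i))
  have hterm : ∀ i ∈ Finset.range (n - m),
      |∫ ω, (AverW P r X θ V α n (m + i) ω - AverW P r X θ V α n m ω) *
        (Gam P r (X (m + i) ω) - V) ∂μ| ≤
      ∫ ω, Y i ω * Gam P r (X (m + i) ω) ∂μ + V * (2 * κ + b * i) +
        (θ ^ 2 * V * (C₀ + V) / 2) * i := by
    intro i hi
    rw [Finset.mem_range] at hi
    have hGX : Integrable (fun ω => Gam P r (X (m + i) ω)) μ := h.integrable_comp hG (m + i)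
    have hYG : Integrable (fun ω => Y i ω * Gam P r (X (m + i) ω)) μ :=
      Aver_integrable_mul h (hYae i) (hYabs i) hG (m + i)
    have hint2 : Integrable (fun ω => Y i ω * Gam P r (X (m + i) ω) + V * Y i ω +
        (θ ^ 2 * V * i / 2) * (Gam P r (X (m + i) ω) + V)) μ :=
      (hYG.add ((hYint i).const_mul V)).add ((hGX.add (integrable_const V)).const_mul _)
    have hGX0 : ∀ᵐ ω ∂μ, 0 ≤ Gam P r (X (m + i) ω) := h.ae_comp hG0 (m + i)
    have s1 : |∫ ω, (AverW P r X θ V α n (m + i) ω - AverW P r X θ V α n m ω) *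
        (Gam P r (X (m + i) ω) - V) ∂μ| ≤
        ∫ ω, (Y i ω * Gam P r (X (m + i) ω) + V * Y i ω +
        (θ ^ 2 * V * i / 2) * (Gam P r (X (m + i) ω) + V)) ∂μ := by
      refine (abs_integral_le_integral_abs).trans ?_
      refine integral_mono_of_nonneg (Filter.Eventually.of_forall (fun ω => abs_nonneg _))
        hint2 ?_
      filter_upwards [hGX0] with ω hω
      rw [abs_mul]
      have a1 := Aver_diff (P := P) (r := r) (X := X) (θ := θ) (α := α) hV (n := n) (m := m)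
        (i := i) (by omega) ω
      have a2 : |Gam P r (X (m + i) ω) - V| ≤ Gam P r (X (m + i) ω) + V := by
        rw [abs_le]; constructor <;> linarith
      have a3 : 0 ≤ Y i ω + θ ^ 2 * V * i / 2 := (abs_nonneg _).trans a1
      calc _ ≤ (Y i ω + θ ^ 2 * V * i / 2) * (Gam P r (X (m + i) ω) + V) :=
            mul_le_mul a1 a2 (abs_nonneg _) a3
        _ = _ := by ring
    refine s1.trans ?_
    have j1 : Integrable (fun ω => V * Y i ω) μ := (hYint i).const_mul V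
    have j2 : Integrable (fun ω => Gam P r (X (m + i) ω) + V) μ := hGX.add (integrable_const V)
    have j3 : Integrable (fun ω => (θ ^ 2 * V * i / 2) * (Gam P r (X (m + i) ω) + V)) μ :=
      j2.const_mul _
    have j4 : Integrable (fun ω => Y i ω * Gam P r (X (m + i) ω) + V * Y i ω) μ := hYG.add j1
    rw [integral_add j4 j3, integral_add hYG j1,
      integral_const_mul, integral_const_mul, integral_add hGX (integrable_const V),
      h.integral_comp hG.aestronglyMeasurable]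
    simp only [integral_const, probReal_univ, smul_eq_mul, one_mul]
    have t1 : V * ∫ ω, Y i ω ∂μ ≤ V * (2 * κ + b * i) := mul_le_mul_of_nonneg_left (hEY i) hV
    have t2 : θ ^ 2 * V * i / 2 * (∫ x, Gam P r x ∂ν + V) ≤ θ ^ 2 * V * i / 2 * (C₀ + V) :=
      mul_le_mul_of_nonneg_left (by linarith) (by positivity)
    linarith
  have hsum : |∑ i ∈ Finset.range (n - m), q ^ i *
      ∫ ω, (AverW P r X θ V α n (m + i) ω - AverW P r X θ V α n m ω) *
        (Gam P r (X (m + i) ω) - V) ∂μ| ≤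
      ∑ i ∈ Finset.range (n - m), q ^ i * ∫ ω, Y i ω * Gam P r (X (m + i) ω) ∂μ +
      (2 * κ * V) * ∑ i ∈ Finset.range (n - m), q ^ i +
      (V * b + θ ^ 2 * V * (C₀ + V) / 2) * ∑ i ∈ Finset.range (n - m), q ^ i * (i : ℝ) := by
    refine (Finset.abs_sum_le_sum_abs _ _).trans ?_
    rw [Finset.mul_sum, Finset.mul_sum, ← Finset.sum_add_distrib, ← Finset.sum_add_distrib]
    refine Finset.sum_le_sum (fun i hi => ?_)
    rw [abs_mul, abs_of_nonneg (pow_nonneg hq0 i)]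
    calc _ ≤ q ^ i * _ := mul_le_mul_of_nonneg_left (hterm i hi) (pow_nonneg hq0 i)
      _ = _ := by ring
  rw [abs_mul, abs_of_pos hl]
  have g1 := Aver_sum_pow hq0 (n - m)
  have g2 := Aver_sum_pow_mul hq0 hq1 (n - m)
  have g3 : (1 - q) * ∑ i ∈ Finset.range (n - m), q ^ i * ∫ ω, Y i ω * Gam P r (X (m + i) ω) ∂μ ≤
      C * (2 * κ + b / (1 - q)) + 2 * ε := by
    calc _ ≤ (1 - q) * (C * (2 * κ / (1 - q) + b / (1 - q) ^ 2) + 2 * (∫ x, ψ x ∂ν) / (1 - q)) :=
          mul_le_mul_of_nonneg_left hdom hl.le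
      _ = C * (2 * κ + b / (1 - q)) + 2 * ∫ x, ψ x ∂ν := by field_simp
      _ ≤ _ := by linarith
  have g4 : (1 - q) * ((2 * κ * V) * ∑ i ∈ Finset.range (n - m), q ^ i) ≤ 2 * κ * V := by
    calc _ = (2 * κ * V) * ((1 - q) * ∑ i ∈ Finset.range (n - m), q ^ i) := by ring
      _ ≤ (2 * κ * V) * 1 := mul_le_mul_of_nonneg_left g1 (by positivity)
      _ = _ := mul_one _
  have g5 : (1 - q) * ((V * b + θ ^ 2 * V * (C₀ + V) / 2) *
      ∑ i ∈ Finset.range (n - m), q ^ i * (i : ℝ)) ≤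
      (V * b + θ ^ 2 * V * (C₀ + V) / 2) * (1 / (1 - q)) := by
    calc _ = (V * b + θ ^ 2 * V * (C₀ + V) / 2) *
          ((1 - q) * ∑ i ∈ Finset.range (n - m), q ^ i * (i : ℝ)) := by ring
      _ ≤ _ := mul_le_mul_of_nonneg_left g2 (by positivity)
  calc _ ≤ (1 - q) * _ := mul_le_mul_of_nonneg_left hsum hl.le
    _ = (1 - q) * ∑ i ∈ Finset.range (n - m), q ^ i * ∫ ω, Y i ω * Gam P r (X (m + i) ω) ∂μ +
      (1 - q) * ((2 * κ * V) * ∑ i ∈ Finset.range (n - m), q ^ i) +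
      (1 - q) * ((V * b + θ ^ 2 * V * (C₀ + V) / 2) *
        ∑ i ∈ Finset.range (n - m), q ^ i * (i : ℝ)) := by ring
    _ ≤ (C * (2 * κ + b / (1 - q)) + 2 * ε) + 2 * κ * V +
      (V * b + θ ^ 2 * V * (C₀ + V) / 2) * (1 / (1 - q)) := by linarith
    _ = _ := by rw [← hb]; ring

/-- Averaging. -/
theorem averaging [IsProbabilityMeasure μ] [IsProbabilityMeasure ν] (hP : MOp ν P)
    (h : Path μ ν P ℱ X) {q : ℝ} (hq0 : 0 ≤ q) (hq1 : q < 1)
    {r : S → ℝ} (hr : MemLp r 2 ν) (hrm : Measurable r) (hPr : Measurable (P r))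
    {V C₀ C ε κ : ℝ} (hV : 0 ≤ V) (hκ : 0 < κ) (hCn : 0 ≤ C)
    (hC : ∫ x, r x ^ 2 ∂ν - ∫ x, (P r x) ^ 2 ∂ν ≤ C₀)
    {ψ D z : S → ℝ} (hψ : Integrable ψ ν) (hD : Integrable D ν) (hψ0 : ∀ᵐ x ∂ν, 0 ≤ ψ x)
    (hD0 : ∀ᵐ x ∂ν, 0 ≤ D x) (hψε : ∫ x, ψ x ∂ν ≤ ε)
    (hDe : ∀ᵐ x ∂ν, D x = C + ψ x - Gam P r x + q * P D x)
    (hz : Integrable z ν) (hzε : ∫ x, |z x| ∂ν ≤ ε)
    (hze : ∀ᵐ x ∂ν, z x = (1 - q) * (Gam P r x - V) + q * P z x) (θ α : ℝ) (n : ℕ) :
    |∑ j ∈ Finset.range n, coef θ V n (j + 1) *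
        ∫ ω, Real.cos (θ * Mart P r X j ω + α) * (Gam P r (X j ω) - V) ∂μ| ≤
      (C₀ + V) / (1 - q) + 2 * n * ε +
        n * ((C + V) * (2 * κ + C₀ * θ ^ 2 / κ ^ 3 / (1 - q)) + 2 * ε) +
        n * (θ ^ 2 * V * (C₀ + V) / (1 - q) / 2) := by
  have hl : 0 < 1 - q := by linarith
  have hG : Integrable (Gam P r) ν := hP.gam_integrable hr
  have hG0 := hP.gam_nonneg hr
  have hGi : ∫ x, Gam P r x ∂ν ≤ C₀ := by rw [hP.integral_gam hr]; exact hC
  have hC00 : 0 ≤ C₀ := (integral_nonneg_of_ae hG0).trans hGi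
  have hg : Integrable (fun x => Gam P r x - V) ν := hG.sub (integrable_const V)
  have hgabs : ∫ x, |Gam P r x - V| ∂ν ≤ C₀ + V := by
    calc ∫ x, |Gam P r x - V| ∂ν ≤ ∫ x, (Gam P r x + V) ∂ν := by
          refine integral_mono_ae hg.abs (hG.add (integrable_const V)) ?_
          filter_upwards [hG0] with x hx
          rw [abs_le]; constructor <;> linarith
      _ = ∫ x, Gam P r x ∂ν + V := by
          rw [integral_add hG (integrable_const V)]; simp
      _ ≤ _ := by linarith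
  -- rewrite with the weights
  have e1 : ∑ j ∈ Finset.range n, coef θ V n (j + 1) *
        ∫ ω, Real.cos (θ * Mart P r X j ω + α) * (Gam P r (X j ω) - V) ∂μ =
      ∑ j ∈ Finset.range n, ∫ ω, AverW P r X θ V α n j ω * (Gam P r (X j ω) - V) ∂μ := by
    refine Finset.sum_congr rfl (fun j _ => ?_)
    rw [← integral_const_mul]
    refine integral_congr_ae (Filter.Eventually.of_forall (fun ω => ?_))
    simp only [AverW]; ring
  rw [e1]
  set A : ℕ → ℝ := fun j => ∫ ω, AverW P r X θ V α n j ω * (Gam P r (X j ω) - V) ∂μ with hA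
  have hWae : ∀ j, AEStronglyMeasurable (AverW P r X θ V α n j) μ := fun j =>
    ((Aver_W_meas hP h hr hrm hPr θ V α n (le_refl j)).mono (ℱ.le j)).aestronglyMeasurable
  have hWabs : ∀ j, j < n → ∀ ω, |AverW P r X θ V α n j ω| ≤ 1 := fun j hj ω =>
    Aver_abs_le hV hj ω
  have hAabs : ∀ j, j < n → |A j| ≤ C₀ + V := fun j hj =>
    (Aver_abs_integral_le h (hWae j) (hWabs j hj) hg j).trans hgabs
  -- decomposition
  have hr1 := Aver_reindex q A n
  have e2 : ∑ j ∈ Finset.range n, A j = ∑ j ∈ Finset.range n, q ^ (j + 1) * A j +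
      (1 - q) * ∑ m ∈ Finset.range n, ∑ i ∈ Finset.range (n - m), q ^ i * A (m + i) := by
    rw [hr1, Finset.mul_sum, ← Finset.sum_add_distrib]
    refine Finset.sum_congr rfl (fun j _ => ?_)
    rw [← mul_assoc, mul_neg_geom_sum]; ring
  have e3 : ∀ m ∈ Finset.range n, (1 - q) * ∑ i ∈ Finset.range (n - m), q ^ i * A (m + i) =
      (1 - q) * ∑ i ∈ Finset.range (n - m), q ^ i *
        ∫ ω, AverW P r X θ V α n m ω * (Gam P r (X (m + i) ω) - V) ∂μ +
      (1 - q) * ∑ i ∈ Finset.range (n - m), q ^ i *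
        ∫ ω, (AverW P r X θ V α n (m + i) ω - AverW P r X θ V α n m ω) *
        (Gam P r (X (m + i) ω) - V) ∂μ := by
    intro m hm
    rw [Finset.mem_range] at hm
    rw [← mul_add, ← Finset.sum_add_distrib]
    congr 1
    refine Finset.sum_congr rfl (fun i hi => ?_)
    rw [Finset.mem_range] at hi
    rw [← mul_add]
    congr 1
    have i1 : Integrable (fun ω => AverW P r X θ V α n (m + i) ω * (Gam P r (X (m + i) ω) - V)) μ :=
      Aver_integrable_mul h (hWae (m + i)) (hWabs (m + i) (by omega)) hg (m + i)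
    have i2 : Integrable (fun ω => AverW P r X θ V α n m ω * (Gam P r (X (m + i) ω) - V)) μ :=
      Aver_integrable_mul h (hWae m) (hWabs m hm) hg (m + i)
    rw [← integral_add i2]
    · refine integral_congr_ae (Filter.Eventually.of_forall (fun ω => ?_))
      simp only []; ring
    · refine (i1.sub i2).congr (Filter.Eventually.of_forall (fun ω => ?_))
      simp only [Pi.sub_apply]; ring
  have b1 : |∑ j ∈ Finset.range n, q ^ (j + 1) * A j| ≤ (C₀ + V) / (1 - q) := by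
    calc _ ≤ ∑ j ∈ Finset.range n, |q ^ (j + 1) * A j| := Finset.abs_sum_le_sum_abs _ _
      _ ≤ ∑ j ∈ Finset.range n, q ^ j * (C₀ + V) := by
          refine Finset.sum_le_sum (fun j hj => ?_)
          rw [Finset.mem_range] at hj
          rw [abs_mul, abs_of_nonneg (pow_nonneg hq0 _)]
          exact mul_le_mul (pow_le_pow_of_le_one hq0 hq1.le (Nat.le_succ j)) (hAabs j hj)
            (abs_nonneg _) (pow_nonneg hq0 _)
      _ = (C₀ + V) * ∑ j ∈ Finset.range n, q ^ j := by rw [← Finset.sum_mul]; ring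
      _ ≤ (C₀ + V) * (1 / (1 - q)) := by
          refine mul_le_mul_of_nonneg_left ?_ (by linarith)
          rw [le_div_iff₀ hl]
          have := Aver_sum_pow hq0 n
          linarith
      _ = _ := by ring
  have b2 : ∀ m ∈ Finset.range n, |(1 - q) * ∑ i ∈ Finset.range (n - m), q ^ i *
        ∫ ω, AverW P r X θ V α n m ω * (Gam P r (X (m + i) ω) - V) ∂μ| ≤ 2 * ε := by
    intro m hm
    rw [Finset.mem_range] at hm
    have t := Aver_iter hP h (g := fun x => Gam P r x - V) hg hz hze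
      (Aver_W_meas hP h hr hrm hPr θ V α n (le_refl m)) (hWabs m hm) (n - m)
    have t1 := (Aver_abs_integral_le h (hWae m) (hWabs m hm) hz m).trans hzε
    have t2 := (Aver_abs_integral_le h (hWae m) (hWabs m hm) hz (m + (n - m))).trans hzε
    have t3 : (1 - q) * ∑ i ∈ Finset.range (n - m), q ^ i *
        ∫ ω, AverW P r X θ V α n m ω * (Gam P r (X (m + i) ω) - V) ∂μ =
        ∫ ω, AverW P r X θ V α n m ω * z (X m ω) ∂μ -
        q ^ (n - m) * ∫ ω, AverW P r X θ V α n m ω * z (X (m + (n - m)) ω) ∂μ := by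
      linarith
    rw [t3]
    refine (abs_sub _ _).trans ?_
    rw [abs_mul, abs_of_nonneg (pow_nonneg hq0 _)]
    have t4 : q ^ (n - m) * |∫ ω, AverW P r X θ V α n m ω * z (X (m + (n - m)) ω) ∂μ| ≤ 1 * ε :=
      mul_le_mul (pow_le_one₀ hq0 hq1.le) t2 (abs_nonneg _) zero_le_one
    linarith
  rw [e2, Finset.mul_sum, Finset.sum_congr rfl e3, Finset.sum_add_distrib]
  refine (abs_add_le _ _).trans ?_
  have b3 : |∑ m ∈ Finset.range n, (1 - q) * ∑ i ∈ Finset.range (n - m), q ^ i *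
        ∫ ω, AverW P r X θ V α n m ω * (Gam P r (X (m + i) ω) - V) ∂μ| ≤ n * (2 * ε) := by
    refine (Finset.abs_sum_le_sum_abs _ _).trans ((Finset.sum_le_sum b2).trans ?_)
    simp
  have b4 : |∑ m ∈ Finset.range n, (1 - q) * ∑ i ∈ Finset.range (n - m), q ^ i *
        ∫ ω, (AverW P r X θ V α n (m + i) ω - AverW P r X θ V α n m ω) *
        (Gam P r (X (m + i) ω) - V) ∂μ| ≤
      n * ((C + V) * (2 * κ + C₀ * θ ^ 2 / κ ^ 3 / (1 - q)) + 2 * ε +
        θ ^ 2 * V * (C₀ + V) / (1 - q) / 2) := by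
    refine (Finset.abs_sum_le_sum_abs _ _).trans ((Finset.sum_le_sum (fun m hm =>
      Aver_third hP h hq0 hq1 hr hrm hPr hV hκ hCn hC hψ hD hψ0 hD0 hψε hDe θ α
        (Finset.mem_range.1 hm))).trans ?_)
    rw [Finset.sum_const, Finset.card_range, nsmul_eq_mul]
  have b5 := abs_add_le (∑ m ∈ Finset.range n, (1 - q) * ∑ i ∈ Finset.range (n - m), q ^ i *
        ∫ ω, AverW P r X θ V α n m ω * (Gam P r (X (m + i) ω) - V) ∂μ)
      (∑ m ∈ Finset.range n, (1 - q) * ∑ i ∈ Finset.range (n - m), q ^ i *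
        ∫ ω, (AverW P r X θ V α n (m + i) ω - AverW P r X θ V α n m ω) *
        (Gam P r (X (m + i) ω) - V) ∂μ)
  have e5 : (n : ℝ) * ((C + V) * (2 * κ + C₀ * θ ^ 2 / κ ^ 3 / (1 - q)) + 2 * ε +
        θ ^ 2 * V * (C₀ + V) / (1 - q) / 2) =
        n * ((C + V) * (2 * κ + C₀ * θ ^ 2 / κ ^ 3 / (1 - q)) + 2 * ε) +
        n * (θ ^ 2 * V * (C₀ + V) / (1 - q) / 2) := by ring
  rw [e5] at b4
  linarith

end Pool.NH23.MC
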