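import Pool.Agent.NH23.MC.Res

set_option autoImplicit false
open MeasureTheory ProbabilityTheory Filter Topology

namespace Pool.NH23.MC

variable {S : Type} [MeasurableSpace S] {ν : Measure S} {P P' : (S → ℝ) → (S → ℝ)} {f : S → ℝ}
  {H w : S → ℝ} {o : ℝ → ℝ} {M : ℝ}

/-- The bad set. -/
def Bad (H r u : S → ℝ) (K B : ℝ) : Set S :=
  {x | K < H x} ∪ {x | B < u x} ∪ {x | B < r x ^ 2}

theorem Bad.measurableSet {H r u : S → ℝ} (hH : Measurable H) (hr : Measurable r)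
    (hu : Measurable u) (K B : ℝ) : MeasurableSet (Bad H r u K B) := by
  unfold Bad
  exact ((measurableSet_lt measurable_const hH).union
    (measurableSet_lt measurable_const hu)).union
    (measurableSet_lt measurable_const (hr.pow_const 2))

theorem Bad.off {H r u : S → ℝ} {K B : ℝ} {x : S} (hx : x ∉ Bad H r u K B) :
    H x ≤ K ∧ u x ≤ B ∧ r x ^ 2 ≤ B := by
  unfold Bad at hx
  simp only [Set.mem_union, Set.mem_setOf_eq, not_or, not_lt] at hx
  exact ⟨hx.1.1, hx.1.2, hx.2⟩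

/-- Rate lemma for `Ξ = univ`: convergence of the energies. -/
theorem energy_tendsto [IsProbabilityMeasure ν] (h : Ctx ν P P' f)
    (hR : RateData ν P f H w o M) {q : ℝ} (hq0 : 0 ≤ q) (hq1 : q < 1) {r : S → ℝ}
    (hr : MemLp r 2 ν) (hrs : IsSol ν P q Set.univ f r) :
    |∫ x, r x ^ 2 ∂ν - q ^ 2 * ∫ x, (P r x) ^ 2 ∂ν - ∫ x, w x ∂ν| ≤ o q := by
  have hE : IsExit ν P q Set.univ (fun _ => (0 : ℝ)) := by
    refine ⟨integrable_const _, ae_of_all _ fun _ => le_rfl, ae_of_all _ fun _ => zero_le_one,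
      ae_of_all _ fun x hx => absurd (Set.mem_univ x) hx, ?_⟩
    have h0 := h.pair.left.const (ν := ν) (0 : ℝ)
    filter_upwards [h0] with x hx _
    rw [hx]; simp
  have := hR.rate q hq0 hq1 Set.univ MeasurableSet.univ 0 le_rfl
    (ae_of_all _ fun x hx => absurd (Set.mem_univ x) hx) r hr hrs _ hE
  simpa using this

/-- Uniform bound for the energies. -/
theorem energy_le [IsProbabilityMeasure ν] (h : Ctx ν P P' f)
    (hR : RateData ν P f H w o M) {q : ℝ} (hq0 : 0 ≤ q) (hq1 : q < 1) {r : S → ℝ}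
    (hr : MemLp r 2 ν) (hrs : IsSol ν P q Set.univ f r) :
    ∫ x, r x ^ 2 ∂ν - ∫ x, (P r x) ^ 2 ∂ν ≤ ∫ x, w x ∂ν + M := by
  have h1 := (abs_le.1 (energy_tendsto h hR hq0 hq1 hr hrs)).2
  have h2 := hR.o_le q hq0 hq1
  have h3 : 0 ≤ ∫ x, (P r x) ^ 2 ∂ν := integral_nonneg fun x => sq_nonneg _
  have h4 : q ^ 2 ≤ 1 := by nlinarith
  nlinarith [mul_le_mul_of_nonneg_right h4 h3]

/-- `∫ w = V ≥ 0`. -/
theorem integral_w_nonneg [IsProbabilityMeasure ν] (h : Ctx ν P P' f)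
    (hR : RateData ν P f H w o M) : 0 ≤ ∫ x, w x ∂ν := by
  have key : ∀ q : ℝ, 0 ≤ q → q < 1 → - o q ≤ ∫ x, w x ∂ν := by
    intro q hq0 hq1
    obtain ⟨r, -, hri, hrs⟩ := exists_sol (ν := ν) h.pair.left hq0 hq1 MeasurableSet.univ
      (h.f2.integrable one_le_two)
    have hr2 : MemLp r 2 ν := hrs.memLp h.pair.left hq0 hq1 MeasurableSet.univ h.f2 hri
    have h1 := (abs_le.1 (energy_tendsto h hR hq0 hq1 hr2 hrs)).2
    have h3 : 0 ≤ ∫ x, (P r x) ^ 2 ∂ν := integral_nonneg fun x => sq_nonneg _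
    have h4 : q ^ 2 ≤ 1 := by nlinarith
    have h5 := h.pair.left.integral_sq_le hr2
    nlinarith [mul_le_mul_of_nonneg_right h4 h3]
  have hlim : Tendsto (fun q => - o q) (𝓝[<] (1 : ℝ)) (𝓝 (-0)) := hR.o_lim.neg
  rw [neg_zero] at hlim
  refine le_of_tendsto hlim ?_
  have h0 : ∀ᶠ q in 𝓝[<] (1 : ℝ), (0 : ℝ) < q :=
    mem_nhdsWithin_of_mem_nhds (Ioi_mem_nhds zero_lt_one)
  have h1 : ∀ᶠ q in 𝓝[<] (1 : ℝ), q < 1 := self_mem_nhdsWithin
  filter_upwards [h0, h1] with q a b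
  exact key q a.le b

theorem Bad_tail [IsProbabilityMeasure ν] {H : S → ℝ} (hm : Measurable H) (hi : Integrable H ν)
    {ε : ℝ} (hε : 0 < ε) : ∃ K : ℝ, 0 ≤ K ∧ ∫ x in {x | K < H x}, H x ∂ν ≤ ε := by
  have hs : Tendsto (ν ∘ fun n : ℕ => {x | (n : ℝ) < H x}) atTop (𝓝 0) := by
    have hanti : Antitone (fun n : ℕ => {x | (n : ℝ) < H x}) := by
      intro a b hab x hx
      simp only [Set.mem_setOf_eq] at hx ⊢
      exact lt_of_le_of_lt (by exact_mod_cast hab) hx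
    have hinter : (⋂ n : ℕ, {x | (n : ℝ) < H x}) = ∅ := by
      ext x
      simp only [Set.mem_iInter, Set.mem_setOf_eq, Set.mem_empty_iff_false, iff_false, not_forall,
        not_lt]
      exact exists_nat_ge (H x)
    have := tendsto_measure_iInter_atTop (μ := ν) (s := fun n : ℕ => {x | (n : ℝ) < H x})
      (fun n => (measurableSet_lt measurable_const hm).nullMeasurableSet) hanti
      ⟨0, measure_ne_top _ _⟩
    rw [hinter, measure_empty] at this
    exact this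
  have ht := hi.tendsto_setIntegral_nhds_zero hs
  obtain ⟨n, hn⟩ := ((tendsto_order.1 ht).2 ε hε).exists
  exact ⟨n, Nat.cast_nonneg n, hn.le⟩

theorem Bad_level [IsProbabilityMeasure ν] {g : S → ℝ} (hi : Integrable g ν)
    (hg : ∀ᵐ x ∂ν, 0 ≤ g x) {q Λ C : ℝ} (hq : q < 1) (hΛ : 0 < Λ)
    (hC : (1 - q) * ∫ x, g x ∂ν ≤ C) : ν.real {x | Λ / (1 - q) < g x} ≤ C / Λ := by
  have hq' : 0 < 1 - q := by linarith
  have h1 := mul_meas_ge_le_integral_of_nonneg hg hi (Λ / (1 - q))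
  have h2 : ν.real {x | Λ / (1 - q) < g x} ≤ ν.real {x | Λ / (1 - q) ≤ g x} :=
    measureReal_mono (fun x (hx : Λ / (1 - q) < g x) => (le_of_lt hx : Λ / (1 - q) ≤ g x)) (measure_ne_top _ _)
  rw [le_div_iff₀ hΛ]
  have h3 : Λ * ν.real {x | Λ / (1 - q) ≤ g x} ≤ (1 - q) * ∫ x, g x ∂ν := by
    have := mul_le_mul_of_nonneg_left h1 hq'.le
    calc Λ * ν.real {x | Λ / (1 - q) ≤ g x}
        = (1 - q) * (Λ / (1 - q) * ν.real {x | Λ / (1 - q) ≤ g x}) := by
          field_simp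
      _ ≤ _ := this
  nlinarith [mul_le_mul_of_nonneg_left h2 hΛ.le]

/-- The bad set is small: choose `K` first, then `Λ`. -/
theorem bad_small [IsProbabilityMeasure ν] (h : Ctx ν P P' f)
    (hR : RateData ν P f H w o M) {ε : ℝ} (hε : 0 < ε) :
    ∃ K : ℝ, 0 ≤ K ∧ ∃ Λ : ℝ, 0 ≤ Λ ∧ ∃ q₀ : ℝ, q₀ < 1 ∧ ∀ q : ℝ, q₀ < q → 0 ≤ q → q < 1 →
      ∀ r u : S → ℝ, Measurable r → MemLp r 2 ν → IsSol ν P q Set.univ f r →
      Measurable u → Integrable u ν → IsSol ν P q Set.univ (Gam P r) u →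
      K * ν.real (Bad H r u K (Λ / (1 - q))) ≤ ε ∧
      ∫ x in Bad H r u K (Λ / (1 - q)), H x ∂ν ≤ ε ∧ o q ≤ ε := by
  obtain ⟨K, hK0, hK⟩ := Bad_tail (ν := ν) hR.Hmeas hR.Hint (show 0 < ε / 4 by linarith)
  obtain ⟨q₁, hq₁, hsm⟩ := res_small h (ε := 1) one_pos
  have hV := integral_w_nonneg h hR
  have hM := hR.Mnn
  set V := ∫ x, w x ∂ν with hVdef
  obtain ⟨q₂, hq₂, hoq⟩ : ∃ q₂ : ℝ, q₂ < 1 ∧ ∀ q, q₂ < q → q < 1 → o q ≤ ε := by
    have := (tendsto_order.1 hR.o_lim).2 ε hε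
    obtain ⟨l, hl, hsub⟩ := (mem_nhdsLT_iff_exists_Ioo_subset).1 this
    exact ⟨l, hl, fun q h1 h2 => (show o q < ε from hsub ⟨h1, h2⟩).le⟩
  set Λ : ℝ := 2 * K * (V + M + 1) / ε + 1 with hΛdef
  have hΛ1 : 0 < Λ := by positivity
  refine ⟨K, hK0, Λ, hΛ1.le, max q₁ q₂, max_lt hq₁ hq₂, ?_⟩
  intro q hq hq0 hq1 r u hrm hr hrs hum hu hus
  have hqa : q₁ < q := lt_of_le_of_lt (le_max_left _ _) hq
  have hqb : q₂ < q := lt_of_le_of_lt (le_max_right _ _) hq
  have hP := h.pair.left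
  set B := Λ / (1 - q) with hB
  -- the two level sets
  have hu0 : ∀ᵐ x ∂ν, 0 ≤ u x := hus.nonneg hP hq0 hq1 hu (hP.gam_nonneg hr)
  have hA1 : ν.real {x | B < u x} ≤ (V + M) / Λ := by
    refine Bad_level hu hu0 hq1 hΛ1 ?_
    rw [hus.integral_eq hP hq0 hq1 (hP.gam_integrable hr) hu, hP.integral_gam hr]
    exact energy_le h hR hq0 hq1 hr hrs
  have hA2 : ν.real {x | B < r x ^ 2} ≤ 1 / Λ := by
    refine Bad_level hr.integrable_sq (ae_of_all _ fun x => sq_nonneg _) hq1 hΛ1 ?_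
    exact hsm q hqa hq0 hq1 r hr hrs
  have hA : K * ν.real ({x | B < u x} ∪ {x | B < r x ^ 2}) ≤ ε / 2 := by
    have h1 : ν.real ({x | B < u x} ∪ {x | B < r x ^ 2}) ≤ (V + M + 1) / Λ := by
      refine (measureReal_union_le _ _).trans ?_
      calc _ ≤ (V + M) / Λ + 1 / Λ := add_le_add hA1 hA2
        _ = _ := by ring
    refine (mul_le_mul_of_nonneg_left h1 hK0).trans ?_
    rw [← mul_div_assoc, div_le_iff₀ hΛ1]
    have : ε / 2 * Λ = K * (V + M + 1) + ε / 2 := by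
      rw [hΛdef]; field_simp
    rw [this]; linarith
  have hKm : K * ν.real {x | K < H x} ≤ ε / 4 := by
    have h1 : ∫ x in {x | K < H x}, K ∂ν ≤ ∫ x in {x | K < H x}, H x ∂ν := by
      refine setIntegral_mono_on (integrable_const _).integrableOn hR.Hint.integrableOn
        (measurableSet_lt measurable_const hR.Hmeas) fun x hx => le_of_lt hx
    rw [setIntegral_const, smul_eq_mul] at h1
    linarith [mul_comm K (ν.real {x | K < H x})]
  have hBe : Bad H r u K B = {x | K < H x} ∪ ({x | B < u x} ∪ {x | B < r x ^ 2}) := by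
    unfold Bad; rw [Set.union_assoc]
  refine ⟨?_, ?_, hoq q hqb hq1⟩
  · rw [hBe]
    have h1 := measureReal_union_le (μ := ν) {x | K < H x} ({x | B < u x} ∪ {x | B < r x ^ 2})
    have h2 := mul_le_mul_of_nonneg_left h1 hK0
    linarith
  · rw [hBe]
    set A : Set S := {x | B < u x} ∪ {x | B < r x ^ 2} with hAdef
    have hAm : MeasurableSet A := (measurableSet_lt measurable_const hum).union
      (measurableSet_lt measurable_const (hrm.pow_const 2))
    have hTm : MeasurableSet {x | K < H x} := measurableSet_lt measurable_const hR.Hmeas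
    have hsplit : {x | K < H x} ∪ A = {x | K < H x} ∪ (A \ {x | K < H x}) := by
      rw [Set.union_diff_self]
    rw [hsplit, setIntegral_union Set.disjoint_sdiff_right (hAm.diff hTm)
      hR.Hint.integrableOn hR.Hint.integrableOn]
    have h1 : ∫ x in A \ {x | K < H x}, H x ∂ν ≤ ∫ x in A \ {x | K < H x}, K ∂ν := by
      refine setIntegral_mono_on hR.Hint.integrableOn (integrable_const _).integrableOn
        (hAm.diff hTm) fun x hx => ?_
      have := hx.2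
      simpa using this
    rw [setIntegral_const, smul_eq_mul] at h1
    have h2 : ν.real (A \ {x | K < H x}) ≤ ν.real A :=
      measureReal_mono Set.diff_subset (measure_ne_top _ _)
    have h3 := mul_le_mul_of_nonneg_right h2 hK0
    linarith [mul_comm K (ν.real A)]

end Pool.NH23.MC
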