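import Pool.Agent.NH23.MC.Def

set_option autoImplicit false
open MeasureTheory ProbabilityTheory Filter Topology

namespace Pool.NH23.MC

variable {S : Type} [MeasurableSpace S] {ν : Measure S} {P : (S → ℝ) → (S → ℝ)}

namespace MOp

theorem add' (hP : MOp ν P) {g h : S → ℝ} (hg : Integrable g ν) (hh : Integrable h ν) :
    P (fun x => g x + h x) =ᵐ[ν] fun x => P g x + P h x :=
  hP.add g h hg hh

theorem const_mul (hP : MOp ν P) (c : ℝ) {g : S → ℝ} (hg : Integrable g ν) :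
    P (fun x => c * g x) =ᵐ[ν] fun x => c * P g x :=
  hP.smul c g hg

theorem neg' (hP : MOp ν P) {g : S → ℝ} (hg : Integrable g ν) :
    P (fun x => - g x) =ᵐ[ν] fun x => - P g x := by
  have h := hP.const_mul (-1) hg
  have e : (fun x => -1 * g x) = fun x => - g x := by
    funext x
    ring
  rw [e] at h
  filter_upwards [h] with x hx
  rw [hx]
  ring

theorem sub' (hP : MOp ν P) {g h : S → ℝ} (hg : Integrable g ν) (hh : Integrable h ν) :
    P (fun x => g x - h x) =ᵐ[ν] fun x => P g x - P h x := by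
  have h1 : P (fun x => g x + (fun y => - h y) x) =ᵐ[ν] fun x => P g x + P (fun y => - h y) x :=
    hP.add' hg hh.neg
  have e : (fun x => g x + (fun y => - h y) x) = fun x => g x - h x := by
    funext x
    ring
  rw [e] at h1
  filter_upwards [h1, hP.neg' hh] with x hx hx'
  rw [hx, hx']
  ring

theorem const [IsProbabilityMeasure ν] (hP : MOp ν P) (c : ℝ) :
    P (fun _ => c) =ᵐ[ν] fun _ => c := by
  have h : P (fun x => c * (fun _ => (1 : ℝ)) x) =ᵐ[ν] fun x => c * P (fun _ => (1 : ℝ)) x :=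
    hP.const_mul c (integrable_const _)
  have e : (fun x : S => c * (fun _ => (1 : ℝ)) x) = fun _ => c := by
    funext x
    ring
  rw [e] at h
  filter_upwards [h, hP.one] with x hx hx'
  rw [hx, hx', mul_one]

theorem mono (hP : MOp ν P) {g h : S → ℝ} (hg : Integrable g ν) (hh : Integrable h ν)
    (hgh : ∀ᵐ x ∂ν, g x ≤ h x) : ∀ᵐ x ∂ν, P g x ≤ P h x := by
  have h1 : 0 ≤ᵐ[ν] P (fun x => h x - g x) := by
    refine hP.nonneg _ (hh.sub hg) ?_
    filter_upwards [hgh] with x hx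
    simpa using hx
  filter_upwards [h1, hP.sub' hh hg] with x hx hx'
  rw [hx'] at hx
  simpa using hx

theorem abs_le (hP : MOp ν P) {g : S → ℝ} (hg : Integrable g ν) :
    ∀ᵐ x ∂ν, |P g x| ≤ P (fun y => |g y|) x := by
  have h1 := hP.mono hg hg.abs (Eventually.of_forall fun x => le_abs_self (g x))
  have h2 := hP.mono (g := fun x => - g x) hg.neg hg.abs
    (Eventually.of_forall fun x => neg_le_abs (g x))
  filter_upwards [h1, h2, hP.neg' hg] with x hx hx' hx2
  rw [hx2] at hx'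
  exact abs_le'.2 ⟨hx, hx'⟩

theorem integral_abs_le (hP : MOp ν P) {g : S → ℝ} (hg : Integrable g ν) :
    ∫ x, |P g x| ∂ν ≤ ∫ x, |g x| ∂ν := by
  rw [← hP.integral (fun y => |g y|) hg.abs]
  exact integral_mono_ae (hP.integrable _ hg).abs (hP.integrable _ hg.abs) (hP.abs_le hg)

/-- linear combinations of three functions -/
theorem basicA_quad [IsProbabilityMeasure ν] (hP : MOp ν P) {g : S → ℝ} (hg : MemLp g 2 ν)
    (c : ℝ) : ∀ᵐ x ∂ν, 0 ≤ P (fun y => g y ^ 2) x - 2 * c * P g x + c ^ 2 := by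
  have hg1 : Integrable g ν := hg.integrable (by norm_num)
  have hg2 : Integrable (fun y => g y ^ 2) ν := hg.integrable_sq
  have h0 : 0 ≤ᵐ[ν] P (fun y => g y ^ 2 + (fun y => (-(2 * c)) * g y + (fun _ => c ^ 2) y) y) := by
    refine hP.nonneg _ (hg2.add ((hg1.const_mul _).add (integrable_const _))) ?_
    refine Eventually.of_forall fun x => ?_
    show (0 : ℝ) ≤ g x ^ 2 + (-(2 * c) * g x + c ^ 2)
    nlinarith [sq_nonneg (g x - c)]
  have h1 := hP.add' hg2 (h := fun y => (-(2 * c)) * g y + (fun _ => c ^ 2) y)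
    ((hg1.const_mul _).add (integrable_const _))
  have h2 := hP.add' (g := fun y => (-(2 * c)) * g y) (h := fun _ => c ^ 2) (hg1.const_mul _)
    (integrable_const _)
  have h3 := hP.const_mul (-(2 * c)) hg1
  have h4 := hP.const (c ^ 2)
  filter_upwards [h0, h1, h2, h3, h4] with x x0 x1 x2 x3 x4
  rw [x1, x2, x3, x4] at x0
  have x0' : (0 : ℝ) ≤ P (fun y => g y ^ 2) x + (-(2 * c) * P g x + c ^ 2) := x0
  linarith

theorem jensen [IsProbabilityMeasure ν] (hP : MOp ν P) {g : S → ℝ} (hg : MemLp g 2 ν) :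
    ∀ᵐ x ∂ν, (P g x) ^ 2 ≤ P (fun y => g y ^ 2) x := by
  have h1 : ∀ᵐ x ∂ν, ∀ c : ℚ, 0 ≤ P (fun y => g y ^ 2) x - 2 * (c : ℝ) * P g x + (c : ℝ) ^ 2 :=
    ae_all_iff.2 fun c => hP.basicA_quad hg c
  filter_upwards [h1] with x hx
  have h2 : 0 ≤ P (fun y => g y ^ 2) x - 2 * (P g x) * P g x + (P g x) ^ 2 := by
    refine Rat.denseRange_cast.induction_on
      (p := fun c : ℝ => 0 ≤ P (fun y => g y ^ 2) x - 2 * c * P g x + c ^ 2) (P g x) ?_ hx
    exact isClosed_le continuous_const (by fun_prop)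
  nlinarith

theorem memLp [IsProbabilityMeasure ν] (hP : MOp ν P) {g : S → ℝ} (hg : MemLp g 2 ν) :
    MemLp (P g) 2 ν := by
  have hg1 : Integrable g ν := hg.integrable (by norm_num)
  have h1 := hP.integrable _ hg1
  rw [memLp_two_iff_integrable_sq h1.aestronglyMeasurable]
  refine (hP.integrable _ hg.integrable_sq).mono' (h1.aestronglyMeasurable.pow 2) ?_
  filter_upwards [hP.jensen hg] with x hx
  rw [Real.norm_eq_abs, abs_of_nonneg (sq_nonneg _)]
  exact hx

theorem integral_sq_le [IsProbabilityMeasure ν] (hP : MOp ν P) {g : S → ℝ} (hg : MemLp g 2 ν) :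
    ∫ x, (P g x) ^ 2 ∂ν ≤ ∫ x, g x ^ 2 ∂ν := by
  rw [← hP.integral (fun y => g y ^ 2) hg.integrable_sq]
  exact integral_mono_ae (hP.memLp hg).integrable_sq (hP.integrable _ hg.integrable_sq)
    (hP.jensen hg)

theorem abs_le_of_abs_le [IsProbabilityMeasure ν] (hP : MOp ν P) {g : S → ℝ} {C : ℝ}
    (hg : Integrable g ν) (h : ∀ᵐ x ∂ν, |g x| ≤ C) : ∀ᵐ x ∂ν, |P g x| ≤ C := by
  have h1 := hP.mono (h := fun _ => C) hg.abs (integrable_const _) h
  filter_upwards [hP.abs_le hg, h1, hP.const C] with x hx hx' hx2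
  rw [hx2] at hx'
  exact hx.trans hx'

/-- iterates are integrable / in L² and respect a.e. equality -/
theorem iter_integrable (hP : MOp ν P) {g : S → ℝ} (hg : Integrable g ν) (k : ℕ) :
    Integrable (P^[k] g) ν := by
  induction k with
  | zero => exact hg
  | succ k ih =>
    rw [Function.iterate_succ_apply']
    exact hP.integrable _ ih

theorem iter_memLp [IsProbabilityMeasure ν] (hP : MOp ν P) {g : S → ℝ} (hg : MemLp g 2 ν)
    (k : ℕ) : MemLp (P^[k] g) 2 ν := by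
  induction k with
  | zero => exact hg
  | succ k ih =>
    rw [Function.iterate_succ_apply']
    exact hP.memLp ih

/-- The maximum principle. -/
theorem maxPrinciple (hP : MOp ν P) {q : ℝ} (hq0 : 0 ≤ q) (hq1 : q < 1) {W : S → ℝ}
    (hW : Integrable W ν) (h : ∀ᵐ x ∂ν, W x ≤ 0 ∨ W x ≤ q * P W x) : ∀ᵐ x ∂ν, W x ≤ 0 := by
  have hp : Integrable (fun x => max (W x) 0) ν := hW.pos_part
  have h1 := hP.mono hW hp (Eventually.of_forall fun x => le_max_left (W x) 0)
  have h2 := hP.nonneg _ hp (Eventually.of_forall fun x => le_max_right (W x) 0)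
  have h3 : ∀ᵐ x ∂ν, max (W x) 0 ≤ q * P (fun x => max (W x) 0) x := by
    filter_upwards [h, h1, h2] with x hx hx1 hx2
    have hx2' : (0 : ℝ) ≤ P (fun x => max (W x) 0) x := hx2
    have h4 : 0 ≤ q * P (fun x => max (W x) 0) x := mul_nonneg hq0 hx2'
    rcases hx with hx | hx
    · rw [max_eq_right hx]
      exact h4
    · exact max_le (hx.trans (mul_le_mul_of_nonneg_left hx1 hq0)) h4
  have h5 := integral_mono_ae hp ((hP.integrable _ hp).const_mul q) h3
  rw [integral_const_mul, hP.integral _ hp] at h5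
  have h6 : 0 ≤ ∫ x, max (W x) 0 ∂ν := integral_nonneg fun x => le_max_right (W x) 0
  have h7 : ∫ x, max (W x) 0 ∂ν = 0 := by nlinarith
  rw [integral_eq_zero_iff_of_nonneg (fun x => le_max_right (W x) 0) hp] at h7
  filter_upwards [h7] with x hx
  have hx' : max (W x) 0 = 0 := hx
  exact (le_max_left _ _).trans hx'.le

theorem gam_integrable [IsProbabilityMeasure ν] (hP : MOp ν P) {g : S → ℝ} (hg : MemLp g 2 ν) :
    Integrable (Gam P g) ν :=
  (hP.integrable _ hg.integrable_sq).sub (hP.memLp hg).integrable_sq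

theorem gam_nonneg [IsProbabilityMeasure ν] (hP : MOp ν P) {g : S → ℝ} (hg : MemLp g 2 ν) :
    ∀ᵐ x ∂ν, 0 ≤ Gam P g x := by
  filter_upwards [hP.jensen hg] with x hx
  unfold Gam
  linarith

theorem integral_gam [IsProbabilityMeasure ν] (hP : MOp ν P) {g : S → ℝ} (hg : MemLp g 2 ν) :
    ∫ x, Gam P g x ∂ν = ∫ x, g x ^ 2 ∂ν - ∫ x, (P g x) ^ 2 ∂ν := by
  unfold Gam
  rw [integral_sub (hP.integrable _ hg.integrable_sq) (hP.memLp hg).integrable_sq,
    hP.integral _ hg.integrable_sq]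

/-- the carre du champ of a linear combination -/
theorem basicA_gam_lin [IsProbabilityMeasure ν] (hP : MOp ν P) {h k : S → ℝ}
    (hh : MemLp h 2 ν) (hk : MemLp k 2 ν) (s t : ℝ) :
    ∀ᵐ x ∂ν, Gam P (fun x => s * h x + t * k x) x = s ^ 2 * Gam P h x + t ^ 2 * Gam P k x +
      2 * s * t * (P (fun y => h y * k y) x - P h x * P k x) := by
  have hh1 : Integrable h ν := hh.integrable (by norm_num)
  have hk1 : Integrable k ν := hk.integrable (by norm_num)
  have hh2 : Integrable (fun y => h y ^ 2) ν := hh.integrable_sq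
  have hk2 : Integrable (fun y => k y ^ 2) ν := hk.integrable_sq
  have hhk : Integrable (fun y => h y * k y) ν := hh.integrable_mul hk
  have e1 : (fun y => (s * h y + t * k y) ^ 2) =
      fun y => s ^ 2 * h y ^ 2 + (fun y => t ^ 2 * k y ^ 2 + (2 * s * t) * (h y * k y)) y := by
    funext y
    ring
  have a1 := hP.add' (g := fun y => s ^ 2 * h y ^ 2)
    (h := fun y => t ^ 2 * k y ^ 2 + (2 * s * t) * (h y * k y)) (hh2.const_mul _)
    ((hk2.const_mul _).add (hhk.const_mul _))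
  have a2 := hP.add' (g := fun y => t ^ 2 * k y ^ 2) (h := fun y => (2 * s * t) * (h y * k y))
    (hk2.const_mul _) (hhk.const_mul _)
  have a3 := hP.const_mul (s ^ 2) hh2
  have a4 := hP.const_mul (t ^ 2) hk2
  have a5 := hP.const_mul (2 * s * t) hhk
  have b1 := hP.add' (g := fun y => s * h y) (h := fun y => t * k y) (hh1.const_mul _)
    (hk1.const_mul _)
  have b2 := hP.const_mul s hh1
  have b3 := hP.const_mul t hk1
  filter_upwards [a1, a2, a3, a4, a5, b1, b2, b3] with x x1 x2 x3 x4 x5 y1 y2 y3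
  unfold Gam
  rw [e1, x1, x2, x3, x4, x5, y1, y2, y3]
  ring

/-- `Γ(g) ≤ (1+a) Γ(h) + (1+1/a) Γ(g-h)`. -/
theorem gam_split [IsProbabilityMeasure ν] (hP : MOp ν P) {g h k : S → ℝ} (hg : MemLp g 2 ν)
    (hh : MemLp h 2 ν) (hk : MemLp k 2 ν) (hghk : g =ᵐ[ν] fun x => h x + k x) {a : ℝ}
    (ha : 0 < a) : ∀ᵐ x ∂ν, Gam P g x ≤ (1 + a) * Gam P h x + (1 + a⁻¹) * Gam P k x := by
  have hs : Real.sqrt a ^ 2 = a := Real.sq_sqrt ha.le
  have hs0 : 0 < Real.sqrt a := Real.sqrt_pos.2 ha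
  have h1 := hP.basicA_gam_lin hh hk 1 1
  have h2 := hP.basicA_gam_lin hh hk (Real.sqrt a) (-(Real.sqrt a)⁻¹)
  have h3 := hP.gam_nonneg (g := fun x => Real.sqrt a * h x + -(Real.sqrt a)⁻¹ * k x)
    ((hh.const_mul _).add (hk.const_mul _))
  have h4 := hP.congr g (fun x => 1 * h x + 1 * k x) (hg.integrable (by norm_num)) (by
    filter_upwards [hghk] with x hx
    rw [hx]
    ring)
  have h5 := hP.congr (fun x => g x ^ 2) (fun x => (1 * h x + 1 * k x) ^ 2) hg.integrable_sq (by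
    filter_upwards [hghk] with x hx
    rw [hx]
    ring)
  filter_upwards [h1, h2, h3, h4, h5] with x x1 x2 x3 x4 x5
  have e1 : Gam P g x = Gam P (fun x => 1 * h x + 1 * k x) x := by
    unfold Gam
    rw [x4, x5]
  rw [e1, x1]
  rw [x2] at x3
  have e2 : (-(Real.sqrt a)⁻¹) ^ 2 = a⁻¹ := by
    rw [neg_sq, inv_pow, hs]
  have e3 : 2 * Real.sqrt a * -(Real.sqrt a)⁻¹ = -2 := by
    field_simp
  rw [e2, e3, hs] at x3
  linarith

/-- `∫_R Γ(ρ) ≤ ∫ ρ² - q² ∫_R (Pρ)²` for `0 ≤ q ≤ 1`. -/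
theorem setIntegral_gam_le [IsProbabilityMeasure ν] (hP : MOp ν P) {g : S → ℝ}
    (hg : MemLp g 2 ν) {R : Set S} (hR : MeasurableSet R) {q : ℝ} (hq0 : 0 ≤ q) (hq1 : q ≤ 1) :
    ∫ x in R, Gam P g x ∂ν ≤ ∫ x, g x ^ 2 ∂ν - q ^ 2 * ∫ x in R, (P g x) ^ 2 ∂ν := by
  have hi1 := hP.integrable _ hg.integrable_sq
  have hi2 := (hP.memLp hg).integrable_sq
  have h1 : ∫ x in R, Gam P g x ∂ν =
      ∫ x in R, P (fun y => g y ^ 2) x ∂ν - ∫ x in R, (P g x) ^ 2 ∂ν := by
    unfold Gam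
    exact integral_sub hi1.integrableOn hi2.integrableOn
  have h2 : ∫ x in R, P (fun y => g y ^ 2) x ∂ν ≤ ∫ x, g x ^ 2 ∂ν := by
    rw [← hP.integral _ hg.integrable_sq]
    exact setIntegral_le_integral hi1 (hP.nonneg _ hg.integrable_sq
      (Eventually.of_forall fun x => sq_nonneg (g x)))
  have h3 : 0 ≤ ∫ x in R, (P g x) ^ 2 ∂ν := setIntegral_nonneg hR fun x _ => sq_nonneg _
  have h4 : q ^ 2 ≤ 1 := by nlinarith
  rw [h1]
  nlinarith

end MOp

end Pool.NH23.MC
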