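import Pool.Agent.NH23.MC.BasicA

set_option autoImplicit false
open MeasureTheory ProbabilityTheory Filter Topology

namespace Pool.NH23.MC

variable {S : Type} [MeasurableSpace S] {ν : Measure S} {P P' : (S → ℝ) → (S → ℝ)}

/-- Fixed point in `L^p`. -/
theorem basicB_exists [IsProbabilityMeasure ν] (hP : MOp ν P) {q : ℝ} (hq0 : 0 ≤ q) (hq1 : q < 1)
    {R : Set S} (hR : MeasurableSet R) (p : ENNReal) (hp1 : 1 ≤ p)
    (hcon : ∀ f : S → ℝ, MemLp f p ν → MemLp (P f) p ν ∧ eLpNorm (P f) p ν ≤ eLpNorm f p ν)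
    {g : S → ℝ} (hg : MemLp g p ν) :
    ∃ Φ : S → ℝ, Measurable Φ ∧ MemLp Φ p ν ∧ IsSol ν P q R g Φ := by
  have : Fact (1 ≤ p) := ⟨hp1⟩
  have hmem : ∀ f : Lp ℝ p ν, MemLp (R.indicator (fun x => g x + q * P f x)) p ν := by
    intro f
    have h1 := (hcon f (Lp.memLp f)).1
    exact (hg.add (h1.const_mul q)).indicator hR
  let T : Lp ℝ p ν → Lp ℝ p ν := fun f => (hmem f).toLp
  let κ : NNReal := ⟨q, hq0⟩
  have hκ : (κ : ℝ) = q := rfl
  have hT : ContractingWith κ T := by
    refine ⟨by exact_mod_cast hq1, fun f f' => ?_⟩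
    have e1 : edist (T f) (T f') = eLpNorm (R.indicator (fun x => g x + q * P f x) -
        R.indicator (fun x => g x + q * P f' x)) p ν := Lp.edist_toLp_toLp _ _ (hmem f) (hmem f')
    rw [e1, Lp.edist_def]
    have hf : MemLp f p ν := Lp.memLp f
    have hf' : MemLp f' p ν := Lp.memLp f'
    have hsub : MemLp (⇑f - ⇑f') p ν := hf.sub hf'
    have h2 : ∀ᵐ x ∂ν, ‖(R.indicator (fun x => g x + q * P f x) -
        R.indicator (fun x => g x + q * P f' x)) x‖ ≤ ‖(q • P (⇑f - ⇑f')) x‖ := by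
      have h3 := hP.sub' (hf.integrable hp1) (hf'.integrable hp1)
      filter_upwards [h3] with x hx
      have e2 : P (⇑f - ⇑f') x = P f x - P f' x := hx
      rw [Pi.sub_apply, Pi.smul_apply, smul_eq_mul, e2]
      by_cases hxR : x ∈ R
      · rw [Set.indicator_of_mem hxR, Set.indicator_of_mem hxR]
        apply le_of_eq
        congr 1
        ring
      · rw [Set.indicator_of_notMem hxR, Set.indicator_of_notMem hxR, sub_zero, norm_zero]
        exact norm_nonneg _
    refine (eLpNorm_mono_ae h2).trans ?_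
    rw [eLpNorm_const_smul]
    have h4 : ‖q‖ₑ = (κ : ENNReal) := by
      rw [← ofReal_norm, Real.norm_of_nonneg hq0, ← hκ, ENNReal.ofReal_coe_nnreal]
    rw [h4]
    exact mul_le_mul_right (hcon _ hsub).2 _
  have hfix : T (ContractingWith.fixedPoint T hT) = ContractingWith.fixedPoint T hT :=
    hT.fixedPoint_isFixedPt
  set Φ := ContractingWith.fixedPoint T hT with hΦ
  refine ⟨Φ, (Lp.stronglyMeasurable Φ).measurable, Lp.memLp Φ, ?_⟩
  have h5 : (T Φ : S → ℝ) =ᵐ[ν] R.indicator (fun x => g x + q * P Φ x) :=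
    (hmem Φ).coeFn_toLp
  rw [hfix] at h5
  exact h5

/-- Existence of solutions (Neumann series / Banach fixed point in `L¹(ν)`). -/
theorem exists_sol [IsProbabilityMeasure ν] (hP : MOp ν P) {q : ℝ} (hq0 : 0 ≤ q) (hq1 : q < 1)
    {R : Set S} (hR : MeasurableSet R) {g : S → ℝ} (hg : Integrable g ν) :
    ∃ Φ : S → ℝ, Measurable Φ ∧ Integrable Φ ν ∧ IsSol ν P q R g Φ := by
  obtain ⟨Φ, h1, h2, h3⟩ := basicB_exists hP hq0 hq1 hR 1 le_rfl (fun f hf => by
    have hf' := memLp_one_iff_integrable.1 hf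
    have hPf := hP.integrable f hf'
    refine ⟨memLp_one_iff_integrable.2 hPf, ?_⟩
    rw [eLpNorm_one_eq_lintegral_enorm, eLpNorm_one_eq_lintegral_enorm,
      ← ofReal_integral_norm_eq_lintegral_enorm hPf, ← ofReal_integral_norm_eq_lintegral_enorm hf']
    apply ENNReal.ofReal_le_ofReal
    exact hP.integral_abs_le hf') (memLp_one_iff_integrable.2 hg)
  exact ⟨Φ, h1, memLp_one_iff_integrable.1 h2, h3⟩

/-- Comparison of solutions. -/
theorem IsSol.mono (hP : MOp ν P) {q : ℝ} (hq0 : 0 ≤ q) (hq1 : q < 1)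
    {R : Set S} {g g' Φ Φ' : S → ℝ} (hΦ : Integrable Φ ν) (hΦ' : Integrable Φ' ν)
    (h : IsSol ν P q R g Φ) (h' : IsSol ν P q R g' Φ') (hgg : ∀ᵐ x ∂ν, g x ≤ g' x) :
    ∀ᵐ x ∂ν, Φ x ≤ Φ' x := by
  have hW : Integrable (fun x => Φ x - Φ' x) ν := hΦ.sub hΦ'
  have hsub := hP.sub' hΦ hΦ'
  have key := hP.maxPrinciple hq0 hq1 hW (by
    filter_upwards [h, h', hgg, hsub] with x h1 h2 h3 h4
    by_cases hx : x ∈ R
    · right
      rw [Set.indicator_of_mem hx] at h1 h2
      rw [h4, h1, h2]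
      linarith
    · left
      rw [Set.indicator_of_notMem hx] at h1 h2
      rw [h1, h2]
      simp)
  filter_upwards [key] with x hx
  linarith

/-- Uniqueness. -/
theorem IsSol.unique (hP : MOp ν P) {q : ℝ} (hq0 : 0 ≤ q) (hq1 : q < 1)
    {R : Set S} {g Φ Φ' : S → ℝ} (hΦ : Integrable Φ ν) (hΦ' : Integrable Φ' ν)
    (h : IsSol ν P q R g Φ) (h' : IsSol ν P q R g Φ') : Φ =ᵐ[ν] Φ' := by
  have h1 := IsSol.mono hP hq0 hq1 hΦ hΦ' h h' (Eventually.of_forall fun _ => le_rfl)
  have h2 := IsSol.mono hP hq0 hq1 hΦ' hΦ h' h (Eventually.of_forall fun _ => le_rfl)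
  filter_upwards [h1, h2] with x a b
  exact le_antisymm a b

/-- If the datum is in `L²`, so is every integrable solution. -/
theorem IsSol.memLp [IsProbabilityMeasure ν] (hP : MOp ν P) {q : ℝ} (hq0 : 0 ≤ q) (hq1 : q < 1)
    {R : Set S} (hR : MeasurableSet R) {g Φ : S → ℝ} (hg : MemLp g 2 ν) (hΦ : Integrable Φ ν)
    (h : IsSol ν P q R g Φ) : MemLp Φ 2 ν := by
  obtain ⟨Φ₂, -, h2, h3⟩ := basicB_exists hP hq0 hq1 hR 2 one_le_two (fun f hf => by
    have hPf := hP.memLp hf
    refine ⟨hPf, ?_⟩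
    have e : ∀ k : S → ℝ, MemLp k 2 ν →
        eLpNorm k 2 ν = (ENNReal.ofReal (∫ x, k x ^ 2 ∂ν)) ^ (1 / 2 : ℝ) := by
      intro k hk
      have hk2 : Integrable (fun x => ‖k x‖ ^ 2) ν := by
        exact hk.integrable_norm_pow two_ne_zero
      have e1 := eLpNorm_eq_lintegral_rpow_enorm_toReal (p := 2) (μ := ν) (f := k) two_ne_zero
        ENNReal.ofNat_ne_top
      rw [e1]
      have e2 : (2 : ENNReal).toReal = 2 := by simp
      rw [e2]
      congr 1
      rw [ofReal_integral_eq_lintegral_ofReal (by simpa using hk2)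
        (Eventually.of_forall fun x => sq_nonneg _)]
      apply lintegral_congr
      intro x
      rw [← sq_abs, ← Real.norm_eq_abs, ENNReal.ofReal_pow (norm_nonneg _), ofReal_norm]
      exact ENNReal.rpow_natCast _ 2
    rw [e _ hPf, e _ hf]
    apply ENNReal.rpow_le_rpow _ (by norm_num)
    exact ENNReal.ofReal_le_ofReal (hP.integral_sq_le hf)) hg
  have h4 := IsSol.unique hP hq0 hq1 hΦ (h2.integrable one_le_two) h h3
  exact h2.ae_eq h4.symm

theorem IsSol.nonneg (hP : MOp ν P) {q : ℝ} (hq0 : 0 ≤ q) (hq1 : q < 1)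
    {R : Set S} {g Φ : S → ℝ} (hΦ : Integrable Φ ν)
    (h : IsSol ν P q R g Φ) (hg : ∀ᵐ x ∂ν, 0 ≤ g x) : ∀ᵐ x ∂ν, 0 ≤ Φ x := by
  have hW : Integrable (fun x => - Φ x) ν := hΦ.neg
  have hneg := hP.neg' hΦ
  have key := hP.maxPrinciple hq0 hq1 hW (by
    filter_upwards [h, hg, hneg] with x h1 h2 h3
    by_cases hx : x ∈ R
    · right
      rw [Set.indicator_of_mem hx] at h1
      rw [h3, h1]
      linarith
    · left
      rw [Set.indicator_of_notMem hx] at h1
      rw [h1]
      simp)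
  filter_upwards [key] with x hx
  linarith

/-- `(1-q) ∫|Φ| ≤ ∫_R |g|`. -/
theorem IsSol.integral_abs_le (hP : MOp ν P) {q : ℝ} (hq0 : 0 ≤ q) (hq1 : q < 1)
    {R : Set S} (hR : MeasurableSet R) {g Φ : S → ℝ} (hg : Integrable g ν) (hΦ : Integrable Φ ν)
    (h : IsSol ν P q R g Φ) : (1 - q) * ∫ x, |Φ x| ∂ν ≤ ∫ x in R, |g x| ∂ν := by
  have hPΦ := hP.integrable _ hΦ.abs
  have h1 : ∫ x, |Φ x| ∂ν ≤ ∫ x, (R.indicator (fun x => |g x|) x + q * P (fun y => |Φ y|) x) ∂ν := by
    apply integral_mono_ae hΦ.abs ((hg.abs.indicator hR).add (hPΦ.const_mul q))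
    have hnn := hP.nonneg _ hΦ.abs (Eventually.of_forall fun x => abs_nonneg (Φ x))
    filter_upwards [h, hP.abs_le hΦ, hnn] with x a b c
    by_cases hx : x ∈ R
    · rw [Set.indicator_of_mem hx] at a
      rw [a, Pi.add_apply, Set.indicator_of_mem hx]
      calc |g x + q * P Φ x| ≤ |g x| + |q * P Φ x| := abs_add_le _ _
        _ = |g x| + q * |P Φ x| := by rw [abs_mul, abs_of_nonneg hq0]
        _ ≤ |g x| + q * P (fun y => |Φ y|) x := by
            have := mul_le_mul_of_nonneg_left b hq0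
            linarith
    · rw [Set.indicator_of_notMem hx] at a
      rw [a, Pi.add_apply, Set.indicator_of_notMem hx, abs_zero, zero_add]
      exact mul_nonneg hq0 c
  rw [integral_add (hg.abs.indicator hR) (hPΦ.const_mul q), integral_indicator hR,
    integral_const_mul, hP.integral _ hΦ.abs] at h1
  linarith

/-- `(1-q) ∫Φ = ∫ g` for `R = univ`. -/
theorem IsSol.integral_eq (hP : MOp ν P) {q : ℝ} (hq0 : 0 ≤ q) (hq1 : q < 1)
    {g Φ : S → ℝ} (hg : Integrable g ν) (hΦ : Integrable Φ ν)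
    (h : IsSol ν P q Set.univ g Φ) : (1 - q) * ∫ x, Φ x ∂ν = ∫ x, g x ∂ν := by
  have h1 : ∫ x, Φ x ∂ν = ∫ x, (g x + q * P Φ x) ∂ν := by
    apply integral_congr_ae
    filter_upwards [h] with x a
    rw [Set.indicator_of_mem (Set.mem_univ x)] at a
    exact a
  rw [integral_add hg ((hP.integrable _ hΦ).const_mul q), integral_const_mul,
    hP.integral _ hΦ] at h1
  linarith

theorem basicB_nonneg [IsProbabilityMeasure ν] {g : S → ℝ} {C : ℝ} (hg : ∀ᵐ x ∂ν, |g x| ≤ C) :
    0 ≤ C := by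
  obtain ⟨x, hx⟩ := hg.exists
  exact (abs_nonneg _).trans hx

/-- `|g| ≤ C` implies `(1-q)|Φ| ≤ C`. -/
theorem IsSol.abs_le [IsProbabilityMeasure ν] (hP : MOp ν P) {q : ℝ} (hq0 : 0 ≤ q) (hq1 : q < 1)
    {R : Set S} {g Φ : S → ℝ} (hΦ : Integrable Φ ν) {C : ℝ}
    (h : IsSol ν P q R g Φ) (hg : ∀ᵐ x ∂ν, |g x| ≤ C) : ∀ᵐ x ∂ν, (1 - q) * |Φ x| ≤ C := by
  have hC : 0 ≤ C := basicB_nonneg hg
  have hi1 : Integrable (fun x => (1 - q) * |Φ x|) ν := hΦ.abs.const_mul _
  have hi2 : Integrable (fun _ : S => C) ν := integrable_const C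
  have hW : Integrable (fun x => (1 - q) * |Φ x| - C) ν := hi1.sub hi2
  have e1 := hP.sub' hi1 hi2
  have e2 := hP.const_mul (1 - q) hΦ.abs
  have e3 := hP.const C
  have key := hP.maxPrinciple hq0 hq1 hW (by
    filter_upwards [h, hg, hP.abs_le hΦ, e1, e2, e3] with x a b c d1 d2 d3
    by_cases hx : x ∈ R
    · right
      rw [Set.indicator_of_mem hx] at a
      rw [d1, d2, d3]
      have h1 : |Φ x| ≤ C + q * P (fun y => |Φ y|) x := by
        rw [a]
        calc |g x + q * P Φ x| ≤ |g x| + |q * P Φ x| := abs_add_le _ _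
          _ = |g x| + q * |P Φ x| := by rw [abs_mul, abs_of_nonneg hq0]
          _ ≤ C + q * P (fun y => |Φ y|) x := add_le_add b (mul_le_mul_of_nonneg_left c hq0)
      have h2 := mul_le_mul_of_nonneg_left h1 (sub_nonneg.2 hq1.le)
      calc (1 - q) * |Φ x| - C ≤ (1 - q) * (C + q * P (fun y => |Φ y|) x) - C := by linarith
        _ = q * ((1 - q) * P (fun y => |Φ y|) x - C) := by ring
    · left
      rw [Set.indicator_of_notMem hx] at a
      rw [a, abs_zero, mul_zero]
      linarith)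
  filter_upwards [key] with x hx
  linarith

/-- Exit functions exist: `e = 1 - (1-q) n` with `n = 1 + q P n` on `R`, `n = 0` off `R`. -/
theorem exists_exit [IsProbabilityMeasure ν] (hP : MOp ν P) {q : ℝ} (hq0 : 0 ≤ q) (hq1 : q < 1)
    {R : Set S} (hR : MeasurableSet R) : ∃ e : S → ℝ, Measurable e ∧ IsExit ν P q R e := by
  have h1int : Integrable (fun _ : S => (1 : ℝ)) ν := integrable_const 1
  obtain ⟨n, hn1, hn2, hn3⟩ := exists_sol hP hq0 hq1 hR h1int
  have hnn := IsSol.nonneg hP hq0 hq1 hn2 hn3 (Eventually.of_forall fun _ => zero_le_one)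
  have hle := IsSol.abs_le hP hq0 hq1 hn2 hn3 (C := 1)
    (Eventually.of_forall fun _ => by rw [abs_one])
  have hi : Integrable (fun x => (1 - q) * n x) ν := hn2.const_mul _
  refine ⟨fun x => 1 - (1 - q) * n x, measurable_const.sub (hn1.const_mul _), ?_, ?_, ?_, ?_, ?_⟩
  · exact h1int.sub hi
  · filter_upwards [hnn, hle] with x a b
    rw [abs_of_nonneg a] at b
    linarith
  · filter_upwards [hnn] with x a
    have := mul_nonneg (sub_nonneg.2 hq1.le) a
    linarith
  · filter_upwards [hn3] with x a hx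
    rw [Set.indicator_of_notMem hx] at a
    rw [a, mul_zero, sub_zero]
  · have e1 := hP.sub' h1int hi
    have e2 := hP.const_mul (1 - q) hn2
    have e3 := hP.const 1
    filter_upwards [hn3, e1, e2, e3] with x a d1 d2 d3 hx
    rw [Set.indicator_of_mem hx] at a
    rw [d1, d2, d3, a]
    ring

theorem basicB_n {q : ℝ} (hq1 : q < 1) [IsProbabilityMeasure ν] (hP : MOp ν P)
    {R : Set S} {e : S → ℝ} (he : IsExit ν P q R e) :
    (∀ᵐ x ∂ν, x ∈ R → (1 - e x) / (1 - q) = 1 + q * P (fun y => (1 - e y) / (1 - q)) x) ∧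
    (∀ᵐ x ∂ν, x ∉ R → (1 - e x) / (1 - q) = 0) ∧
    (∀ᵐ x ∂ν, |(1 - e x) / (1 - q)| ≤ 1 / (1 - q)) ∧
    Integrable (fun x => (1 - e x) / (1 - q)) ν := by
  have hq : 0 < 1 - q := by linarith
  have h1int : Integrable (fun _ : S => (1 : ℝ)) ν := integrable_const 1
  have hi : Integrable (fun x => 1 - e x) ν := h1int.sub he.integrable
  refine ⟨?_, ?_, ?_, hi.div_const _⟩
  · have e1 := hP.sub' h1int he.integrable
    have e2 := hP.const_mul (1 - q)⁻¹ hi
    have e3 := hP.const 1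
    have e4 : (fun y => (1 - e y) / (1 - q)) = fun y => (1 - q)⁻¹ * (1 - e y) := by
      funext y
      rw [div_eq_inv_mul]
    rw [e4]
    filter_upwards [he.on, e1, e2, e3] with x a d1 d2 d3 hx
    rw [d2, d1, d3]
    have h2 := a hx
    have h3 : q * ((1 - q)⁻¹ * (1 - P e x)) = (1 - q)⁻¹ * (q - q * P e x) := by ring
    rw [h3, ← h2]
    field_simp
    ring
  · filter_upwards [he.off] with x a hx
    rw [a hx, sub_self, zero_div]
  · filter_upwards [he.nonneg, he.le_one] with x a b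
    rw [abs_of_nonneg (div_nonneg (by linarith) hq.le)]
    apply div_le_div_of_nonneg_right _ hq.le
    linarith

/-- The integrated exit probability is the same for the forward and the backward chain. -/
theorem IsExit.integral_symm [IsProbabilityMeasure ν] (hP : Pair ν P P') {q : ℝ} (hq0 : 0 ≤ q)
    (hq1 : q < 1) {R : Set S} (hR : MeasurableSet R) {e e' : S → ℝ} (he : IsExit ν P q R e)
    (he' : IsExit ν P' q R e') : ∫ x in R, e x ∂ν = ∫ x in R, e' x ∂ν := by
  have hq : 0 < 1 - q := by linarith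
  obtain ⟨a1, a2, a3, a4⟩ := basicB_n hq1 hP.left he
  obtain ⟨b1, b2, b3, b4⟩ := basicB_n hq1 hP.right he'
  set n : S → ℝ := fun x => (1 - e x) / (1 - q) with hn
  set n' : S → ℝ := fun x => (1 - e' x) / (1 - q) with hn'
  have hPn := hP.left.integrable n a4
  have hPn' := hP.right.integrable n' b4
  have iA : Integrable (fun x => n x * n' x) ν := by
    refine Integrable.mul_bdd (c := 1 / (1 - q)) a4 b4.aestronglyMeasurable ?_
    filter_upwards [b3] with x hx
    rw [Real.norm_eq_abs]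
    exact hx
  have iB : Integrable (fun x => P n x * n' x) ν := by
    refine Integrable.mul_bdd (c := 1 / (1 - q)) hPn b4.aestronglyMeasurable ?_
    filter_upwards [b3] with x hx
    rw [Real.norm_eq_abs]
    exact hx
  have iC : Integrable (fun x => n x * P' n' x) ν := by
    refine Integrable.bdd_mul (c := 1 / (1 - q)) hPn' a4.aestronglyMeasurable ?_
    filter_upwards [a3] with x hx
    rw [Real.norm_eq_abs]
    exact hx
  have hadj := hP.adj1 n n' a4 b4.aestronglyMeasurable ⟨1 / (1 - q), b3⟩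
  have h1 : ∫ x, n x ∂ν = ∫ x, (n x * n' x - q * (n x * P' n' x)) ∂ν := by
    apply integral_congr_ae
    filter_upwards [a2, b1] with x c1 c2
    by_cases hx : x ∈ R
    · have h3 : n' x = 1 + q * P' n' x := c2 hx
      have : n x * n' x - q * (n x * P' n' x) = n x * (n' x - q * P' n' x) := by ring
      rw [this]
      rw [h3]
      ring
    · have h3 : n x = 0 := c1 hx
      rw [h3]
      ring
  have h2 : ∫ x, n' x ∂ν = ∫ x, (n x * n' x - q * (P n x * n' x)) ∂ν := by
    apply integral_congr_ae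
    filter_upwards [a1, b2] with x c1 c2
    by_cases hx : x ∈ R
    · have h3 : n x = 1 + q * P n x := c1 hx
      have : n x * n' x - q * (P n x * n' x) = (n x - q * P n x) * n' x := by ring
      rw [this]
      rw [h3]
      ring
    · have h3 : n' x = 0 := c2 hx
      rw [h3]
      ring
  rw [integral_sub iA (iC.const_mul q), integral_const_mul, ← hadj] at h1
  rw [integral_sub iA (iB.const_mul q), integral_const_mul] at h2
  have h3 : ∫ x, n x ∂ν = ∫ x, n' x ∂ν := h1.trans h2.symm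
  -- back to the exit functions
  have back : ∀ (e : S → ℝ), Integrable e ν → (∀ᵐ x ∂ν, x ∉ R → (1 - e x) / (1 - q) = 0) →
      ∫ x in R, e x ∂ν = ν.real R - (1 - q) * ∫ x, (1 - e x) / (1 - q) ∂ν := by
    intro e hei hoff
    have h4 : ∫ x, (1 - e x) / (1 - q) ∂ν = ∫ x in R, (1 - e x) / (1 - q) ∂ν := by
      rw [← integral_indicator hR]
      apply integral_congr_ae
      filter_upwards [hoff] with x hx
      by_cases hxR : x ∈ R
      · rw [Set.indicator_of_mem hxR]
      · rw [Set.indicator_of_notMem hxR, hx hxR]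
    rw [h4, integral_div, integral_sub (integrable_const 1) hei.integrableOn]
    rw [integral_const, measureReal_restrict_apply_univ]
    field_simp
    simp
  rw [back e he.integrable a2, back e' he'.integrable b2]
  have h3' : ∫ x, (1 - e x) / (1 - q) ∂ν = ∫ x, (1 - e' x) / (1 - q) ∂ν := h3
  rw [h3']

/-- Exit functions are antitone in the set. -/
theorem IsExit.antitone (hP : MOp ν P) {q : ℝ} (hq0 : 0 ≤ q) (hq1 : q < 1) {R Ξ : Set S}
    (hRΞ : R ⊆ Ξ) {e e' : S → ℝ} (he : IsExit ν P q R e) (he' : IsExit ν P q Ξ e') :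
    ∀ᵐ x ∂ν, e' x ≤ e x := by
  have hW : Integrable (fun x => e' x - e x) ν := he'.integrable.sub he.integrable
  have hsub := hP.sub' he'.integrable he.integrable
  have key := hP.maxPrinciple hq0 hq1 hW (by
    filter_upwards [he.on, he.off, he'.on, he'.off, he'.le_one, hsub] with x a1 a2 b1 b2 b3 c
    by_cases hx : x ∈ R
    · right
      rw [c]
      have e1 := a1 hx
      have e2 := b1 (hRΞ hx)
      linarith
    · left
      rw [a2 hx]
      linarith)
  filter_upwards [key] with x hx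
  linarith

/-- `∫_Ξ e_Ξ ≤ ∫_R e_R + ν(Ξ \ R)` for `R ⊆ Ξ`. -/
theorem IsExit.integral_le [IsProbabilityMeasure ν] (hP : MOp ν P) {q : ℝ} (hq0 : 0 ≤ q)
    (hq1 : q < 1) {R Ξ : Set S} (hR : MeasurableSet R) (hΞ : MeasurableSet Ξ)
    (hRΞ : R ⊆ Ξ) {e e' : S → ℝ} (he : IsExit ν P q R e) (he' : IsExit ν P q Ξ e') :
    ∫ x in Ξ, e' x ∂ν ≤ ∫ x in R, e x ∂ν + ν.real (Ξ \ R) := by
  have hD : MeasurableSet (Ξ \ R) := hΞ.diff hR
  have h1 : ∫ x in Ξ, e' x ∂ν = ∫ x in R, e' x ∂ν + ∫ x in Ξ \ R, e' x ∂ν := by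
    rw [← setIntegral_union Set.disjoint_sdiff_right hD he'.integrable.integrableOn
      he'.integrable.integrableOn, Set.union_sdiff_cancel hRΞ]
  rw [h1]
  apply add_le_add
  · apply integral_mono_ae he'.integrable.integrableOn he.integrable.integrableOn
    exact ae_restrict_of_ae (IsExit.antitone hP hq0 hq1 hRΞ he he')
  · have h2 : ∫ x in Ξ \ R, e' x ∂ν ≤ ∫ _x in Ξ \ R, (1 : ℝ) ∂ν := by
      apply integral_mono_ae he'.integrable.integrableOn (integrable_const 1)
      exact ae_restrict_of_ae he'.le_one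
    rw [integral_const, measureReal_restrict_apply_univ, smul_eq_mul, mul_one] at h2
    exact h2

theorem IsExit.integral_le_measure [IsProbabilityMeasure ν] {q : ℝ} {R : Set S}
    (hR : MeasurableSet R) {e : S → ℝ} (he : IsExit ν P q R e) :
    ∫ x in R, e x ∂ν ≤ ν.real R := by
  have h2 : ∫ x in R, e x ∂ν ≤ ∫ _x in R, (1 : ℝ) ∂ν := by
    apply integral_mono_ae he.integrable.integrableOn (integrable_const 1)
    exact ae_restrict_of_ae he.le_one
  rw [integral_const, measureReal_restrict_apply_univ, smul_eq_mul, mul_one] at h2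
  exact h2

end Pool.NH23.MC
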