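import Mathlib

/-!
# Project MC (MP_bedcbf_pr, S19611): CLT for Markov chains with square summable forward and
backward projections.  Definitions.
-/

set_option autoImplicit false
open MeasureTheory ProbabilityTheory Filter Topology

namespace Pool.NH23.MC

variable {S : Type} [MeasurableSpace S]

/-- A doubly stochastic (Markov) operator on `L¹(ν)`, acting on functions `S → ℝ`. -/
structure MOp (ν : Measure S) (P : (S → ℝ) → (S → ℝ)) : Prop where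
  integrable : ∀ g, Integrable g ν → Integrable (P g) ν
  congr : ∀ g h, Integrable g ν → g =ᵐ[ν] h → P g =ᵐ[ν] P h
  add : ∀ g h, Integrable g ν → Integrable h ν → P (g + h) =ᵐ[ν] P g + P h
  smul : ∀ (c : ℝ) (g : S → ℝ), Integrable g ν → P (c • g) =ᵐ[ν] c • P g
  nonneg : ∀ g, Integrable g ν → 0 ≤ᵐ[ν] g → 0 ≤ᵐ[ν] P g
  one : P (fun _ => 1) =ᵐ[ν] fun _ => 1
  integral : ∀ g, Integrable g ν → ∫ x, P g x ∂ν = ∫ x, g x ∂ν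

/-- An adjoint pair of Markov operators. -/
structure Pair (ν : Measure S) (P P' : (S → ℝ) → (S → ℝ)) : Prop where
  left : MOp ν P
  right : MOp ν P'
  adj : ∀ g h, MemLp g 2 ν → MemLp h 2 ν → ∫ x, P g x * h x ∂ν = ∫ x, g x * P' h x ∂ν
  adj1 : ∀ g h, Integrable g ν → AEStronglyMeasurable h ν → (∃ C : ℝ, ∀ᵐ x ∂ν, |h x| ≤ C) →
    ∫ x, P g x * h x ∂ν = ∫ x, g x * P' h x ∂ν
  adj1' : ∀ g h, Integrable g ν → AEStronglyMeasurable h ν → (∃ C : ℝ, ∀ᵐ x ∂ν, |h x| ≤ C) →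
    ∫ x, P' g x * h x ∂ν = ∫ x, g x * P h x ∂ν

theorem Pair.symm {ν : Measure S} {P P' : (S → ℝ) → (S → ℝ)} (h : Pair ν P P') : Pair ν P' P where
  left := h.right
  right := h.left
  adj := fun g k hg hk => by
    have := h.adj k g hk hg
    calc ∫ x, P' g x * k x ∂ν = ∫ x, k x * P' g x ∂ν := by congr 1; ext x; ring
      _ = ∫ x, P k x * g x ∂ν := this.symm
      _ = ∫ x, g x * P k x ∂ν := by congr 1; ext x; ring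
  adj1 := h.adj1'
  adj1' := h.adj1

/-- The carre du champ `Γ(g) = P(g²) - (P g)²` (conditional variance of `g(ξ₁)` given `ξ₀`). -/
def Gam (P : (S → ℝ) → (S → ℝ)) (g : S → ℝ) : S → ℝ :=
  fun x => P (fun y => g y ^ 2) x - (P g x) ^ 2

/-- `Φ` solves `Φ = g + q P Φ` on `R`, `Φ = 0` off `R`. -/
def IsSol (ν : Measure S) (P : (S → ℝ) → (S → ℝ)) (q : ℝ) (R : Set S) (g Φ : S → ℝ) : Prop :=
  Φ =ᵐ[ν] R.indicator (fun x => g x + q * P Φ x)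

/-- `e` is the exit function of `R` for the operator `q P`: the probability that the chain leaves `R`
before an independent geometric time. -/
structure IsExit (ν : Measure S) (P : (S → ℝ) → (S → ℝ)) (q : ℝ) (R : Set S) (e : S → ℝ) :
    Prop where
  integrable : Integrable e ν
  nonneg : ∀ᵐ x ∂ν, 0 ≤ e x
  le_one : ∀ᵐ x ∂ν, e x ≤ 1
  off : ∀ᵐ x ∂ν, x ∉ R → e x = 1
  on : ∀ᵐ x ∂ν, x ∈ R → e x = q * P e x

/-- The standing hypotheses. -/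
structure Ctx (ν : Measure S) (P P' : (S → ℝ) → (S → ℝ)) (f : S → ℝ) : Prop where
  pair : Pair ν P P'
  f2 : MemLp f 2 ν
  sum : Summable (fun k : ℕ => ∫ x, (P^[k] f x) ^ 2 ∂ν)
  sum' : Summable (fun k : ℕ => ∫ x, (P'^[k] f x) ^ 2 ∂ν)
  erg : ∀ g : S → ℝ, MemLp g 2 ν → Tendsto (fun T : ℕ => ∫ x, ((T : ℝ)⁻¹ *
    (∑ t ∈ Finset.range T, P^[t] g x) - ∫ y, g y ∂ν) ^ 2 ∂ν) atTop (𝓝 0)

/-- The data delivered by the rate lemma. -/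
structure RateData (ν : Measure S) (P : (S → ℝ) → (S → ℝ)) (f : S → ℝ)
    (H w : S → ℝ) (o : ℝ → ℝ) (M : ℝ) : Prop where
  Hmeas : Measurable H
  Hint : Integrable H ν
  Hnn : ∀ x, 0 ≤ H x
  wint : Integrable w ν
  wle : ∀ᵐ x ∂ν, |w x| ≤ 3 * H x
  o_lim : Tendsto o (𝓝[<] 1) (𝓝 0)
  o_le : ∀ q : ℝ, 0 ≤ q → q < 1 → o q ≤ M
  Mnn : 0 ≤ M
  rate : ∀ q : ℝ, 0 ≤ q → q < 1 → ∀ Ξ : Set S, MeasurableSet Ξ → ∀ K : ℝ, 0 ≤ K →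
      (∀ᵐ x ∂ν, x ∉ Ξ → H x ≤ K) →
      ∀ ρ : S → ℝ, MemLp ρ 2 ν → IsSol ν P q Ξ f ρ →
      ∀ e : S → ℝ, IsExit ν P q Ξ e →
      |∫ x, ρ x ^ 2 ∂ν - q ^ 2 * ∫ x in Ξ, (P ρ x) ^ 2 ∂ν - ∫ x in Ξ, w x ∂ν| ≤
        o q + M * (Real.sqrt (K * ∫ x in Ξ, e x ∂ν) + K * ∫ x in Ξ, e x ∂ν)

/-- Interface between the operator part and the path part: everything the CLT needs. -/
structure Iface (ν : Measure S) (P : (S → ℝ) → (S → ℝ)) (f : S → ℝ) (V C₀ : ℝ) : Prop where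
  Vnn : 0 ≤ V
  f2 : MemLp f 2 ν
  /-- existence of resolvents -/
  ex : ∀ q : ℝ, 0 ≤ q → q < 1 → ∃ r : S → ℝ, Measurable r ∧ MemLp r 2 ν ∧ IsSol ν P q Set.univ f r
  /-- (I2) `(1-q) ‖r_q‖² → 0` -/
  small : ∀ ε : ℝ, 0 < ε → ∃ q₀ : ℝ, q₀ < 1 ∧ ∀ q : ℝ, q₀ < q → 0 ≤ q → q < 1 → ∀ r : S → ℝ,
    MemLp r 2 ν → IsSol ν P q Set.univ f r → (1 - q) * ∫ x, r x ^ 2 ∂ν ≤ ε
  /-- (I6) bounded energies -/
  energy : ∀ q : ℝ, 0 ≤ q → q < 1 → ∀ r : S → ℝ, MemLp r 2 ν → IsSol ν P q Set.univ f r →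
    ∫ x, r x ^ 2 ∂ν - ∫ x, (P r x) ^ 2 ∂ν ≤ C₀
  /-- (I3) Lindeberg decomposition -/
  lind : ∀ ε M : ℝ, 0 < ε → 0 < M → ∃ q₀ : ℝ, q₀ < 1 ∧ ∀ q : ℝ, q₀ < q → 0 ≤ q → q < 1 →
    ∀ r : S → ℝ, Measurable r → MemLp r 2 ν → IsSol ν P q Set.univ f r →
    ∃ ρ : S → ℝ, MemLp ρ 2 ν ∧ (∀ᵐ x ∂ν, |r x - ρ x| ≤ M / Real.sqrt (1 - q)) ∧
      ∫ x, ρ x ^ 2 ∂ν - ∫ x, (P ρ x) ^ 2 ∂ν ≤ ε
  /-- (I4) domination -/
  dom : ∀ ε : ℝ, 0 < ε → ∃ C : ℝ, 0 ≤ C ∧ ∃ q₀ : ℝ, q₀ < 1 ∧ ∀ q : ℝ, q₀ < q → 0 ≤ q → q < 1 →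
    ∀ r : S → ℝ, Measurable r → MemLp r 2 ν → IsSol ν P q Set.univ f r →
    ∃ ψ D : S → ℝ, Integrable ψ ν ∧ Integrable D ν ∧ (∀ᵐ x ∂ν, 0 ≤ ψ x) ∧ (∀ᵐ x ∂ν, 0 ≤ D x) ∧
      ∫ x, ψ x ∂ν ≤ ε ∧ ∀ᵐ x ∂ν, D x = C + ψ x - Gam P r x + q * P D x
  /-- (I5) law of large numbers for the conditional variances -/
  lln : ∀ ε : ℝ, 0 < ε → ∃ q₀ : ℝ, q₀ < 1 ∧ ∀ q : ℝ, q₀ < q → 0 ≤ q → q < 1 →
    ∀ r : S → ℝ, Measurable r → MemLp r 2 ν → IsSol ν P q Set.univ f r →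
    ∃ z : S → ℝ, Integrable z ν ∧ ∫ x, |z x| ∂ν ≤ ε ∧
      ∀ᵐ x ∂ν, z x = (1 - q) * (Gam P r x - V) + q * P z x

/-- A stationary Markov chain for the operator `P` w.r.t. a filtration. -/
structure Path {Ω : Type} {mΩ : MeasurableSpace Ω} (μ : Measure Ω) (ν : Measure S)
    (P : (S → ℝ) → (S → ℝ)) (ℱ : Filtration ℕ mΩ) (X : ℕ → Ω → S) : Prop where
  meas : ∀ i, Measurable (X i)
  adapted : ∀ i, Measurable[ℱ i] (X i)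
  law : ∀ i, μ.map (X i) = ν
  markov : ∀ i, ∀ g : S → ℝ, Integrable g ν →
    μ[fun ω => g (X (i + 1) ω) | ℱ i] =ᵐ[μ] fun ω => P g (X i ω)

/-- The martingale `M_j = ∑_{i<j} (r(X_{i+1}) - P r (X_i))`. -/
def Mart {Ω : Type} (P : (S → ℝ) → (S → ℝ)) (r : S → ℝ) (X : ℕ → Ω → S) (j : ℕ) (ω : Ω) : ℝ :=
  ∑ i ∈ Finset.range j, (r (X (i + 1) ω) - P r (X i ω))

end Pool.NH23.MC
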