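import Pool.Agent.NH23.MC.BasicB

set_option autoImplicit false
open MeasureTheory ProbabilityTheory Filter Topology

namespace Pool.NH23.MC

variable {S : Type} [MeasurableSpace S] {ν : Measure S} {P : (S → ℝ) → (S → ℝ)}

/-- `η = r - ρ` satisfies `η = q P η` on `Ξ` and `η = r` off `Ξ`. -/
theorem dom_eta [IsProbabilityMeasure ν] (hP : MOp ν P) {q : ℝ} {f r ρ : S → ℝ} {Ξ : Set S}
    (hr : MemLp r 2 ν) (hρ : MemLp ρ 2 ν)
    (hrs : IsSol ν P q Set.univ f r) (hρs : IsSol ν P q Ξ f ρ) :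
    (∀ᵐ x ∂ν, x ∈ Ξ → r x - ρ x = q * P (fun y => r y - ρ y) x) ∧
      ∀ᵐ x ∂ν, x ∉ Ξ → ρ x = 0 := by
  have hri := hr.integrable (by norm_num)
  have hρi := hρ.integrable (by norm_num)
  have h1 := hP.sub' hri hρi
  unfold IsSol at hrs hρs
  constructor
  · filter_upwards [hrs, hρs, h1] with x h2 h3 h4 hx
    rw [Set.indicator_of_mem (Set.mem_univ x)] at h2
    rw [Set.indicator_of_mem hx] at h3
    rw [h4, h2, h3]
    ring
  · filter_upwards [hρs] with x h3 hx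
    rw [h3, Set.indicator_of_notMem hx]

/-- The key pointwise inequality on `Ξ`. -/
theorem dom_key [IsProbabilityMeasure ν] (hP : MOp ν P) {q : ℝ} (hq0 : 1 / 2 ≤ q) (hq1 : q < 1)
    {f r ρ u : S → ℝ} {Ξ : Set S} {δ : ℝ} (hδ : 0 < δ)
    (hr : MemLp r 2 ν) (hρ : MemLp ρ 2 ν)
    (hrs : IsSol ν P q Set.univ f r) (hρs : IsSol ν P q Ξ f ρ)
    (hus : IsSol ν P q Set.univ (Gam P r) u) :
    ∀ᵐ x ∂ν, x ∈ Ξ → u x + (1 + δ⁻¹) / q * (r x - ρ x) ^ 2 ≤ (1 + δ) * Gam P ρ x + q * P u x +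
      q * ((1 + δ⁻¹) / q * P (fun y => (r y - ρ y) ^ 2) x) := by
  have hq : 0 < q := by linarith
  have hη : MemLp (fun y => r y - ρ y) 2 ν := hr.sub hρ
  have h1 := hP.gam_split (g := r) (h := ρ) (k := fun y => r y - ρ y) hr hρ hη
    (Eventually.of_forall fun x => by simp) hδ
  obtain ⟨h2, -⟩ := dom_eta hP hr hρ hrs hρs
  unfold IsSol at hus
  filter_upwards [h1, h2, hus] with x h3 h4 h5 hx
  have h4' := h4 hx
  rw [Set.indicator_of_mem (Set.mem_univ x)] at h5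
  have h6 : Gam P (fun y => r y - ρ y) x = P (fun y => (r y - ρ y) ^ 2) x -
    (P (fun y => r y - ρ y) x) ^ 2 := rfl
  rw [h5, h4']
  rw [h6] at h3
  set a := P (fun y => r y - ρ y) x
  set b := P (fun y => (r y - ρ y) ^ 2) x
  have hd : 0 < 1 + δ⁻¹ := by positivity
  have e1 : (1 + δ⁻¹) / q * (q * a) ^ 2 = (1 + δ⁻¹) * (q * a ^ 2) := by
    field_simp
  have e2 : q * ((1 + δ⁻¹) / q * b) = (1 + δ⁻¹) * b := by
    field_simp
  rw [e1, e2]
  have e3 : (1 + δ⁻¹) * (q * a ^ 2) ≤ (1 + δ⁻¹) * a ^ 2 := by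
    apply mul_le_mul_of_nonneg_left _ hd.le
    nlinarith [sq_nonneg a]
  linarith

/-- The pointwise killed domination.  `u = Γ(r) + q P u`, `Φ = Γ(ρ) + q P Φ` on `Ξ`, `Φ = 0` off `Ξ`;
`η = r - ρ`.  Then `W = u + c η² - (1+δ) Φ - (1+c) B e ≤ 0`, `c = (1+1/δ)/q`. -/
theorem dom_killed [IsProbabilityMeasure ν] (hP : MOp ν P) {q : ℝ} (hq0 : 1 / 2 ≤ q) (hq1 : q < 1)
    {f r ρ u Φ e : S → ℝ} {Ξ : Set S} (hΞ : MeasurableSet Ξ) {B δ : ℝ} (hB : 0 ≤ B) (hδ : 0 < δ)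
    (hf : MemLp f 2 ν) (hr : MemLp r 2 ν) (hρ : MemLp ρ 2 ν)
    (hrs : IsSol ν P q Set.univ f r) (hρs : IsSol ν P q Ξ f ρ)
    (hu : Integrable u ν) (hus : IsSol ν P q Set.univ (Gam P r) u)
    (hoff : ∀ᵐ x ∂ν, x ∉ Ξ → u x ≤ B ∧ r x ^ 2 ≤ B)
    (hΦ : Integrable Φ ν) (hΦs : IsSol ν P q Ξ (Gam P ρ) Φ) (he : IsExit ν P q Ξ e) :
    ∀ᵐ x ∂ν, x ∈ Ξ → u x ≤ (1 + δ) * Φ x + (3 + 2 / δ) * B * e x := by
  have hq : 0 < q := by linarith
  have hη : MemLp (fun y => r y - ρ y) 2 ν := hr.sub hρ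
  have hη2 : Integrable (fun y => (r y - ρ y) ^ 2) ν := hη.integrable_sq
  have hk := dom_key hP hq0 hq1 hδ hr hρ hrs hρs hus
  obtain ⟨-, hρ0⟩ := dom_eta hP hr hρ hrs hρs
  set c : ℝ := (1 + δ⁻¹) / q with hc
  have hc0 : 0 ≤ c := by positivity
  have i1 : Integrable (fun x => c * (r x - ρ x) ^ 2) ν := hη2.const_mul c
  have i2 : Integrable (fun x => (1 + δ) * Φ x) ν := hΦ.const_mul _
  have i3 : Integrable (fun x => (1 + c) * B * e x) ν := he.integrable.const_mul _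
  have i4 : Integrable (fun x => u x + c * (r x - ρ x) ^ 2) ν := hu.add i1
  have i5 : Integrable (fun x => u x + c * (r x - ρ x) ^ 2 - (1 + δ) * Φ x) ν := i4.sub i2
  have p1 := hP.const_mul c hη2
  have p2 := hP.const_mul (1 + δ) hΦ
  have p3 := hP.const_mul ((1 + c) * B) he.integrable
  have p4 := hP.add' hu i1
  have p5 := hP.sub' i4 i2
  have p6 := hP.sub' i5 i3
  have hW : ∀ᵐ x ∂ν, u x + c * (r x - ρ x) ^ 2 - (1 + δ) * Φ x - (1 + c) * B * e x ≤ 0 := by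
    refine hP.maxPrinciple hq.le hq1 (i5.sub i3) ?_
    unfold IsSol at hΦs
    filter_upwards [p1, p2, p3, p4, p5, p6, hk, hρ0, hoff, hΦs, he.on, he.off] with x q1 q2 q3 q4
      q5 q6 hkx hρx hoffx hΦx hon heoff
    by_cases hx : x ∈ Ξ
    · right
      rw [Set.indicator_of_mem hx] at hΦx
      have h1 := hkx hx
      have h2 := hon hx
      have h3 : P (fun x => u x + c * (r x - ρ x) ^ 2 - (1 + δ) * Φ x - (1 + c) * B * e x) x =
          P u x + c * P (fun y => (r y - ρ y) ^ 2) x - (1 + δ) * P Φ x - (1 + c) * B * P e x := by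
        rw [q6, q5, q4, q1, q2, q3]
      rw [h3]
      have h5 : (1 + c) * B * e x = q * ((1 + c) * B * P e x) := by
        rw [h2]
        ring
      have h6 : (1 + δ) * Φ x = (1 + δ) * Gam P ρ x + q * ((1 + δ) * P Φ x) := by
        rw [hΦx]
        ring
      nlinarith
    · left
      have h1 := hρx hx
      obtain ⟨h2, h3⟩ := hoffx hx
      have h4 := heoff hx
      rw [Set.indicator_of_notMem hx] at hΦx
      rw [h1, h4, hΦx]
      nlinarith [mul_le_mul_of_nonneg_left h3 hc0]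
  have hc2 : 1 + c ≤ 3 + 2 / δ := by
    have h1 : c ≤ (1 + δ⁻¹) * 2 := by
      rw [hc, div_le_iff₀ hq]
      have : 0 < 1 + δ⁻¹ := by positivity
      nlinarith
    have h2 : (1 + δ⁻¹) * 2 = 2 + 2 / δ := by
      field_simp
    linarith
  filter_upwards [hW, he.nonneg] with x h1 h2 _
  have h3 : 0 ≤ c * (r x - ρ x) ^ 2 := by positivity
  have h4 : (1 + c) * B * e x ≤ (3 + 2 / δ) * B * e x := by
    have := mul_nonneg hB h2
    nlinarith
  linarith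

/-- Integrated form over `R ⊆ Ξ`. -/
theorem dom_set [IsProbabilityMeasure ν] (hP : MOp ν P) {q : ℝ} (hq0 : 1 / 2 ≤ q) (hq1 : q < 1)
    {f r ρ u e : S → ℝ} {R Ξ : Set S} (hR : MeasurableSet R) (hΞ : MeasurableSet Ξ) (hRΞ : R ⊆ Ξ)
    {B δ : ℝ} (hB : 0 ≤ B) (hδ : 0 < δ)
    (hf : MemLp f 2 ν) (hr : MemLp r 2 ν) (hρ : MemLp ρ 2 ν)
    (hrs : IsSol ν P q Set.univ f r) (hρs : IsSol ν P q Ξ f ρ)
    (hu : Integrable u ν) (hus : IsSol ν P q Set.univ (Gam P r) u)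
    (hoff : ∀ᵐ x ∂ν, x ∉ Ξ → u x ≤ B ∧ r x ^ 2 ≤ B) (he : IsExit ν P q R e) :
    (1 - q) * ∫ x in R, u x ∂ν ≤
      (1 + δ) * (∫ x, ρ x ^ 2 ∂ν - q ^ 2 * ∫ x in Ξ, (P ρ x) ^ 2 ∂ν) +
        (3 + 2 / δ) * ((1 - q) * B) * ∫ x in R, e x ∂ν := by
  have hq : 0 < q := by linarith
  obtain ⟨e', -, he'⟩ := exists_exit hP hq.le hq1 hΞ
  have hG := hP.gam_integrable hρ
  have hG0 := hP.gam_nonneg hρ
  obtain ⟨Φ, -, hΦ, hΦs⟩ := exists_sol hP hq.le hq1 hΞ hG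
  have hΦ0 := hΦs.nonneg hP hq.le hq1 hΦ hG0
  have h1 := dom_killed hP hq0 hq1 hΞ hB hδ hf hr hρ hrs hρs hu hus hoff hΦ hΦs he'
  have h2 := IsExit.antitone hP hq.le hq1 hRΞ he he'
  have h3 : ∫ x in R, u x ∂ν ≤ (1 + δ) * ∫ x in R, Φ x ∂ν + (3 + 2 / δ) * B * ∫ x in R, e x ∂ν := by
    rw [← integral_const_mul, ← integral_const_mul, ← integral_add
      (hΦ.integrableOn.const_mul _) (he.integrable.integrableOn.const_mul _)]
    refine setIntegral_mono_on_ae hu.integrableOn ((hΦ.integrableOn.const_mul _).add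
      (he.integrable.integrableOn.const_mul _)) hR ?_
    filter_upwards [h1, h2] with x h4 h5 hx
    have h6 : (3 + 2 / δ) * B * e' x ≤ (3 + 2 / δ) * B * e x :=
      mul_le_mul_of_nonneg_left h5 (by positivity)
    have := h4 (hRΞ hx)
    linarith
  have h4 : ∫ x in R, Φ x ∂ν ≤ ∫ x, Φ x ∂ν :=
    setIntegral_le_integral hΦ hΦ0
  have h5 : (1 - q) * ∫ x, Φ x ∂ν ≤ ∫ x, ρ x ^ 2 ∂ν - q ^ 2 * ∫ x in Ξ, (P ρ x) ^ 2 ∂ν := by
    have h6 := hΦs.integral_abs_le hP hq.le hq1 hΞ hG hΦ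
    have h7 : ∫ x, |Φ x| ∂ν = ∫ x, Φ x ∂ν := by
      refine integral_congr_ae ?_
      filter_upwards [hΦ0] with x hx
      exact abs_of_nonneg hx
    have h8 : ∫ x in Ξ, |Gam P ρ x| ∂ν = ∫ x in Ξ, Gam P ρ x ∂ν := by
      refine integral_congr_ae ?_
      filter_upwards [ae_restrict_of_ae hG0] with x hx
      exact abs_of_nonneg hx
    rw [h7, h8] at h6
    exact h6.trans (hP.setIntegral_gam_le hρ hΞ hq.le hq1.le)
  have hq2 : 0 ≤ 1 - q := by linarith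
  calc (1 - q) * ∫ x in R, u x ∂ν
      ≤ (1 - q) * ((1 + δ) * ∫ x in R, Φ x ∂ν + (3 + 2 / δ) * B * ∫ x in R, e x ∂ν) :=
        mul_le_mul_of_nonneg_left h3 hq2
    _ = (1 + δ) * ((1 - q) * ∫ x in R, Φ x ∂ν) +
        (3 + 2 / δ) * ((1 - q) * B) * ∫ x in R, e x ∂ν := by ring
    _ ≤ (1 + δ) * ((1 - q) * ∫ x, Φ x ∂ν) +
        (3 + 2 / δ) * ((1 - q) * B) * ∫ x in R, e x ∂ν := by
        gcongr
    _ ≤ _ := by
        gcongr

/-- Unkilled domination.  `D = 2 Φ' + 5 B - u` with `Φ' = χ Γ(ρ) + q P Φ'`, `ψ = 2 χ Γ(ρ)`. -/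
theorem dom_free [IsProbabilityMeasure ν] (hP : MOp ν P) {q : ℝ} (hq0 : 1 / 2 ≤ q) (hq1 : q < 1)
    {f r ρ u : S → ℝ} {Ξ : Set S} (hΞ : MeasurableSet Ξ) {B : ℝ} (hB : 0 ≤ B)
    (hf : MemLp f 2 ν) (hr : MemLp r 2 ν) (hρ : MemLp ρ 2 ν)
    (hrs : IsSol ν P q Set.univ f r) (hρs : IsSol ν P q Ξ f ρ)
    (hu : Integrable u ν) (hus : IsSol ν P q Set.univ (Gam P r) u)
    (hoff : ∀ᵐ x ∂ν, x ∉ Ξ → u x ≤ B ∧ r x ^ 2 ≤ B) :
    ∃ ψ D : S → ℝ, Integrable ψ ν ∧ Integrable D ν ∧ (∀ᵐ x ∂ν, 0 ≤ ψ x) ∧ (∀ᵐ x ∂ν, 0 ≤ D x) ∧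
      ∫ x, ψ x ∂ν ≤ 2 * (∫ x, ρ x ^ 2 ∂ν - q ^ 2 * ∫ x in Ξ, (P ρ x) ^ 2 ∂ν) ∧
      ∀ᵐ x ∂ν, D x = 5 * ((1 - q) * B) + ψ x - Gam P r x + q * P D x := by
  have hq : 0 < q := by linarith
  have hG := hP.gam_integrable hρ
  have hG0 := hP.gam_nonneg hρ
  have hGi : Integrable (Ξ.indicator (Gam P ρ)) ν := hG.indicator hΞ
  have hGi0 : ∀ᵐ x ∂ν, 0 ≤ Ξ.indicator (Gam P ρ) x := by
    filter_upwards [hG0] with x hx
    by_cases h : x ∈ Ξ
    · rwa [Set.indicator_of_mem h]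
    · rw [Set.indicator_of_notMem h]
  obtain ⟨Φ, -, hΦ, hΦs⟩ := exists_sol hP hq.le hq1 MeasurableSet.univ hGi
  have hΦ0 := hΦs.nonneg hP hq.le hq1 hΦ hGi0
  have hη : MemLp (fun y => r y - ρ y) 2 ν := hr.sub hρ
  have hη2 : Integrable (fun y => (r y - ρ y) ^ 2) ν := hη.integrable_sq
  have hk := dom_key hP hq0 hq1 one_pos hr hρ hrs hρs hus
  obtain ⟨-, hρ0⟩ := dom_eta hP hr hρ hrs hρs
  rw [inv_one] at hk
  set c : ℝ := (1 + 1) / q with hc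
  have hc0 : 0 ≤ c := by positivity
  have hc2 : 1 + c ≤ 5 := by
    have h1 : c ≤ 4 := by
      rw [hc, div_le_iff₀ hq]
      linarith
    linarith
  have i1 : Integrable (fun x => c * (r x - ρ x) ^ 2) ν := hη2.const_mul c
  have i2 : Integrable (fun x => 2 * Φ x) ν := hΦ.const_mul _
  have i3 : Integrable (fun _ : S => (1 + c) * B) ν := integrable_const _
  have i4 : Integrable (fun x => u x + c * (r x - ρ x) ^ 2) ν := hu.add i1
  have i5 : Integrable (fun x => u x + c * (r x - ρ x) ^ 2 - 2 * Φ x) ν := i4.sub i2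
  have p1 := hP.const_mul c hη2
  have p2 := hP.const_mul 2 hΦ
  have p3 := hP.const ((1 + c) * B)
  have p4 := hP.add' hu i1
  have p5 := hP.sub' i4 i2
  have p6 := hP.sub' i5 i3
  have hW : ∀ᵐ x ∂ν, u x + c * (r x - ρ x) ^ 2 - 2 * Φ x - (1 + c) * B ≤ 0 := by
    refine hP.maxPrinciple hq.le hq1 (i5.sub i3) ?_
    have hΦs' := hΦs
    unfold IsSol at hΦs'
    filter_upwards [p1, p2, p3, p4, p5, p6, hk, hρ0, hoff, hΦs', hΦ0] with x q1 q2 q3 q4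
      q5 q6 hkx hρx hoffx hΦx hΦ0x
    have hcB : 0 ≤ (1 + c) * B := by positivity
    by_cases hx : x ∈ Ξ
    · right
      rw [Set.indicator_of_mem (Set.mem_univ x), Set.indicator_of_mem hx] at hΦx
      have h1 := hkx hx
      have h3 : P (fun x => u x + c * (r x - ρ x) ^ 2 - 2 * Φ x - (1 + c) * B) x =
          P u x + c * P (fun y => (r y - ρ y) ^ 2) x - 2 * P Φ x - (1 + c) * B := by
        rw [q6, q5, q4, q1, q2, q3]
      rw [h3]
      nlinarith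
    · left
      have h1 := hρx hx
      obtain ⟨h2, h3⟩ := hoffx hx
      rw [h1]
      nlinarith [mul_le_mul_of_nonneg_left h3 hc0]
  refine ⟨fun x => 2 * Ξ.indicator (Gam P ρ) x, fun x => 2 * Φ x + 5 * B - u x,
    hGi.const_mul 2, (i2.add (integrable_const _)).sub hu, ?_, ?_, ?_, ?_⟩
  · filter_upwards [hGi0] with x hx
    positivity
  · filter_upwards [hW] with x h1
    have h3 : 0 ≤ c * (r x - ρ x) ^ 2 := by positivity
    nlinarith
  · rw [integral_const_mul, integral_indicator hΞ]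
    have := hP.setIntegral_gam_le hρ hΞ hq.le hq1.le
    linarith
  · have i6 : Integrable (fun x => 2 * Φ x + 5 * B) ν := i2.add (integrable_const _)
    have i7 : Integrable (fun _ : S => 5 * B) ν := integrable_const _
    have r1 := hP.sub' i6 hu
    have r2 := hP.add' i2 i7
    have r3 := hP.const (5 * B)
    unfold IsSol at hΦs hus
    filter_upwards [r1, r2, r3, p2, hΦs, hus] with x s1 s2 s3 s4 s5 s6
    rw [Set.indicator_of_mem (Set.mem_univ x)] at s5 s6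
    have h3 : P (fun x => 2 * Φ x + 5 * B - u x) x = 2 * P Φ x + 5 * B - P u x := by
      rw [s1, s2, s3, s4]
    rw [h3, s6]
    nlinarith [s5]

/-- Bounded remainder: if `r² ≤ B²` off `Ξ` then `|r - ρ| ≤ B` everywhere. -/
theorem remainder_bound [IsProbabilityMeasure ν] (hP : MOp ν P) {q : ℝ} (hq0 : 0 ≤ q) (hq1 : q < 1)
    {f r ρ : S → ℝ} {Ξ : Set S} {B : ℝ} (hB : 0 ≤ B)
    (hf : MemLp f 2 ν) (hr : MemLp r 2 ν) (hρ : MemLp ρ 2 ν)
    (hrs : IsSol ν P q Set.univ f r) (hρs : IsSol ν P q Ξ f ρ)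
    (hoff : ∀ᵐ x ∂ν, x ∉ Ξ → |r x| ≤ B) : ∀ᵐ x ∂ν, |r x - ρ x| ≤ B := by
  have hη : MemLp (fun y => r y - ρ y) 2 ν := hr.sub hρ
  have hηi : Integrable (fun y => r y - ρ y) ν := hη.integrable (by norm_num)
  have hηa : Integrable (fun y => |r y - ρ y|) ν := hηi.abs
  obtain ⟨h1, h2⟩ := dom_eta hP hr hρ hrs hρs
  have i1 : Integrable (fun _ : S => B) ν := integrable_const _
  have p1 := hP.sub' hηa i1
  have p2 := hP.const B
  have p3 := hP.abs_le hηi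
  have hW : ∀ᵐ x ∂ν, |r x - ρ x| - B ≤ 0 := by
    refine hP.maxPrinciple hq0 hq1 (hηa.sub i1) ?_
    filter_upwards [h1, h2, p1, p2, p3, hoff] with x g1 g2 g3 g4 g5 g6
    by_cases hx : x ∈ Ξ
    · right
      have h3 : P (fun x => |r x - ρ x| - B) x = P (fun y => |r y - ρ y|) x - B := by
        rw [g3, g4]
      rw [h3]
      have h5 : |r x - ρ x| ≤ q * P (fun y => |r y - ρ y|) x := by
        rw [g1 hx, abs_mul, abs_of_nonneg hq0]
        exact mul_le_mul_of_nonneg_left g5 hq0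
      nlinarith
    · left
      rw [g2 hx, sub_zero]
      linarith [g6 hx]
  filter_upwards [hW] with x hx
  linarith

end Pool.NH23.MC
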