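import Pool.Agent.NH23.MC.PathB

set_option autoImplicit false
open MeasureTheory ProbabilityTheory Filter Topology

namespace Pool.NH23.MC

variable {S : Type} [MeasurableSpace S] {ν : Measure S} {P : (S → ℝ) → (S → ℝ)}
  {Ω : Type} {mΩ : MeasurableSpace Ω} {μ : Measure Ω} {ℱ : Filtration ℕ mΩ} {X : ℕ → Ω → S}

theorem domSum_geom {q : ℝ} (hq0 : 0 ≤ q) (hq1 : q < 1) (N : ℕ) :
    ∑ i ∈ Finset.range N, q ^ i ≤ 1 / (1 - q) := by
  have h := hasSum_geometric_of_lt_one hq0 hq1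
  have := h.summable.sum_le_tsum (Finset.range N) (fun i _ => pow_nonneg hq0 i)
  rw [h.tsum_eq] at this
  rwa [one_div]

theorem domSum_geom' {q : ℝ} (hq0 : 0 ≤ q) (hq1 : q < 1) (N : ℕ) :
    ∑ i ∈ Finset.range N, q ^ i * i ≤ 1 / (1 - q) ^ 2 := by
  have h := hasSum_coe_mul_geometric_of_norm_lt_one (𝕜 := ℝ) (r := q)
    (by rw [Real.norm_eq_abs, abs_of_nonneg hq0]; exact hq1)
  have h1 := h.summable.sum_le_tsum (Finset.range N)
    (fun i _ => mul_nonneg (Nat.cast_nonneg i) (pow_nonneg hq0 i))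
  rw [h.tsum_eq] at h1
  have h2 : 0 < (1 - q) ^ 2 := by
    have : 0 < 1 - q := by linarith
    positivity
  calc ∑ i ∈ Finset.range N, q ^ i * i = ∑ i ∈ Finset.range N, (i : ℝ) * q ^ i :=
        Finset.sum_congr rfl fun i _ => mul_comm _ _
    _ ≤ q / (1 - q) ^ 2 := h1
    _ ≤ 1 / (1 - q) ^ 2 := by
        rw [div_le_div_iff_of_pos_right h2]
        exact hq1.le

/-- Dominated sums: `D = C + ψ - G + q P D`, `D ≥ 0`, `ψ ≥ 0`, `G ≥ 0`; `Y` adapted, increasing,
`0 ≤ Y ≤ 2`, `E Y_i ≤ a + b i`. -/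
theorem dom_sum [IsProbabilityMeasure μ] [IsProbabilityMeasure ν] (hP : MOp ν P)
    (h : Path μ ν P ℱ X) {q : ℝ} (hq0 : 0 ≤ q) (hq1 : q < 1) {ψ D G : S → ℝ} {C : ℝ} (hC : 0 ≤ C)
    (hψ : Integrable ψ ν) (hD : Integrable D ν) (hG : Integrable G ν)
    (hψ0 : ∀ᵐ x ∂ν, 0 ≤ ψ x) (hD0 : ∀ᵐ x ∂ν, 0 ≤ D x) (hG0 : ∀ᵐ x ∂ν, 0 ≤ G x)
    (hDe : ∀ᵐ x ∂ν, D x = C + ψ x - G x + q * P D x)
    {Y : ℕ → Ω → ℝ} (hY : ∀ i, StronglyMeasurable[ℱ i] (Y i)) (hY0 : ∀ i ω, 0 ≤ Y i ω)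
    (hY2 : ∀ i ω, Y i ω ≤ 2) (hYm : ∀ i ω, Y i ω ≤ Y (i + 1) ω)
    {a b : ℝ} (ha : 0 ≤ a) (hb : 0 ≤ b) (hEY : ∀ i, ∫ ω, Y i ω ∂μ ≤ a + b * i) (N : ℕ) :
    ∑ i ∈ Finset.range N, q ^ i * ∫ ω, Y i ω * G (X i ω) ∂μ ≤
      C * (a / (1 - q) + b / (1 - q) ^ 2) + 2 * (∫ x, ψ x ∂ν) / (1 - q) := by
  have hYabs : ∀ i ω, |Y i ω| ≤ 2 := fun i ω => by
    rw [abs_of_nonneg (hY0 i ω)]
    exact hY2 i ω
  have hYae : ∀ i, AEStronglyMeasurable (Y i) μ := fun i => ((hY i).mono (ℱ.le i)).aestronglyMeasurable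
  have q1 : 0 < 1 - q := by linarith
  have hYi : ∀ i, Integrable (Y i) μ := fun i =>
    Integrable.of_bound (hYae i) 2 (Eventually.of_forall fun ω => by
      rw [Real.norm_eq_abs]; exact hYabs i ω)
  have bi : ∀ i j : ℕ, ∀ g : S → ℝ, Integrable g ν → Integrable (fun ω => Y i ω * g (X j ω)) μ :=
    fun i j g hg => Path.pathB_bdd_int (hYae i) (hYabs i) (h.integrable_comp hg j)
  have bound : ∀ i j : ℕ, ∀ g : S → ℝ, Integrable g ν → (∀ᵐ x ∂ν, 0 ≤ g x) →
      0 ≤ ∫ ω, Y i ω * g (X j ω) ∂μ ∧ ∫ ω, Y i ω * g (X j ω) ∂μ ≤ 2 * ∫ x, g x ∂ν := by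
    intro i j g hg hg0
    have h0 := h.ae_comp hg0 j
    constructor
    · apply integral_nonneg_of_ae
      filter_upwards [h0] with ω hω
      exact mul_nonneg (hY0 i ω) hω
    · rw [← h.integral_comp hg.aestronglyMeasurable j, ← integral_const_mul]
      apply integral_mono_ae (bi i j g hg) ((h.integrable_comp hg j).const_mul 2)
      filter_upwards [h0] with ω hω
      exact mul_le_mul_of_nonneg_right (hY2 i ω) hω
  set A : ℕ → ℝ := fun i => ∫ ω, Y i ω * D (X i ω) ∂μ with hA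
  have step : ∀ i : ℕ, ∫ ω, Y i ω * G (X i ω) ∂μ ≤
      C * (a + b * i) + 2 * ∫ x, ψ x ∂ν - A i + q * A (i + 1) := by
    intro i
    have e1 : ∀ᵐ ω ∂μ, Y i ω * G (X i ω) = C * Y i ω + Y i ω * ψ (X i ω) -
        Y i ω * D (X i ω) + q * (Y i ω * P D (X i ω)) := by
      filter_upwards [h.ae_comp hDe i] with ω hω
      have : G (X i ω) = C + ψ (X i ω) - D (X i ω) + q * P D (X i ω) := by linarith
      rw [this]
      ring
    have i1 := (hYi i).const_mul C
    have i2 := bi i i ψ hψ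
    have i3 := bi i i D hD
    have i4 := (bi i i (P D) (hP.integrable D hD)).const_mul q
    have i12 : Integrable (fun ω => C * Y i ω + Y i ω * ψ (X i ω)) μ := i1.add i2
    have i123 : Integrable (fun ω => C * Y i ω + Y i ω * ψ (X i ω) - Y i ω * D (X i ω)) μ :=
      i12.sub i3
    rw [integral_congr_ae e1, integral_add i123 i4, integral_sub i12 i3, integral_add i1 i2,
      integral_const_mul, integral_const_mul]
    have m1 := h.integral_mul hP (hY i) (hYabs i) hD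
    rw [← m1]
    have m2 : ∫ ω, Y i ω * D (X (i + 1) ω) ∂μ ≤ A (i + 1) := by
      apply integral_mono_ae (bi i (i + 1) D hD) (bi (i + 1) (i + 1) D hD)
      filter_upwards [h.ae_comp hD0 (i + 1)] with ω hω
      exact mul_le_mul_of_nonneg_right (hYm i ω) hω
    have m3 := (bound i i ψ hψ hψ0).2
    have m4 := mul_le_mul_of_nonneg_left (hEY i) hC
    have m5 := mul_le_mul_of_nonneg_left m2 hq0
    change _ - A i + _ ≤ _
    linarith
  have tele : ∀ N : ℕ, ∑ i ∈ Finset.range N, q ^ i * ∫ ω, Y i ω * G (X i ω) ∂μ ≤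
      ∑ i ∈ Finset.range N, q ^ i * (C * (a + b * i) + 2 * ∫ x, ψ x ∂ν) - A 0 + q ^ N * A N := by
    intro N
    induction N with
    | zero => simp
    | succ N ih =>
      rw [Finset.sum_range_succ, Finset.sum_range_succ]
      have := mul_le_mul_of_nonneg_left (step N) (pow_nonneg hq0 N)
      have e : q ^ (N + 1) * A (N + 1) = q ^ N * (q * A (N + 1)) := by ring
      rw [e]
      linarith
  have hψi : 0 ≤ ∫ x, ψ x ∂ν := integral_nonneg_of_ae hψ0
  set B := C * (a / (1 - q) + b / (1 - q) ^ 2) + 2 * (∫ x, ψ x ∂ν) / (1 - q) with hB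
  have bd : ∀ N : ℕ, ∑ i ∈ Finset.range N, q ^ i * ∫ ω, Y i ω * G (X i ω) ∂μ ≤
      B + q ^ N * (2 * ∫ x, D x ∂ν) := by
    intro N
    have t1 := tele N
    have t2 := (bound 0 0 D hD hD0).1
    have t3 := mul_le_mul_of_nonneg_left (bound N N D hD hD0).2 (pow_nonneg hq0 N)
    have t4 : ∑ i ∈ Finset.range N, q ^ i * (C * (a + b * i) + 2 * ∫ x, ψ x ∂ν) ≤ B := by
      have e : ∑ i ∈ Finset.range N, q ^ i * (C * (a + b * i) + 2 * ∫ x, ψ x ∂ν) =
          (C * a + 2 * ∫ x, ψ x ∂ν) * ∑ i ∈ Finset.range N, q ^ i +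
            (C * b) * ∑ i ∈ Finset.range N, q ^ i * i := by
        rw [Finset.mul_sum, Finset.mul_sum, ← Finset.sum_add_distrib]
        refine Finset.sum_congr rfl fun i _ => ?_
        ring
      rw [e]
      have g1 := mul_le_mul_of_nonneg_left (domSum_geom hq0 hq1 N)
        (by positivity : 0 ≤ C * a + 2 * ∫ x, ψ x ∂ν)
      have g2 := mul_le_mul_of_nonneg_left (domSum_geom' hq0 hq1 N) (by positivity : 0 ≤ C * b)
      have e2 : B = (C * a + 2 * ∫ x, ψ x ∂ν) * (1 / (1 - q)) + (C * b) * (1 / (1 - q) ^ 2) := by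
        rw [hB]
        ring
      rw [e2]
      linarith
    change 0 ≤ A 0 at t2
    change q ^ N * A N ≤ _ at t3
    linarith
  have mono : ∀ N', N ≤ N' → ∑ i ∈ Finset.range N, q ^ i * ∫ ω, Y i ω * G (X i ω) ∂μ ≤
      ∑ i ∈ Finset.range N', q ^ i * ∫ ω, Y i ω * G (X i ω) ∂μ := by
    intro N' hN
    apply Finset.sum_le_sum_of_subset_of_nonneg
    · intro i hi
      rw [Finset.mem_range] at *
      omega
    · intro i _ _
      exact mul_nonneg (pow_nonneg hq0 i) (bound i i G hG hG0).1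
  have lim : Tendsto (fun N : ℕ => B + q ^ N * (2 * ∫ x, D x ∂ν)) atTop (𝓝 (B + 0 * (2 * ∫ x, D x ∂ν))) :=
    ((tendsto_pow_atTop_nhds_zero_of_lt_one hq0 hq1).mul_const _).const_add _
  rw [zero_mul, add_zero] at lim
  refine ge_of_tendsto lim ?_
  filter_upwards [eventually_ge_atTop N] with N' hN'
  exact (mono N' hN').trans (bd N')

/-- The running maximum process of the martingale, `Y_i = min 2 (|θ| max_{k ≤ i} |M_k|)`. -/
noncomputable def runMax (P : (S → ℝ) → (S → ℝ)) (r : S → ℝ) (X : ℕ → Ω → S) (θ : ℝ) (i : ℕ)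
    (ω : Ω) : ℝ :=
  min 2 (|θ| * (Finset.range (i + 1)).sup' Finset.nonempty_range_add_one
    (fun k => |Mart P r X k ω|))

/-- Maximal inequality for the running maximum. -/
theorem integral_runMax_le [IsProbabilityMeasure μ] [IsProbabilityMeasure ν] (hP : MOp ν P)
    (h : Path μ ν P ℱ X) {r : S → ℝ} (hr : MemLp r 2 ν) (hrm : Measurable r)
    (hPr : Measurable (P r)) {C₀ : ℝ}
    (hC : ∫ x, r x ^ 2 ∂ν - ∫ x, (P r x) ^ 2 ∂ν ≤ C₀) (θ : ℝ) {κ : ℝ} (hκ : 0 < κ) (i : ℕ) :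
    ∫ ω, runMax P r X θ i ω ∂μ ≤ 2 * κ + (C₀ * θ ^ 2 / κ ^ 3) * i := by
  have hC0 : 0 ≤ C₀ := by
    have := hP.integral_sq_le hr
    linarith
  have hmart := h.mart_martingale hP hr hrm hPr
  have hsub : Submartingale (Mart P r X ⊔ (-Mart P r X)) ℱ μ :=
    hmart.submartingale.sup hmart.neg.submartingale
  have habs : ∀ k ω, (Mart P r X ⊔ (-Mart P r X)) k ω = |Mart P r X k ω| := fun k ω => rfl
  have hnn : 0 ≤ (Mart P r X ⊔ (-Mart P r X)) := fun k ω => by
    rw [habs]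
    exact abs_nonneg _
  have hEM : ∫ ω, |Mart P r X i ω| ∂μ ≤ Real.sqrt (C₀ * i) := by
    refine (Path.pathB_int_abs_le (h.mart_memLp hP hr i)).trans ?_
    apply Real.sqrt_le_sqrt
    rw [h.integral_mart_sq hP hr hrm hPr, mul_comm]
    exact mul_le_mul_of_nonneg_right hC (Nat.cast_nonneg i)
  have hRnn : 0 ≤ (C₀ * θ ^ 2 / κ ^ 3) * i := by positivity
  by_cases hθ : θ = 0
  · have : ∀ ω, runMax P r X θ i ω = 0 := by
      intro ω
      unfold runMax
      rw [hθ, abs_zero, zero_mul]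
      norm_num
    simp only [this, integral_zero]
    linarith
  have hθ' : 0 < |θ| := abs_pos.2 hθ
  set Mx : Ω → ℝ := fun ω => (Finset.range (i + 1)).sup' Finset.nonempty_range_add_one
    (fun k => |Mart P r X k ω|) with hMx
  set E : Set Ω := {ω | κ / |θ| ≤ Mx ω} with hE
  have hMm : Measurable Mx := by
    apply Finset.measurable_range_sup''
    intro k _
    exact ((hmart.stronglyMeasurable k).measurable.mono (ℱ.le k) le_rfl).abs
  have hEm : MeasurableSet E := measurableSet_le measurable_const hMm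
  have hμE : μ.real E ≤ Real.sqrt (C₀ * i) * |θ| / κ := by
    have hε : 0 ≤ κ / |θ| := by positivity
    obtain ⟨e, he⟩ : ∃ e : NNReal, (e : ℝ) = κ / |θ| := ⟨⟨κ / |θ|, hε⟩, rfl⟩
    have hset : E = {ω | (e : ℝ) ≤ (Finset.range (i + 1)).sup'
        Finset.nonempty_range_add_one fun k => (Mart P r X ⊔ (-Mart P r X)) k ω} := by
      rw [he]
      rfl
    have hd : (e : ENNReal) * μ E ≤
        ENNReal.ofReal (∫ ω in E, (Mart P r X ⊔ (-Mart P r X)) i ω ∂μ) := by
      rw [hset]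
      exact maximal_ineq hsub hnn (ε := e) i
    have hle : ∫ ω in E, (Mart P r X ⊔ (-Mart P r X)) i ω ∂μ ≤ Real.sqrt (C₀ * i) := by
      refine le_trans ?_ hEM
      apply setIntegral_le_integral
      · exact ((h.mart_memLp hP hr i).integrable one_le_two).abs
      · exact Eventually.of_forall fun ω => abs_nonneg _
    have hd2 := ENNReal.toReal_mono ENNReal.ofReal_ne_top hd
    have hnn2 : 0 ≤ ∫ ω in E, (Mart P r X ⊔ (-Mart P r X)) i ω ∂μ :=
      integral_nonneg fun ω => abs_nonneg (Mart P r X i ω)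
    rw [ENNReal.toReal_mul, ENNReal.toReal_ofReal hnn2] at hd2
    have hd3 : κ / |θ| * μ.real E ≤ Real.sqrt (C₀ * i) := by
      rw [← he]
      exact hd2.trans hle
    rw [le_div_iff₀ hκ]
    have : κ / |θ| * μ.real E * |θ| = μ.real E * κ := by
      field_simp
    rw [← this]
    exact mul_le_mul_of_nonneg_right hd3 hθ'.le
  have hpt : ∀ ω, runMax P r X θ i ω ≤ κ + E.indicator (fun _ => (2 : ℝ)) ω := by
    intro ω
    by_cases hω : ω ∈ E
    · rw [Set.indicator_of_mem hω]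
      have : runMax P r X θ i ω ≤ 2 := min_le_left _ _
      linarith
    · rw [Set.indicator_of_notMem hω, add_zero]
      have h1 : Mx ω < κ / |θ| := not_le.1 hω
      have h2 : |θ| * Mx ω ≤ κ := by
        rw [lt_div_iff₀ hθ'] at h1
        linarith
      exact (min_le_right _ _).trans h2
  have hrm0 : ∀ ω, 0 ≤ runMax P r X θ i ω := by
    intro ω
    unfold runMax
    refine le_min (by norm_num) (mul_nonneg hθ'.le ?_)
    refine le_trans (abs_nonneg (Mart P r X 0 ω)) ?_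
    exact Finset.le_sup' (fun k => |Mart P r X k ω|) (Finset.mem_range.2 (by omega))
  have hii : Integrable (fun ω => κ + E.indicator (fun _ => (2 : ℝ)) ω) μ :=
    (integrable_const _).add ((integrable_const _).indicator hEm)
  calc ∫ ω, runMax P r X θ i ω ∂μ ≤ ∫ ω, (κ + E.indicator (fun _ => (2 : ℝ)) ω) ∂μ :=
        integral_mono_of_nonneg (Eventually.of_forall hrm0) hii (Eventually.of_forall hpt)
    _ = κ + μ.real E * 2 := by
        rw [integral_add (integrable_const _) ((integrable_const _).indicator hEm),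
          integral_indicator hEm]
        simp
    _ ≤ κ + (Real.sqrt (C₀ * i) * |θ| / κ) * 2 := by
        have := hμE
        linarith
    _ ≤ 2 * κ + (C₀ * θ ^ 2 / κ ^ 3) * i := by
        set w := Real.sqrt (C₀ * i) with hw
        have hw2 : w ^ 2 = C₀ * i := Real.sq_sqrt (by positivity)
        have e1 : (C₀ * θ ^ 2 / κ ^ 3) * i = w ^ 2 * |θ| ^ 2 / κ ^ 3 := by
          rw [hw2, sq_abs]
          ring
        rw [e1]
        have e2 : 2 * κ + w ^ 2 * |θ| ^ 2 / κ ^ 3 - (κ + w * |θ| / κ * 2) =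
            (κ ^ 2 - w * |θ|) ^ 2 / κ ^ 3 := by
          field_simp
          ring
        have : 0 ≤ (κ ^ 2 - w * |θ|) ^ 2 / κ ^ 3 := by positivity
        linarith

end Pool.NH23.MC
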