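import Pool.Agent.NH23.MC.Ker

set_option autoImplicit false
open MeasureTheory ProbabilityTheory Filter Topology

namespace Pool.NH23.MC

variable {S : Type} [mS : MeasurableSpace S]

theorem Erg.lint (Q : Kernel S S) (ν : Measure S) (hν : ν.bind Q = ν) {g : S → ENNReal}
    (hg : Measurable g) : ∫⁻ x, ∫⁻ z, g z ∂(Q x) ∂ν = ∫⁻ x, g x ∂ν := by
  conv_rhs => rw [← hν]
  rw [Measure.lintegral_bind Q.measurable.aemeasurable hg.aemeasurable]

theorem Erg.memLp_ker (Q : Kernel S S) [IsMarkovKernel Q] (ν : Measure S)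
    [IsProbabilityMeasure ν] (hν : ν.bind Q = ν) {g : S → ℝ} (hm : Measurable g)
    (hg : MemLp g 2 ν) : ∀ᵐ x ∂ν, MemLp g 2 (Q x) := by
  have h1 : Integrable (fun x => g x ^ 2) ν := hg.integrable_sq
  have h2 : ∫⁻ x, ‖g x ^ 2‖ₑ ∂ν < ⊤ := h1.2
  have hm2 : Measurable (fun x => ‖g x ^ 2‖ₑ) := (hm.pow_const 2).enorm
  have h3 : ∫⁻ x, ∫⁻ z, ‖g z ^ 2‖ₑ ∂(Q x) ∂ν = ∫⁻ x, ‖g x ^ 2‖ₑ ∂ν := Erg.lint Q ν hν hm2
  have h4 : Measurable fun x => ∫⁻ z, ‖g z ^ 2‖ₑ ∂(Q x) := hm2.lintegral_kernel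
  have h5 := ae_lt_top h4 (by rw [h3]; exact h2.ne)
  filter_upwards [h5] with x hx
  exact (memLp_two_iff_integrable_sq hm.aestronglyMeasurable).mpr
    ⟨(hm.pow_const 2).aestronglyMeasurable, hx⟩

theorem Erg.ae_const (Q : Kernel S S) [IsMarkovKernel Q] (ν : Measure S)
    [IsProbabilityMeasure ν] (hν : ν.bind Q = ν) {g : S → ℝ} (hm : Measurable g)
    (hg : MemLp g 2 ν) (hfix : Kop Q g =ᵐ[ν] g) : ∀ᵐ x ∂ν, ∀ᵐ z ∂(Q x), g z = g x := by
  have hP := kop_mop Q ν hν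
  have h1 := hP.integral_gam hg
  have h2 : ∫ x, (Kop Q g x) ^ 2 ∂ν = ∫ x, g x ^ 2 ∂ν :=
    integral_congr_ae (by filter_upwards [hfix] with x hx; rw [hx])
  have h3 : Gam (Kop Q) g =ᵐ[ν] 0 :=
    (integral_eq_zero_iff_of_nonneg_ae (hP.gam_nonneg hg) (hP.gam_integrable hg)).mp
      (by rw [h1, h2]; ring)
  filter_upwards [h3, hfix, Erg.memLp_ker Q ν hν hm hg] with x hx1 hx2 hx3
  have i2 : Integrable (fun z => g z ^ 2) (Q x) := hx3.integrable_sq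
  have i1 : Integrable g (Q x) := hx3.integrable one_le_two
  have e1 : ∫ z, g z ∂(Q x) = g x := hx2
  have e2 : ∫ z, g z ^ 2 ∂(Q x) = g x ^ 2 := by
    have h6 : (∫ z, g z ^ 2 ∂(Q x)) - (∫ z, g z ∂(Q x)) ^ 2 = 0 := hx1
    rw [e1] at h6
    linarith
  have h4 : ∫ z, (g z - g x) ^ 2 ∂(Q x) = 0 := by
    have h7 : (fun z => (g z - g x) ^ 2) = fun z => (g z ^ 2 - 2 * g x * g z) + g x ^ 2 := by
      ext z; ring
    have i4 : Integrable (fun z => 2 * g x * g z) (Q x) := i1.const_mul _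
    have i5 : Integrable (fun z => g z ^ 2 - 2 * g x * g z) (Q x) := i2.sub i4
    rw [h7, integral_add i5 (integrable_const _),
      integral_sub i2 i4, integral_const_mul, integral_const, e1, e2]
    simp
    ring
  have i3 : Integrable (fun z => (g z - g x) ^ 2) (Q x) :=
    (hx3.sub (memLp_const _)).integrable_sq
  have h5 := (integral_eq_zero_iff_of_nonneg (fun z => sq_nonneg _) i3).mp h4
  filter_upwards [h5] with z hz
  have h8 : (g z - g x) ^ 2 = 0 := hz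
  have h9 : g z - g x = 0 := by simpa using h8
  linarith

/-- Fixed points of `Q` in `L²` are constant. -/
theorem fixed_const (Q : Kernel S S) [IsMarkovKernel Q] (ν : Measure S) [IsProbabilityMeasure ν]
    (hν : ν.bind Q = ν)
    (herg : ∀ A : Set S, MeasurableSet A →
      (∀ᵐ x ∂ν, Q x A = A.indicator (fun _ => (1 : ENNReal)) x) → ν A = 0 ∨ ν A = 1)
    {g : S → ℝ} (hg : MemLp g 2 ν) (hfix : Kop Q g =ᵐ[ν] g) :
    g =ᵐ[ν] fun _ => ∫ x, g x ∂ν := by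
  obtain ⟨g', hm', hgg'⟩ : ∃ g' : S → ℝ, Measurable g' ∧ g =ᵐ[ν] g' :=
    ⟨hg.1.mk g, hg.1.stronglyMeasurable_mk.measurable, hg.1.ae_eq_mk⟩
  have hg' : MemLp g' 2 ν := (memLp_congr_ae hgg').mp hg
  have hfix' : Kop Q g' =ᵐ[ν] g' :=
    ((kop_mop Q ν hν).congr g g' (hg.integrable one_le_two) hgg').symm.trans (hfix.trans hgg')
  have hae := Erg.ae_const Q ν hν hm' hg' hfix'
  obtain ⟨a, ha⟩ : ∃ a : ℝ, g' =ᵐ[ν] fun _ => a := by
    refine Filter.exists_eventuallyEq_const_of_forall_separating MeasurableSet ?_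
    intro U hU
    have hA : MeasurableSet (g' ⁻¹' U) := hm' hU
    have h1 := herg _ hA ?_
    · rcases h1 with h1 | h1
      · right
        exact measure_eq_zero_iff_ae_notMem.mp h1
      · left
        exact (mem_ae_iff_prob_eq_one hA).mpr h1
    · filter_upwards [hae] with x hx
      by_cases hxU : g' x ∈ U
      · rw [Set.indicator_of_mem (show x ∈ g' ⁻¹' U from hxU)]
        refine (mem_ae_iff_prob_eq_one hA).mp ?_
        filter_upwards [hx] with z hz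
        show g' z ∈ U
        rwa [hz]
      · rw [Set.indicator_of_notMem (show x ∉ g' ⁻¹' U from hxU)]
        refine measure_eq_zero_iff_ae_notMem.mpr ?_
        filter_upwards [hx] with z hz
        show g' z ∉ U
        rwa [hz]
  have h2 : g =ᵐ[ν] fun _ => a := hgg'.trans ha
  have h3 : ∫ x, g x ∂ν = a := by
    rw [integral_congr_ae h2]
    simp
  rw [h3]
  exact h2

/-- the operator induced on `L²` -/
theorem Erg.exists_op (Q : Kernel S S) [IsMarkovKernel Q] (ν : Measure S)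
    [IsProbabilityMeasure ν] (hν : ν.bind Q = ν) :
    ∃ T : Lp ℝ 2 ν →L[ℝ] Lp ℝ 2 ν, ‖T‖ ≤ 1 ∧ ∀ φ : Lp ℝ 2 ν, T φ =ᵐ[ν] Kop Q φ := by
  have hP := kop_mop Q ν hν
  have hi : ∀ φ : Lp ℝ 2 ν, Integrable φ ν := fun φ => (Lp.memLp φ).integrable one_le_two
  let T0 : Lp ℝ 2 ν → Lp ℝ 2 ν := fun φ => (hP.memLp (Lp.memLp φ)).toLp
  have hT0 : ∀ φ : Lp ℝ 2 ν, T0 φ =ᵐ[ν] Kop Q φ := fun φ => MemLp.coeFn_toLp _
  let T1 : Lp ℝ 2 ν →ₗ[ℝ] Lp ℝ 2 ν :=
    { toFun := T0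
      map_add' := by
        intro φ ψ
        apply Lp.ext
        have h1 : Kop Q (φ + ψ : Lp ℝ 2 ν) =ᵐ[ν] Kop Q ((φ : S → ℝ) + ψ) :=
          hP.congr _ _ (hi _) (Lp.coeFn_add φ ψ)
        filter_upwards [hT0 (φ + ψ), hT0 φ, hT0 ψ, h1, hP.add _ _ (hi φ) (hi ψ),
          Lp.coeFn_add (T0 φ) (T0 ψ)] with x a1 a2 a3 a4 a5 a6
        rw [a1, a4, a5, a6]
        simp only [Pi.add_apply]
        rw [a2, a3]
      map_smul' := by
        intro c φ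
        apply Lp.ext
        have h1 : Kop Q (c • φ : Lp ℝ 2 ν) =ᵐ[ν] Kop Q (c • (φ : S → ℝ)) :=
          hP.congr _ _ (hi _) (Lp.coeFn_smul c φ)
        filter_upwards [hT0 (c • φ), hT0 φ, h1, hP.smul c _ (hi φ),
          Lp.coeFn_smul c (T0 φ)] with x a1 a2 a3 a4 a5
        rw [a1, a3, a4, RingHom.id_apply, a5]
        simp only [Pi.smul_apply]
        rw [a2] }
  have hbd : ∀ φ : Lp ℝ 2 ν, ‖T1 φ‖ ≤ 1 * ‖φ‖ := by
    intro φ
    rw [one_mul]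
    refine abs_le_of_sq_le_sq' ?_ (norm_nonneg _) |>.2
    have e : ∀ ψ : Lp ℝ 2 ν, ‖ψ‖ ^ 2 = ∫ x, ψ x ^ 2 ∂ν := by
      intro ψ
      rw [← real_inner_self_eq_norm_sq, L2.inner_def]
      refine integral_congr_ae (ae_of_all _ fun x => ?_)
      simp [sq]
    rw [e, e]
    have h1 : ∫ x, (T1 φ : S → ℝ) x ^ 2 ∂ν = ∫ x, (Kop Q φ x) ^ 2 ∂ν :=
      integral_congr_ae (by filter_upwards [hT0 φ] with x hx; show T0 φ x ^ 2 = _; rw [hx])
    rw [h1]
    exact hP.integral_sq_le (Lp.memLp φ)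
  refine ⟨T1.mkContinuous 1 hbd, T1.mkContinuous_norm_le zero_le_one hbd, fun φ => hT0 φ⟩

/-- Mean ergodic theorem. -/
theorem mean_ergodic (Q : Kernel S S) [IsMarkovKernel Q] (ν : Measure S) [IsProbabilityMeasure ν]
    (hν : ν.bind Q = ν)
    (herg : ∀ A : Set S, MeasurableSet A →
      (∀ᵐ x ∂ν, Q x A = A.indicator (fun _ => (1 : ENNReal)) x) → ν A = 0 ∨ ν A = 1)
    (g : S → ℝ) (hg : MemLp g 2 ν) : Tendsto (fun T : ℕ => ∫ x, ((T : ℝ)⁻¹ *
    (∑ t ∈ Finset.range T, (Kop Q)^[t] g x) - ∫ y, g y ∂ν) ^ 2 ∂ν) atTop (𝓝 0) := by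
  obtain ⟨T, hT1, hT⟩ := Erg.exists_op Q ν hν
  have hP := kop_mop Q ν hν
  set x0 : Lp ℝ 2 ν := hg.toLp with hx0
  have hx0g : x0 =ᵐ[ν] g := MemLp.coeFn_toLp _
  have hlim := T.tendsto_birkhoffAverage_orthogonalProjection hT1 x0
  set y : Lp ℝ 2 ν := ((T.eqLocus (1 : Lp ℝ 2 ν →L[ℝ] Lp ℝ 2 ν)).orthogonalProjectionOnto x0 :
    Lp ℝ 2 ν) with hy
  -- `y` is the constant `∫ g`
  have hyfix : T y = y := ((T.eqLocus (1 : Lp ℝ 2 ν →L[ℝ] Lp ℝ 2 ν)).orthogonalProjectionOnto x0).2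
  have hyc : y =ᵐ[ν] fun _ => ∫ x, y x ∂ν := by
    refine fixed_const Q ν hν herg (Lp.memLp y) ?_
    have := hT y
    rw [hyfix] at this
    exact this.symm
  set one : Lp ℝ 2 ν := (memLp_const (1 : ℝ)).toLp with hone
  have hone' : one =ᵐ[ν] fun _ => (1 : ℝ) := MemLp.coeFn_toLp _
  have honefix : one ∈ T.eqLocus (1 : Lp ℝ 2 ν →L[ℝ] Lp ℝ 2 ν) := by
    show T one = one
    apply Lp.ext
    have h1 : Kop Q one =ᵐ[ν] Kop Q (fun _ => (1 : ℝ)) :=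
      hP.congr _ _ ((Lp.memLp one).integrable one_le_two) hone'
    exact (hT one).trans (h1.trans (hP.one.trans hone'.symm))
  have hint : ∫ x, y x ∂ν = ∫ x, g x ∂ν := by
    have h1 : inner ℝ one (x0 - y) = 0 := by
      have h2 := (T.eqLocus (1 : Lp ℝ 2 ν →L[ℝ] Lp ℝ 2 ν)).sub_starProjection_mem_orthogonal x0
      exact (Submodule.mem_orthogonal _ _).mp h2 one honefix
    rw [L2.inner_def] at h1
    have h3 : ∫ x, inner ℝ (one x) ((x0 - y : Lp ℝ 2 ν) x) ∂ν = ∫ x, (g x - y x) ∂ν := by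
      refine integral_congr_ae ?_
      filter_upwards [hone', hx0g, Lp.coeFn_sub x0 y] with x a1 a2 a3
      rw [a1, a3]
      simp [a2]
    rw [h3, integral_sub (hg.integrable one_le_two) ((Lp.memLp y).integrable one_le_two)] at h1
    linarith
  have hiter : ∀ t : ℕ, (T^[t] x0 : Lp ℝ 2 ν) =ᵐ[ν] (Kop Q)^[t] g := by
    intro t
    induction t with
    | zero => exact hx0g
    | succ t ih =>
      rw [Function.iterate_succ_apply', Function.iterate_succ_apply']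
      exact (hT _).trans (hP.congr _ _ ((Lp.memLp _).integrable one_le_two) ih)
  have hsum : ∀ N : ℕ, (∑ t ∈ Finset.range N, T^[t] x0 : Lp ℝ 2 ν) =ᵐ[ν]
      fun x => ∑ t ∈ Finset.range N, (Kop Q)^[t] g x := by
    intro N
    have h1 : ∀ᵐ x ∂ν, ∀ t ∈ Finset.range N, (T^[t] x0 : Lp ℝ 2 ν) x = (Kop Q)^[t] g x :=
      (Filter.eventually_all_finset _).mpr fun t _ => hiter t
    filter_upwards [Lp.coeFn_finsetSum (Finset.range N) (fun t => T^[t] x0), h1] with x a1 a2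
    rw [a1, Finset.sum_apply]
    exact Finset.sum_congr rfl a2
  have hav : ∀ N : ℕ, ‖birkhoffAverage ℝ T _root_.id N x0 - y‖ ^ 2 = ∫ x, ((N : ℝ)⁻¹ *
      (∑ t ∈ Finset.range N, (Kop Q)^[t] g x) - ∫ y, g y ∂ν) ^ 2 ∂ν := by
    intro N
    rw [← real_inner_self_eq_norm_sq, L2.inner_def]
    have h1 : birkhoffAverage ℝ T _root_.id N x0 = (N : ℝ)⁻¹ • ∑ t ∈ Finset.range N, T^[t] x0 :=
      rfl
    rw [h1]
    refine integral_congr_ae ?_
    filter_upwards [Lp.coeFn_sub ((N : ℝ)⁻¹ • ∑ t ∈ Finset.range N, T^[t] x0) y,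
      Lp.coeFn_smul (N : ℝ)⁻¹ (∑ t ∈ Finset.range N, T^[t] x0), hsum N, hyc] with x a1 a2 a3 a4
    rw [a1]
    simp only [Pi.sub_apply]
    rw [a2]
    simp only [Pi.smul_apply]
    rw [a3, a4, hint]
    simp [sq]
  have hfin : Tendsto (fun N : ℕ => ‖birkhoffAverage ℝ T _root_.id N x0 - y‖ ^ 2) atTop
      (𝓝 0) := by
    have h1 : Tendsto (fun N : ℕ => ‖birkhoffAverage ℝ T _root_.id N x0 - y‖) atTop (𝓝 0) :=
      tendsto_iff_norm_sub_tendsto_zero.mp hlim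
    simpa using h1.pow 2
  simpa only [hav] using hfin

end Pool.NH23.MC
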