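import Pool.Agent.NH23.MC.BasicB

set_option autoImplicit false
open MeasureTheory ProbabilityTheory Filter Topology

namespace Pool.NH23.MC

variable {S : Type} [MeasurableSpace S] {ν : Measure S} {P : (S → ℝ) → (S → ℝ)}

/-- finite sums -/
theorem err_sum [IsProbabilityMeasure ν] (hP : MOp ν P) (G : ℕ → S → ℝ)
    (hG : ∀ k, Integrable (G k) ν) (N : ℕ) :
    P (fun y => ∑ k ∈ Finset.range N, G k y) =ᵐ[ν] fun x => ∑ k ∈ Finset.range N, P (G k) x := by
  induction N with
  | zero =>
    have h := hP.const 0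
    simpa using h
  | succ N ih =>
    have h1 : Integrable (fun y => ∑ k ∈ Finset.range N, G k y) ν :=
      integrable_finsetSum _ fun k _ => hG k
    have h2 := hP.add' h1 (hG N)
    simp only [Finset.sum_range_succ]
    filter_upwards [ih, h2] with x h3 h4
    rw [h4, h3]

/-- One-sided error bound.  `F_k = P^k f`; `p_k = (qχPχ)^k (χf)`; `E_k = χ q^k F_k - p_k` satisfies
`E_0 = 0`, `E_{k+1} = χ q P ((1-χ) q^k F_k + E_k)`; if `∑ F_k² ≤ K` off `Ξ` then
`∑_k ∫ E_k² ≤ K ∫_Ξ e`. -/
theorem err_bound [IsProbabilityMeasure ν] (hP : MOp ν P) {q : ℝ} (hq0 : 0 ≤ q) (hq1 : q < 1)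
    {Ξ : Set S} (hΞ : MeasurableSet Ξ) {K : ℝ} (hK : 0 ≤ K) (F E : ℕ → S → ℝ)
    (hF : ∀ k, MemLp (F k) 2 ν) (hE : ∀ k, MemLp (E k) 2 ν)
    (hFK : ∀ᵐ x ∂ν, x ∉ Ξ → ∀ N : ℕ, ∑ k ∈ Finset.range N, F k x ^ 2 ≤ K)
    (hE0 : ∀ᵐ x ∂ν, E 0 x = 0)
    (hE1 : ∀ k, ∀ᵐ x ∂ν, E (k + 1) x =
      Ξ.indicator (fun x => q * P (fun y => Ξᶜ.indicator (fun y => q ^ k * F k y) y + E k y) x) x)
    {e : S → ℝ} (he : IsExit ν P q Ξ e) (N : ℕ) :
    ∑ k ∈ Finset.range N, ∫ x, E k x ^ 2 ∂ν ≤ K * ∫ x in Ξ, e x ∂ν := by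
  -- the functions `G`
  set G : ℕ → S → ℝ := fun k y => Ξᶜ.indicator (fun y => q ^ k * F k y) y + E k y with hGdef
  have hG : ∀ k, MemLp (G k) 2 ν := fun k =>
    (((hF k).const_mul (q ^ k)).indicator hΞ.compl).add (hE k)
  have hG2 : ∀ k, Integrable (fun y => G k y ^ 2) ν := fun k => (hG k).integrable_sq
  have hPe : ∀ᵐ x ∂ν, 0 ≤ P e x := hP.nonneg e he.integrable he.nonneg
  have hKe : P (fun x => K * e x) =ᵐ[ν] fun x => K * P e x := hP.const_mul K he.integrable
  have hjen : ∀ᵐ x ∂ν, ∀ k, (P (G k) x) ^ 2 ≤ P (fun y => G k y ^ 2) x := by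
    rw [ae_all_iff]
    exact fun k => hP.jensen (hG k)
  have hE1' : ∀ᵐ x ∂ν, ∀ k, E (k + 1) x = Ξ.indicator (fun x => q * P (G k) x) x := by
    rw [ae_all_iff]
    exact fun k => hE1 k
  have claim : ∀ N : ℕ, ∀ᵐ x ∂ν, (x ∈ Ξ → ∑ k ∈ Finset.range N, E k x ^ 2 ≤ K * e x) ∧
      (x ∉ Ξ → ∑ k ∈ Finset.range N, E k x ^ 2 = 0) := by
    intro N
    induction N with
    | zero =>
      filter_upwards [he.nonneg] with x hx
      refine ⟨fun _ => ?_, fun _ => ?_⟩
      · simp only [Finset.range_zero, Finset.sum_empty]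
        positivity
      · simp
    | succ N ih =>
      have hle : ∀ᵐ x ∂ν, ∑ k ∈ Finset.range N, G k x ^ 2 ≤ K * e x := by
        filter_upwards [ih, hFK, he.off] with x h1 h2 h3
        by_cases hx : x ∈ Ξ
        · have e1 : ∀ k, G k x = E k x := by
            intro k
            simp [hGdef, hx]
          simp only [e1]
          exact h1.1 hx
        · rw [h3 hx, mul_one]
          have e0 := h1.2 hx
          rw [Finset.sum_eq_zero_iff_of_nonneg (fun k _ => sq_nonneg _)] at e0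
          refine le_trans (Finset.sum_le_sum fun k hk => ?_) (h2 hx N)
          have e1 : E k x = 0 := by
            have := e0 k hk
            exact pow_eq_zero_iff (two_ne_zero) |>.mp this
          have e2 : G k x = q ^ k * F k x := by
            simp [hGdef, hx, e1]
          rw [e2, mul_pow]
          have e3 : (q ^ k) ^ 2 ≤ 1 := pow_le_one₀ (pow_nonneg hq0 k) (pow_le_one₀ hq0 hq1.le)
          nlinarith [sq_nonneg (F k x)]
      have hint : Integrable (fun y => ∑ k ∈ Finset.range N, G k y ^ 2) ν :=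
        integrable_finsetSum _ fun k _ => hG2 k
      have hmono := hP.mono hint (he.integrable.const_mul K) hle
      have hsum := err_sum hP (fun k y => G k y ^ 2) hG2 N
      filter_upwards [hmono, hsum, hKe, hPe, hjen, hE1', hE0, he.on] with x h1 h2 h3 h4 h5 h6 h7 h8
      rw [Finset.sum_range_succ', h7]
      refine ⟨fun hx => ?_, fun hx => ?_⟩
      · have h9 : ∑ k ∈ Finset.range N, E (k + 1) x ^ 2 ≤
            q ^ 2 * ∑ k ∈ Finset.range N, P (fun y => G k y ^ 2) x := by
          rw [Finset.mul_sum]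
          refine Finset.sum_le_sum fun k _ => ?_
          rw [h6 k, Set.indicator_of_mem hx, mul_pow]
          exact mul_le_mul_of_nonneg_left (h5 k) (sq_nonneg q)
        have h10 : ∑ k ∈ Finset.range N, P (fun y => G k y ^ 2) x ≤ K * P e x := by
          rw [← h2, ← h3]
          exact h1
        have h11 : q ^ 2 * (K * P e x) ≤ K * e x := by
          rw [h8 hx]
          have h12 : q ^ 2 ≤ q := by nlinarith
          have h13 : 0 ≤ K * P e x := mul_nonneg hK h4
          calc q ^ 2 * (K * P e x) ≤ q * (K * P e x) := mul_le_mul_of_nonneg_right h12 h13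
            _ = K * (q * P e x) := by ring
        have h14 := mul_le_mul_of_nonneg_left h10 (sq_nonneg q)
        have h15 : (0 : ℝ) ^ 2 = 0 := by norm_num
        rw [h15, add_zero]
        linarith
      · have h15 : (0 : ℝ) ^ 2 = 0 := by norm_num
        rw [h15, add_zero]
        apply Finset.sum_eq_zero
        intro k _
        rw [h6 k, Set.indicator_of_notMem hx]
        norm_num
  have hE2 : ∀ k, Integrable (fun x => E k x ^ 2) ν := fun k => (hE k).integrable_sq
  rw [← integral_finsetSum _ fun k _ => hE2 k]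
  have h1 : ∫ x, ∑ k ∈ Finset.range N, E k x ^ 2 ∂ν ≤ ∫ x, Ξ.indicator (fun x => K * e x) x ∂ν := by
    apply integral_mono_ae
    · exact integrable_finsetSum _ fun k _ => hE2 k
    · exact (he.integrable.const_mul K).indicator hΞ
    · filter_upwards [claim N] with x hx
      by_cases hxΞ : x ∈ Ξ
      · rw [Set.indicator_of_mem hxΞ]
        exact hx.1 hxΞ
      · rw [Set.indicator_of_notMem hxΞ]
        exact (hx.2 hxΞ).le
  refine h1.trans (le_of_eq ?_)
  rw [integral_indicator hΞ, integral_const_mul]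

end Pool.NH23.MC
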