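import Pool.Agent.NH23.MC.RateD

set_option autoImplicit false
open MeasureTheory ProbabilityTheory Filter Topology

namespace Pool.NH23.MC

variable {S : Type} [MeasurableSpace S] {ν : Measure S} {P P' : (S → ℝ) → (S → ℝ)} {f : S → ℝ}

/-- the weight error -/
noncomputable def ow (ν : Measure S) (P P' : (S → ℝ) → (S → ℝ)) (f : S → ℝ) (s : ℕ) (q : ℝ) : ℝ :=
  ∑' k, (1 - q ^ (k + s + (k + 1))) * ∫ x, |lag P P' f s k x| ∂ν

theorem ow_summable [IsProbabilityMeasure ν] (h : Ctx ν P P' f) (s : ℕ) {q : ℝ} (hq0 : 0 ≤ q)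
    (hq1 : q < 1) : Summable fun k => (1 - q ^ (k + s + (k + 1))) * ∫ x, |lag P P' f s k x| ∂ν := by
  refine Summable.of_nonneg_of_le (fun k => ?_) (fun k => ?_) (lag_summable h s)
  · exact mul_nonneg (sub_nonneg.2 (pow_le_one₀ hq0 hq1.le))
      (integral_nonneg fun x => abs_nonneg _)
  · have : 0 ≤ ∫ x, |lag P P' f s k x| ∂ν := integral_nonneg fun x => abs_nonneg _
    have := pow_nonneg hq0 (k + s + (k + 1))
    nlinarith

theorem ow_le [IsProbabilityMeasure ν] (h : Ctx ν P P' f) (s : ℕ) {q : ℝ} (hq0 : 0 ≤ q)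
    (hq1 : q < 1) : ow ν P P' f s q ≤ ∑' k, ∫ x, |lag P P' f s k x| ∂ν := by
  refine (ow_summable h s hq0 hq1).tsum_le_tsum (fun k => ?_) (lag_summable h s)
  have : 0 ≤ ∫ x, |lag P P' f s k x| ∂ν := integral_nonneg fun x => abs_nonneg _
  have := pow_nonneg hq0 (k + s + (k + 1))
  nlinarith

theorem ow_nonneg {s : ℕ} {q : ℝ} (hq0 : 0 ≤ q) (hq1 : q < 1) : 0 ≤ ow ν P P' f s q :=
  tsum_nonneg fun k => mul_nonneg (sub_nonneg.2 (pow_le_one₀ hq0 hq1.le))
      (integral_nonneg fun x => abs_nonneg _)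

theorem ow_tendsto [IsProbabilityMeasure ν] (h : Ctx ν P P' f) (s : ℕ) :
    Tendsto (ow ν P P' f s) (𝓝[<] 1) (𝓝 0) := by
  have h0 : (0 : ℝ) = ∑' k : ℕ, (0 : ℝ) := by simp
  rw [h0]
  apply tendsto_tsum_of_dominated_convergence (lag_summable h s)
  · intro k
    have : Tendsto (fun q : ℝ => (1 - q ^ (k + s + (k + 1))) * ∫ x, |lag P P' f s k x| ∂ν) (𝓝 1)
        (𝓝 ((1 - 1 ^ (k + s + (k + 1))) * ∫ x, |lag P P' f s k x| ∂ν)) := by
      apply Tendsto.mul_const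
      apply Tendsto.const_sub
      exact (continuous_pow _).tendsto 1
    simp only [one_pow, sub_self, zero_mul] at this
    exact this.mono_left nhdsWithin_le_nhds
  · have h1 : ∀ᶠ q : ℝ in 𝓝[<] 1, 0 ≤ q :=
      mem_nhdsWithin_of_mem_nhds (Ici_mem_nhds (by norm_num))
    filter_upwards [h1, self_mem_nhdsWithin] with q hq0 hq1 k
    have hq1' : q < 1 := hq1
    have hn : 0 ≤ ∫ x, |lag P P' f s k x| ∂ν := integral_nonneg fun x => abs_nonneg _
    rw [Real.norm_eq_abs, abs_mul, abs_of_nonneg hn,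
      abs_of_nonneg (sub_nonneg.2 (pow_le_one₀ hq0 hq1'.le))]
    have := pow_nonneg hq0 (k + s + (k + 1))
    nlinarith

/-- one lag family: finite sums versus the series -/
theorem lag_compare [IsProbabilityMeasure ν] (h : Ctx ν P P' f) {q : ℝ} (hq0 : 0 ≤ q)
    (hq1 : q < 1) {Ξ : Set S} (hΞ : MeasurableSet Ξ) {A B R : ℝ}
    (hA : ∀ n, ∑ k ∈ Finset.range n, ∫ x, (P^[k] f x) ^ 2 ∂ν ≤ A)
    (hB : ∀ n, ∑ k ∈ Finset.range n, ∫ x, (P'^[k] f x) ^ 2 ∂ν ≤ B)
    (hE : ∀ n, ∑ k ∈ Finset.range n, ∫ x, (rE P q Ξ f k x) ^ 2 ∂ν ≤ R)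
    (hE' : ∀ n, ∑ k ∈ Finset.range n, ∫ x, (rE P' q Ξ f k x) ^ 2 ∂ν ≤ R) (s n : ℕ)
    (hs : s ≤ 1) :
    |∑ k ∈ Finset.range n, ∫ x, (rT P' q Ξ)^[k + s] (Ξ.indicator f) x *
        (rT P q Ξ)^[k + 1] (Ξ.indicator f) x ∂ν - ∑' k, ∫ x in Ξ, lag P P' f s k x ∂ν| ≤
      ((Real.sqrt A + Real.sqrt B) * Real.sqrt R + R) + ow ν P P' f s q +
        |∑ k ∈ Finset.range n, ∫ x in Ξ, lag P P' f s k x ∂ν -
          ∑' k, ∫ x in Ξ, lag P P' f s k x ∂ν| := by
  have h1 := sum_prod_diff h.pair hq0 hq1 hΞ h.f2 hA hB hE hE' s n hs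
  set D : ℕ → ℝ := fun k => ∫ x, (rT P' q Ξ)^[k + s] (Ξ.indicator f) x *
        (rT P q Ξ)^[k + 1] (Ξ.indicator f) x ∂ν with hD
  set L : ℕ → ℝ := fun k => ∫ x in Ξ, lag P P' f s k x ∂ν with hL
  have h2 : |∑ k ∈ Finset.range n, (1 - q ^ (k + s + (k + 1))) * L k| ≤ ow ν P P' f s q := by
    refine (Finset.abs_sum_le_sum_abs _ _).trans ?_
    refine le_trans (Finset.sum_le_sum fun k _ => ?_)
      ((ow_summable h s hq0 hq1).sum_le_tsum (Finset.range n) fun k _ =>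
        mul_nonneg (sub_nonneg.2 (pow_le_one₀ hq0 hq1.le))
        (integral_nonneg fun x => abs_nonneg _))
    rw [abs_mul, abs_of_nonneg (sub_nonneg.2 (pow_le_one₀ hq0 hq1.le))]
    apply mul_le_mul_of_nonneg_left _ (sub_nonneg.2 (pow_le_one₀ hq0 hq1.le))
    refine (abs_integral_le_integral_abs).trans ?_
    exact setIntegral_le_integral (lag_integrable h s k).abs
      (Eventually.of_forall fun x => abs_nonneg _)
  have h3 : |∑ k ∈ Finset.range n, (D k - q ^ (k + s + (k + 1)) * L k)| ≤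
      (Real.sqrt A + Real.sqrt B) * Real.sqrt R + R :=
    (Finset.abs_sum_le_sum_abs _ _).trans h1
  have e : ∑ k ∈ Finset.range n, D k - ∑' k, L k =
      ∑ k ∈ Finset.range n, (D k - q ^ (k + s + (k + 1)) * L k) -
        ∑ k ∈ Finset.range n, (1 - q ^ (k + s + (k + 1))) * L k +
        (∑ k ∈ Finset.range n, L k - ∑' k, L k) := by
    rw [← add_sub_assoc, ← Finset.sum_sub_distrib, ← Finset.sum_add_distrib]
    congr 1
    apply Finset.sum_congr rfl
    intro k _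
    ring
  rw [e]
  refine (abs_add_le _ _).trans ?_
  refine add_le_add ((abs_sub _ _).trans (add_le_add h3 h2)) le_rfl

/-- **Rate lemma.** -/
theorem rate [IsProbabilityMeasure ν] (h : Ctx ν P P' f) :
    ∃ (H w : S → ℝ) (o : ℝ → ℝ) (M : ℝ), RateData ν P f H w o M := by
  have hHi := Hfun_integrable h
  set H : S → ℝ := fun x => |hHi.1.mk (Hfun P P' f) x| with hH
  have hHae : ∀ᵐ x ∂ν, H x = Hfun P P' f x := by
    filter_upwards [hHi.1.ae_eq_mk] with x hx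
    rw [hH]
    simp only
    rw [← hx, abs_of_nonneg (Hfun_nonneg x)]
  set A := ∑' k, ∫ x, (P^[k] f x) ^ 2 ∂ν with hA
  set B := ∑' k, ∫ x, (P'^[k] f x) ^ 2 ∂ν with hB
  set C0 := ∑' k, ∫ x, |lag P P' f 0 k x| ∂ν with hC0
  set C1 := ∑' k, ∫ x, |lag P P' f 1 k x| ∂ν with hC1
  have hC0n : 0 ≤ C0 := tsum_nonneg fun k => integral_nonneg fun x => abs_nonneg _
  have hC1n : 0 ≤ C1 := tsum_nonneg fun k => integral_nonneg fun x => abs_nonneg _
  refine ⟨H, wfun P P' f, fun q => 2 * (ow ν P P' f 0 q + ow ν P P' f 1 q),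
    4 * (Real.sqrt A + Real.sqrt B) + 4 + 2 * (C0 + C1), ?_⟩
  constructor
  · exact (hHi.1.measurable_mk).abs
  · exact hHi.congr (hHae.mono fun x hx => hx.symm)
  · intro x; exact abs_nonneg _
  · exact wfun_integrable h
  · filter_upwards [hHae, Hfun_ae h] with x h1 h2
    rw [h1]; exact h2.2.2
  · have := ((ow_tendsto h 0).add (ow_tendsto h 1)).const_mul 2
    simpa using this
  · intro q hq0 hq1
    have := ow_le h 0 hq0 hq1
    have := ow_le h 1 hq0 hq1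
    have := Real.sqrt_nonneg A
    have := Real.sqrt_nonneg B
    linarith
  · have := Real.sqrt_nonneg A
    have := Real.sqrt_nonneg B
    positivity
  · intro q hq0 hq1 Ξ hΞ K hK hHK ρ hρ hs e he
    obtain ⟨e', -, he'⟩ := exists_exit h.pair.right hq0 hq1 hΞ
    have hsym := IsExit.integral_symm h.pair hq0 hq1 hΞ he he'
    set κ := ∫ x in Ξ, e x ∂ν with hκ
    have hκ0 : 0 ≤ κ := setIntegral_nonneg_of_ae he.nonneg
    set R := K * κ with hR
    have hR0 : 0 ≤ R := mul_nonneg hK hκ0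
    have hE : ∀ n, ∑ k ∈ Finset.range n, ∫ x, (rE P q Ξ f k x) ^ 2 ∂ν ≤ R := by
      intro n
      apply rE_bound h.pair.left hq0 hq1 hΞ h.f2 hK _ he
      filter_upwards [hHK, hHae, Hfun_ae h] with x h1 h2 h3 hx N
      exact (h3.1 N).trans (h2 ▸ h1 hx)
    have hE' : ∀ n, ∑ k ∈ Finset.range n, ∫ x, (rE P' q Ξ f k x) ^ 2 ∂ν ≤ R := by
      intro n
      rw [hR, hsym]
      apply rE_bound h.pair.right hq0 hq1 hΞ h.f2 hK _ he'
      filter_upwards [hHK, hHae, Hfun_ae h] with x h1 h2 h3 hx N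
      exact (h3.2.1 N).trans (h2 ▸ h1 hx)
    have hAn : ∀ n, ∑ k ∈ Finset.range n, ∫ x, (P^[k] f x) ^ 2 ∂ν ≤ A := fun n =>
      h.sum.sum_le_tsum _ fun k _ => integral_nonneg fun x => sq_nonneg _
    have hBn : ∀ n, ∑ k ∈ Finset.range n, ∫ x, (P'^[k] f x) ^ 2 ∂ν ≤ B := fun n =>
      h.sum'.sum_le_tsum _ fun k _ => integral_nonneg fun x => sq_nonneg _
    have hχf : MemLp (Ξ.indicator f) 2 ν := h.f2.indicator hΞ
    set X := (Real.sqrt A + Real.sqrt B) * Real.sqrt R + R with hX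
    set T : ℕ → ℕ → ℝ := fun s n => |∑ k ∈ Finset.range n, ∫ x in Ξ, lag P P' f s k x ∂ν -
          ∑' k, ∫ x in Ξ, lag P P' f s k x ∂ν| with hT
    have hTl : ∀ s, Tendsto (T s) atTop (𝓝 0) := by
      intro s
      have hsum : Summable fun k => ∫ x in Ξ, lag P P' f s k x ∂ν := by
        refine Summable.of_abs (Summable.of_nonneg_of_le (fun _ => abs_nonneg _) (fun k => ?_)
          (lag_summable h s))
        refine (abs_integral_le_integral_abs).trans ?_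
        exact setIntegral_le_integral (lag_integrable h s k).abs
          (Eventually.of_forall fun x => abs_nonneg _)
      have := hsum.hasSum.tendsto_sum_nat
      have h2 := (this.sub_const (∑' k, ∫ x in Ξ, lag P P' f s k x ∂ν)).abs
      simpa using h2
    set Z : ℕ → ℝ := fun n => Real.sqrt (∫ x, (Ξ.indicator f x) ^ 2 ∂ν) *
      Real.sqrt ((q ^ 2) ^ (2 * n + 1) * ∫ x, ρ x ^ 2 ∂ν) with hZ
    have hZl : Tendsto Z atTop (𝓝 0) := by
      have h1 : Tendsto (fun n : ℕ => (q ^ 2) ^ (2 * n + 1)) atTop (𝓝 0) := by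
        have hq2 : q ^ 2 < 1 := pow_lt_one₀ hq0 hq1 (by norm_num)
        refine (tendsto_pow_atTop_nhds_zero_of_lt_one (sq_nonneg q) hq2).comp ?_
        apply tendsto_atTop_mono (f := fun n : ℕ => n) _ tendsto_id
        intro n; omega
      have h2 := (h1.mul_const (∫ x, ρ x ^ 2 ∂ν)).sqrt.const_mul
        (Real.sqrt (∫ x, (Ξ.indicator f x) ^ 2 ∂ν))
      simpa using h2
    have hmain : ∀ n, |∫ x, ρ x ^ 2 ∂ν - q ^ 2 * ∫ x in Ξ, (P ρ x) ^ 2 ∂ν -
        ∫ x in Ξ, wfun P P' f x ∂ν| ≤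
        (2 * (ow ν P P' f 0 q + ow ν P P' f 1 q) + 4 * X) + (2 * T 0 n + 2 * T 1 n + 2 * Z n) := by
      intro n
      rw [rate_finite h.pair hΞ h.f2 hρ hs n, wfun_setIntegral h Ξ]
      have c0 := lag_compare h hq0 hq1 hΞ hAn hBn hE hE' 0 n (by norm_num)
      have c1 := lag_compare h hq0 hq1 hΞ hAn hBn hE hE' 1 n le_rfl
      have hfi : ∫ x, (Ξ.indicator f x) ^ 2 ∂ν = ∫ x in Ξ, f x ^ 2 ∂ν := by
        rw [← integral_indicator hΞ]
        congr 1
        ext x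
        by_cases hx : x ∈ Ξ <;> simp [hx]
      have hrem : |∫ x, Ξ.indicator f x * (rT P q Ξ)^[2 * n + 1] ρ x ∂ν| ≤ Z n := by
        refine (rate_cs hχf (rT_iter_memLp h.pair.left hΞ hρ _)).trans ?_
        apply mul_le_mul_of_nonneg_left _ (Real.sqrt_nonneg _)
        exact Real.sqrt_le_sqrt (rT_iter_sq_le h.pair.left hΞ hρ _)
      rw [hfi]
      rw [Finset.sum_add_distrib]
      simp only [add_zero] at c0
      rw [abs_le] at c0 c1 hrem ⊢
      simp only [hT]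
      constructor <;> linarith [c0.1, c0.2, c1.1, c1.2, hrem.1, hrem.2]
    have hlim : Tendsto (fun n => (2 * (ow ν P P' f 0 q + ow ν P P' f 1 q) + 4 * X) +
        (2 * T 0 n + 2 * T 1 n + 2 * Z n)) atTop
        (𝓝 ((2 * (ow ν P P' f 0 q + ow ν P P' f 1 q) + 4 * X) + (2 * 0 + 2 * 0 + 2 * 0))) :=
      Tendsto.const_add _ ((((hTl 0).const_mul 2).add ((hTl 1).const_mul 2)).add
        (hZl.const_mul 2))
    have := ge_of_tendsto' hlim hmain
    refine this.trans ?_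
    have s1 := Real.sqrt_nonneg R
    have s2 := Real.sqrt_nonneg A
    have s3 := Real.sqrt_nonneg B
    rw [hX]
    have e1 : 0 ≤ (C0 + C1) * Real.sqrt R := mul_nonneg (by linarith) s1
    have e2 : 0 ≤ (C0 + C1) * R := mul_nonneg (by linarith) hR0
    have e3 : 0 ≤ (Real.sqrt A + Real.sqrt B) * R := mul_nonneg (by linarith) hR0
    nlinarith

end Pool.NH23.MC
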