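import Pool.Agent.NH23.MC.LLN
import Pool.Agent.NH23.MC.Rate

set_option autoImplicit false
open MeasureTheory ProbabilityTheory Filter Topology

namespace Pool.NH23.MC

variable {S : Type} [MeasurableSpace S] {ν : Measure S} {P P' : (S → ℝ) → (S → ℝ)} {f : S → ℝ}
  {H w : S → ℝ} {o : ℝ → ℝ} {M : ℝ}

/-- The tails of an integrable function are small. -/
theorem Iface_tail [IsProbabilityMeasure ν] (hm : Measurable H) (hi : Integrable H ν) {ε : ℝ}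
    (hε : 0 < ε) : ∃ K : ℝ, 0 ≤ K ∧ ∫ x in {x | K < H x}, H x ∂ν ≤ ε := by
  have h1 : Tendsto (fun n : ℕ => ∫ x in {x | (n : ℝ) < H x}, H x ∂ν) atTop
      (𝓝 (∫ x in ⋂ n : ℕ, {x | (n : ℝ) < H x}, H x ∂ν)) := by
    apply tendsto_setIntegral_of_antitone
    · intro n
      exact measurableSet_lt measurable_const hm
    · intro a b hab x hx
      have hx' : (b : ℝ) < H x := hx
      have : (a : ℝ) ≤ b := by exact_mod_cast hab
      exact lt_of_le_of_lt this hx'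
    · exact ⟨0, hi.integrableOn⟩
  have h2 : (⋂ n : ℕ, {x | (n : ℝ) < H x}) = ∅ := by
    ext x
    simp only [Set.mem_iInter, Set.mem_ofPred_eq, Set.mem_empty_iff_false, iff_false, not_forall,
      not_lt]
    exact exists_nat_ge (H x)
  rw [h2, setIntegral_empty] at h1
  obtain ⟨n, hn⟩ := ((tendsto_order.1 h1).2 ε hε).exists
  exact ⟨n, Nat.cast_nonneg n, hn.le⟩

/-- The rate lemma with the measure of `Ξ`. -/
theorem Iface_energy [IsProbabilityMeasure ν] (h : Ctx ν P P' f)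
    (hR : RateData ν P f H w o M) {q : ℝ} (hq0 : 0 ≤ q) (hq1 : q < 1) {Ξ : Set S}
    (hΞ : MeasurableSet Ξ) {K : ℝ} (hK : 0 ≤ K) (hoff : ∀ x, x ∉ Ξ → H x ≤ K)
    {ρ : S → ℝ} (hρ : MemLp ρ 2 ν) (hρs : IsSol ν P q Ξ f ρ) :
    ∫ x, ρ x ^ 2 ∂ν - q ^ 2 * ∫ x in Ξ, (P ρ x) ^ 2 ∂ν ≤
      3 * ∫ x in Ξ, H x ∂ν + o q + M * (Real.sqrt (K * ν.real Ξ) + K * ν.real Ξ) := by
  obtain ⟨e, -, he⟩ := exists_exit (ν := ν) h.pair.left hq0 hq1 hΞ
  have h1 := hR.rate q hq0 hq1 Ξ hΞ K hK (ae_of_all _ hoff) ρ hρ hρs e he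
  have h2 := he.integral_le_measure hΞ
  have h3 : ∫ x in Ξ, w x ∂ν ≤ 3 * ∫ x in Ξ, H x ∂ν := by
    rw [← integral_const_mul]
    apply integral_mono_ae hR.wint.integrableOn (hR.Hint.integrableOn.const_mul 3)
    filter_upwards [ae_restrict_of_ae hR.wle] with x hx
    exact (le_abs_self _).trans hx
  have h4 : K * ∫ x in Ξ, e x ∂ν ≤ K * ν.real Ξ := mul_le_mul_of_nonneg_left h2 hK
  have h5 : Real.sqrt (K * ∫ x in Ξ, e x ∂ν) ≤ Real.sqrt (K * ν.real Ξ) := Real.sqrt_le_sqrt h4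
  have h6 := mul_le_mul_of_nonneg_left (add_le_add h5 h4) hR.Mnn
  have h7 := (abs_le.1 h1).2
  linarith

/-- (I3) -/
theorem i3 [IsProbabilityMeasure ν] (h : Ctx ν P P' f)
    (hR : RateData ν P f H w o M) {ε B : ℝ} (hε : 0 < ε) (hB : 0 < B) :
    ∃ q₀ : ℝ, q₀ < 1 ∧ ∀ q : ℝ, q₀ < q → 0 ≤ q → q < 1 →
    ∀ r : S → ℝ, Measurable r → MemLp r 2 ν → IsSol ν P q Set.univ f r →
    ∃ ρ : S → ℝ, MemLp ρ 2 ν ∧ (∀ᵐ x ∂ν, |r x - ρ x| ≤ B / Real.sqrt (1 - q)) ∧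
      ∫ x, ρ x ^ 2 ∂ν - ∫ x, (P ρ x) ^ 2 ∂ν ≤ ε := by
  have hM := hR.Mnn
  obtain ⟨t, ht0, ht1, hte⟩ : ∃ t : ℝ, 0 < t ∧ t ≤ 1 ∧ t * (7 + 4 * M) ≤ ε := by
    refine ⟨min 1 (ε / (7 + 4 * M)), lt_min one_pos (by positivity), min_le_left _ _, ?_⟩
    calc min 1 (ε / (7 + 4 * M)) * (7 + 4 * M) ≤ ε / (7 + 4 * M) * (7 + 4 * M) :=
          mul_le_mul_of_nonneg_right (min_le_right _ _) (by positivity)
      _ = ε := by field_simp
  obtain ⟨K, hK, hKt⟩ := Iface_tail hR.Hmeas hR.Hint (ε := t ^ 2) (by positivity)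
  obtain ⟨q₁, hq₁, hres⟩ := res_small h (ε := t ^ 2 * B ^ 2 / (K + 1)) (by positivity)
  have ho : ∃ q₂ : ℝ, q₂ < 1 ∧ ∀ q : ℝ, q₂ < q → q < 1 → o q ≤ t := by
    have h1 : ∀ᶠ q in 𝓝[<] (1:ℝ), o q < t := (tendsto_order.1 hR.o_lim).2 t ht0
    obtain ⟨q₂, hq₂, h2⟩ := (mem_nhdsLT_iff_exists_Ioo_subset).1 h1
    exact ⟨q₂, hq₂, fun q h3 h4 => (h2 ⟨h3, h4⟩ : o q < t).le⟩
  obtain ⟨q₂, hq₂, ho⟩ := ho
  refine ⟨max q₁ q₂, max_lt hq₁ hq₂, fun q hq hq0 hq1 r hrm hr2 hrs => ?_⟩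
  have h1q : 0 < 1 - q := by linarith
  have hsq : 0 < Real.sqrt (1 - q) := Real.sqrt_pos.2 h1q
  have hres' := hres q (lt_of_le_of_lt (le_max_left _ _) hq) hq0 hq1 r hr2 hrs
  have ho' := ho q (lt_of_le_of_lt (le_max_right _ _) hq) hq1
  set B' := B / Real.sqrt (1 - q) with hB'
  have hB'0 : 0 < B' := by positivity
  set S1 : Set S := {x | K < H x} with hS1
  set S2 : Set S := {x | B' < |r x|} with hS2
  have hS1m : MeasurableSet S1 := measurableSet_lt measurable_const hR.Hmeas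
  have hS2m : MeasurableSet S2 := measurableSet_lt measurable_const hrm.abs
  have hΞ : MeasurableSet (S1 ∪ S2) := hS1m.union hS2m
  obtain ⟨ρ, hρm, hρi, hρs⟩ := exists_sol h.pair.left hq0 hq1 hΞ (h.f2.integrable one_le_two)
  have hρ2 : MemLp ρ 2 ν := hρs.memLp h.pair.left hq0 hq1 hΞ h.f2 hρi
  refine ⟨ρ, hρ2, ?_, ?_⟩
  · refine remainder_bound h.pair.left hq0 hq1 hB'0.le h.f2 hr2 hρ2 hrs hρs (ae_of_all _ ?_)
    intro x hx
    by_contra hcon
    push Not at hcon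
    exact hx (Or.inr hcon)
  · have hE := Iface_energy h hR hq0 hq1 hΞ hK (fun x hx => by
      by_contra hcon
      push Not at hcon
      exact hx (Or.inl hcon)) hρ2 hρs
    have hPρ2 : MemLp (P ρ) 2 ν := h.pair.left.memLp hρ2
    have hle : q ^ 2 * ∫ x in S1 ∪ S2, (P ρ x) ^ 2 ∂ν ≤ ∫ x, (P ρ x) ^ 2 ∂ν := by
      have h1 : ∫ x in S1 ∪ S2, (P ρ x) ^ 2 ∂ν ≤ ∫ x, (P ρ x) ^ 2 ∂ν :=
        setIntegral_le_integral hPρ2.integrable_sq (ae_of_all _ fun x => sq_nonneg _)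
      have h2 : 0 ≤ ∫ x in S1 ∪ S2, (P ρ x) ^ 2 ∂ν := integral_nonneg fun x => sq_nonneg _
      have h3 : q ^ 2 ≤ 1 := pow_le_one₀ hq0 hq1.le
      nlinarith
    have hm2 : K * ν.real S2 ≤ t ^ 2 := by
      have h1 : B' ^ 2 * ν.real S2 ≤ ∫ x, r x ^ 2 ∂ν := by
        have h2 : ∫ x in S2, B' ^ 2 ∂ν ≤ ∫ x in S2, r x ^ 2 ∂ν := by
          apply setIntegral_mono_on (integrable_const _).integrableOn
            hr2.integrable_sq.integrableOn hS2m
          intro x hx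
          have hx' : B' < |r x| := hx
          rw [← sq_abs (r x)]
          exact pow_le_pow_left₀ hB'0.le hx'.le 2
        have h3 : ∫ x in S2, r x ^ 2 ∂ν ≤ ∫ x, r x ^ 2 ∂ν :=
          setIntegral_le_integral hr2.integrable_sq (ae_of_all _ fun x => sq_nonneg _)
        rw [setIntegral_const, smul_eq_mul] at h2
        linarith
      have h4 : B' ^ 2 = B ^ 2 / (1 - q) := by
        rw [hB', div_pow, Real.sq_sqrt h1q.le]
      rw [h4] at h1
      have h5 : B ^ 2 * ν.real S2 ≤ (1 - q) * ∫ x, r x ^ 2 ∂ν := by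
        have := mul_le_mul_of_nonneg_left h1 h1q.le
        calc B ^ 2 * ν.real S2 = (1 - q) * (B ^ 2 / (1 - q) * ν.real S2) := by field_simp
          _ ≤ _ := this
      have h6 : B ^ 2 * ν.real S2 ≤ t ^ 2 * B ^ 2 / (K + 1) := h5.trans hres'
      rw [le_div_iff₀ (by positivity)] at h6
      have h7 : 0 < B ^ 2 := by positivity
      have h8 : ν.real S2 * (K + 1) ≤ t ^ 2 := by
        have : B ^ 2 * (ν.real S2 * (K + 1)) ≤ B ^ 2 * t ^ 2 := by linarith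
        exact le_of_mul_le_mul_left this h7
      have h9 : 0 ≤ ν.real S2 := measureReal_nonneg
      nlinarith
    have hm1 : K * ν.real S1 ≤ ∫ x in S1, H x ∂ν := by
      have h2 : ∫ x in S1, K ∂ν ≤ ∫ x in S1, H x ∂ν := by
        apply setIntegral_mono_on (integrable_const _).integrableOn
          hR.Hint.integrableOn hS1m
        intro x hx
        exact (show K < H x from hx).le
      rw [setIntegral_const, smul_eq_mul] at h2
      linarith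
    have hmu : K * ν.real (S1 ∪ S2) ≤ 2 * t ^ 2 := by
      have h1 : ν.real (S1 ∪ S2) ≤ ν.real S1 + ν.real S2 := measureReal_union_le _ _
      have h2 := mul_le_mul_of_nonneg_left h1 hK
      linarith
    have hHu : ∫ x in S1 ∪ S2, H x ∂ν ≤ 2 * t ^ 2 := by
      have h1 : S1 ∪ S2 = S1 ∪ (S2 \ S1) := Set.union_sdiff_self.symm
      rw [h1, setIntegral_union Set.disjoint_sdiff_right (hS2m.diff hS1m)
        hR.Hint.integrableOn hR.Hint.integrableOn]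
      have h2 : ∫ x in S2 \ S1, H x ∂ν ≤ ∫ x in S2 \ S1, K ∂ν := by
        apply setIntegral_mono_on hR.Hint.integrableOn (integrable_const _).integrableOn
          (hS2m.diff hS1m)
        intro x hx
        exact not_lt.1 hx.2
      rw [setIntegral_const, smul_eq_mul] at h2
      have h3 : ν.real (S2 \ S1) ≤ ν.real S2 := measureReal_mono Set.sdiff_subset
      have h4 := mul_le_mul_of_nonneg_right h3 hK
      linarith
    have hsqrt : Real.sqrt (K * ν.real (S1 ∪ S2)) ≤ 2 * t := by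
      rw [Real.sqrt_le_left (by positivity)]
      nlinarith
    have hM2 : M * (Real.sqrt (K * ν.real (S1 ∪ S2)) + K * ν.real (S1 ∪ S2)) ≤
        M * (2 * t + 2 * t ^ 2) := mul_le_mul_of_nonneg_left (add_le_add hsqrt hmu) hM
    have ht2 : t ^ 2 ≤ t := by nlinarith
    have hMt : M * t ^ 2 ≤ M * t := mul_le_mul_of_nonneg_left ht2 hM
    nlinarith

/-- (I4) -/
theorem i4 [IsProbabilityMeasure ν] (h : Ctx ν P P' f)
    (hR : RateData ν P f H w o M) {ε : ℝ} (hε : 0 < ε) :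
    ∃ C : ℝ, 0 ≤ C ∧ ∃ q₀ : ℝ, q₀ < 1 ∧ ∀ q : ℝ, q₀ < q → 0 ≤ q → q < 1 →
    ∀ r : S → ℝ, Measurable r → MemLp r 2 ν → IsSol ν P q Set.univ f r →
    ∃ ψ D : S → ℝ, Integrable ψ ν ∧ Integrable D ν ∧ (∀ᵐ x ∂ν, 0 ≤ ψ x) ∧ (∀ᵐ x ∂ν, 0 ≤ D x) ∧
      ∫ x, ψ x ∂ν ≤ ε ∧ ∀ᵐ x ∂ν, D x = C + ψ x - Gam P r x + q * P D x := by
  have hM := hR.Mnn
  obtain ⟨t, ht0, ht1, hte⟩ : ∃ t : ℝ, 0 < t ∧ t ≤ 1 ∧ t * (8 + 4 * M) ≤ ε := by
    refine ⟨min 1 (ε / (8 + 4 * M)), lt_min one_pos (by positivity), min_le_left _ _, ?_⟩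
    calc min 1 (ε / (8 + 4 * M)) * (8 + 4 * M) ≤ ε / (8 + 4 * M) * (8 + 4 * M) :=
          mul_le_mul_of_nonneg_right (min_le_right _ _) (by positivity)
      _ = ε := by field_simp
  obtain ⟨K, hK, Λ, hΛ, q₁, hq₁, hbad⟩ := bad_small h hR (ε := t ^ 2) (by positivity)
  refine ⟨5 * Λ, by positivity, max q₁ (1 / 2), max_lt hq₁ (by norm_num),
    fun q hq hq0 hq1 r hrm hr2 hrs => ?_⟩
  have h1q : 0 < 1 - q := by linarith
  have hq2 : 1 / 2 ≤ q := (lt_of_le_of_lt (le_max_right _ _) hq).le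
  obtain ⟨u, hum, hui, hus⟩ := exists_sol h.pair.left hq0 hq1 MeasurableSet.univ
    (h.pair.left.gam_integrable hr2)
  obtain ⟨hb1, hb2, hb3⟩ := hbad q (lt_of_le_of_lt (le_max_left _ _) hq) hq0 hq1 r u hrm hr2 hrs
    hum hui hus
  set Ξ := Bad H r u K (Λ / (1 - q)) with hΞdef
  have hΞ : MeasurableSet Ξ := Bad.measurableSet hR.Hmeas hrm hum _ _
  obtain ⟨ρ, hρm, hρi, hρs⟩ := exists_sol h.pair.left hq0 hq1 hΞ (h.f2.integrable one_le_two)
  have hρ2 : MemLp ρ 2 ν := hρs.memLp h.pair.left hq0 hq1 hΞ h.f2 hρi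
  obtain ⟨ψ, D, hψ, hD, hψ0, hD0, hψi, hDe⟩ := dom_free h.pair.left hq2 hq1 hΞ
    (B := Λ / (1 - q)) (by positivity) h.f2 hr2 hρ2 hrs hρs hui hus
    (ae_of_all _ fun x hx => (Bad.off hx).2)
  refine ⟨ψ, D, hψ, hD, hψ0, hD0, ?_, ?_⟩
  · have hE := Iface_energy h hR hq0 hq1 hΞ hK (fun x hx => (Bad.off hx).1) hρ2 hρs
    have hsqrt : Real.sqrt (K * ν.real Ξ) ≤ t := by
      rw [Real.sqrt_le_left ht0.le]
      exact hb1
    have hM2 : M * (Real.sqrt (K * ν.real Ξ) + K * ν.real Ξ) ≤ M * (t + t ^ 2) :=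
      mul_le_mul_of_nonneg_left (add_le_add hsqrt hb1) hM
    have ht2 : t ^ 2 ≤ t := by nlinarith
    have hMt : M * t ^ 2 ≤ M * t := mul_le_mul_of_nonneg_left ht2 hM
    nlinarith
  · filter_upwards [hDe] with x hx
    rw [hx, mul_div_cancel₀ _ h1q.ne']

/-- The operator part in one statement. -/
theorem iface [IsProbabilityMeasure ν] (h : Ctx ν P P' f) : ∃ V C₀ : ℝ, Iface ν P f V C₀ := by
  obtain ⟨H, w, o, M, hR⟩ := rate h
  refine ⟨∫ x, w x ∂ν, ∫ x, w x ∂ν + M, ?_⟩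
  refine
    { Vnn := integral_w_nonneg h hR
      f2 := h.f2
      ex := ?_
      small := fun ε hε => res_small h hε
      energy := fun q hq0 hq1 r hr hrs => energy_le h hR hq0 hq1 hr hrs
      lind := fun ε B hε hB => i3 h hR hε hB
      dom := fun ε hε => i4 h hR hε
      lln := ?_ }
  · intro q hq0 hq1
    obtain ⟨r, hrm, hri, hrs⟩ := exists_sol h.pair.left hq0 hq1 MeasurableSet.univ
      (h.f2.integrable one_le_two)
    exact ⟨r, hrm, hrs.memLp h.pair.left hq0 hq1 MeasurableSet.univ h.f2 hri, hrs⟩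
  · intro ε hε
    obtain ⟨q₀, hq₀, hl⟩ := lln h hR hε
    refine ⟨q₀, hq₀, fun q hq hq0 hq1 r hrm hr2 hrs => ?_⟩
    obtain ⟨u, hum, hui, hus⟩ := exists_sol h.pair.left hq0 hq1 MeasurableSet.univ
      (h.pair.left.gam_integrable hr2)
    have hz := hl q hq hq0 hq1 r u hrm hr2 hrs hum hui hus
    refine ⟨fun x => (1 - q) * u x - ∫ y, w y ∂ν, (hui.const_mul _).sub (integrable_const _),
      hz, ?_⟩
    have h1 := h.pair.left.sub' (hui.const_mul (1 - q)) (integrable_const (∫ y, w y ∂ν))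
    have h2 := h.pair.left.const_mul (1 - q) hui
    have h3 := h.pair.left.const (∫ y, w y ∂ν)
    filter_upwards [h1, h2, h3, hus] with x h1 h2 h3 h4
    rw [h1, h2, h3]
    rw [Set.indicator_univ] at h4
    linear_combination (1 - q) * h4

end Pool.NH23.MC
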