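import Pool.Agent.NH23.MC.Ker

set_option autoImplicit false
open MeasureTheory ProbabilityTheory Filter Topology

namespace Pool.NH23.MC

variable {S : Type} [mS : MeasurableSpace S]

theorem PathK_integral_bind (Q : Kernel S S) [IsMarkovKernel Q] (ρ : Measure S) {g : S → ℝ}
    (hg : Integrable g (ρ.bind Q)) : ∫ x, g x ∂(ρ.bind Q) = ∫ x, Kop Q g x ∂ρ := by
  have h1 : ρ.bind Q = (Q ∘ₖ (Kernel.const Unit ρ)) () := Measure.comp_eq_comp_const_apply
  rw [h1] at hg ⊢
  rw [Kernel.integral_comp hg]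
  simp [Kop]

/-- the joint law in terms of the kernel, on an event of the past -/
theorem PathK_map (Q : Kernel S S) [IsMarkovKernel Q] {Ω : Type} (m : MeasurableSpace Ω)
    [mΩ : MeasurableSpace Ω] (hm : m ≤ mΩ)
    (μ : Measure Ω) [IsProbabilityMeasure μ] (X : ℕ → Ω → S) (hX : ∀ i, Measurable (X i)) (n : ℕ)
    (hM : ∀ A : Set S, MeasurableSet A →
        condExp m μ ((X (n+1) ⁻¹' A).indicator (fun _ => (1 : ℝ)))
          =ᵐ[μ] fun ω => (Q (X n ω) A).toReal) (A : Set Ω) (hA : MeasurableSet[m] A) :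
    (μ.restrict A).map (X (n + 1)) = ((μ.restrict A).map (X n)).bind Q := by
  ext B hB
  rw [Measure.map_apply (hX _) hB, Measure.bind_apply hB Q.aemeasurable,
    lintegral_map (Q.measurable_coe hB) (hX n)]
  have hB' : MeasurableSet (X (n + 1) ⁻¹' B) := hX _ hB
  have hf1 : (μ.restrict A) (X (n + 1) ⁻¹' B) ≠ ⊤ := measure_ne_top _ _
  have hf2 : ∫⁻ ω in A, Q (X n ω) B ∂μ ≠ ⊤ := by
    have h1 : ∫⁻ ω in A, Q (X n ω) B ∂μ ≤ ∫⁻ _ω in A, 1 ∂μ :=
      lintegral_mono fun ω => prob_le_one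
    refine ne_top_of_le_ne_top ?_ h1
    rw [lintegral_one]
    exact measure_ne_top _ _
  rw [← ENNReal.toReal_eq_toReal_iff' hf1 hf2]
  have h2 : ((μ.restrict A) (X (n + 1) ⁻¹' B)).toReal =
      ∫ ω in A, (X (n+1) ⁻¹' B).indicator (fun _ => (1 : ℝ)) ω ∂μ := by
    rw [integral_indicator hB', setIntegral_const, smul_eq_mul, mul_one]
    rfl
  have hint : Integrable ((X (n+1) ⁻¹' B).indicator (fun _ => (1 : ℝ))) μ :=
    (integrable_const (1 : ℝ)).indicator hB'
  have h3 := setIntegral_condExp (μ := μ) hm hint hA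
  have h4 : ∫ ω in A, (condExp m μ ((X (n+1) ⁻¹' B).indicator (fun _ => (1 : ℝ)))) ω ∂μ =
      ∫ ω in A, (Q (X n ω) B).toReal ∂μ :=
    integral_congr_ae (ae_restrict_of_ae (hM B hB))
  rw [h2, ← h3, h4, integral_toReal]
  · exact ((Q.measurable_coe hB).comp (hX n)).aemeasurable
  · exact Eventually.of_forall fun ω => measure_lt_top _ _

/-- The Markov chain of the frozen statement is a `Path`. -/
theorem exists_path (Q : Kernel S S) [IsMarkovKernel Q] (ν : Measure S) [IsProbabilityMeasure ν]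
    (hν : ν.bind Q = ν) {Ω : Type} [mΩ : MeasurableSpace Ω] (μ : Measure Ω)
    [IsProbabilityMeasure μ] (X : ℕ → Ω → S) (hX : ∀ i, Measurable (X i))
    (h0 : μ.map (X 0) = ν)
    (hM : ∀ n : ℕ, ∀ A : Set S, MeasurableSet A →
        condExp (⨆ i ≤ n, MeasurableSpace.comap (X i) mS) μ
          ((X (n+1) ⁻¹' A).indicator (fun _ => (1 : ℝ)))
          =ᵐ[μ] fun ω => (Q (X n ω) A).toReal) :
    ∃ ℱ : Filtration ℕ mΩ, Path μ ν (Kop Q) ℱ X := by
  let ℱ : Filtration ℕ mΩ :=
    { seq := fun n => ⨆ i ≤ n, MeasurableSpace.comap (X i) mS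
      mono' := fun n m hnm => biSup_mono fun i hi => le_trans hi hnm
      le' := fun n => iSup₂_le fun i _ => (hX i).comap_le }
  have hmap : ∀ n (A : Set Ω), MeasurableSet[ℱ n] A →
      (μ.restrict A).map (X (n + 1)) = ((μ.restrict A).map (X n)).bind Q := fun n A hA =>
    PathK_map Q (ℱ n) (ℱ.le n) μ X hX n (hM n) A hA
  have hadapt : ∀ i, Measurable[ℱ i] (X i) := fun i =>
    measurable_iff_comap_le.2 (le_iSup₂_of_le i le_rfl le_rfl)
  have hlaw : ∀ i, μ.map (X i) = ν := by
    intro i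
    induction i with
    | zero => exact h0
    | succ n ih =>
      have h1 := hmap n Set.univ MeasurableSet.univ
      rw [Measure.restrict_univ, ih, hν] at h1
      exact h1
  refine ⟨ℱ, hX, hadapt, hlaw, ?_⟩
  intro i g hg
  have hK := kop_mop Q ν hν
  have hKg : Integrable (Kop Q g) ν := hK.integrable g hg
  have hgi : Integrable (fun ω => g (X (i + 1) ω)) μ := by
    have h1 : Integrable g (μ.map (X (i + 1))) := by rw [hlaw]; exact hg
    exact (integrable_map_measure h1.1 (hX _).aemeasurable).1 h1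
  have hKi : Integrable (fun ω => Kop Q g (X i ω)) μ := by
    have h1 : Integrable (Kop Q g) (μ.map (X i)) := by rw [hlaw]; exact hKg
    exact (integrable_map_measure h1.1 (hX _).aemeasurable).1 h1
  symm
  refine ae_eq_condExp_of_forall_setIntegral_eq (ℱ.le i) hgi
    (fun s _ _ => hKi.integrableOn) ?_ ?_
  · intro A hA _
    have hac : ∀ j, (μ.restrict A).map (X j) ≤ ν := by
      intro j
      rw [← hlaw j]
      exact Measure.map_mono Measure.restrict_le_self (hX j)
    have h1 : ∫ ω in A, Kop Q g (X i ω) ∂μ = ∫ x, Kop Q g x ∂((μ.restrict A).map (X i)) := by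
      rw [integral_map (hX i).aemeasurable]
      exact hKg.1.mono_measure (hac i)
    have h2 : ∫ ω in A, g (X (i + 1) ω) ∂μ = ∫ x, g x ∂((μ.restrict A).map (X (i + 1))) := by
      rw [integral_map (hX (i + 1)).aemeasurable]
      exact hg.1.mono_measure (hac (i + 1))
    rw [h1, h2, hmap i A hA, PathK_integral_bind]
    rw [← hmap i A hA]
    exact hg.mono_measure (hac (i + 1))
  · -- measurability
    have hg' : Measurable (hg.1.mk g) := hg.1.measurable_mk
    have h1 : Measurable (Kop Q (hg.1.mk g)) := kop_measurable Q hg'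
    have h2 : Kop Q g =ᵐ[ν] Kop Q (hg.1.mk g) := hK.congr _ _ hg hg.1.ae_eq_mk
    refine ⟨fun ω => Kop Q (hg.1.mk g) (X i ω), (h1.comp (hadapt i)).stronglyMeasurable, ?_⟩
    have h3 : Kop Q g =ᵐ[μ.map (X i)] Kop Q (hg.1.mk g) := by rw [hlaw]; exact h2
    exact ae_of_ae_map (hX i).aemeasurable h3

end Pool.NH23.MC
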