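import Pool.Agent.NH23.MC.BasicA

set_option autoImplicit false
open MeasureTheory ProbabilityTheory Filter Topology

namespace Pool.NH23.MC

variable {S : Type} [mS : MeasurableSpace S]

/-- The operator of a kernel. -/
noncomputable def Kop (Q : Kernel S S) : (S → ℝ) → (S → ℝ) := fun h => fun y => ∫ z, h z ∂(Q y)

theorem kop_measurable (Q : Kernel S S) [IsMarkovKernel Q] {g : S → ℝ} (hg : Measurable g) :
    Measurable (Kop Q g) :=
  (hg.stronglyMeasurable.integral_kernel (κ := Q)).measurable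

theorem ker_int (Q : Kernel S S) (ν : Measure S) (hν : ν.bind Q = ν) {g : S → ℝ}
    (hg : Integrable g ν) : ∀ᵐ x ∂ν, Integrable g (Q x) := by
  have h : Integrable g (ν.bind Q) := by rw [hν]; exact hg
  exact Measure.ae_integrable_of_integrable_comp h

theorem ker_ae (Q : Kernel S S) (ν : Measure S) (hν : ν.bind Q = ν) {p : S → Prop}
    (hp : ∀ᵐ x ∂ν, p x) : ∀ᵐ x ∂ν, ∀ᵐ y ∂(Q x), p y := by
  have h : ∀ᵐ x ∂(ν.bind Q), p x := by rw [hν]; exact hp
  exact Measure.ae_ae_of_ae_comp h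

theorem kop_mop (Q : Kernel S S) [IsMarkovKernel Q] (ν : Measure S) [IsProbabilityMeasure ν]
    (hν : ν.bind Q = ν) : MOp ν (Kop Q) where
  integrable := fun g hg => by
    have h : Integrable g (ν.bind Q) := by rw [hν]; exact hg
    rw [Measure.comp_eq_comp_const_apply] at h
    have h2 := h.integral_comp
    rw [Kernel.const_apply] at h2
    exact h2
  congr := fun g h _ hgh => by
    filter_upwards [ker_ae Q ν hν hgh] with x hx
    exact integral_congr_ae hx
  add := fun g h hg hh => by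
    filter_upwards [ker_int Q ν hν hg, ker_int Q ν hν hh] with x h1 h2
    exact integral_add h1 h2
  smul := fun c g _ => by
    refine ae_of_all _ fun x => ?_
    exact integral_const_mul c g
  nonneg := fun g _ hg => by
    filter_upwards [ker_ae Q ν hν hg] with x hx
    exact integral_nonneg_of_ae hx
  one := by
    refine ae_of_all _ fun x => ?_
    simp [Kop]
  integral := fun g hg => by
    have h : Integrable g (ν.bind Q) := by rw [hν]; exact hg
    have h1 : Integrable (fun p : S × S => g p.2) (ν ⊗ₘ Q) :=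
      (Measure.integrable_compProd_snd_iff h.1).2 h
    have h2 := Measure.integral_compProd h1
    have h3 : ∫ p : S × S, g p.2 ∂(ν ⊗ₘ Q) = ∫ x, g x ∂ν := by
      have h4 : (ν ⊗ₘ Q).map Prod.snd = ν := by
        have := Measure.snd_compProd ν Q
        rw [Measure.snd] at this
        rw [this, hν]
      have h5 := integral_map (μ := ν ⊗ₘ Q) (φ := Prod.snd) measurable_snd.aemeasurable
        (f := g) (by rw [h4]; exact hg.1)
      rw [h4] at h5
      exact h5.symm
    rw [← h3, h2]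
    rfl

/-! ### The adjoint, by disintegration-free conditional expectation -/

section Adj

set_option linter.unusedSectionVars false

variable (Q : Kernel S S) [IsMarkovKernel Q] (ν : Measure S) [IsProbabilityMeasure ν]

theorem ker_fst : (ν ⊗ₘ Q).map Prod.fst = ν := Measure.fst_compProd ν Q

theorem ker_snd (hν : ν.bind Q = ν) : (ν ⊗ₘ Q).map Prod.snd = ν := by
  have := Measure.snd_compProd ν Q
  rw [Measure.snd] at this
  rw [this, hν]

/-- the conditional expectation of `g (ξ₀)` given `ξ₁` -/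
noncomputable def kerCe (g : S → ℝ) : S × S → ℝ :=
  (ν ⊗ₘ Q)[fun p : S × S => g p.1 | MeasurableSpace.comap Prod.snd mS]


theorem kerCe_exists (g : S → ℝ) :
    ∃ h : S → ℝ, StronglyMeasurable h ∧ kerCe Q ν g = h ∘ Prod.snd :=
  StronglyMeasurable.exists_eq_measurable_comp (mY := mS) (f := (Prod.snd : S × S → S))
    (stronglyMeasurable_condExp (μ := ν ⊗ₘ Q) (f := fun p : S × S => g p.1)
      (m := MeasurableSpace.comap Prod.snd mS))

/-- the adjoint operator -/
noncomputable def Kadj (g : S → ℝ) : S → ℝ := (kerCe_exists Q ν g).choose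

theorem kadj_sm (g : S → ℝ) : StronglyMeasurable (Kadj Q ν g) := (kerCe_exists Q ν g).choose_spec.1

theorem kadj_eq (g : S → ℝ) : kerCe Q ν g = fun p => Kadj Q ν g p.2 :=
  (kerCe_exists Q ν g).choose_spec.2

variable {Q ν}

/-- transfer from `S × S` to `S` -/
theorem ker_transfer (hν : ν.bind Q = ν) {s : Set S} (hs : MeasurableSet s)
    (h : ∀ᵐ p ∂(ν ⊗ₘ Q), p.2 ∈ s) : ∀ᵐ x ∂ν, x ∈ s := by
  rw [← ker_snd Q ν hν]
  exact (ae_map_iff measurable_snd.aemeasurable hs).2 h

theorem ker_pull_snd (hν : ν.bind Q = ν) {p : S → Prop} (h : ∀ᵐ x ∂ν, p x) :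
    ∀ᵐ z ∂(ν ⊗ₘ Q), p z.2 := by
  rw [← ker_snd Q ν hν] at h
  exact ae_of_ae_map measurable_snd.aemeasurable h

theorem ker_pull_fst {p : S → Prop} (h : ∀ᵐ x ∂ν, p x) :
    ∀ᵐ z ∂(ν ⊗ₘ Q), p z.1 := by
  rw [← ker_fst Q ν] at h
  exact ae_of_ae_map measurable_fst.aemeasurable h

theorem ker_int_fst {g : S → ℝ} (hg : Integrable g ν) :
    Integrable (fun p : S × S => g p.1) (ν ⊗ₘ Q) := by
  rw [← ker_fst Q ν] at hg
  exact hg.comp_measurable measurable_fst

theorem ker_int_snd (hν : ν.bind Q = ν) {g : S → ℝ} (hg : Integrable g ν) :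
    Integrable (fun p : S × S => g p.2) (ν ⊗ₘ Q) := by
  rw [← ker_snd Q ν hν] at hg
  exact hg.comp_measurable measurable_snd

theorem ker_memLp_fst {g : S → ℝ} (hg : MemLp g 2 ν) :
    MemLp (fun p : S × S => g p.1) 2 (ν ⊗ₘ Q) := by
  rw [← ker_fst Q ν] at hg
  exact hg.comp_of_map measurable_fst.aemeasurable

theorem ker_memLp_snd (hν : ν.bind Q = ν) {g : S → ℝ} (hg : MemLp g 2 ν) :
    MemLp (fun p : S × S => g p.2) 2 (ν ⊗ₘ Q) := by
  rw [← ker_snd Q ν hν] at hg
  exact hg.comp_of_map measurable_snd.aemeasurable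

theorem ker_integral_fst {g : S → ℝ} (hg : AEStronglyMeasurable g ν) :
    ∫ p : S × S, g p.1 ∂(ν ⊗ₘ Q) = ∫ x, g x ∂ν := by
  have h5 := integral_map (μ := ν ⊗ₘ Q) (φ := Prod.fst) measurable_fst.aemeasurable
    (f := g) (by rw [ker_fst]; exact hg)
  rw [ker_fst] at h5
  exact h5.symm

theorem ker_integral_snd (hν : ν.bind Q = ν) {g : S → ℝ} (hg : AEStronglyMeasurable g ν) :
    ∫ p : S × S, g p.2 ∂(ν ⊗ₘ Q) = ∫ x, g x ∂ν := by
  have h5 := integral_map (μ := ν ⊗ₘ Q) (φ := Prod.snd) measurable_snd.aemeasurable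
    (f := g) (by rw [ker_snd Q ν hν]; exact hg)
  rw [ker_snd Q ν hν] at h5
  exact h5.symm

theorem ker_comap_le : MeasurableSpace.comap (Prod.snd : S × S → S) mS ≤
    (inferInstance : MeasurableSpace (S × S)) := measurable_snd.comap_le

theorem kadj_integrable (hν : ν.bind Q = ν) (g : S → ℝ) : Integrable (Kadj Q ν g) ν := by
  have h : Integrable (fun p : S × S => Kadj Q ν g p.2) (ν ⊗ₘ Q) := by
    rw [← kadj_eq]
    exact integrable_condExp
  have h2 := (integrable_map_measure (μ := ν ⊗ₘ Q) (f := Prod.snd) (g := Kadj Q ν g)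
    (kadj_sm Q ν g).aestronglyMeasurable measurable_snd.aemeasurable).2 h
  rwa [ker_snd Q ν hν] at h2

theorem kadj_mop (hν : ν.bind Q = ν) : MOp ν (Kadj Q ν) where
  integrable := fun g _ => kadj_integrable hν g
  congr := fun g h _ hgh => by
    refine ker_transfer hν (s := {x | Kadj Q ν g x = Kadj Q ν h x})
      (measurableSet_eq_fun (kadj_sm Q ν g).measurable (kadj_sm Q ν h).measurable) ?_
    have h1 : kerCe Q ν g =ᵐ[ν ⊗ₘ Q] kerCe Q ν h :=
      condExp_congr_ae (ker_pull_fst (Q := Q) hgh)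
    rw [kadj_eq, kadj_eq] at h1
    exact h1
  add := fun g h hg hh => by
    refine ker_transfer hν (s := {x | Kadj Q ν (g + h) x = (Kadj Q ν g + Kadj Q ν h) x})
      (measurableSet_eq_fun (kadj_sm Q ν _).measurable
        ((kadj_sm Q ν g).measurable.add (kadj_sm Q ν h).measurable)) ?_
    have h1 : kerCe Q ν (g + h) =ᵐ[ν ⊗ₘ Q] kerCe Q ν g + kerCe Q ν h :=
      condExp_add (ker_int_fst (Q := Q) hg) (ker_int_fst (Q := Q) hh) _
    rw [kadj_eq, kadj_eq, kadj_eq] at h1
    exact h1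
  smul := fun c g _ => by
    refine ker_transfer hν (s := {x | Kadj Q ν (c • g) x = (c • Kadj Q ν g) x})
      (measurableSet_eq_fun (kadj_sm Q ν _).measurable
        ((kadj_sm Q ν g).measurable.const_smul c)) ?_
    have h1 : kerCe Q ν (c • g) =ᵐ[ν ⊗ₘ Q] c • kerCe Q ν g :=
      condExp_smul c _ _
    rw [kadj_eq, kadj_eq] at h1
    exact h1
  nonneg := fun g _ hg => by
    refine ker_transfer hν (s := {x | (0 : S → ℝ) x ≤ Kadj Q ν g x})
      (measurableSet_le measurable_const (kadj_sm Q ν _).measurable) ?_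
    have h1 : 0 ≤ᵐ[ν ⊗ₘ Q] kerCe Q ν g := condExp_nonneg (ker_pull_fst (Q := Q) hg)
    rw [kadj_eq] at h1
    exact h1
  one := by
    refine ker_transfer hν (s := {x | Kadj Q ν (fun _ => 1) x = 1})
      (measurableSet_eq_fun (kadj_sm Q ν _).measurable measurable_const) ?_
    have h1 : kerCe Q ν (fun _ => 1) = fun _ => 1 :=
      condExp_const ker_comap_le (1 : ℝ)
    rw [kadj_eq] at h1
    exact ae_of_all _ fun p => congrFun h1 p
  integral := fun g hg => by
    rw [← ker_integral_snd (Q := Q) hν (kadj_sm Q ν g).aestronglyMeasurable, ← kadj_eq]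
    unfold kerCe
    rw [integral_condExp ker_comap_le, ker_integral_fst hg.1]

theorem kadj_key (hν : ν.bind Q = ν) {g h : S → ℝ} (hg : Integrable g ν) (hh : Integrable h ν)
    (hgh : Integrable (fun p : S × S => g p.2 * h p.1) (ν ⊗ₘ Q)) :
    ∫ x, Kop Q g x * h x ∂ν = ∫ x, g x * Kadj Q ν h x ∂ν := by
  have h1 := Measure.integral_compProd hgh
  have h2 : ∫ a, ∫ b, g (a, b).2 * h (a, b).1 ∂(Q a) ∂ν = ∫ x, Kop Q g x * h x ∂ν := by
    refine integral_congr_ae (ae_of_all _ fun x => ?_)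
    exact integral_mul_const (h x) g
  rw [← h2, ← h1]
  have h3 : ∫ x, g x * Kadj Q ν h x ∂ν = ∫ p : S × S, g p.2 * Kadj Q ν h p.2 ∂(ν ⊗ₘ Q) :=
    (ker_integral_snd hν (hg.1.mul (kadj_sm Q ν h).aestronglyMeasurable)).symm
  rw [h3]
  have h4 : AEStronglyMeasurable[MeasurableSpace.comap (Prod.snd : S × S → S) mS]
      (fun p : S × S => g p.2) (ν ⊗ₘ Q) := by
    refine ⟨fun p => hg.1.mk g p.2, hg.1.stronglyMeasurable_mk.comp_measurable
      (comap_measurable Prod.snd), ?_⟩
    exact ker_pull_snd (Q := Q) hν hg.1.ae_eq_mk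
  have h5 := condExp_mul_of_aestronglyMeasurable_left (μ := ν ⊗ₘ Q)
    (m := MeasurableSpace.comap (Prod.snd : S × S → S) mS) (f := fun p : S × S => g p.2)
    (g := fun p : S × S => h p.1) h4 hgh (ker_int_fst (Q := Q) hh)
  have h6 : ∫ p : S × S, g p.2 * Kadj Q ν h p.2 ∂(ν ⊗ₘ Q) =
      ∫ p : S × S, ((ν ⊗ₘ Q)[(fun p : S × S => g p.2) * (fun p : S × S => h p.1) |
        MeasurableSpace.comap (Prod.snd : S × S → S) mS]) p ∂(ν ⊗ₘ Q) := by
    refine integral_congr_ae ?_
    filter_upwards [h5] with p hp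
    rw [hp]
    have h7 := congrFun (kadj_eq Q ν h) p
    rw [← h7]
    rfl
  rw [h6, integral_condExp ker_comap_le]
  rfl

theorem ker_bdd_int (hν : ν.bind Q = ν) {g h : S → ℝ} (hg : Integrable g ν)
    (hh : AEStronglyMeasurable h ν) (hb : ∃ C : ℝ, ∀ᵐ x ∂ν, |h x| ≤ C) :
    Integrable (fun p : S × S => g p.2 * h p.1) (ν ⊗ₘ Q) := by
  obtain ⟨C, hC⟩ := hb
  have h1 : AEStronglyMeasurable (fun p : S × S => h p.1) (ν ⊗ₘ Q) := by
    have h2 := hh
    rw [← ker_fst Q ν] at h2
    exact h2.comp_measurable measurable_fst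
  exact (ker_int_snd hν hg).mul_bdd h1 (ker_pull_fst (Q := Q) hC)

theorem ker_bdd_int' (hν : ν.bind Q = ν) {g h : S → ℝ} (hg : Integrable g ν)
    (hh : AEStronglyMeasurable h ν) (hb : ∃ C : ℝ, ∀ᵐ x ∂ν, |h x| ≤ C) :
    Integrable (fun p : S × S => h p.2 * g p.1) (ν ⊗ₘ Q) := by
  obtain ⟨C, hC⟩ := hb
  have h1 : AEStronglyMeasurable (fun p : S × S => h p.2) (ν ⊗ₘ Q) := by
    have h2 := hh
    rw [← ker_snd Q ν hν] at h2
    exact h2.comp_measurable measurable_snd
  exact (ker_int_fst hg).bdd_mul h1 (ker_pull_snd (Q := Q) hν hC)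

theorem ker_bdd_integrable {h : S → ℝ}
    (hh : AEStronglyMeasurable h ν) (hb : ∃ C : ℝ, ∀ᵐ x ∂ν, |h x| ≤ C) : Integrable h ν := by
  obtain ⟨C, hC⟩ := hb
  exact Integrable.of_bound hh C hC

theorem kadj_pair (hν : ν.bind Q = ν) : Pair ν (Kop Q) (Kadj Q ν) where
  left := kop_mop Q ν hν
  right := kadj_mop hν
  adj := fun g h hg hh => kadj_key hν (hg.integrable one_le_two) (hh.integrable one_le_two)
    ((ker_memLp_snd (Q := Q) hν hg).integrable_mul (ker_memLp_fst (Q := Q) hh))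
  adj1 := fun g h hg hh hb => kadj_key hν hg (ker_bdd_integrable hh hb) (ker_bdd_int hν hg hh hb)
  adj1' := fun g h hg hh hb => by
    have := kadj_key hν (ker_bdd_integrable hh hb) hg (ker_bdd_int' hν hg hh hb)
    calc ∫ x, Kadj Q ν g x * h x ∂ν = ∫ x, h x * Kadj Q ν g x ∂ν := by congr 1; ext x; ring
      _ = ∫ x, Kop Q h x * g x ∂ν := this.symm
      _ = ∫ x, g x * Kop Q h x ∂ν := by congr 1; ext x; ring

end Adj

/-- The adjoint exists (conditional expectation on `S × S` w.r.t. the second coordinate under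
`ν ⊗ₘ Q`, or Hilbert adjoint). -/
theorem exists_pair (Q : Kernel S S) [IsMarkovKernel Q] (ν : Measure S) [IsProbabilityMeasure ν]
    (hν : ν.bind Q = ν) : ∃ P' : (S → ℝ) → (S → ℝ), Pair ν (Kop Q) P' :=
  ⟨Kadj Q ν, kadj_pair hν⟩

theorem ker_iter_adj {ν : Measure S} [IsProbabilityMeasure ν] {P P' : (S → ℝ) → (S → ℝ)}
    (hP : Pair ν P P') {g : S → ℝ} (hg : AEStronglyMeasurable g ν) {C : ℝ}
    (hC : ∀ᵐ x ∂ν, |g x| ≤ C) (n : ℕ) : ∀ f : S → ℝ, Integrable f ν →
    ∫ x, f x * P^[n] g x ∂ν = ∫ x, P'^[n] f x * g x ∂ν := by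
  have hgi : Integrable g ν := ker_bdd_integrable hg ⟨C, hC⟩
  have hb : ∀ n, ∀ᵐ x ∂ν, |P^[n] g x| ≤ C := by
    intro n
    induction n with
    | zero => exact hC
    | succ n ih =>
      rw [Function.iterate_succ_apply']
      exact hP.left.abs_le_of_abs_le (hP.left.iter_integrable hgi n) ih
  induction n with
  | zero => intro f _; rfl
  | succ n ih =>
    intro f hf
    rw [Function.iterate_succ_apply', Function.iterate_succ_apply P' n f]
    rw [← hP.adj1' f (P^[n] g) hf (hP.left.iter_integrable hgi n).1 ⟨C, hb n⟩]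
    exact ih (P' f) (hP.right.integrable f hf)

/-- a duality bound for the second moment -/
theorem ker_dual {ν : Measure S} [IsProbabilityMeasure ν] {G : S → ℝ} (hG : MemLp G 2 ν) {c : ℝ}
    (h : ∀ g : S → ℝ, Measurable g → (∃ C : ℝ, ∀ x, |g x| ≤ C) → ∫ x, g x ^ 2 ∂ν ≤ 1 →
      (∫ x, G x * g x ∂ν) ^ 2 ≤ c) : ∫ x, G x ^ 2 ∂ν ≤ c := by
  -- a measurable version
  have hc0 : 0 ≤ c := by
    have := h (fun _ => 0) measurable_const ⟨0, fun x => by simp⟩ (by simp)
    simpa using this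
  obtain ⟨G', hG'⟩ : ∃ G' : S → ℝ, G' = hG.1.mk G := ⟨_, rfl⟩
  have hm : Measurable G' := hG' ▸ hG.1.stronglyMeasurable_mk.measurable
  have hae : G =ᵐ[ν] G' := hG' ▸ hG.1.ae_eq_mk
  obtain ⟨I, hI⟩ : ∃ I : ℝ, I = ∫ x, G x ^ 2 ∂ν := ⟨_, rfl⟩
  have hI0 : 0 ≤ I := hI ▸ integral_nonneg fun x => sq_nonneg _
  rcases hI0.eq_or_lt with h0 | hpos
  · rw [← hI, ← h0]; exact hc0
  have hGi : Integrable (fun x => G x ^ 2) ν := hG.integrable_sq
  have hsq : 0 < Real.sqrt I := Real.sqrt_pos.2 hpos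
  -- truncations
  have key : ∀ M : ℕ, (∫ x, {x | |G' x| ≤ M}.indicator (fun x => G x ^ 2) x ∂ν) ^ 2 / I ≤ c := by
    intro M
    have hs : MeasurableSet {x | |G' x| ≤ M} := measurableSet_le hm.abs measurable_const
    have h1 := h ({x | |G' x| ≤ M}.indicator fun x => G' x / Real.sqrt I)
      ((hm.div_const _).indicator hs) ⟨M / Real.sqrt I, fun x => by
        by_cases hx : x ∈ {x | |G' x| ≤ M}
        · rw [Set.indicator_of_mem hx, abs_div, abs_of_pos hsq]
          exact div_le_div_of_nonneg_right hx hsq.le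
        · rw [Set.indicator_of_notMem hx, abs_zero]
          positivity⟩ ?_
    · refine le_trans (le_of_eq ?_) h1
      have h2 : ∫ x, G x * {x | |G' x| ≤ M}.indicator (fun x => G' x / Real.sqrt I) x ∂ν =
          (∫ x, {x | |G' x| ≤ M}.indicator (fun x => G x ^ 2) x ∂ν) / Real.sqrt I := by
        rw [← integral_div]
        refine integral_congr_ae ?_
        filter_upwards [hae] with x hx
        by_cases hx' : x ∈ {x | |G' x| ≤ M}
        · rw [Set.indicator_of_mem hx', Set.indicator_of_mem hx', ← hx]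
          ring
        · rw [Set.indicator_of_notMem hx', Set.indicator_of_notMem hx']
          ring
      rw [h2, div_pow, Real.sq_sqrt hI0]
    · have h3 : ∫ x, {x | |G' x| ≤ M}.indicator (fun x => G' x / Real.sqrt I) x ^ 2 ∂ν ≤
          ∫ x, G x ^ 2 / I ∂ν := by
        refine integral_mono_of_nonneg (ae_of_all _ fun x => sq_nonneg _) (hGi.div_const _) ?_
        filter_upwards [hae] with x hx
        by_cases hx' : x ∈ {x | |G' x| ≤ M}
        · rw [Set.indicator_of_mem hx', ← hx, div_pow, Real.sq_sqrt hI0]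
        · rw [Set.indicator_of_notMem hx']
          have : 0 ≤ G x ^ 2 / I := by positivity
          simpa using this
      rw [integral_div, ← hI, div_self hpos.ne'] at h3
      exact h3
  -- limit
  have hlim : Tendsto (fun M : ℕ => ∫ x, {x | |G' x| ≤ M}.indicator (fun x => G x ^ 2) x ∂ν)
      atTop (𝓝 I) := by
    rw [hI]
    refine tendsto_integral_of_dominated_convergence (fun x => G x ^ 2) (fun M => ?_) hGi
      (fun M => ae_of_all _ fun x => ?_) (ae_of_all _ fun x => ?_)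
    · exact hGi.1.indicator (measurableSet_le hm.abs measurable_const)
    · rw [Real.norm_eq_abs]
      by_cases hx' : x ∈ {x | |G' x| ≤ M}
      · rw [Set.indicator_of_mem hx', abs_of_nonneg (sq_nonneg _)]
      · rw [Set.indicator_of_notMem hx', abs_zero]
        exact sq_nonneg _
    · refine tendsto_const_nhds.congr' ?_
      obtain ⟨N, hN⟩ := exists_nat_ge (|G' x|)
      filter_upwards [eventually_ge_atTop N] with M hM
      rw [Set.indicator_of_mem]
      exact hN.trans (by exact_mod_cast hM)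
  have h4 : Tendsto (fun M : ℕ =>
      (∫ x, {x | |G' x| ≤ M}.indicator (fun x => G x ^ 2) x ∂ν) ^ 2 / I) atTop
      (𝓝 (I ^ 2 / I)) := (hlim.pow 2).div_const I
  have h5 : I ^ 2 / I ≤ c := le_of_tendsto' h4 key
  have h6 : I ^ 2 / I = I := by field_simp
  rw [← hI, ← h6]
  exact h5

/-- The dual summability hypothesis of the frozen statement. -/
theorem dual_summable (Q : Kernel S S) [IsMarkovKernel Q] (ν : Measure S) [IsProbabilityMeasure ν]
    (hν : ν.bind Q = ν) {P' : (S → ℝ) → (S → ℝ)} (hP : Pair ν (Kop Q) P') {f : S → ℝ}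
    (hf : MemLp f 2 ν)
    (hd : ∃ c : ℕ → ℝ, Summable c ∧ ∀ k : ℕ, ∀ g : S → ℝ, Measurable g →
        (∃ C : ℝ, ∀ x, |g x| ≤ C) → ∫ x, g x ^ 2 ∂ν ≤ 1 →
        (∫ x, f x * (fun (h : S → ℝ) => fun y => ∫ z, h z ∂(Q y))^[k+1] g x ∂ν) ^ 2 ≤ c k) :
    Summable (fun k : ℕ => ∫ x, (P'^[k] f x) ^ 2 ∂ν) := by
  obtain ⟨c, hc, h⟩ := hd
  rw [← summable_nat_add_iff 1]
  refine Summable.of_nonneg_of_le (fun k => integral_nonneg fun x => sq_nonneg _) (fun k => ?_) hc
  refine ker_dual (hP.right.iter_memLp hf (k + 1)) fun g hg hb hg1 => ?_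
  obtain ⟨C, hC⟩ := hb
  have h1 := h k g hg ⟨C, hC⟩ hg1
  have h2 := ker_iter_adj hP hg.aestronglyMeasurable (ae_of_all _ hC) (k + 1) f
    (hf.integrable one_le_two)
  rw [← h2]
  exact h1

end Pool.NH23.MC
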