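import Pool.Agent.NH23.MC.TestStep

set_option autoImplicit false
open MeasureTheory ProbabilityTheory Filter Topology

namespace Pool.NH23.MC

variable {S : Type} [MeasurableSpace S] {ν : Measure S} {P P' : (S → ℝ) → (S → ℝ)} {f : S → ℝ}
  {H w : S → ℝ} {o : ℝ → ℝ} {M : ℝ}

theorem LLN_isSol_univ {q : ℝ} {g Φ : S → ℝ} :
    IsSol ν P q Set.univ g Φ ↔ ∀ᵐ x ∂ν, Φ x = g x + q * P Φ x := by
  unfold IsSol
  rw [Set.indicator_univ]
  exact Iff.rfl

/-- **LLN for the conditional variances**: `(1-q) u_q → V` in `L¹`. -/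
theorem lln [IsProbabilityMeasure ν] (h : Ctx ν P P' f)
    (hR : RateData ν P f H w o M) {ε : ℝ} (hε : 0 < ε) :
    ∃ q₀ : ℝ, q₀ < 1 ∧ ∀ q : ℝ, q₀ < q → 0 ≤ q → q < 1 →
      ∀ r u : S → ℝ, Measurable r → MemLp r 2 ν → IsSol ν P q Set.univ f r →
      Measurable u → Integrable u ν → IsSol ν P q Set.univ (Gam P r) u →
      ∫ x, |(1 - q) * u x - ∫ y, w y ∂ν| ∂ν ≤ ε := by
  have hP : MOp ν P := h.pair.left
  set V : ℝ := ∫ y, w y ∂ν with hV
  have hV0 : 0 ≤ V := integral_w_nonneg h hR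
  have hM0 : 0 ≤ M := hR.Mnn
  set C₀ : ℝ := V + M with hC₀
  have hC0 : 0 ≤ C₀ := by positivity
  have hC : ∀ q : ℝ, 0 ≤ q → q < 1 → ∀ r : S → ℝ, MemLp r 2 ν → IsSol ν P q Set.univ f r →
      ∫ x, r x ^ 2 ∂ν - ∫ x, (P r x) ^ 2 ∂ν ≤ C₀ :=
    fun q hq0 hq1 r hr hrs => energy_le h hR hq0 hq1 hr hrs
  set ε' : ℝ := ε / (2 + 2 * C₀) with hε'
  have hε'0 : 0 < ε' := by positivity
  obtain ⟨η, hη0, hη1, hηε, qa, hqa, Ha⟩ := test_step h hR hε'0
  obtain ⟨qb, hqb, Hb⟩ := gam_diff h hC hη0 hη1 hε'0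
  refine ⟨max (max (1 - η) (1 / 2)) (max (1 - η * (1 - qa)) (1 - η * (1 - qb))), ?_, ?_⟩
  · refine max_lt (max_lt (by linarith) (by norm_num)) (max_lt ?_ ?_)
    · have : 0 < η * (1 - qa) := mul_pos hη0 (by linarith)
      linarith
    · have : 0 < η * (1 - qb) := mul_pos hη0 (by linarith)
      linarith
  intro q₁ hq₁ hq₁0 hq₁1 r₁ u₁ hr₁m hr₁ hr₁s hu₁m hu₁ hu₁s
  rw [max_lt_iff, max_lt_iff, max_lt_iff] at hq₁
  obtain ⟨⟨hA, hB⟩, hCa, hCb⟩ := hq₁
  set q : ℝ := 1 - (1 - q₁) / η with hq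
  have e1 : 1 - q = (1 - q₁) / η := by rw [hq]; ring
  have e2 : 1 - q₁ = η * (1 - q) := by rw [e1]; field_simp
  have hqlt : q < 1 := by
    have : 0 < (1 - q₁) / η := div_pos (by linarith) hη0
    linarith
  have hq0 : 0 ≤ q := by
    have : (1 - q₁) / η ≤ 1 := by rw [div_le_one hη0]; linarith
    linarith
  have hqa' : qa < q := by
    have : (1 - q₁) / η < 1 - qa := by rw [div_lt_iff₀ hη0]; linarith
    linarith
  have hqb' : qb < q := by
    have : (1 - q₁) / η < 1 - qb := by rw [div_lt_iff₀ hη0]; linarith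
    linarith
  have hqq₁ : q ≤ q₁ := by
    have : η * (1 - q) ≤ 1 * (1 - q) := mul_le_mul_of_nonneg_right hη1 (by linarith)
    linarith
  have hq₁p : 0 < q₁ := by linarith
  have hlam : 0 < 1 - q₁ := by linarith
  have hlam' : 0 < 1 - q := by linarith
  have hfint : Integrable f ν := h.f2.integrable (by norm_num)
  -- the solutions at the scale `q`
  obtain ⟨r, hrm, hri, hrs⟩ := exists_sol hP hq0 hqlt MeasurableSet.univ hfint
  have hr : MemLp r 2 ν := IsSol.memLp hP hq0 hqlt MeasurableSet.univ h.f2 hri hrs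
  have hG : Integrable (Gam P r) ν := hP.gam_integrable hr
  have hG₁ : Integrable (Gam P r₁) ν := hP.gam_integrable hr₁
  obtain ⟨u, hum, hu, hus⟩ := exists_sol hP hq0 hqlt MeasurableSet.univ hG
  have hg : Integrable (fun x => (1 - q) * u x) ν := hu.const_mul _
  have hbd : Integrable (fun x => (1 - q₁) * ((1 - q) * u x - V)) ν :=
    (hg.sub (integrable_const V)).const_mul _
  obtain ⟨b, hbm, hb, hbs⟩ := exists_sol hP hq₁0 hq₁1 MeasurableSet.univ hbd
  have hbε : ∫ x, |b x| ∂ν ≤ ε' :=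
    Ha q hqa' hq0 hqlt q₁ e2 r u hrm hr hrs hum hu hus b hbm hb hbs
  have hyd : Integrable (fun x => (1 - q₁) * ((1 - q) * u x)) ν := hg.const_mul _
  obtain ⟨y, hym, hy, hys⟩ := exists_sol hP hq₁0 hq₁1 MeasurableSet.univ hyd
  have hGG : ∫ x, |Gam P r₁ x - Gam P r x| ∂ν ≤ ε' :=
    Hb q hqb' hq0 hqlt q₁ e2 r r₁ hr hrs hr₁ hr₁s
  -- the equations
  rw [LLN_isSol_univ] at hbs hys hus hu₁s
  set c : ℝ := q * (1 - q₁) / ((1 - q) * q₁) with hc
  have hc0 : 0 ≤ c := by positivity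
  have hcη : c ≤ η := by
    rw [hc, e2, div_le_iff₀ (by positivity)]
    have : q * (η * (1 - q)) ≤ q₁ * (η * (1 - q)) :=
      mul_le_mul_of_nonneg_right hqq₁ (by positivity)
    linarith
  set m₁ : S → ℝ := fun x => ((1 - q₁) * u₁ x - V - b x) - c * ((1 - q) * u x - y x) with hm₁
  have hi1 : Integrable (fun x => (1 - q₁) * u₁ x) ν := hu₁.const_mul _
  have hi2 : Integrable (fun x => (1 - q₁) * u₁ x - V) ν := hi1.sub (integrable_const V)
  have hi3 : Integrable (fun x => (1 - q₁) * u₁ x - V - b x) ν := hi2.sub hb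
  have hi4 : Integrable (fun x => (1 - q) * u x - y x) ν := hg.sub hy
  have hi5 : Integrable (fun x => c * ((1 - q) * u x - y x)) ν := hi4.const_mul _
  have hm₁i : Integrable m₁ ν := hi3.sub hi5
  have hm₁s : IsSol ν P q₁ Set.univ (fun x => (1 - q₁) * (Gam P r₁ x - Gam P r x)) m₁ := by
    rw [LLN_isSol_univ]
    filter_upwards [hbs, hys, hus, hu₁s, hP.sub' hi3 hi5, hP.sub' hi2 hb,
      hP.sub' hi1 (integrable_const V), hP.const_mul (1 - q₁) hu₁, hP.const V,
      hP.const_mul c hi4, hP.sub' hg hy, hP.const_mul (1 - q) hu] with x a1 a2 a3 a4 a5 a6 a7 a8 a9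
        a10 a11 a12
    have hPm : P m₁ x = ((1 - q₁) * P u₁ x - V - P b x) - c * ((1 - q) * P u x - P y x) := by
      rw [hm₁, a5, a6, a7, a8, a9, a10, a11, a12]
    rw [hPm]
    simp only [hm₁]
    rw [a4, a1, a2]
    have hck : c * q₁ * (1 - q) = q * (1 - q₁) := by
      rw [hc]
      field_simp
    -- the identity
    have key : (1 - q) * u x - (1 - q) * P u x - (1 - q) * (Gam P r x - (1 - q) * u x) -
        (1 - q) * ((1 - q) * u x - (1 - q) * P u x) = 0 := by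
      rw [a3]
      ring
    have key2 : c * ((1 - q) * u x - ((1 - q₁) * ((1 - q) * u x) + q₁ * P y x)) -
        q₁ * (c * ((1 - q) * P u x - P y x)) = (1 - q₁) * (Gam P r x - (1 - q) * u x) := by
      have e3 : c * ((1 - q) * u x - ((1 - q₁) * ((1 - q) * u x) + q₁ * P y x)) -
        q₁ * (c * ((1 - q) * P u x - P y x)) = (c * q₁ * (1 - q)) * (u x - P u x) := by ring
      rw [e3, hck]
      have e4 : q * (u x - P u x) = Gam P r x - (1 - q) * u x := by
        have : u x = Gam P r x + q * P u x := a3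
        linear_combination this
      rw [← e4]
      ring
    linear_combination (-1) * key2
  -- the bounds
  have b1 : ∫ x, |m₁ x| ∂ν ≤ ε' := by
    have hdat : Integrable (fun x => (1 - q₁) * (Gam P r₁ x - Gam P r x)) ν :=
      (hG₁.sub hG).const_mul _
    have h1 := IsSol.integral_abs_le hP hq₁0 hq₁1 MeasurableSet.univ hdat hm₁i hm₁s
    rw [setIntegral_univ] at h1
    have h2 : ∫ x, |(1 - q₁) * (Gam P r₁ x - Gam P r x)| ∂ν =
        (1 - q₁) * ∫ x, |Gam P r₁ x - Gam P r x| ∂ν := by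
      rw [← integral_const_mul]
      congr 1
      ext x
      rw [abs_mul, abs_of_pos hlam]
    rw [h2] at h1
    exact (le_of_mul_le_mul_left h1 hlam).trans hGG
  have b2 : ∫ x, |(1 - q) * u x| ∂ν ≤ C₀ := by
    have h1 := IsSol.integral_abs_le hP hq0 hqlt MeasurableSet.univ hG hu (LLN_isSol_univ.2 hus)
    rw [setIntegral_univ] at h1
    have h2 : ∫ x, |Gam P r x| ∂ν = ∫ x, Gam P r x ∂ν := by
      apply integral_congr_ae
      filter_upwards [hP.gam_nonneg hr] with x hx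
      exact abs_of_nonneg hx
    rw [h2, hP.integral_gam hr] at h1
    have h3 : ∫ x, |(1 - q) * u x| ∂ν = (1 - q) * ∫ x, |u x| ∂ν := by
      rw [← integral_const_mul]
      congr 1
      ext x
      rw [abs_mul, abs_of_pos hlam']
    rw [h3]
    exact h1.trans (hC q hq0 hqlt r hr hrs)
  have b3 : ∫ x, |y x| ∂ν ≤ C₀ := by
    have h1 := IsSol.integral_abs_le hP hq₁0 hq₁1 MeasurableSet.univ hyd hy (LLN_isSol_univ.2 hys)
    rw [setIntegral_univ] at h1
    have h2 : ∫ x, |(1 - q₁) * ((1 - q) * u x)| ∂ν =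
        (1 - q₁) * ∫ x, |(1 - q) * u x| ∂ν := by
      rw [← integral_const_mul]
      congr 1
      ext x
      rw [abs_mul, abs_of_pos hlam]
    rw [h2] at h1
    exact (le_of_mul_le_mul_left h1 hlam).trans b2
  have b4 : ∫ x, |c * ((1 - q) * u x - y x)| ∂ν ≤ η * (2 * C₀) := by
    have h1 : ∫ x, |c * ((1 - q) * u x - y x)| ∂ν = c * ∫ x, |(1 - q) * u x - y x| ∂ν := by
      rw [← integral_const_mul]
      congr 1
      ext x
      rw [abs_mul, abs_of_nonneg hc0]
    have h2 : ∫ x, |(1 - q) * u x - y x| ∂ν ≤ ∫ x, (|(1 - q) * u x| + |y x|) ∂ν := by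
      apply integral_mono hi4.abs (hg.abs.add hy.abs)
      intro x
      exact abs_sub _ _
    rw [integral_add hg.abs hy.abs] at h2
    rw [h1]
    have h3 : 0 ≤ ∫ x, |(1 - q) * u x - y x| ∂ν := integral_nonneg fun x => abs_nonneg _
    calc c * ∫ x, |(1 - q) * u x - y x| ∂ν ≤ η * ∫ x, |(1 - q) * u x - y x| ∂ν :=
          mul_le_mul_of_nonneg_right hcη h3
      _ ≤ η * (2 * C₀) := mul_le_mul_of_nonneg_left (by linarith) hη0.le
  have hsum : Integrable (fun x => |b x| + |m₁ x|) ν := hb.abs.add hm₁i.abs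
  calc ∫ x, |(1 - q₁) * u₁ x - V| ∂ν
      ≤ ∫ x, ((|b x| + |m₁ x|) + |c * ((1 - q) * u x - y x)|) ∂ν := by
        apply integral_mono hi2.abs (hsum.add hi5.abs)
        intro x
        have e3 : (1 - q₁) * u₁ x - V = (b x + m₁ x) + c * ((1 - q) * u x - y x) := by
          simp only [hm₁]
          ring
        simp only [e3]
        exact (abs_add_le _ _).trans (add_le_add (abs_add_le _ _) le_rfl)
    _ = (∫ x, |b x| ∂ν + ∫ x, |m₁ x| ∂ν) + ∫ x, |c * ((1 - q) * u x - y x)| ∂ν := by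
        rw [integral_add hsum hi5.abs, integral_add hb.abs hm₁i.abs]
    _ ≤ (ε' + ε') + η * (2 * C₀) := by linarith
    _ ≤ (ε' + ε') + ε' * (2 * C₀) := by
        have : η * (2 * C₀) ≤ ε' * (2 * C₀) := mul_le_mul_of_nonneg_right hηε (by positivity)
        linarith
    _ = ε := by
        rw [hε']
        field_simp
        ring

end Pool.NH23.MC
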