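import Pool.Agent.NH23.MC.BasicB

set_option autoImplicit false
open MeasureTheory ProbabilityTheory Filter Topology

namespace Pool.NH23.MC

variable {S : Type} [MeasurableSpace S] {ν : Measure S} {P P' : (S → ℝ) → (S → ℝ)}

/-- Level sets of `U = (1-q₁) s + q₁ P' U` (`|s| ≤ 1`) are rarely left at the scale `1/(1-q)`,
`(1-q₁) ≤ η (1-q)`. -/
theorem level_exit [IsProbabilityMeasure ν] (hP : Pair ν P P') {q₁ q η : ℝ} (hq₁0 : 0 ≤ q₁)
    (hq₁1 : q₁ < 1) (hq0 : 0 ≤ q) (hq1 : q < 1) (hη : 1 - q₁ ≤ η * (1 - q))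
    {s U : S → ℝ} (hs : Integrable s ν) (hs1 : ∀ᵐ x ∂ν, |s x| ≤ 1) (hUm : Measurable U)
    (hUi : Integrable U ν) (hU : ∀ᵐ x ∂ν, U x = (1 - q₁) * s x + q₁ * P' U x)
    {c κ : ℝ} (hκ : 2 * η < κ) {e : S → ℝ} (he : IsExit ν P q {x | c < U x} e) :
    ∫ x in {x | c < U x}, e x ∂ν ≤ ν.real {x | c < U x ∧ U x ≤ c + κ} + 2 * η / (κ - 2 * η) := by
  have hl1 : 0 < 1 - q₁ := by linarith
  have hl : 0 < 1 - q := by linarith
  have hηpos : 0 < η := by
    by_contra h
    push Not at h
    have := mul_nonpos_of_nonpos_of_nonneg h hl.le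
    linarith
  have hκ2 : 0 < κ - 2 * η := by linarith
  have hQ := hP.right
  -- step 1
  have hUsol : IsSol ν P' q₁ Set.univ (fun x => (1 - q₁) * s x) U := by
    filter_upwards [hU] with x hx
    rw [Set.indicator_univ]
    exact hx
  have hU1 : ∀ᵐ x ∂ν, |U x| ≤ 1 := by
    have h1 := hUsol.abs_le hQ hq₁0 hq₁1 hUi (C := 1 - q₁) (by
      filter_upwards [hs1] with x hx
      rw [abs_mul, abs_of_pos hl1]
      exact mul_le_of_le_one_right hl1.le hx)
    filter_upwards [h1] with x hx
    by_contra h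
    push Not at h
    have : (1 - q₁) * 1 < (1 - q₁) * |U x| := mul_lt_mul_of_pos_left h hl1
    linarith
  have hPU1 : ∀ᵐ x ∂ν, |P' U x| ≤ 1 := hQ.abs_le_of_abs_le hUi hU1
  have hUd : ∀ᵐ x ∂ν, |U x - P' U x| ≤ 2 * (1 - q₁) := by
    filter_upwards [hU, hs1, hPU1] with x h1 h2 h3
    have h4 : U x - P' U x = (1 - q₁) * (s x - P' U x) := by
      rw [h1]
      ring
    rw [h4, abs_mul, abs_of_pos hl1]
    have h5 : |s x - P' U x| ≤ 2 := by
      have := abs_sub (s x) (P' U x)
      linarith
    nlinarith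
  -- step 2: the function `a`
  obtain ⟨a, ham, hai, hasol⟩ := exists_sol hQ hq0 hq1 MeasurableSet.univ
    (hUi.const_mul (1 - q))
  have hPUi : Integrable (P' U) ν := hQ.integrable _ hUi
  have hz : ∀ᵐ x ∂ν, |U x - a x| ≤ 2 * η := by
    have h1 : IsSol ν P' q Set.univ (fun x => q * (U x - P' U x)) (fun x => U x - a x) := by
      filter_upwards [hasol, hQ.sub' hUi hai] with x h1 h2
      rw [Set.indicator_univ] at h1 ⊢
      rw [h2, h1]
      ring
    have h2 := h1.abs_le hQ hq0 hq1 (hUi.sub hai) (C := 2 * (1 - q₁)) (by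
      filter_upwards [hUd] with x hx
      rw [abs_mul, abs_of_nonneg hq0]
      have := abs_nonneg (U x - P' U x)
      nlinarith)
    filter_upwards [h2] with x hx
    by_contra h
    push Not at h
    have h3 : (1 - q) * (2 * η) < (1 - q) * |U x - a x| := mul_lt_mul_of_pos_left h hl
    have h4 : (1 - q) * |U x - a x| ≤ 2 * (1 - q₁) := hx
    nlinarith
  -- step 3
  set c' := c + κ with hc'
  have hposi : Integrable (fun x => max (U x - c') 0) ν :=
    (hUi.sub (integrable_const c')).pos_part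
  have hnegi : Integrable (fun x => max (c' - U x) 0) ν :=
    ((integrable_const c').sub hUi).pos_part
  obtain ⟨Ap, hApm, hApi, hApsol⟩ := exists_sol hQ hq0 hq1 MeasurableSet.univ
    (hposi.const_mul (1 - q))
  obtain ⟨Hs, hHsm, hHsi, hHssol⟩ := exists_sol hQ hq0 hq1 MeasurableSet.univ
    (hnegi.const_mul (1 - q))
  have hAp0 : ∀ᵐ x ∂ν, 0 ≤ Ap x := hApsol.nonneg hQ hq0 hq1 hApi
    (Eventually.of_forall fun x => mul_nonneg hl.le (le_max_right _ _))
  have hHs0 : ∀ᵐ x ∂ν, 0 ≤ Hs x := hHssol.nonneg hQ hq0 hq1 hHsi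
    (Eventually.of_forall fun x => mul_nonneg hl.le (le_max_right _ _))
  have hHs : Hs =ᵐ[ν] fun x => Ap x - (a x - c') := by
    have hZi : Integrable (fun x => Ap x - (a x - c')) ν :=
      hApi.sub (hai.sub (integrable_const c'))
    apply hHssol.unique hQ hq0 hq1 hHsi hZi
    have h1 : P' (fun x => Ap x - (a x - c')) =ᵐ[ν] fun x => P' Ap x - P' (fun x => a x - c') x :=
      hQ.sub' hApi (hai.sub (integrable_const c'))
    have h2 : P' (fun x => a x - c') =ᵐ[ν] fun x => P' a x - P' (fun _ => c') x :=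
      hQ.sub' hai (integrable_const c')
    have h3 := hQ.const (ν := ν) c'
    filter_upwards [h1, h2, h3, hApsol, hasol] with x h1 h2 h3 h4 h5
    rw [Set.indicator_univ] at h4 h5 ⊢
    rw [h1, h2, h3, h4, h5]
    have h6 : max (U x - c') 0 = (U x - c') + max (c' - U x) 0 := by
      rcases le_total (U x) c' with h | h
      · rw [max_eq_right (by linarith), max_eq_left (by linarith)]
        ring
      · rw [max_eq_left (by linarith), max_eq_right (by linarith)]
        ring
    rw [h6]
    ring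
  have hApint : ∫ x, Ap x ∂ν = ∫ x, max (U x - c') 0 ∂ν := by
    have h1 := hApsol.integral_eq hQ hq0 hq1 (hposi.const_mul (1 - q)) hApi
    rw [integral_const_mul] at h1
    exact mul_left_cancel₀ hl.ne' h1
  -- step 4: on `{U ≤ c}`
  have hlow : ∀ᵐ x ∂ν, U x ≤ c → κ - 2 * η ≤ Hs x := by
    filter_upwards [hHs, hAp0, hz] with x h1 h2 h3 h4
    rw [h1]
    have := (abs_le.mp h3).1
    linarith
  -- step 5
  have hBm : MeasurableSet {x | c' < U x} := measurableSet_lt measurable_const hUm
  have hRm : MeasurableSet {x | c < U x} := measurableSet_lt measurable_const hUm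
  have hAm : MeasurableSet {x | c < U x ∧ U x ≤ c'} :=
    hRm.inter (measurableSet_le hUm measurable_const)
  have hHsint : ∫ x in {x | c' < U x}, Hs x ∂ν ≤ 2 * η := by
    rw [← integral_indicator hBm]
    have h1 : ∫ x, ({x | c' < U x}.indicator Hs) x ∂ν ≤
        ∫ x, (Ap x - max (U x - c') 0 + 2 * η) ∂ν := by
      apply integral_mono_ae
      · exact hHsi.indicator hBm
      · exact (hApi.sub hposi).add (integrable_const _)
      · filter_upwards [hHs, hAp0, hz] with x h1 h2 h3
        by_cases hx : c' < U x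
        · rw [Set.indicator_of_mem (by exact hx), h1, max_eq_left (by linarith)]
          have := (abs_le.mp h3).2
          linarith
        · rw [Set.indicator_of_notMem (by exact hx), max_eq_right (by linarith)]
          linarith
    refine h1.trans (le_of_eq ?_)
    have h2 : ∫ x, (Ap x - max (U x - c') 0 + 2 * η) ∂ν =
        ∫ x, (Ap x - max (U x - c') 0) ∂ν + ∫ _x, 2 * η ∂ν :=
      integral_add (hApi.sub hposi) (integrable_const _)
    rw [h2, integral_sub hApi hposi, hApint]
    simp
  -- step 6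
  obtain ⟨e', he'm, he'⟩ := exists_exit hQ hq0 hq1 hRm
  have he'le : ∀ᵐ x ∂ν, e' x ≤ (κ - 2 * η)⁻¹ * Hs x := by
    have hWi : Integrable (fun x => e' x - (κ - 2 * η)⁻¹ * Hs x) ν :=
      he'.integrable.sub (hHsi.const_mul _)
    have h1 := hQ.sub' he'.integrable (hHsi.const_mul (κ - 2 * η)⁻¹)
    have h2 := hQ.const_mul (κ - 2 * η)⁻¹ hHsi
    have h3 := hQ.maxPrinciple hq0 hq1 hWi (by
      filter_upwards [h1, h2, he'.off, he'.on, hlow, hHssol] with x h1 h2 h3 h4 h5 h6
      by_cases hx : c < U x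
      · right
        rw [h1, h2, h4 hx]
        rw [Set.indicator_univ] at h6
        have h7 : 0 ≤ (1 - q) * max (c' - U x) 0 := mul_nonneg hl.le (le_max_right _ _)
        have h8 : q * P' Hs x ≤ Hs x := by linarith
        have h9 : (κ - 2 * η)⁻¹ * (q * P' Hs x) ≤ (κ - 2 * η)⁻¹ * Hs x :=
          mul_le_mul_of_nonneg_left h8 (inv_nonneg.mpr hκ2.le)
        linarith
      · left
        rw [h3 hx]
        have h7 := h5 (not_lt.mp hx)
        have h8 : (κ - 2 * η)⁻¹ * (κ - 2 * η) ≤ (κ - 2 * η)⁻¹ * Hs x :=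
          mul_le_mul_of_nonneg_left h7 (inv_nonneg.mpr hκ2.le)
        rw [inv_mul_cancel₀ hκ2.ne'] at h8
        linarith)
    filter_upwards [h3] with x hx
    linarith
  rw [IsExit.integral_symm hP hq0 hq1 hRm he he', ← integral_indicator hRm]
  have h1 : ∫ x, ({x | c < U x}.indicator e') x ∂ν ≤
      ∫ x, (({x | c < U x ∧ U x ≤ c'}.indicator (fun _ => (1 : ℝ))) x +
        ({x | c' < U x}.indicator (fun x => (κ - 2 * η)⁻¹ * Hs x)) x) ∂ν := by
    apply integral_mono_ae
    · exact he'.integrable.indicator hRm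
    · exact ((integrable_const _).indicator hAm).add ((hHsi.const_mul _).indicator hBm)
    · filter_upwards [he'le, he'.le_one] with x h1 h2
      by_cases hx : c < U x
      · rw [Set.indicator_of_mem (by exact hx)]
        by_cases hx' : c' < U x
        · have hn : x ∉ {x | c < U x ∧ U x ≤ c'} := fun h => absurd h.2 (not_le.mpr hx')
          simp only [Set.indicator_of_notMem hn]
          rw [Set.indicator_of_mem (by exact hx'), zero_add]
          exact h1
        · have hn : x ∈ {x | c < U x ∧ U x ≤ c'} := ⟨hx, not_lt.mp hx'⟩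
          simp only [Set.indicator_of_mem hn]
          rw [Set.indicator_of_notMem (by exact hx'), add_zero]
          exact h2
      · have hx' : ¬ c' < U x := by
          intro h
          apply hx
          linarith
        have hn : x ∉ {x | c < U x ∧ U x ≤ c'} := fun h => hx h.1
        simp only [Set.indicator_of_notMem hn]
        rw [Set.indicator_of_notMem (by exact hx), Set.indicator_of_notMem (by exact hx'), add_zero]
  refine h1.trans ?_
  rw [integral_add ((integrable_const _).indicator hAm) ((hHsi.const_mul _).indicator hBm),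
    integral_indicator hAm, integral_indicator hBm, integral_const_mul, integral_const]
  have h2 : (κ - 2 * η)⁻¹ * ∫ x in {x | c' < U x}, Hs x ∂ν ≤ (κ - 2 * η)⁻¹ * (2 * η) :=
    mul_le_mul_of_nonneg_left hHsint (inv_nonneg.mpr hκ2.le)
  have h3 : (κ - 2 * η)⁻¹ * (2 * η) = 2 * η / (κ - 2 * η) := by
    rw [div_eq_mul_inv, mul_comm]
  rw [h3] at h2
  simp only [measureReal_restrict_apply_univ, smul_eq_mul, mul_one]
  linarith

end Pool.NH23.MC
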