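import Pool.Agent.NH23.MC.Aver

set_option autoImplicit false
open MeasureTheory ProbabilityTheory Filter Topology

namespace Pool.NH23.MC

variable {S : Type} [MeasurableSpace S] {ν : Measure S} {P : (S → ℝ) → (S → ℝ)}
  {Ω : Type} {mΩ : MeasurableSpace Ω} {μ : Measure Ω} {ℱ : Filtration ℕ mΩ} {X : ℕ → Ω → S}

theorem Limit_cos_lip (a b : ℝ) : |Real.cos a - Real.cos b| ≤ |a - b| := by
  have h := Real.lipschitzWith_cos.dist_le_mul a b
  rw [Real.dist_eq, Real.dist_eq] at h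
  simpa using h

theorem Limit_integrable_cos [IsFiniteMeasure μ] {g : Ω → ℝ} (hg : AEStronglyMeasurable g μ) :
    Integrable (fun ω => Real.cos (g ω)) μ := by
  refine Integrable.of_bound (C := 1) (Real.continuous_cos.comp_aestronglyMeasurable hg) ?_
  exact Eventually.of_forall fun ω => by
    rw [Real.norm_eq_abs]
    exact Real.abs_cos_le_one _

theorem Limit_bound [IsProbabilityMeasure μ] [IsProbabilityMeasure ν] (hP : MOp ν P)
    (h : Path μ ν P ℱ X) {f r ρ ψ D z : S → ℝ} (hf : MemLp f 2 ν) (hr : MemLp r 2 ν)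
    (hrm : Measurable r) (hPr : Measurable (P r)) {q : ℝ} (hq0 : 0 ≤ q) (hq1 : q < 1)
    (hrs : IsSol ν P q Set.univ f r)
    {V C₁ C ε κ δ ε₂ : ℝ} (hV : 0 ≤ V) (hκ : 0 < κ) (hCn : 0 ≤ C) (hε : 0 ≤ ε)
    (hC : ∫ x, r x ^ 2 ∂ν - ∫ x, (P r x) ^ 2 ∂ν ≤ C₁)
    (hψ : Integrable ψ ν) (hD : Integrable D ν) (hψ0 : ∀ᵐ x ∂ν, 0 ≤ ψ x)
    (hD0 : ∀ᵐ x ∂ν, 0 ≤ D x) (hψε : ∫ x, ψ x ∂ν ≤ ε)
    (hDe : ∀ᵐ x ∂ν, D x = C + ψ x - Gam P r x + q * P D x)
    (hz : Integrable z ν) (hzε : ∫ x, |z x| ∂ν ≤ ε)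
    (hze : ∀ᵐ x ∂ν, z x = (1 - q) * (Gam P r x - V) + q * P z x)
    (hρ : MemLp ρ 2 ν) {n : ℕ} (hn : 0 < n) (hδ : 0 < δ) (hq : 1 - q = (δ * n)⁻¹)
    (hρB : ∀ᵐ x ∂ν, |r x - ρ x| ≤ 1 / Real.sqrt (1 - q))
    (hρε : ∫ x, ρ x ^ 2 ∂ν - ∫ x, (P ρ x) ^ 2 ∂ν ≤ ε)
    (hsm : (1 - q) * ∫ x, r x ^ 2 ∂ν ≤ ε₂) (t α : ℝ) :
    |∫ ω, Real.cos (t * ((Real.sqrt n)⁻¹ * ∑ i ∈ Finset.range n, f (X i ω)) + α) ∂μ -
      Real.cos α * Real.exp (-(t ^ 2 * V / 2))| ≤
      |t| * ((2 + 1 / δ) * Real.sqrt (ε₂ * δ)) +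
      (t ^ 2 / 2 * ((C₁ + V) * δ + 4 * ε + (C + V) * (2 * κ + C₁ * t ^ 2 * δ / κ ^ 3) +
        t ^ 2 * V * (C₁ + V) * δ / 2) + Real.sqrt δ * |t| ^ 3 * C₁ + 4 * t ^ 2 * ε) +
      t ^ 4 * V ^ 2 / (8 * n) := by
  have hN : (0 : ℝ) < n := by exact_mod_cast hn
  set s : ℝ := Real.sqrt n with hs
  have hs0 : 0 < s := Real.sqrt_pos.2 hN
  have hs2 : s ^ 2 = n := Real.sq_sqrt hN.le
  set θ : ℝ := t * s⁻¹ with hθ
  have hθ2 : θ ^ 2 * n = t ^ 2 := by
    rw [hθ, ← hs2]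
    field_simp
  have hθa : |θ| = |t| * s⁻¹ := by
    rw [hθ, abs_mul, abs_of_pos (inv_pos.2 hs0)]
  have hB : 1 / Real.sqrt (1 - q) = Real.sqrt δ * s := by
    rw [hq, Real.sqrt_inv, one_div, inv_inv, Real.sqrt_mul hδ.le]
  have hq' : ∀ x : ℝ, x / (1 - q) = x * δ * n := by
    intro x
    rw [hq, div_inv_eq_mul]
    ring
  have T := telescope hP h hr hrm hPr (V := V) (C₀ := C₁) (B := 1 / Real.sqrt (1 - q)) (ε := ε) hV
    (by positivity) hε hC hρ hρB hρε θ α n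
  have A := averaging hP h hq0 hq1 hr hrm hPr hV hκ hCn hC hψ hD hψ0 hD0 hψε hDe hz hzε hze θ α n
  have I := h.integral_abs_sub_le hP hf hr hq0 hq1 hrs n
  -- the difference
  have hSi : Integrable (fun ω => ∑ i ∈ Finset.range n, f (X i ω)) μ :=
    integrable_finsetSum _ fun i _ => h.integrable_comp (hf.integrable one_le_two) i
  have hMi : Integrable (Mart P r X n) μ := (h.mart_memLp hP hr n).integrable one_le_two
  have h1 : |∫ ω, Real.cos (t * (s⁻¹ * ∑ i ∈ Finset.range n, f (X i ω)) + α) ∂μ -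
      ∫ ω, Real.cos (θ * Mart P r X n ω + α) ∂μ| ≤
      |t| * ((2 + 1 / δ) * Real.sqrt (ε₂ * δ)) := by
    have i1 : Integrable (fun ω => Real.cos (t * (s⁻¹ * ∑ i ∈ Finset.range n, f (X i ω)) + α)) μ :=
      Limit_integrable_cos (((hSi.aestronglyMeasurable.const_mul s⁻¹).const_mul t).add
        aestronglyMeasurable_const)
    have i2 : Integrable (fun ω => Real.cos (θ * Mart P r X n ω + α)) μ :=
      Limit_integrable_cos ((hMi.aestronglyMeasurable.const_mul θ).add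
        aestronglyMeasurable_const)
    rw [← integral_sub i1 i2]
    calc |∫ ω, (Real.cos (t * (s⁻¹ * ∑ i ∈ Finset.range n, f (X i ω)) + α) -
          Real.cos (θ * Mart P r X n ω + α)) ∂μ|
        ≤ ∫ ω, |Real.cos (t * (s⁻¹ * ∑ i ∈ Finset.range n, f (X i ω)) + α) -
          Real.cos (θ * Mart P r X n ω + α)| ∂μ := abs_integral_le_integral_abs
      _ ≤ ∫ ω, |θ| * |∑ i ∈ Finset.range n, f (X i ω) - Mart P r X n ω| ∂μ := by
          apply integral_mono_of_nonneg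
          · exact Eventually.of_forall fun ω => abs_nonneg _
          · exact ((hSi.sub hMi).abs).const_mul _
          · refine Eventually.of_forall fun ω => ?_
            refine (Limit_cos_lip _ _).trans ?_
            show _ ≤ |θ| * |∑ i ∈ Finset.range n, f (X i ω) - Mart P r X n ω|
            rw [← abs_mul]
            apply le_of_eq
            congr 1
            rw [hθ]
            ring
      _ = |θ| * ∫ ω, |∑ i ∈ Finset.range n, f (X i ω) - Mart P r X n ω| ∂μ :=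
          integral_const_mul _ _
      _ ≤ |θ| * ((2 + n * (1 - q)) * Real.sqrt (∫ x, r x ^ 2 ∂ν)) :=
          mul_le_mul_of_nonneg_left I (abs_nonneg _)
      _ ≤ |θ| * ((2 + 1 / δ) * (Real.sqrt (ε₂ * δ) * s)) := by
          apply mul_le_mul_of_nonneg_left _ (abs_nonneg _)
          have e1 : (n : ℝ) * (1 - q) = 1 / δ := by
            rw [hq]
            field_simp
          rw [e1]
          apply mul_le_mul_of_nonneg_left _ (by positivity)
          have e2 : ∫ x, r x ^ 2 ∂ν ≤ ε₂ * δ * n := by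
            rw [hq] at hsm
            rw [inv_mul_le_iff₀ (by positivity)] at hsm
            linarith
          calc Real.sqrt (∫ x, r x ^ 2 ∂ν) ≤ Real.sqrt (ε₂ * δ * n) := Real.sqrt_le_sqrt e2
            _ = Real.sqrt (ε₂ * δ) * s := by rw [Real.sqrt_mul' _ hN.le]
      _ = |t| * ((2 + 1 / δ) * Real.sqrt (ε₂ * δ)) := by
          rw [hθa]
          field_simp
  -- the main term
  have hexp : θ ^ 2 * V * n / 2 = t ^ 2 * V / 2 := by
    rw [← hθ2]
    ring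
  rw [hexp] at T
  have h2 : θ ^ 2 / 2 * |∑ j ∈ Finset.range n, coef θ V n (j + 1) *
        ∫ ω, Real.cos (θ * Mart P r X j ω + α) * (Gam P r (X j ω) - V) ∂μ| ≤
      t ^ 2 / 2 * ((C₁ + V) * δ + 4 * ε + (C + V) * (2 * κ + C₁ * t ^ 2 * δ / κ ^ 3) +
        t ^ 2 * V * (C₁ + V) * δ / 2) := by
    refine (mul_le_mul_of_nonneg_left A (by positivity)).trans (le_of_eq ?_)
    rw [hq', hq', hq', ← hθ2]
    ring
  have h3 : (n : ℝ) * (1 / Real.sqrt (1 - q) * |θ| ^ 3 * C₁ + 4 * θ ^ 2 * ε) =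
      Real.sqrt δ * |t| ^ 3 * C₁ + 4 * t ^ 2 * ε := by
    rw [hB, hθa, ← hθ2, ← hs2]
    field_simp
  have h4 : (n : ℝ) * (θ ^ 4 * V ^ 2 / 8) = t ^ 4 * V ^ 2 / (8 * n) := by
    have : t ^ 4 = (θ ^ 2 * n) ^ 2 := by rw [hθ2]; ring
    rw [this]
    field_simp
  rw [h3, h4] at T
  calc |∫ ω, Real.cos (t * (s⁻¹ * ∑ i ∈ Finset.range n, f (X i ω)) + α) ∂μ -
      Real.cos α * Real.exp (-(t ^ 2 * V / 2))| ≤
      |∫ ω, Real.cos (t * (s⁻¹ * ∑ i ∈ Finset.range n, f (X i ω)) + α) ∂μ -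
      ∫ ω, Real.cos (θ * Mart P r X n ω + α) ∂μ| +
      |∫ ω, Real.cos (θ * Mart P r X n ω + α) ∂μ -
      Real.cos α * Real.exp (-(t ^ 2 * V / 2))| := abs_sub_le _ _ _
    _ ≤ _ := by linarith

/-- Convergence of the (real parts of the) characteristic functions. -/
theorem clt_cos [IsProbabilityMeasure μ] [IsProbabilityMeasure ν] (hP : MOp ν P)
    (hPm : ∀ g : S → ℝ, Measurable g → Measurable (P g)) {f : S → ℝ} {V C₀ : ℝ}
    (hI : Iface ν P f V C₀) (h : Path μ ν P ℱ X) (t α : ℝ) :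
    Tendsto (fun n : ℕ => ∫ ω, Real.cos (t * ((Real.sqrt n)⁻¹ *
      ∑ i ∈ Finset.range n, f (X i ω)) + α) ∂μ) atTop
      (𝓝 (Real.cos α * Real.exp (-(t ^ 2 * V / 2)))) := by
  rw [Metric.tendsto_atTop]
  intro τ hτ
  have hV := hI.Vnn
  set C₁ := |C₀| with hC₁
  have hC₁0 : 0 ≤ C₁ := abs_nonneg _
  -- the parameters
  set ε : ℝ := τ / (8 * (6 * t ^ 2 + 1)) with hε
  have hε0 : 0 < ε := by positivity
  have e1 : 6 * t ^ 2 * ε ≤ τ / 8 := by
    rw [hε, mul_div_assoc', div_le_div_iff₀ (by positivity) (by norm_num)]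
    nlinarith [sq_nonneg t]
  obtain ⟨C, hCn, q1, hq1, hdom⟩ := hI.dom ε hε0
  set κ : ℝ := τ / (8 * (t ^ 2 * (C + V) + 1)) with hκ
  have hCV : 0 ≤ t ^ 2 * (C + V) := by positivity
  have hκ0 : 0 < κ := by positivity
  have e2 : t ^ 2 * (C + V) * κ ≤ τ / 8 := by
    rw [hκ, mul_div_assoc', div_le_div_iff₀ (by positivity) (by norm_num)]
    nlinarith
  set G : ℝ := t ^ 2 / 2 * ((C₁ + V) + (C + V) * (C₁ * t ^ 2 / κ ^ 3) +
    t ^ 2 * V * (C₁ + V) / 2) + |t| ^ 3 * C₁ with hG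
  have hG0 : 0 ≤ G := by positivity
  set s : ℝ := min 1 (τ / (8 * (G + 1))) with hs
  have hs0 : 0 < s := lt_min one_pos (by positivity)
  have hs1 : s ≤ 1 := min_le_left _ _
  set δ : ℝ := s ^ 2 with hδ
  have hδ0 : 0 < δ := by positivity
  have hδs : δ ≤ s := by
    rw [hδ]
    nlinarith
  have hsq : Real.sqrt δ = s := Real.sqrt_sq hs0.le
  have e3 : G * s ≤ τ / 8 := by
    have h1 : s ≤ τ / (8 * (G + 1)) := min_le_right _ _
    calc G * s ≤ G * (τ / (8 * (G + 1))) := mul_le_mul_of_nonneg_left h1 hG0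
      _ ≤ τ / 8 := by
        rw [mul_div_assoc', div_le_div_iff₀ (by positivity) (by norm_num)]
        nlinarith
  set w : ℝ := τ / (8 * (|t| * (2 + 1 / δ) + 1)) with hw
  have hw0 : 0 < w := by positivity
  set ε₂ : ℝ := w ^ 2 / δ with hε₂
  have hε₂0 : 0 < ε₂ := by positivity
  have e4 : |t| * ((2 + 1 / δ) * Real.sqrt (ε₂ * δ)) ≤ τ / 8 := by
    have h1 : Real.sqrt (ε₂ * δ) = w := by
      rw [hε₂, div_mul_cancel₀ _ hδ0.ne', Real.sqrt_sq hw0.le]
    rw [h1, hw]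
    have h2 : 0 ≤ |t| * (2 + 1 / δ) := by positivity
    rw [← mul_assoc, mul_div_assoc', div_le_div_iff₀ (by positivity) (by norm_num)]
    nlinarith
  obtain ⟨q2, hq2, hsmall⟩ := hI.small ε₂ hε₂0
  obtain ⟨q3, hq3, hlind⟩ := hI.lind ε 1 hε0 one_pos
  obtain ⟨q4, hq4, hlln⟩ := hI.lln ε hε0
  set q₀ : ℝ := max (max q1 q2) (max (max q3 q4) 0) with hq₀
  have hq₀1 : q₀ < 1 := max_lt (max_lt hq1 hq2) (max_lt (max_lt hq3 hq4) one_pos)
  obtain ⟨N1, hN1⟩ := exists_nat_gt (1 / (δ * (1 - q₀)))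
  obtain ⟨N2, hN2⟩ := exists_nat_gt (t ^ 4 * V ^ 2 / τ)
  refine ⟨max (max N1 N2) 1, fun n hn => ?_⟩
  have hn1 : N1 ≤ n := (le_max_left _ _).trans ((le_max_left _ _).trans hn)
  have hn2 : N2 ≤ n := (le_max_right _ _).trans ((le_max_left _ _).trans hn)
  have hn0 : 0 < n := (le_max_right _ _).trans hn
  have hn0' : (0 : ℝ) < n := by exact_mod_cast hn0
  have hn1' : 1 / (δ * (1 - q₀)) < n := hN1.trans_le (by exact_mod_cast hn1)
  have hn2' : t ^ 4 * V ^ 2 / τ < n := hN2.trans_le (by exact_mod_cast hn2)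
  set q : ℝ := 1 - (δ * n)⁻¹ with hq
  have hdn : 0 < δ * n := by positivity
  have hqq : 1 - q = (δ * n)⁻¹ := by rw [hq]; ring
  have hq₀q : q₀ < q := by
    have h1 : 0 < 1 - q₀ := by linarith
    have h2 : (δ * n)⁻¹ < 1 - q₀ := by
      rw [inv_lt_iff_one_lt_mul₀ hdn]
      rw [div_lt_iff₀ (by positivity)] at hn1'
      linarith
    rw [hq]
    linarith
  have hqnn : 0 ≤ q := ((le_max_right _ _).trans (le_max_right _ _)).trans hq₀q.le
  have hqlt : q < 1 := by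
    have := inv_pos.2 hdn
    rw [hq]
    linarith
  have hg1 : q1 < q := ((le_max_left _ _).trans (le_max_left _ _)).trans_lt hq₀q
  have hg2 : q2 < q := ((le_max_right _ _).trans (le_max_left _ _)).trans_lt hq₀q
  have hg3 : q3 < q := (((le_max_left _ _).trans (le_max_left _ _)).trans
    (le_max_right _ _)).trans_lt hq₀q
  have hg4 : q4 < q := (((le_max_right _ _).trans (le_max_left _ _)).trans
    (le_max_right _ _)).trans_lt hq₀q
  obtain ⟨r, hrm, hr, hrs⟩ := hI.ex q hqnn hqlt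
  obtain ⟨ψ, D, hψ, hD, hψ0, hD0, hψε, hDe⟩ := hdom q hg1 hqnn hqlt r hrm hr hrs
  obtain ⟨ρ, hρ, hρB, hρε⟩ := hlind q hg3 hqnn hqlt r hrm hr hrs
  obtain ⟨z, hz, hzε, hze⟩ := hlln q hg4 hqnn hqlt r hrm hr hrs
  have hen := (hI.energy q hqnn hqlt r hr hrs).trans (le_abs_self C₀)
  have hb := Limit_bound hP h hI.f2 hr hrm (hPm r hrm) hqnn hqlt hrs hV hκ0 hCn hε0.le hen hψ hD
    hψ0 hD0 hψε hDe hz hzε hze hρ hn0 hδ0 hqq hρB hρε (hsmall q hg2 hqnn hqlt r hr hrs) t α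
  rw [Real.dist_eq]
  refine hb.trans_lt ?_
  rw [← hC₁, hsq]
  have e5 : t ^ 4 * V ^ 2 / (8 * n) ≤ τ / 8 := by
    rw [div_lt_iff₀ hτ] at hn2'
    rw [div_le_div_iff₀ (by positivity) (by norm_num)]
    linarith
  have e6 : t ^ 2 / 2 * ((C₁ + V) * δ + (C + V) * (C₁ * t ^ 2 * δ / κ ^ 3) +
      t ^ 2 * V * (C₁ + V) * δ / 2) + s * |t| ^ 3 * C₁ ≤ G * s := by
    have h1 : t ^ 2 / 2 * ((C₁ + V) * δ + (C + V) * (C₁ * t ^ 2 * δ / κ ^ 3) +
      t ^ 2 * V * (C₁ + V) * δ / 2) = t ^ 2 / 2 * ((C₁ + V) + (C + V) * (C₁ * t ^ 2 / κ ^ 3) +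
      t ^ 2 * V * (C₁ + V) / 2) * δ := by ring
    have h2 : 0 ≤ t ^ 2 / 2 * ((C₁ + V) + (C + V) * (C₁ * t ^ 2 / κ ^ 3) +
      t ^ 2 * V * (C₁ + V) / 2) := by positivity
    rw [h1, hG, add_mul]
    have h3 := mul_le_mul_of_nonneg_left hδs h2
    linarith
  have e7 : t ^ 2 / 2 * ((C₁ + V) * δ + 4 * ε + (C + V) * (2 * κ + C₁ * t ^ 2 * δ / κ ^ 3) +
        t ^ 2 * V * (C₁ + V) * δ / 2) + s * |t| ^ 3 * C₁ + 4 * t ^ 2 * ε =
      (t ^ 2 / 2 * ((C₁ + V) * δ + (C + V) * (C₁ * t ^ 2 * δ / κ ^ 3) +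
      t ^ 2 * V * (C₁ + V) * δ / 2) + s * |t| ^ 3 * C₁) + 6 * t ^ 2 * ε +
      t ^ 2 * (C + V) * κ := by ring
  rw [e7]
  linarith

/-- Weak convergence (Levy's theorem). -/
theorem clt_weak [IsProbabilityMeasure μ] [IsProbabilityMeasure ν] (hP : MOp ν P)
    (hPm : ∀ g : S → ℝ, Measurable g → Measurable (P g)) {f : S → ℝ} (hfm : Measurable f) {V C₀ : ℝ}
    (hI : Iface ν P f V C₀) (h : Path μ ν P ℱ X) :
    ∃ v : NNReal, ∀ g : ℝ → ℝ, Continuous g → (∃ C : ℝ, ∀ x, |g x| ≤ C) →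
      Tendsto (fun n : ℕ => ∫ ω, g ((Real.sqrt n)⁻¹ * ∑ i ∈ Finset.range n, f (X i ω)) ∂μ)
        atTop (𝓝 (∫ x, g x ∂(gaussianReal 0 v))) := by
  have hV := hI.Vnn
  refine ⟨V.toNNReal, fun g hg hgb => ?_⟩
  set W : ℕ → Ω → ℝ := fun n ω => (Real.sqrt n)⁻¹ * ∑ i ∈ Finset.range n, f (X i ω) with hW
  have hWm : ∀ n, Measurable (W n) := fun n =>
    (Finset.measurable_sum _ fun i _ => hfm.comp (h.meas i)).const_mul _
  let L : ℕ → ProbabilityMeasure ℝ := fun n =>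
    ⟨μ.map (W n), Measure.isProbabilityMeasure_map (hWm n).aemeasurable⟩
  let L0 : ProbabilityMeasure ℝ := ⟨gaussianReal 0 V.toNNReal, inferInstance⟩
  have hchar : ∀ t : ℝ, Tendsto (fun n => charFun (L n : Measure ℝ) t) atTop
      (𝓝 (charFun (L0 : Measure ℝ) t)) := by
    intro t
    have e0 : charFun (L0 : Measure ℝ) t = ((Real.exp (-(t ^ 2 * V / 2)) : ℝ) : ℂ) := by
      show charFun (gaussianReal 0 V.toNNReal) t = _
      rw [charFun_gaussianReal, Complex.ofReal_exp]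
      congr 1
      have : ((V.toNNReal : ℝ) : ℂ) = (V : ℂ) := by rw [Real.coe_toNNReal V hV]
      push_cast
      rw [this]
      ring
    have e1 : ∀ n, charFun (L n : Measure ℝ) t =
        ((∫ ω, Real.cos (t * W n ω + 0) ∂μ : ℝ) : ℂ) +
        ((∫ ω, Real.cos (t * W n ω + (-(Real.pi / 2))) ∂μ : ℝ) : ℂ) * Complex.I := by
      intro n
      show charFun (μ.map (W n)) t = _
      rw [charFun_apply_real, integral_map (hWm n).aemeasurable
        (by fun_prop)]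
      have hm1 : AEStronglyMeasurable (fun ω => t * W n ω + 0) μ :=
        (((hWm n).const_mul t).add_const 0).aestronglyMeasurable
      have hm2 : AEStronglyMeasurable (fun ω => t * W n ω + (-(Real.pi / 2))) μ :=
        (((hWm n).const_mul t).add_const _).aestronglyMeasurable
      have i1 : Integrable (fun ω => ((Real.cos (t * W n ω + 0) : ℝ) : ℂ)) μ :=
        (Limit_integrable_cos hm1).ofReal
      have i2 : Integrable (fun ω => ((Real.cos (t * W n ω + (-(Real.pi / 2))) : ℝ) : ℂ) *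
          Complex.I) μ := (Limit_integrable_cos hm2).ofReal.mul_const _
      rw [← integral_complex_ofReal, ← integral_complex_ofReal, ← integral_mul_const,
        ← integral_add i1 i2]
      apply integral_congr_ae
      refine Eventually.of_forall fun ω => ?_
      show Complex.exp (t * W n ω * Complex.I) = _
      rw [show ((t : ℂ) * (W n ω : ℂ) * Complex.I) = ((t * W n ω : ℝ) : ℂ) * Complex.I by
        push_cast; ring, Complex.exp_mul_I, ← Complex.ofReal_cos, ← Complex.ofReal_sin]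
      show _ = ((Real.cos (t * W n ω + 0) : ℝ) : ℂ) +
        ((Real.cos (t * W n ω + (-(Real.pi / 2))) : ℝ) : ℂ) * Complex.I
      rw [add_zero, ← sub_eq_add_neg (t * W n ω) (Real.pi / 2), Real.cos_sub_pi_div_two]
    rw [e0]
    simp_rw [e1]
    have t1 := clt_cos hP hPm hI h t 0
    have t2 := clt_cos hP hPm hI h t (-(Real.pi / 2))
    rw [Real.cos_zero, one_mul] at t1
    rw [Real.cos_neg, Real.cos_pi_div_two, zero_mul] at t2
    have t1' := (Complex.continuous_ofReal.tendsto _).comp t1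
    have t2' := ((Complex.continuous_ofReal.tendsto _).comp t2).mul_const Complex.I
    have t3 := t1'.add t2'
    rw [Complex.ofReal_zero, zero_mul, add_zero] at t3
    exact t3
  have hlim := ProbabilityMeasure.tendsto_iff_tendsto_charFun.2 hchar
  rw [ProbabilityMeasure.tendsto_iff_forall_integral_tendsto] at hlim
  obtain ⟨C, hC⟩ := hgb
  have hfin := hlim (BoundedContinuousFunction.ofNormedAddCommGroup g hg C
    fun x => by rw [Real.norm_eq_abs]; exact hC x)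
  have e2 : ∀ n, ∫ x, (BoundedContinuousFunction.ofNormedAddCommGroup g hg C
      fun x => by rw [Real.norm_eq_abs]; exact hC x) x ∂(L n : Measure ℝ) =
      ∫ ω, g (W n ω) ∂μ := by
    intro n
    show ∫ x, g x ∂(μ.map (W n)) = _
    rw [integral_map (hWm n).aemeasurable hg.aestronglyMeasurable]
  simp_rw [e2] at hfin
  exact hfin

end Pool.NH23.MC
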