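import Pool.Agent.NH23.MC.BasicB

set_option autoImplicit false
open MeasureTheory ProbabilityTheory Filter Topology

namespace Pool.NH23.MC

variable {S : Type} [MeasurableSpace S] {ν : Measure S} {P P' : (S → ℝ) → (S → ℝ)} {f : S → ℝ}

/-- iterated adjoint relation -/
theorem ni_adj [IsProbabilityMeasure ν] (hP : Pair ν P P') (t : ℕ) {g h : S → ℝ}
    (hg : Integrable g ν) (hh : Integrable h ν) {C : ℝ} (hb : ∀ᵐ x ∂ν, |h x| ≤ C) :
    ∫ x, P^[t] g x * h x ∂ν = ∫ x, g x * P'^[t] h x ∂ν := by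
  induction t generalizing h with
  | zero => rfl
  | succ t ih =>
    rw [Function.iterate_succ_apply', Function.iterate_succ_apply,
      hP.adj1 _ _ (hP.left.iter_integrable hg t) hh.aestronglyMeasurable ⟨C, hb⟩]
    exact ih (hP.right.integrable _ hh) (hP.right.abs_le_of_abs_le hh hb)

theorem ni_chi [IsProbabilityMeasure ν] {R : Set S} (hR : MeasurableSet R) :
    Integrable (R.indicator fun _ => (1 : ℝ)) ν :=
  (integrable_const 1).indicator hR

theorem ni_range [IsProbabilityMeasure ν] (hP : MOp ν P) {R : Set S} (hR : MeasurableSet R)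
    (t : ℕ) : ∀ᵐ x ∂ν, 0 ≤ P^[t] (R.indicator fun _ => (1 : ℝ)) x ∧
      P^[t] (R.indicator fun _ => (1 : ℝ)) x ≤ 1 := by
  induction t with
  | zero =>
    refine Eventually.of_forall fun x => ?_
    simp only [Function.iterate_zero, id]
    by_cases hx : x ∈ R
    · rw [Set.indicator_of_mem hx]
      norm_num
    · rw [Set.indicator_of_notMem hx]
      norm_num
  | succ t ih =>
    rw [Function.iterate_succ_apply']
    have hi := hP.iter_integrable (ni_chi (ν := ν) hR) t
    have h1 := hP.nonneg _ hi (ih.mono fun x hx => hx.1)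
    have h2 := hP.mono hi (integrable_const 1) (ih.mono fun x hx => hx.2)
    filter_upwards [h1, h2, hP.one] with x hx1 hx2 hx3
    rw [hx3] at hx2
    exact ⟨hx1, hx2⟩

theorem ni_exit [IsProbabilityMeasure ν] (hP : MOp ν P) {R : Set S} (hR : MeasurableSet R)
    {q : ℝ} (hq0 : 0 ≤ q) (hq1 : q < 1) {e : S → ℝ} (he : IsExit ν P q R e) (t : ℕ) :
    ∀ᵐ x ∂ν, q ^ t * (1 - P^[t] (R.indicator fun _ => (1 : ℝ)) x) ≤ e x := by
  induction t with
  | zero =>
    filter_upwards [he.off, he.nonneg] with x h1 h2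
    simp only [Function.iterate_zero, id, pow_zero, one_mul]
    by_cases hx : x ∈ R
    · rw [Set.indicator_of_mem hx]
      linarith
    · rw [Set.indicator_of_notMem hx, h1 hx]
      norm_num
  | succ t ih =>
    have hi := hP.iter_integrable (ni_chi (ν := ν) hR) t
    have hi' : Integrable (fun x => 1 - P^[t] (R.indicator fun _ => (1 : ℝ)) x) ν :=
      (integrable_const 1).sub hi
    have h1 := hP.mono (hi'.const_mul (q ^ t)) he.integrable ih
    have h2 := hP.const_mul (q ^ t) hi'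
    have h3 := hP.sub' (g := fun _ => (1 : ℝ)) (integrable_const 1) hi
    filter_upwards [h1, h2, h3, hP.one, he.on, he.off, ni_range hP hR (t + 1)] with x x1 x2 x3 x4 x5
      x6 x7
    rw [Function.iterate_succ_apply'] at x7 ⊢
    rw [x2, x3, x4] at x1
    by_cases hx : x ∈ R
    · rw [x5 hx, pow_succ]
      calc q ^ t * q * (1 - P (P^[t] (R.indicator fun _ => (1 : ℝ))) x)
          = q * (q ^ t * (1 - P (P^[t] (R.indicator fun _ => (1 : ℝ))) x)) := by ring
        _ ≤ q * P e x := mul_le_mul_of_nonneg_left x1 hq0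
    · rw [x6 hx]
      have h4 : q ^ (t + 1) ≤ 1 := pow_le_one₀ hq0 hq1.le
      have h5 : 0 ≤ q ^ (t + 1) := pow_nonneg hq0 _
      nlinarith [x7.1, x7.2]

/-- the mass of a bounded function on a set and after `t` steps -/
theorem ni_step [IsProbabilityMeasure ν] (hP : Pair ν P P') {R : Set S} (hR : MeasurableSet R)
    {q : ℝ} (hq0 : 0 ≤ q) (hq1 : q < 1) {e : S → ℝ} (he : IsExit ν P q R e) {t : ℕ}
    (hqt : 1 / 2 ≤ q ^ t) {g : S → ℝ} (hg : Integrable g ν) {L : ℝ} (hL : ∀ x, |g x| ≤ L) :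
    |∫ x in R, g x ∂ν - ∫ x in R, P^[t] g x ∂ν| ≤ 4 * L * ∫ x in R, e x ∂ν := by
  set χ : S → ℝ := R.indicator fun _ => (1 : ℝ) with hχ
  have hχi : Integrable χ ν := ni_chi hR
  have hχb : ∀ᵐ x ∂ν, |χ x| ≤ 1 := by
    refine Eventually.of_forall fun x => ?_
    rw [hχ]
    by_cases hx : x ∈ R
    · rw [Set.indicator_of_mem hx]
      norm_num
    · rw [Set.indicator_of_notMem hx]
      norm_num
  have hL0 : 0 ≤ L := by
    have : Nonempty S := by
      by_contra hne
      rw [not_nonempty_iff] at hne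
      have h1 : ν Set.univ = 1 := measure_univ
      rw [Set.univ_eq_empty_iff.mpr hne, measure_empty] at h1
      exact zero_ne_one h1
    obtain ⟨x⟩ := this
    exact (abs_nonneg _).trans (hL x)
  have hset : ∀ u : S → ℝ, ∫ x in R, u x ∂ν = ∫ x, u x * χ x ∂ν := by
    intro u
    rw [← integral_indicator hR]
    congr 1
    funext x
    rw [hχ]
    by_cases hx : x ∈ R
    · rw [Set.indicator_of_mem hx, Set.indicator_of_mem hx, mul_one]
    · rw [Set.indicator_of_notMem hx, Set.indicator_of_notMem hx, mul_zero]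
  have hadj := ni_adj hP t hg hχi hχb
  have hPχ : Integrable (P'^[t] χ) ν := hP.right.iter_integrable hχi t
  have hrange := ni_range hP.right hR t
  have hgχ : Integrable (fun x => g x * χ x) ν := by
    refine hg.mul_bdd (c := 1) hχi.aestronglyMeasurable ?_
    filter_upwards [hχb] with x hx
    rwa [Real.norm_eq_abs]
  have hgP : Integrable (fun x => g x * P'^[t] χ x) ν := by
    refine hg.mul_bdd (c := 1) hPχ.aestronglyMeasurable ?_
    filter_upwards [hrange] with x hx
    rw [Real.norm_eq_abs, abs_of_nonneg hx.1]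
    exact hx.2
  have h1 : ∫ x in R, g x ∂ν - ∫ x in R, P^[t] g x ∂ν =
      ∫ x, g x * (χ x - P'^[t] χ x) ∂ν := by
    rw [hset, hset, hadj, ← integral_sub hgχ hgP]
    congr 1
    funext x
    ring
  have hχP : Integrable (fun x => χ x * P'^[t] χ x) ν := by
    refine hχi.mul_bdd (c := 1) hPχ.aestronglyMeasurable ?_
    filter_upwards [hrange] with x hx
    rw [Real.norm_eq_abs, abs_of_nonneg hx.1]
    exact hx.2
  have habs : ∀ᵐ x ∂ν, |χ x - P'^[t] χ x| = χ x + P'^[t] χ x - 2 * (χ x * P'^[t] χ x) := by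
    filter_upwards [hrange] with x hx
    have hx1 : 0 ≤ P'^[t] χ x := hx.1
    have hx2 : P'^[t] χ x ≤ 1 := hx.2
    by_cases hxR : x ∈ R
    · have : χ x = 1 := by rw [hχ, Set.indicator_of_mem hxR]
      rw [this, abs_of_nonneg (by linarith)]
      ring
    · have : χ x = 0 := by rw [hχ, Set.indicator_of_notMem hxR]
      rw [this, zero_sub, abs_neg, abs_of_nonneg hx1]
      ring
  have hint : Integrable (fun x => χ x + P'^[t] χ x - 2 * (χ x * P'^[t] χ x)) ν :=
    (hχi.add hPχ).sub (hχP.const_mul 2)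
  have h2 : |∫ x, g x * (χ x - P'^[t] χ x) ∂ν| ≤
      ∫ x, L * (χ x + P'^[t] χ x - 2 * (χ x * P'^[t] χ x)) ∂ν := by
    rw [← Real.norm_eq_abs]
    apply norm_integral_le_of_norm_le (hint.const_mul L)
    filter_upwards [habs] with x hx
    rw [norm_mul, Real.norm_eq_abs, Real.norm_eq_abs, hx]
    apply mul_le_mul_of_nonneg_right (hL x)
    rw [← hx]
    exact abs_nonneg _
  -- the integral of the density
  have hiter : ∫ x, P'^[t] χ x ∂ν = ∫ x, χ x ∂ν := by
    clear h1 h2 habs hint hgP hχP hrange hadj hPχ hqt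
    induction t with
    | zero => rfl
    | succ t ih =>
      rw [Function.iterate_succ_apply', hP.right.integral _ (hP.right.iter_integrable hχi t), ih]
  have hadj2 := ni_adj hP t hχi hχi hχb
  have h3 : ∫ x, (χ x + P'^[t] χ x - 2 * (χ x * P'^[t] χ x)) ∂ν =
      2 * ∫ x in R, (1 - P^[t] χ x) ∂ν := by
    have hs : Integrable (fun x => χ x + P'^[t] χ x) ν := hχi.add hPχ
    rw [integral_sub hs (hχP.const_mul 2), integral_add hχi hPχ, hiter,
      integral_const_mul, ← hadj2]
    have hR1 : ∫ x in R, (1 - P^[t] χ x) ∂ν = ∫ x, χ x ∂ν - ∫ x, P^[t] χ x * χ x ∂ν := by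
      have hPi : Integrable (P^[t] χ) ν := hP.left.iter_integrable hχi t
      rw [integral_sub (integrable_const 1).integrableOn hPi.integrableOn, ← hset (P^[t] χ)]
      congr 1
      rw [hset (fun _ => (1 : ℝ))]
      simp
    rw [hR1]
    ring
  have h4 : ∫ x in R, (1 - P^[t] χ x) ∂ν ≤ ∫ x in R, 2 * e x ∂ν := by
    have hPi : Integrable (P^[t] χ) ν := hP.left.iter_integrable hχi t
    apply integral_mono_ae
    · exact ((integrable_const 1).sub hPi).integrableOn
    · exact (he.integrable.const_mul 2).integrableOn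
    · apply ae_restrict_of_ae
      filter_upwards [ni_exit hP.left hR hq0 hq1 he t, ni_range hP.left hR t] with x hx hx'
      have h5 : 0 ≤ 1 - P^[t] χ x := by
        have := hx'.2
        linarith
      have h6 : (1 / 2) * (1 - P^[t] χ x) ≤ q ^ t * (1 - P^[t] χ x) :=
        mul_le_mul_of_nonneg_right hqt h5
      have h7 : q ^ t * (1 - P^[t] χ x) ≤ e x := hx
      linarith
  rw [integral_const_mul] at h4
  rw [h1]
  refine h2.trans ?_
  rw [integral_const_mul, h3]
  nlinarith

/-- Near-invariant sets: a set which is rarely left carries its share of the mass of `w`. -/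
theorem near_inv [IsProbabilityMeasure ν] (h : Ctx ν P P' f) {w : S → ℝ} (hw : Integrable w ν)
    {δ : ℝ} (hδ : 0 < δ) :
    ∃ L : ℝ, 0 ≤ L ∧ ∃ q₀ : ℝ, q₀ < 1 ∧ ∀ q : ℝ, q₀ < q → 0 ≤ q → q < 1 → ∀ R : Set S,
      MeasurableSet R → ∀ e : S → ℝ, IsExit ν P q R e →
      |∫ x in R, w x ∂ν - (∫ x, w x ∂ν) * ν.real R| ≤ δ + L * ∫ x in R, e x ∂ν := by
  -- a bounded approximation
  obtain ⟨g, hgi, hg2, L', hL'0, hgL, hwg⟩ : ∃ g : S → ℝ, Integrable g ν ∧ MemLp g 2 ν ∧ ∃ L' : ℝ,
      0 ≤ L' ∧ (∀ x, |g x| ≤ L') ∧ ∫ x, |w x - g x| ∂ν ≤ δ / 8 := by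
    have hw1 : MemLp w 1 ν := memLp_one_iff_integrable.mpr hw
    obtain ⟨g, hg, hg1⟩ := hw1.exists_simpleFunc_eLpNorm_sub_lt (by norm_num)
      (ε := ENNReal.ofReal (δ / 8)) (by
        rw [ne_eq, ENNReal.ofReal_eq_zero]
        linarith)
    obtain ⟨C, hC⟩ := g.exists_forall_norm_le
    have hgi : Integrable g ν := memLp_one_iff_integrable.mp hg1
    refine ⟨g, hgi, g.memLp_of_isFiniteMeasure 2 ν, |C|, abs_nonneg _,
      fun x => (hC x).trans (le_abs_self _), ?_⟩
    have h1 : Integrable (fun x => w x - g x) ν := hw.sub hgi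
    have h2 : ∫ x, |w x - g x| ∂ν = (eLpNorm (w - ⇑g) 1 ν).toReal := by
      rw [eLpNorm_one_eq_lintegral_enorm, integral_eq_lintegral_of_nonneg_ae
        (Eventually.of_forall fun x => abs_nonneg _) h1.abs.aestronglyMeasurable]
      congr 1
      apply lintegral_congr
      intro x
      rw [Pi.sub_apply, ← Real.norm_eq_abs, ofReal_norm]
    rw [h2]
    exact ENNReal.toReal_le_of_le_ofReal (by linarith) hg.le
  set V : ℝ := ∫ x, w x ∂ν with hV
  set V' : ℝ := ∫ x, g x ∂ν with hV'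
  have hwgi : Integrable (fun x => w x - g x) ν := hw.sub hgi
  have hVV : |V - V'| ≤ δ / 8 := by
    rw [hV, hV', ← integral_sub hw hgi, ← Real.norm_eq_abs]
    exact (norm_integral_le_integral_norm _).trans hwg
  -- the mean ergodic theorem
  obtain ⟨T, hT0, hT⟩ : ∃ T : ℕ, 0 < T ∧ ∫ x, ((T : ℝ)⁻¹ *
      (∑ t ∈ Finset.range T, P^[t] g x) - V') ^ 2 ∂ν ≤ (δ / 8) ^ 2 := by
    have h1 := (h.erg g hg2).eventually (gt_mem_nhds (show (0 : ℝ) < (δ / 8) ^ 2 by positivity))
    obtain ⟨T, hT, hT'⟩ := (h1.and (eventually_gt_atTop 0)).exists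
    exact ⟨T, hT', hT.le⟩
  have hTR : (0 : ℝ) < T := by exact_mod_cast hT0
  refine ⟨4 * L', by positivity, 1 - 1 / (2 * T), by
    have : 0 < 1 / (2 * (T : ℝ)) := by positivity
    linarith, ?_⟩
  intro q hq hq0 hq1 R hR e he
  have hqT : ∀ t ∈ Finset.range T, 1 / 2 ≤ q ^ t := by
    intro t ht
    rw [Finset.mem_range] at ht
    have h1 : q ^ T ≤ q ^ t := pow_le_pow_of_le_one hq0 hq1.le ht.le
    have h2 : 1 + (T : ℝ) * (q - 1) ≤ (1 + (q - 1)) ^ T := one_add_mul_le_pow (by linarith) T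
    have h3 : 1 + (q - 1) = q := by ring
    rw [h3] at h2
    have h4 : (T : ℝ) * (1 - q) ≤ 1 / 2 := by
      have h5 : 1 - q ≤ 1 / (2 * T) := by linarith
      calc (T : ℝ) * (1 - q) ≤ T * (1 / (2 * T)) := mul_le_mul_of_nonneg_left h5 hTR.le
        _ = 1 / 2 := by field_simp
    linarith
  have hE0 : 0 ≤ ∫ x in R, e x ∂ν := by
    apply integral_nonneg_of_ae
    exact ae_restrict_of_ae he.nonneg
  -- the averages
  set A : S → ℝ := fun x => (T : ℝ)⁻¹ * (∑ t ∈ Finset.range T, P^[t] g x) with hA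
  have hPi : ∀ t, Integrable (P^[t] g) ν := fun t => h.pair.left.iter_integrable hgi t
  have hAi : Integrable A ν := (integrable_finsetSum _ fun t _ => hPi t).const_mul _
  have hA2 : MemLp A 2 ν := (memLp_finsetSum _ fun t _ => h.pair.left.iter_memLp hg2 t).const_mul _
  have h1 : |∫ x in R, g x ∂ν - ∫ x in R, A x ∂ν| ≤ 4 * L' * ∫ x in R, e x ∂ν := by
    have h2 : ∫ x in R, g x ∂ν - ∫ x in R, A x ∂ν =
        (T : ℝ)⁻¹ * ∑ t ∈ Finset.range T, (∫ x in R, g x ∂ν - ∫ x in R, P^[t] g x ∂ν) := by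
      rw [hA, integral_const_mul, integral_finsetSum _ fun t _ => (hPi t).integrableOn,
        Finset.sum_sub_distrib, Finset.sum_const, Finset.card_range, nsmul_eq_mul]
      field_simp
    rw [h2, abs_mul, abs_of_pos (inv_pos.mpr hTR)]
    have h3 : |∑ t ∈ Finset.range T, (∫ x in R, g x ∂ν - ∫ x in R, P^[t] g x ∂ν)| ≤
        ∑ t ∈ Finset.range T, 4 * L' * ∫ x in R, e x ∂ν :=
      (Finset.abs_sum_le_sum_abs _ _).trans (Finset.sum_le_sum fun t ht =>
        ni_step h.pair hR hq0 hq1 he (hqT t ht) hgi hgL)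
    rw [Finset.sum_const, Finset.card_range, nsmul_eq_mul] at h3
    calc _ ≤ (T : ℝ)⁻¹ * (T * (4 * L' * ∫ x in R, e x ∂ν)) :=
          mul_le_mul_of_nonneg_left h3 (inv_nonneg.mpr hTR.le)
      _ = _ := by field_simp
  have h2 : |∫ x in R, A x ∂ν - V' * ν.real R| ≤ δ / 8 := by
    have hD : Integrable (fun x => A x - V') ν := hAi.sub (integrable_const _)
    have hD2 : MemLp (fun x => A x - V') 2 ν := hA2.sub (memLp_const _)
    have h3 : ∫ x in R, A x ∂ν - V' * ν.real R = ∫ x in R, (A x - V') ∂ν := by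
      rw [integral_sub hAi.integrableOn (integrable_const _).integrableOn, setIntegral_const,
        smul_eq_mul]
      ring
    rw [h3, ← Real.norm_eq_abs]
    refine (norm_integral_le_integral_norm _).trans ?_
    refine (setIntegral_le_integral hD.norm (Eventually.of_forall fun x => norm_nonneg _)).trans ?_
    -- Cauchy-Schwarz
    have h4 : (∫ x, ‖A x - V'‖ ∂ν) ^ 2 ≤ (δ / 8) ^ 2 := by
      set m : ℝ := ∫ x, ‖A x - V'‖ ∂ν with hm
      have h5 : 0 ≤ ∫ x, (‖A x - V'‖ - m) ^ 2 ∂ν := integral_nonneg fun x => sq_nonneg _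
      have h6 : ∫ x, (‖A x - V'‖ - m) ^ 2 ∂ν =
          ∫ x, (A x - V') ^ 2 ∂ν - m ^ 2 := by
        have h7 : (fun x => (‖A x - V'‖ - m) ^ 2) =
            fun x => ((A x - V') ^ 2 - 2 * m * ‖A x - V'‖) + m ^ 2 := by
          funext x
          rw [Real.norm_eq_abs, sub_sq, sq_abs]
          ring
        have h9 : Integrable (fun x => 2 * m * ‖A x - V'‖) ν := hD.norm.const_mul _
        have h8 : Integrable (fun x => (A x - V') ^ 2 - 2 * m * ‖A x - V'‖) ν :=
          hD2.integrable_sq.sub h9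
        rw [h7, integral_add h8 (integrable_const _),
          integral_sub hD2.integrable_sq h9, integral_const_mul,
          integral_const, smul_eq_mul, probReal_univ, ← hm]
        ring
      rw [h6] at h5
      have h8 : ∫ x, (A x - V') ^ 2 ∂ν ≤ (δ / 8) ^ 2 := hT
      linarith
    exact (pow_le_pow_iff_left₀ (integral_nonneg fun x => norm_nonneg _) (by linarith)
      (by norm_num)).mp h4
  have h3 : |∫ x in R, w x ∂ν - ∫ x in R, g x ∂ν| ≤ δ / 8 := by
    rw [← integral_sub hw.integrableOn hgi.integrableOn, ← Real.norm_eq_abs]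
    refine (norm_integral_le_integral_norm _).trans ?_
    refine (setIntegral_le_integral hwgi.norm (Eventually.of_forall fun x => norm_nonneg _)).trans ?_
    exact hwg
  have h4 : |V' * ν.real R - V * ν.real R| ≤ δ / 8 := by
    rw [← sub_mul, abs_mul, abs_sub_comm, abs_of_nonneg (measureReal_nonneg (μ := ν) (s := R))]
    have h5 : ν.real R ≤ 1 := measureReal_le_one
    have h6 : 0 ≤ ν.real R := measureReal_nonneg
    have h7 := abs_nonneg (V - V')
    nlinarith
  rw [abs_le] at h1 h2 h3 h4 ⊢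
  constructor <;> linarith [h1.1, h1.2, h2.1, h2.2, h3.1, h3.2, h4.1, h4.2]

end Pool.NH23.MC
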