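import Pool.Agent.NH23.MC.BasicB

set_option autoImplicit false
open MeasureTheory ProbabilityTheory Filter Topology

namespace Pool.NH23.MC

variable {S : Type} [MeasurableSpace S] {ν : Measure S} {P : (S → ℝ) → (S → ℝ)}
  {Ω : Type} {mΩ : MeasurableSpace Ω} {μ : Measure Ω} {ℱ : Filtration ℕ mΩ} {X : ℕ → Ω → S}

namespace Path

/-- The shifted filtration. -/
def shiftF (ℱ : Filtration ℕ mΩ) (m : ℕ) : Filtration ℕ mΩ where
  seq := fun i => ℱ (m + i)
  mono' := fun i j hij => ℱ.mono (by omega)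
  le' := fun i => ℱ.le (m + i)

theorem shift (h : Path μ ν P ℱ X) (m : ℕ) :
    Path μ ν P (shiftF ℱ m) (fun i => X (m + i)) where
  meas := fun i => h.meas (m + i)
  adapted := fun i => h.adapted (m + i)
  law := fun i => h.law (m + i)
  markov := fun i g hg => h.markov (m + i) g hg

theorem pathB_mp (h : Path μ ν P ℱ X) (i : ℕ) : MeasurePreserving (X i) μ ν :=
  ⟨h.meas i, h.law i⟩

theorem integrable_comp (h : Path μ ν P ℱ X) {g : S → ℝ} (hg : Integrable g ν) (i : ℕ) :
    Integrable (fun ω => g (X i ω)) μ := by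
  have := hg
  rw [← h.law i] at this
  exact this.comp_measurable (h.meas i)

theorem memLp_comp (h : Path μ ν P ℱ X) {g : S → ℝ} (hg : MemLp g 2 ν) (i : ℕ) :
    MemLp (fun ω => g (X i ω)) 2 μ :=
  hg.comp_measurePreserving (h.pathB_mp i)

theorem integral_comp (h : Path μ ν P ℱ X) {g : S → ℝ} (hg : AEStronglyMeasurable g ν) (i : ℕ) :
    ∫ ω, g (X i ω) ∂μ = ∫ x, g x ∂ν := by
  have h2 := hg
  rw [← h.law i] at h2 ⊢
  exact (integral_map (h.meas i).aemeasurable h2).symm

theorem ae_comp (h : Path μ ν P ℱ X) {p : S → Prop} (hp : ∀ᵐ x ∂ν, p x) (i : ℕ) :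
    ∀ᵐ ω ∂μ, p (X i ω) :=
  (h.pathB_mp i).quasiMeasurePreserving.ae hp

theorem pathB_bdd_int [IsProbabilityMeasure μ] {Y Z : Ω → ℝ} (hY : AEStronglyMeasurable Y μ)
    {C : ℝ} (hYC : ∀ ω, |Y ω| ≤ C) (hZ : Integrable Z μ) :
    Integrable (fun ω => Y ω * Z ω) μ :=
  hZ.bdd_mul hY (Eventually.of_forall fun ω => by rw [Real.norm_eq_abs]; exact hYC ω)

/-- Markov property, bounded factor. -/
theorem integral_mul [IsProbabilityMeasure μ] [IsProbabilityMeasure ν] (hP : MOp ν P)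
    (h : Path μ ν P ℱ X) {i : ℕ} {Y : Ω → ℝ} (hY : StronglyMeasurable[ℱ i] Y)
    {C : ℝ} (hYC : ∀ ω, |Y ω| ≤ C) {g : S → ℝ} (hg : Integrable g ν) :
    ∫ ω, Y ω * g (X (i + 1) ω) ∂μ = ∫ ω, Y ω * P g (X i ω) ∂μ := by
  have hm := ℱ.le i
  have hY' : AEStronglyMeasurable Y μ := (hY.mono hm).aestronglyMeasurable
  have hgi := h.integrable_comp hg (i + 1)
  have hint : Integrable (Y * fun ω => g (X (i + 1) ω)) μ := pathB_bdd_int hY' hYC hgi
  have h1 := condExp_mul_of_stronglyMeasurable_left hY hint hgi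
  have h2 := integral_condExp (μ := μ) (f := Y * fun ω => g (X (i + 1) ω)) hm
  have h3 := h.markov i g hg
  calc ∫ ω, Y ω * g (X (i + 1) ω) ∂μ = ∫ ω, (μ[Y * fun ω => g (X (i + 1) ω)|ℱ i]) ω ∂μ := h2.symm
    _ = ∫ ω, Y ω * P g (X i ω) ∂μ := by
      apply integral_congr_ae
      filter_upwards [h1, h3] with ω a1 a3
      rw [a1, Pi.mul_apply, a3]

/-- The increments of `Mart` are in `L²`, orthogonal to the past. -/
theorem mart_memLp [IsProbabilityMeasure μ] [IsProbabilityMeasure ν] (hP : MOp ν P)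
    (h : Path μ ν P ℱ X) {r : S → ℝ} (hr : MemLp r 2 ν) (j : ℕ) : MemLp (Mart P r X j) 2 μ := by
  have : MemLp (fun ω => ∑ i ∈ Finset.range j, (r (X (i + 1) ω) - P r (X i ω))) 2 μ :=
    memLp_finsetSum _ fun i _ => (h.memLp_comp hr (i + 1)).sub (h.memLp_comp (hP.memLp hr) i)
  exact this

theorem pathB_condExp_incr [IsProbabilityMeasure μ] [IsProbabilityMeasure ν] (hP : MOp ν P)
    (h : Path μ ν P ℱ X) {r : S → ℝ} (hr : MemLp r 2 ν) (i : ℕ) :
    μ[fun ω => r (X (i + 1) ω) - P r (X i ω)|ℱ i] =ᵐ[μ] 0 := by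
  have hm := ℱ.le i
  have hri : Integrable r ν := hr.integrable one_le_two
  have i1 := h.integrable_comp hri (i + 1)
  have i2 := h.integrable_comp (hP.integrable r hri) i
  have h1 := condExp_sub i1 i2 (ℱ i)
  have h3 := h.markov i r hri
  have h4 : μ[fun ω => P r (X i ω)|ℱ i] =ᵐ[μ] fun ω => P r (X i ω) := by
    have e1 : μ[fun ω => P r (X i ω)|ℱ i] =ᵐ[μ] μ[μ[fun ω => r (X (i + 1) ω)|ℱ i]|ℱ i] :=
      condExp_congr_ae h3.symm
    have e2 : μ[μ[fun ω => r (X (i + 1) ω)|ℱ i]|ℱ i] = μ[fun ω => r (X (i + 1) ω)|ℱ i] :=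
      condExp_of_stronglyMeasurable hm stronglyMeasurable_condExp integrable_condExp
    rw [e2] at e1
    exact e1.trans h3
  have h5 : (fun ω => r (X (i + 1) ω) - P r (X i ω)) =
      (fun ω => r (X (i + 1) ω)) - fun ω => P r (X i ω) := rfl
  rw [h5]
  filter_upwards [h1, h3, h4] with ω a1 a3 a4
  rw [a1, Pi.sub_apply, a3, a4, sub_self]
  rfl

/-- `Mart` is a.e. equal to a martingale (here: it satisfies the martingale property; it is adapted up
to null sets, and truly adapted when `r` and `P r` are measurable). -/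
theorem mart_martingale [IsProbabilityMeasure μ] [IsProbabilityMeasure ν] (hP : MOp ν P)
    (h : Path μ ν P ℱ X) {r : S → ℝ} (hr : MemLp r 2 ν) (hrm : Measurable r)
    (hPr : Measurable (P r)) : Martingale (Mart P r X) ℱ μ := by
  refine martingale_of_condExp_sub_eq_zero_nat ?_ ?_ ?_
  · intro j
    have : Measurable[ℱ j] fun ω => ∑ i ∈ Finset.range j, (r (X (i + 1) ω) - P r (X i ω)) := by
      refine Finset.measurable_sum _ fun i hi => ?_
      rw [Finset.mem_range] at hi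
      have m1 : Measurable[ℱ j] (X (i + 1)) := (h.adapted (i + 1)).mono (ℱ.mono (by omega)) le_rfl
      have m2 : Measurable[ℱ j] (X i) := (h.adapted i).mono (ℱ.mono (by omega)) le_rfl
      exact (hrm.comp m1).sub (hPr.comp m2)
    exact this.stronglyMeasurable
  · intro j
    exact (h.mart_memLp hP hr j).integrable one_le_two
  · intro j
    have : Mart P r X (j + 1) - Mart P r X j = fun ω => r (X (j + 1) ω) - P r (X j ω) := by
      ext ω
      simp only [Pi.sub_apply, Mart, Finset.sum_range_succ, add_sub_cancel_left]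
    rw [this]
    exact h.pathB_condExp_incr hP hr j

/-- `E[Y d_{i+1}] = 0` for bounded `ℱ_i`-measurable `Y`. -/
theorem integral_mul_incr [IsProbabilityMeasure μ] [IsProbabilityMeasure ν] (hP : MOp ν P)
    (h : Path μ ν P ℱ X) {i : ℕ} {Y : Ω → ℝ} (hY : StronglyMeasurable[ℱ i] Y)
    {C : ℝ} (hYC : ∀ ω, |Y ω| ≤ C) {r : S → ℝ} (hr : MemLp r 2 ν) :
    ∫ ω, Y ω * (r (X (i + 1) ω) - P r (X i ω)) ∂μ = 0 := by
  have hri : Integrable r ν := hr.integrable one_le_two
  have hY' : AEStronglyMeasurable Y μ := (hY.mono (ℱ.le i)).aestronglyMeasurable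
  have i1 := pathB_bdd_int hY' hYC (h.integrable_comp hri (i + 1))
  have i2 := pathB_bdd_int hY' hYC (h.integrable_comp (hP.integrable r hri) i)
  simp only [mul_sub]
  rw [integral_sub i1 i2, h.integral_mul hP hY hYC hri, sub_self]

/-- `E[Y d_{i+1}²] = E[Y Γ(r)(X_i)]` for bounded `ℱ_i`-measurable `Y`. -/
theorem integral_mul_incr_sq [IsProbabilityMeasure μ] [IsProbabilityMeasure ν] (hP : MOp ν P)
    (h : Path μ ν P ℱ X) {i : ℕ} {Y : Ω → ℝ} (hY : StronglyMeasurable[ℱ i] Y)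
    {C : ℝ} (hYC : ∀ ω, |Y ω| ≤ C) {r : S → ℝ} (hr : MemLp r 2 ν) :
    ∫ ω, Y ω * (r (X (i + 1) ω) - P r (X i ω)) ^ 2 ∂μ = ∫ ω, Y ω * Gam P r (X i ω) ∂μ := by
  have hm := ℱ.le i
  have hri : Integrable r ν := hr.integrable one_le_two
  have hr2 : Integrable (fun x => r x ^ 2) ν := hr.integrable_sq
  have hp2 : Integrable (fun x => P r x ^ 2) ν := (hP.memLp hr).integrable_sq
  have hY' : AEStronglyMeasurable Y μ := (hY.mono hm).aestronglyMeasurable
  have l1 := h.memLp_comp hr (i + 1)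
  have l2 := h.memLp_comp (hP.memLp hr) i
  have i1 := pathB_bdd_int hY' hYC (h.integrable_comp hr2 (i + 1))
  have i2 := pathB_bdd_int hY' hYC (h.integrable_comp hp2 i)
  have i3 : Integrable (fun ω => r (X (i + 1) ω) * P r (X i ω)) μ := l1.integrable_mul l2
  have i4 := pathB_bdd_int hY' hYC i3
  have i5 := pathB_bdd_int hY' hYC (h.integrable_comp (hP.integrable _ hr2) i)
  -- the cross term
  have cross : ∫ ω, Y ω * (r (X (i + 1) ω) * P r (X i ω)) ∂μ = ∫ ω, Y ω * (P r (X i ω)) ^ 2 ∂μ := by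
    set Z := μ[fun ω => r (X (i + 1) ω)|ℱ i] with hZ
    have h3 : Z =ᵐ[μ] fun ω => P r (X i ω) := h.markov i r hri
    have hZm : StronglyMeasurable[ℱ i] Z := stronglyMeasurable_condExp
    have hYZ : StronglyMeasurable[ℱ i] (Y * Z) := hY.mul hZm
    have hint : Integrable ((Y * Z) * fun ω => r (X (i + 1) ω)) μ := by
      refine i4.congr ?_
      filter_upwards [h3] with ω a3
      simp only [Pi.mul_apply]
      rw [a3]
      ring
    have h1 := condExp_mul_of_stronglyMeasurable_left hYZ hint (h.integrable_comp hri (i + 1))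
    have h2 := integral_condExp (μ := μ) (f := (Y * Z) * fun ω => r (X (i + 1) ω)) hm
    calc ∫ ω, Y ω * (r (X (i + 1) ω) * P r (X i ω)) ∂μ
        = ∫ ω, ((Y * Z) * fun ω => r (X (i + 1) ω)) ω ∂μ := by
          apply integral_congr_ae
          filter_upwards [h3] with ω a3
          simp only [Pi.mul_apply]
          rw [a3]
          ring
      _ = ∫ ω, (μ[(Y * Z) * fun ω => r (X (i + 1) ω)|ℱ i]) ω ∂μ := h2.symm
      _ = ∫ ω, Y ω * (P r (X i ω)) ^ 2 ∂μ := by
          apply integral_congr_ae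
          filter_upwards [h1, h3] with ω a1 a3
          rw [a1]
          simp only [Pi.mul_apply]
          rw [← hZ, a3]
          ring
  have e1 : ∀ ω, Y ω * (r (X (i + 1) ω) - P r (X i ω)) ^ 2 =
      (Y ω * (r (X (i + 1) ω)) ^ 2 - 2 * (Y ω * (r (X (i + 1) ω) * P r (X i ω)))) +
        Y ω * (P r (X i ω)) ^ 2 := fun ω => by ring
  have e2 : ∀ ω, Y ω * Gam P r (X i ω) =
      Y ω * P (fun x => r x ^ 2) (X i ω) - Y ω * (P r (X i ω)) ^ 2 := fun ω => by
    unfold Gam
    ring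
  simp only [e1, e2]
  have i6 : Integrable (fun ω => Y ω * (r (X (i + 1) ω)) ^ 2 -
      2 * (Y ω * (r (X (i + 1) ω) * P r (X i ω)))) μ := i1.sub (i4.const_mul 2)
  rw [integral_add i6 i2, integral_sub i1 (i4.const_mul 2),
    integral_const_mul, cross, integral_sub i5 i2]
  have := h.integral_mul hP hY hYC hr2
  rw [this]
  ring

/-- `E d² = ‖r‖² - ‖P r‖²`. -/
theorem integral_incr_sq [IsProbabilityMeasure μ] [IsProbabilityMeasure ν] (hP : MOp ν P)
    (h : Path μ ν P ℱ X) {r : S → ℝ} (hr : MemLp r 2 ν) (i : ℕ) :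
    ∫ ω, (r (X (i + 1) ω) - P r (X i ω)) ^ 2 ∂μ = ∫ x, r x ^ 2 ∂ν - ∫ x, (P r x) ^ 2 ∂ν := by
  have h1 := h.integral_mul_incr_sq hP (i := i) (Y := fun _ => 1) stronglyMeasurable_const
    (C := 1) (fun _ => by simp) hr
  simp only [one_mul] at h1
  rw [h1, h.integral_comp (hP.gam_integrable hr).aestronglyMeasurable, hP.integral_gam hr]

/-- `E M_j² = j (‖r‖² - ‖P r‖²)`. -/
theorem integral_mart_sq [IsProbabilityMeasure μ] [IsProbabilityMeasure ν] (hP : MOp ν P)
    (h : Path μ ν P ℱ X) {r : S → ℝ} (hr : MemLp r 2 ν) (hrm : Measurable r)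
    (hPr : Measurable (P r)) (j : ℕ) :
    ∫ ω, (Mart P r X j ω) ^ 2 ∂μ = j * (∫ x, r x ^ 2 ∂ν - ∫ x, (P r x) ^ 2 ∂ν) := by
  induction j with
  | zero => simp [Mart]
  | succ j ih =>
    have hmart := h.mart_martingale hP hr hrm hPr
    have l1 := h.mart_memLp hP hr j
    have l2 : MemLp (fun ω => r (X (j + 1) ω) - P r (X j ω)) 2 μ :=
      (h.memLp_comp hr (j + 1)).sub (h.memLp_comp (hP.memLp hr) j)
    have i1 := l1.integrable_sq
    have i2 := l2.integrable_sq
    have i3 : Integrable (fun ω => Mart P r X j ω * (r (X (j + 1) ω) - P r (X j ω))) μ :=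
      l1.integrable_mul l2
    have hM : StronglyMeasurable[ℱ j] (Mart P r X j) := hmart.1 j
    have h1 := condExp_mul_of_stronglyMeasurable_left hM
      (g := fun ω => r (X (j + 1) ω) - P r (X j ω)) i3 (l2.integrable one_le_two)
    have h2 := integral_condExp (μ := μ) (f := Mart P r X j *
      fun ω => r (X (j + 1) ω) - P r (X j ω)) (ℱ.le j)
    have h3 : ∫ ω, Mart P r X j ω * (r (X (j + 1) ω) - P r (X j ω)) ∂μ = 0 := by
      have : ∫ ω, (Mart P r X j * fun ω => r (X (j + 1) ω) - P r (X j ω)) ω ∂μ = 0 := by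
        rw [← h2]
        have : (μ[Mart P r X j * fun ω => r (X (j + 1) ω) - P r (X j ω)|ℱ j]) =ᵐ[μ]
            fun _ => (0 : ℝ) := by
          filter_upwards [h1, h.pathB_condExp_incr hP hr j] with ω a1 a2
          rw [a1, Pi.mul_apply, a2, Pi.zero_apply, mul_zero]
        rw [integral_congr_ae this, integral_zero]
      exact this
    have e : ∀ ω, (Mart P r X (j + 1) ω) ^ 2 = ((Mart P r X j ω) ^ 2 +
        2 * (Mart P r X j ω * (r (X (j + 1) ω) - P r (X j ω)))) +
        (r (X (j + 1) ω) - P r (X j ω)) ^ 2 := fun ω => by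
      have : Mart P r X (j + 1) ω = Mart P r X j ω + (r (X (j + 1) ω) - P r (X j ω)) := by
        simp only [Mart, Finset.sum_range_succ]
      rw [this]
      ring
    simp only [e]
    have i6 : Integrable (fun ω => (Mart P r X j ω) ^ 2 +
        2 * (Mart P r X j ω * (r (X (j + 1) ω) - P r (X j ω)))) μ := i1.add (i3.const_mul 2)
    rw [integral_add i6 i2, integral_add i1 (i3.const_mul 2),
      integral_const_mul, h3, ih, h.integral_incr_sq hP hr]
    push_cast
    ring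

theorem pathB_int_abs_le {α : Type} [MeasurableSpace α] {m : Measure α} [IsProbabilityMeasure m]
    {g : α → ℝ} (hg : MemLp g 2 m) : ∫ x, |g x| ∂m ≤ Real.sqrt (∫ x, g x ^ 2 ∂m) := by
  apply Real.le_sqrt_of_sq_le
  have i1 := hg.integrable_sq
  have i2 : Integrable (fun x => |g x|) m := (hg.integrable one_le_two).abs
  set c := ∫ x, |g x| ∂m with hc
  have h0 : 0 ≤ ∫ x, (|g x| - c) ^ 2 ∂m := integral_nonneg fun x => sq_nonneg _
  have e : ∀ x, (|g x| - c) ^ 2 = (g x ^ 2 - 2 * c * |g x|) + c ^ 2 := fun x => by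
    have := sq_abs (g x)
    linear_combination this
  simp only [e] at h0
  have i6 : Integrable (fun x => g x ^ 2 - 2 * c * |g x|) m := i1.sub (i2.const_mul (2 * c))
  rw [integral_add i6 (integrable_const _),
    integral_sub i1 (i2.const_mul (2 * c)), integral_const_mul, ← hc] at h0
  simp only [integral_const, probReal_univ, smul_eq_mul, one_mul] at h0
  nlinarith

/-- Martingale approximation: `E|S_n - M_n| ≤ (2 + n (1-q)) ‖r‖`. -/
theorem integral_abs_sub_le [IsProbabilityMeasure μ] [IsProbabilityMeasure ν] (hP : MOp ν P)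
    (h : Path μ ν P ℱ X) {f r : S → ℝ} (hf : MemLp f 2 ν) (hr : MemLp r 2 ν) {q : ℝ}
    (hq0 : 0 ≤ q) (hq1 : q < 1) (hrs : IsSol ν P q Set.univ f r) (n : ℕ) :
    ∫ ω, |∑ i ∈ Finset.range n, f (X i ω) - Mart P r X n ω| ∂μ ≤
      (2 + n * (1 - q)) * Real.sqrt (∫ x, r x ^ 2 ∂ν) := by
  have hsol : ∀ᵐ x ∂ν, f x = r x - q * P r x := by
    filter_upwards [hrs] with x hx
    rw [Set.indicator_univ] at hx
    rw [hx]
    ring
  have hri : Integrable r ν := hr.integrable one_le_two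
  have hpi : Integrable (P r) ν := hP.integrable r hri
  have hall : ∀ᵐ ω ∂μ, ∀ i : ℕ, f (X i ω) = r (X i ω) - q * P r (X i ω) :=
    ae_all_iff.2 fun i => h.ae_comp hsol i
  have key : ∀ᵐ ω ∂μ, |∑ i ∈ Finset.range n, f (X i ω) - Mart P r X n ω| ≤
      |r (X 0 ω)| + |r (X n ω)| + (1 - q) * ∑ i ∈ Finset.range n, |P r (X i ω)| := by
    filter_upwards [hall] with ω hω
    have e : ∑ i ∈ Finset.range n, f (X i ω) - Mart P r X n ω =
        r (X 0 ω) - r (X n ω) + (1 - q) * ∑ i ∈ Finset.range n, P r (X i ω) := by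
      have t : ∑ i ∈ Finset.range n, (r (X (i + 1) ω) - r (X i ω)) = r (X n ω) - r (X 0 ω) :=
        Finset.sum_range_sub (fun i => r (X i ω)) n
      unfold Mart
      have t2 : ∑ i ∈ Finset.range n, f (X i ω) -
          ∑ i ∈ Finset.range n, (r (X (i + 1) ω) - P r (X i ω)) =
          -∑ i ∈ Finset.range n, (r (X (i + 1) ω) - r (X i ω)) +
            (1 - q) * ∑ i ∈ Finset.range n, P r (X i ω) := by
        rw [← Finset.sum_sub_distrib, Finset.mul_sum, ← Finset.sum_neg_distrib,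
          ← Finset.sum_add_distrib]
        refine Finset.sum_congr rfl fun i _ => ?_
        rw [hω i]
        ring
      rw [t2, t]
      ring
    rw [e]
    have q1 : 0 ≤ 1 - q := by linarith
    calc |r (X 0 ω) - r (X n ω) + (1 - q) * ∑ i ∈ Finset.range n, P r (X i ω)|
        ≤ |r (X 0 ω) - r (X n ω)| + |(1 - q) * ∑ i ∈ Finset.range n, P r (X i ω)| :=
          abs_add_le _ _
      _ ≤ (|r (X 0 ω)| + |r (X n ω)|) + (1 - q) * ∑ i ∈ Finset.range n, |P r (X i ω)| := by
          refine add_le_add (abs_sub _ _) ?_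
          rw [abs_mul, abs_of_nonneg q1]
          exact mul_le_mul_of_nonneg_left (Finset.abs_sum_le_sum_abs _ _) q1
  have ia : ∀ i, Integrable (fun ω => |r (X i ω)|) μ := fun i => (h.integrable_comp hri i).abs
  have ib : ∀ i, Integrable (fun ω => |P r (X i ω)|) μ := fun i => (h.integrable_comp hpi i).abs
  have ic : Integrable (fun ω => (1 - q) * ∑ i ∈ Finset.range n, |P r (X i ω)|) μ :=
    (integrable_finsetSum _ fun i _ => ib i).const_mul _
  have va : ∀ i, ∫ ω, |r (X i ω)| ∂μ ≤ Real.sqrt (∫ x, r x ^ 2 ∂ν) := by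
    intro i
    have := h.integral_comp (g := fun x => |r x|) hri.abs.aestronglyMeasurable i
    rw [this]
    exact pathB_int_abs_le hr
  have vb : ∀ i, ∫ ω, |P r (X i ω)| ∂μ ≤ Real.sqrt (∫ x, r x ^ 2 ∂ν) := by
    intro i
    have := h.integral_comp (g := fun x => |P r x|) hpi.abs.aestronglyMeasurable i
    rw [this]
    exact (hP.integral_abs_le hri).trans (pathB_int_abs_le hr)
  have hbd : Integrable (fun ω => |r (X 0 ω)| + |r (X n ω)| +
      (1 - q) * ∑ i ∈ Finset.range n, |P r (X i ω)|) μ := ((ia 0).add (ia n)).add ic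
  calc ∫ ω, |∑ i ∈ Finset.range n, f (X i ω) - Mart P r X n ω| ∂μ
      ≤ ∫ ω, (|r (X 0 ω)| + |r (X n ω)| +
        (1 - q) * ∑ i ∈ Finset.range n, |P r (X i ω)|) ∂μ :=
        integral_mono_of_nonneg (Eventually.of_forall fun ω => abs_nonneg _) hbd key
    _ = ∫ ω, |r (X 0 ω)| ∂μ + ∫ ω, |r (X n ω)| ∂μ +
        (1 - q) * ∑ i ∈ Finset.range n, ∫ ω, |P r (X i ω)| ∂μ := by
        have i6 : Integrable (fun ω => |r (X 0 ω)| + |r (X n ω)|) μ := (ia 0).add (ia n)
        rw [integral_add i6 ic, integral_add (ia 0) (ia n), integral_const_mul,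
          integral_finsetSum _ fun i _ => ib i]
    _ ≤ Real.sqrt (∫ x, r x ^ 2 ∂ν) + Real.sqrt (∫ x, r x ^ 2 ∂ν) +
        (1 - q) * ∑ _i ∈ Finset.range n, Real.sqrt (∫ x, r x ^ 2 ∂ν) := by
        have q1 : 0 ≤ 1 - q := by linarith
        refine add_le_add (add_le_add (va 0) (va n)) ?_
        exact mul_le_mul_of_nonneg_left (Finset.sum_le_sum fun i _ => vb i) q1
    _ = (2 + n * (1 - q)) * Real.sqrt (∫ x, r x ^ 2 ∂ν) := by
        rw [Finset.sum_const, Finset.card_range, nsmul_eq_mul]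
        ring

end Path

end Pool.NH23.MC
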