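import Pool.Agent.NH23.MC.Bad
import Pool.Agent.NH23.MC.Dom
import Pool.Agent.NH23.MC.NI

set_option autoImplicit false
open MeasureTheory ProbabilityTheory Filter Topology

namespace Pool.NH23.MC

variable {S : Type} [MeasurableSpace S] {ν : Measure S} {P P' : (S → ℝ) → (S → ℝ)} {f : S → ℝ}
  {H w : S → ℝ} {o : ℝ → ℝ} {M : ℝ}

theorem RI.sqrt_le {x s : ℝ} (hx : 0 ≤ x) (hs : 0 < s) : Real.sqrt x ≤ s + x / s := by
  have h1 : Real.sqrt x ^ 2 = x := Real.sq_sqrt hx
  have h2 : 0 ≤ Real.sqrt x := Real.sqrt_nonneg x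
  have h3 : x = x / s * s := by field_simp
  have h4 : 0 ≤ x / s := by positivity
  nlinarith [sq_nonneg (Real.sqrt x - s)]

theorem RI.sqrt_add {x t : ℝ} (hx : 0 ≤ x) (ht : 0 ≤ t) : Real.sqrt (x + t ^ 2) ≤ Real.sqrt x + t := by
  rw [Real.sqrt_le_left (by positivity)]
  have h1 : Real.sqrt x ^ 2 = x := Real.sq_sqrt hx
  have h2 : 0 ≤ Real.sqrt x * t := by positivity
  nlinarith

/-- The integral of `w` over a larger set. -/
theorem RI.setIntegral_w [IsProbabilityMeasure ν] (hR : RateData ν P f H w o M) {R Bd : Set S}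
    (hRm : MeasurableSet R) (hBm : MeasurableSet Bd) :
    ∫ x in R ∪ Bd, w x ∂ν ≤ ∫ x in R, w x ∂ν + 3 * ∫ x in Bd, H x ∂ν := by
  have h1 : R ∪ Bd = R ∪ (Bd \ R) := by rw [Set.union_sdiff_self]
  rw [h1, setIntegral_union Set.disjoint_sdiff_right (hBm.diff hRm) hR.wint.integrableOn hR.wint.integrableOn]
  have h2 : ∫ x in Bd \ R, w x ∂ν ≤ ∫ x in Bd \ R, 3 * H x ∂ν := by
    refine setIntegral_mono_ae hR.wint.integrableOn (hR.Hint.const_mul 3).integrableOn ?_
    filter_upwards [hR.wle] with x hx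
    exact (le_abs_self _).trans hx
  have h3 : ∫ x in Bd \ R, 3 * H x ∂ν ≤ ∫ x in Bd, 3 * H x ∂ν := by
    refine setIntegral_mono_set (hR.Hint.const_mul 3).integrableOn ?_ (Set.sdiff_subset.eventuallyLE)
    exact Filter.Eventually.of_forall fun x => mul_nonneg (by norm_num) (hR.Hnn x)
  rw [integral_const_mul] at h3
  rw [integral_const_mul] at h3
  rw [integral_const_mul] at h2
  linarith

/-- The mass of `(1-q) u_q` on a rarely left set is at most its share. -/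
theorem set_ineq [IsProbabilityMeasure ν] (h : Ctx ν P P' f)
    (hR : RateData ν P f H w o M) {δ : ℝ} (hδ : 0 < δ) :
    ∃ L : ℝ, 0 ≤ L ∧ ∃ q₀ : ℝ, q₀ < 1 ∧ ∀ q : ℝ, q₀ < q → 0 ≤ q → q < 1 →
      ∀ r u : S → ℝ, Measurable r → MemLp r 2 ν → IsSol ν P q Set.univ f r →
      Measurable u → Integrable u ν → IsSol ν P q Set.univ (Gam P r) u →
      ∀ R : Set S, MeasurableSet R → ∀ e : S → ℝ, IsExit ν P q R e →
      (1 - q) * ∫ x in R, u x ∂ν ≤ (∫ x, w x ∂ν) * ν.real R + L * ∫ x in R, e x ∂ν + δ := by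
  have hP : MOp ν P := h.pair.left
  have hV : 0 ≤ ∫ x, w x ∂ν := integral_w_nonneg h hR
  set V : ℝ := ∫ x, w x ∂ν with hVdef
  have hM : 0 ≤ M := hR.Mnn
  -- the parameters
  obtain ⟨a, ha0, ha1, haV⟩ : ∃ a : ℝ, 0 < a ∧ a ≤ 1 ∧ a * V ≤ δ / 8 := by
    refine ⟨min 1 (δ / (8 * (V + 1))), lt_min one_pos (by positivity), min_le_left _ _, ?_⟩
    calc min 1 (δ / (8 * (V + 1))) * V ≤ δ / (8 * (V + 1)) * V :=
          mul_le_mul_of_nonneg_right (min_le_right _ _) hV
      _ = δ / 8 * (V / (V + 1)) := by field_simp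
      _ ≤ δ / 8 * 1 := by
          gcongr
          rw [div_le_one (by positivity)]
          linarith
      _ = δ / 8 := mul_one _
  obtain ⟨t, ht0, ht1, htM⟩ : ∃ t : ℝ, 0 < t ∧ t ≤ 1 ∧ (M + 1) * t ≤ δ / 64 := by
    refine ⟨min 1 (δ / (64 * (M + 1))), lt_min one_pos (by positivity), min_le_left _ _, ?_⟩
    calc (M + 1) * min 1 (δ / (64 * (M + 1))) ≤ (M + 1) * (δ / (64 * (M + 1))) := by
          gcongr
          exact min_le_right _ _
      _ = δ / 64 := by field_simp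
  obtain ⟨L1, hL1, q1, hq1, hNI⟩ := near_inv h hR.wint (show (0 : ℝ) < δ / 16 by positivity)
  obtain ⟨K, hK, Λ, hΛ, q2, hq2, hbad⟩ := bad_small h hR (show (0 : ℝ) < t ^ 2 by positivity)
  refine ⟨2 * L1 + 2 * M * (K / t + K) + (3 + 2 / a) * Λ, by positivity, max (1 / 2) (max q1 q2),
    max_lt (by norm_num) (max_lt hq1 hq2), fun q hq hq0 hq1' r u hrm hr hrs hum hu hus R hRm e he => ?_⟩
  have hqh : 1 / 2 ≤ q := ((le_max_left _ _).trans_lt hq).le
  have hqq1 : q1 < q := ((le_max_left q1 q2).trans (le_max_right _ _)).trans_lt hq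
  have hqq2 : q2 < q := ((le_max_right q1 q2).trans (le_max_right _ _)).trans_lt hq
  obtain ⟨hb1, hb2, hb3⟩ := hbad q hqq2 hq0 hq1' r u hrm hr hrs hum hu hus
  have hNI' := hNI q hqq1 hq0 hq1' R hRm e he
  have h1q : 0 < 1 - q := by linarith
  set B : ℝ := Λ / (1 - q) with hB
  have hB0 : 0 ≤ B := by positivity
  set Bd : Set S := Bad H r u K B with hBd
  have hBm : MeasurableSet Bd := Bad.measurableSet hR.Hmeas hrm hum K B
  set Ξ : Set S := R ∪ Bd with hΞdef
  have hΞ : MeasurableSet Ξ := hRm.union hBm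
  have hRΞ : R ⊆ Ξ := Set.subset_union_left
  have hfint : Integrable f ν := h.f2.integrable (by norm_num)
  obtain ⟨ρ, hρm, hρi, hρs⟩ := exists_sol hP hq0 hq1' hΞ hfint
  have hρ : MemLp ρ 2 ν := IsSol.memLp hP hq0 hq1' hΞ h.f2 hρi hρs
  obtain ⟨eX, heXm, heX⟩ := exists_exit hP hq0 hq1' hΞ
  have hoff : ∀ x, x ∉ Ξ → H x ≤ K ∧ u x ≤ B ∧ r x ^ 2 ≤ B := fun x hx =>
    Bad.off fun hx' => hx (Or.inr hx')
  have hdom := dom_set hP hqh hq1' hRm hΞ hRΞ hB0 ha0 h.f2 hr hρ hrs hρs hu hus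
    (Filter.Eventually.of_forall fun x hx => (hoff x hx).2) he
  have hrate := hR.rate q hq0 hq1' Ξ hΞ K hK (Filter.Eventually.of_forall fun x hx => (hoff x hx).1)
    ρ hρ hρs eX heX
  have hκ := IsExit.integral_le hP hq0 hq1' hRm hΞ hRΞ he heX
  have hκ0 : 0 ≤ ∫ x in R, e x ∂ν := setIntegral_nonneg_of_ae he.nonneg
  have hκX0 : 0 ≤ ∫ x in Ξ, eX x ∂ν := setIntegral_nonneg_of_ae heX.nonneg
  set κ : ℝ := ∫ x in R, e x ∂ν with hκdef
  set κX : ℝ := ∫ x in Ξ, eX x ∂ν with hκXdef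
  have hdiff : ν.real (Ξ \ R) ≤ ν.real Bd := by
    refine measureReal_mono ?_
    intro x hx
    exact hx.1.resolve_left hx.2
  have hκK : K * κX ≤ K * κ + t ^ 2 := by
    calc K * κX ≤ K * (κ + ν.real Bd) := by
          gcongr
          linarith
      _ = K * κ + K * ν.real Bd := by ring
      _ ≤ _ := by linarith
  have hsq : Real.sqrt (K * κX) ≤ t + K * κ / t + t := by
    calc Real.sqrt (K * κX) ≤ Real.sqrt (K * κ + t ^ 2) := Real.sqrt_le_sqrt hκK
      _ ≤ Real.sqrt (K * κ) + t := RI.sqrt_add (mul_nonneg hK hκ0) ht0.le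
      _ ≤ _ := by
          have := RI.sqrt_le (x := K * κ) (mul_nonneg hK hκ0) ht0
          linarith
  have hw := RI.setIntegral_w hR hRm hBm
  have hνR : ν.real R ≤ 1 := measureReal_le_one
  have hνR0 : 0 ≤ ν.real R := measureReal_nonneg
  have ht2 : t ^ 2 ≤ t := by nlinarith
  set rate : ℝ := ∫ x, ρ x ^ 2 ∂ν - q ^ 2 * ∫ x in Ξ, (P ρ x) ^ 2 ∂ν with hratedef
  -- the upper bound for the rate
  have hMsum : M * (Real.sqrt (K * κX) + K * κX) ≤ M * (3 * t + (K / t + K) * κ) := by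
    refine mul_le_mul_of_nonneg_left ?_ hM
    have : K * κ / t = K / t * κ := by ring
    linarith
  have hMt0 : 0 ≤ M * t := mul_nonneg hM ht0.le
  have hMt1 : (M + 1) * t = M * t + t := by ring
  have hMt : M * t ≤ δ / 64 := by linarith
  have ht64 : t ≤ δ / 64 := by linarith
  have hY : rate ≤ V * ν.real R + (δ / 16 + L1 * κ + 4 * t + 3 * (M * t) + M * (K / t + K) * κ) := by
    have h1 := (abs_le.1 hrate).2
    have h2 := (abs_le.1 hNI').2
    have h3 : M * (3 * t + (K / t + K) * κ) = 3 * (M * t) + M * (K / t + K) * κ := by ring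
    linarith
  have hY0 : 0 ≤ δ / 16 + L1 * κ + 4 * t + 3 * (M * t) + M * (K / t + K) * κ := by positivity
  have hVR : a * (V * ν.real R) ≤ δ / 8 := by
    calc a * (V * ν.real R) = a * V * ν.real R := by ring
      _ ≤ δ / 8 * 1 := mul_le_mul haV hνR hνR0 (by positivity)
      _ = δ / 8 := mul_one _
  have hfin : (1 + a) * rate ≤ V * ν.real R + δ / 8 +
      2 * (δ / 16 + L1 * κ + 4 * t + 3 * (M * t) + M * (K / t + K) * κ) := by
    calc (1 + a) * rate ≤ (1 + a) * (V * ν.real R +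
          (δ / 16 + L1 * κ + 4 * t + 3 * (M * t) + M * (K / t + K) * κ)) :=
          mul_le_mul_of_nonneg_left hY (by linarith)
      _ = V * ν.real R + a * (V * ν.real R) +
          (1 + a) * (δ / 16 + L1 * κ + 4 * t + 3 * (M * t) + M * (K / t + K) * κ) := by ring
      _ ≤ _ := by
          have : (1 + a) * (δ / 16 + L1 * κ + 4 * t + 3 * (M * t) + M * (K / t + K) * κ) ≤
              2 * (δ / 16 + L1 * κ + 4 * t + 3 * (M * t) + M * (K / t + K) * κ) :=
            mul_le_mul_of_nonneg_right (by linarith) hY0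
          linarith
  have hBΛ : (1 - q) * B = Λ := by
    rw [hB]
    field_simp
  rw [hBΛ] at hdom
  refine hdom.trans ?_
  have e1 : (2 * L1 + 2 * M * (K / t + K) + (3 + 2 / a) * Λ) * κ =
      2 * (L1 * κ) + 2 * (M * (K / t + K) * κ) + (3 + 2 / a) * Λ * κ := by ring
  rw [e1]
  linarith

end Pool.NH23.MC
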