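import Pool.Agent.NH23.MC.Err

set_option autoImplicit false
open MeasureTheory ProbabilityTheory Filter Topology

namespace Pool.NH23.MC

variable {S : Type} [MeasurableSpace S] {ν : Measure S} {P P' : (S → ℝ) → (S → ℝ)} {f : S → ℝ}

theorem rate_int {g h : S → ℝ} (hg : MemLp g 2 ν) (hh : MemLp h 2 ν) :
    Integrable (fun x => g x * h x) ν := hg.integrable_mul hh

theorem rate_sq_nonneg {g : S → ℝ} : 0 ≤ ∫ x, g x ^ 2 ∂ν := integral_nonneg fun x => sq_nonneg _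

/-- Cauchy-Schwarz. -/
theorem rate_cs {g h : S → ℝ} (hg : MemLp g 2 ν) (hh : MemLp h 2 ν) :
    |∫ x, g x * h x ∂ν| ≤ Real.sqrt (∫ x, g x ^ 2 ∂ν) * Real.sqrt (∫ x, h x ^ 2 ∂ν) := by
  have h1 := hg.integrable_sq
  have h2 := hh.integrable_sq
  have h3 := rate_int hg hh
  have key : ∀ t : ℝ, 0 ≤ (∫ x, h x ^ 2 ∂ν) * (t * t) + (2 * ∫ x, g x * h x ∂ν) * t +
      ∫ x, g x ^ 2 ∂ν := by
    intro t
    have e : (∫ x, h x ^ 2 ∂ν) * (t * t) + (2 * ∫ x, g x * h x ∂ν) * t + ∫ x, g x ^ 2 ∂ν =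
        ∫ x, (g x + t * h x) ^ 2 ∂ν := by
      have : ∀ x, (g x + t * h x) ^ 2 = (t * t) * h x ^ 2 + (2 * t) * (g x * h x) + g x ^ 2 :=
        fun x => by ring
      simp_rw [this]
      have e1 : ∫ x, (((t * t) * h x ^ 2 + (2 * t) * (g x * h x)) + g x ^ 2) ∂ν =
          ∫ x, ((t * t) * h x ^ 2 + (2 * t) * (g x * h x)) ∂ν + ∫ x, g x ^ 2 ∂ν :=
        integral_add ((h2.const_mul _).add (h3.const_mul _)) h1
      have e2 : ∫ x, ((t * t) * h x ^ 2 + (2 * t) * (g x * h x)) ∂ν =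
          ∫ x, (t * t) * h x ^ 2 ∂ν + ∫ x, (2 * t) * (g x * h x) ∂ν :=
        integral_add (h2.const_mul _) (h3.const_mul _)
      rw [e1, e2, integral_const_mul, integral_const_mul]
      ring
    rw [e]
    exact integral_nonneg fun x => sq_nonneg _
  have hd := discrim_le_zero key
  rw [discrim] at hd
  rw [← Real.sqrt_mul (rate_sq_nonneg)]
  apply Real.abs_le_sqrt
  nlinarith

theorem rate_cs_abs {g h : S → ℝ} (hg : MemLp g 2 ν) (hh : MemLp h 2 ν) :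
    ∫ x, |g x * h x| ∂ν ≤ Real.sqrt (∫ x, g x ^ 2 ∂ν) * Real.sqrt (∫ x, h x ^ 2 ∂ν) := by
  have := rate_cs (g := fun x => |g x|) (h := fun x => |h x|) hg.abs hh.abs
  simp only [sq_abs] at this
  refine le_trans ?_ this
  simp_rw [abs_mul]
  exact le_abs_self _

/-- the killed operator -/
noncomputable def rT (P : (S → ℝ) → (S → ℝ)) (q : ℝ) (Ξ : Set S) (g : S → ℝ) : S → ℝ :=
  Ξ.indicator (fun x => q * P (Ξ.indicator g) x)

theorem rT_memLp [IsProbabilityMeasure ν] (hP : MOp ν P) {q : ℝ} {Ξ : Set S} (hΞ : MeasurableSet Ξ)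
    {g : S → ℝ} (hg : MemLp g 2 ν) : MemLp (rT P q Ξ g) 2 ν :=
  ((hP.memLp (hg.indicator hΞ)).const_mul q).indicator hΞ

theorem rT_iter_memLp [IsProbabilityMeasure ν] (hP : MOp ν P) {q : ℝ} {Ξ : Set S}
    (hΞ : MeasurableSet Ξ) {g : S → ℝ} (hg : MemLp g 2 ν) (k : ℕ) :
    MemLp ((rT P q Ξ)^[k] g) 2 ν := by
  induction k with
  | zero => simpa using hg
  | succ k ih => rw [Function.iterate_succ_apply']; exact rT_memLp hP hΞ ih

/-- adjointness of the killed operators -/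
theorem rT_adj [IsProbabilityMeasure ν] (hP : Pair ν P P') {q : ℝ} {Ξ : Set S}
    (hΞ : MeasurableSet Ξ) {g h : S → ℝ} (hg : MemLp g 2 ν) (hh : MemLp h 2 ν) :
    ∫ x, rT P q Ξ g x * h x ∂ν = ∫ x, g x * rT P' q Ξ h x ∂ν := by
  have h1 : ∀ x, rT P q Ξ g x * h x = q * (P (Ξ.indicator g) x * Ξ.indicator h x) := by
    intro x
    unfold rT
    by_cases hx : x ∈ Ξ <;> simp [hx]; ring
  have h2 : ∀ x, g x * rT P' q Ξ h x = q * (Ξ.indicator g x * P' (Ξ.indicator h) x) := by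
    intro x
    unfold rT
    by_cases hx : x ∈ Ξ <;> simp [hx]; ring
  simp_rw [h1, h2]
  rw [integral_const_mul, integral_const_mul, hP.adj _ _ (hg.indicator hΞ) (hh.indicator hΞ)]

theorem rT_adj_iter [IsProbabilityMeasure ν] (hP : Pair ν P P') {q : ℝ} {Ξ : Set S}
    (hΞ : MeasurableSet Ξ) {g h : S → ℝ} (hg : MemLp g 2 ν) (hh : MemLp h 2 ν) (k : ℕ) :
    ∫ x, (rT P q Ξ)^[k] g x * h x ∂ν = ∫ x, g x * (rT P' q Ξ)^[k] h x ∂ν := by
  induction k generalizing h with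
  | zero => simp
  | succ k ih =>
    rw [Function.iterate_succ_apply', rT_adj hP hΞ (rT_iter_memLp hP.left hΞ hg k) hh,
      ih (rT_memLp hP.right hΞ hh), ← Function.iterate_succ_apply]

theorem rT_sq_le [IsProbabilityMeasure ν] (hP : MOp ν P) {q : ℝ} {Ξ : Set S}
    (hΞ : MeasurableSet Ξ) {g : S → ℝ} (hg : MemLp g 2 ν) :
    ∫ x, rT P q Ξ g x ^ 2 ∂ν ≤ q ^ 2 * ∫ x, g x ^ 2 ∂ν := by
  have h1 : ∫ x, rT P q Ξ g x ^ 2 ∂ν ≤ ∫ x, q ^ 2 * (P (Ξ.indicator g) x) ^ 2 ∂ν := by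
    apply integral_mono (rT_memLp hP hΞ hg).integrable_sq
      ((hP.memLp (hg.indicator hΞ)).integrable_sq.const_mul _)
    intro x
    unfold rT
    by_cases hx : x ∈ Ξ
    · simp [hx]; ring_nf; exact le_refl _
    · simp [hx]; positivity
  refine h1.trans ?_
  rw [integral_const_mul]
  apply mul_le_mul_of_nonneg_left _ (sq_nonneg q)
  refine (hP.integral_sq_le (hg.indicator hΞ)).trans ?_
  apply integral_mono (hg.indicator hΞ).integrable_sq hg.integrable_sq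
  intro x
  by_cases hx : x ∈ Ξ
  · simp [hx]
  · simp [hx]; positivity

theorem rT_iter_sq_le [IsProbabilityMeasure ν] (hP : MOp ν P) {q : ℝ} {Ξ : Set S}
    (hΞ : MeasurableSet Ξ) {g : S → ℝ} (hg : MemLp g 2 ν) (k : ℕ) :
    ∫ x, (rT P q Ξ)^[k] g x ^ 2 ∂ν ≤ (q ^ 2) ^ k * ∫ x, g x ^ 2 ∂ν := by
  induction k with
  | zero => simp
  | succ k ih =>
    rw [Function.iterate_succ_apply', pow_succ']
    refine (rT_sq_le hP hΞ (rT_iter_memLp hP hΞ hg k)).trans ?_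
    rw [mul_assoc]
    exact mul_le_mul_of_nonneg_left ih (sq_nonneg q)

end Pool.NH23.MC
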