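import Pool.Agent.NH23.MC.RateA

set_option autoImplicit false
open MeasureTheory ProbabilityTheory Filter Topology

namespace Pool.NH23.MC

variable {S : Type} [MeasurableSpace S] {ν : Measure S} {P P' : (S → ℝ) → (S → ℝ)} {f : S → ℝ}

/-- the error sequence -/
noncomputable def rE (P : (S → ℝ) → (S → ℝ)) (q : ℝ) (Ξ : Set S) (f : S → ℝ) (k : ℕ) : S → ℝ :=
  fun x => Ξ.indicator (fun y => q ^ k * P^[k] f y) x - (rT P q Ξ)^[k] (Ξ.indicator f) x

theorem rE_memLp [IsProbabilityMeasure ν] (hP : MOp ν P) {q : ℝ} {Ξ : Set S} (hΞ : MeasurableSet Ξ)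
    (hf : MemLp f 2 ν) (k : ℕ) : MemLp (rE P q Ξ f k) 2 ν :=
  (((hP.iter_memLp hf k).const_mul _).indicator hΞ).sub (rT_iter_memLp hP hΞ (hf.indicator hΞ) k)

theorem rT_iter_indicator (q : ℝ) (Ξ : Set S) (k : ℕ) :
    Ξ.indicator ((rT P q Ξ)^[k] (Ξ.indicator f)) = (rT P q Ξ)^[k] (Ξ.indicator f) := by
  cases k with
  | zero => simp [Set.indicator_indicator]
  | succ k => rw [Function.iterate_succ_apply']; unfold rT; simp [Set.indicator_indicator]

theorem rE_succ [IsProbabilityMeasure ν] (hP : MOp ν P) {q : ℝ} {Ξ : Set S}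
    (hΞ : MeasurableSet Ξ) (hf : MemLp f 2 ν) (k : ℕ) : ∀ᵐ x ∂ν, rE P q Ξ f (k + 1) x =
      Ξ.indicator (fun x => q * P (fun y => Ξᶜ.indicator (fun y => q ^ k * P^[k] f y) y +
        rE P q Ξ f k y) x) x := by
  have e1 : (fun y => Ξᶜ.indicator (fun y => q ^ k * P^[k] f y) y + rE P q Ξ f k y) =
      fun y => q ^ k * P^[k] f y - (rT P q Ξ)^[k] (Ξ.indicator f) y := by
    ext y
    unfold rE
    by_cases hy : y ∈ Ξ <;> simp [hy] <;> ring
  have i1 : Integrable (P^[k] f) ν := (hP.iter_memLp hf k).integrable (by norm_num)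
  have i2 : Integrable ((rT P q Ξ)^[k] (Ξ.indicator f)) ν :=
    (rT_iter_memLp hP hΞ (hf.indicator hΞ) k).integrable (by norm_num)
  rw [e1]
  filter_upwards [hP.sub' (i1.const_mul (q ^ k)) i2, hP.const_mul (q ^ k) i1] with x h1 h2
  by_cases hx : x ∈ Ξ
  · simp only [Set.indicator_of_mem hx]
    rw [h1, h2]
    unfold rE
    rw [Set.indicator_of_mem hx, Function.iterate_succ_apply', Function.iterate_succ_apply']
    unfold rT
    rw [Set.indicator_of_mem hx]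
    have := rT_iter_indicator (P := P) (f := f) q Ξ k
    unfold rT at this
    rw [this]
    ring
  · simp only [Set.indicator_of_notMem hx]
    unfold rE
    rw [Set.indicator_of_notMem hx, Function.iterate_succ_apply']
    unfold rT
    rw [Set.indicator_of_notMem hx]
    simp

theorem rE_zero {q : ℝ} {Ξ : Set S} (x : S) : rE P q Ξ f 0 x = 0 := by
  unfold rE
  by_cases hx : x ∈ Ξ <;> simp [hx]

/-- Error bound, one side. -/
theorem rE_bound [IsProbabilityMeasure ν] (hP : MOp ν P) {q : ℝ} (hq0 : 0 ≤ q) (hq1 : q < 1)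
    {Ξ : Set S} (hΞ : MeasurableSet Ξ) (hf : MemLp f 2 ν) {K : ℝ} (hK : 0 ≤ K)
    (hFK : ∀ᵐ x ∂ν, x ∉ Ξ → ∀ N : ℕ, ∑ k ∈ Finset.range N, P^[k] f x ^ 2 ≤ K)
    {e : S → ℝ} (he : IsExit ν P q Ξ e) (N : ℕ) :
    ∑ k ∈ Finset.range N, ∫ x, rE P q Ξ f k x ^ 2 ∂ν ≤ K * ∫ x in Ξ, e x ∂ν :=
  err_bound hP hq0 hq1 hΞ hK (fun k => P^[k] f) (rE P q Ξ f) (hP.iter_memLp hf)
    (rE_memLp hP hΞ hf) hFK (Eventually.of_forall rE_zero) (rE_succ hP hΞ hf) he N

/-- The rate as a finite sum plus remainder. -/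
theorem rate_finite [IsProbabilityMeasure ν] (hP : Pair ν P P') {q : ℝ}
    {Ξ : Set S} (hΞ : MeasurableSet Ξ) (hf : MemLp f 2 ν) {ρ : S → ℝ} (hρ : MemLp ρ 2 ν)
    (hs : IsSol ν P q Ξ f ρ) (n : ℕ) :
    ∫ x, ρ x ^ 2 ∂ν - q ^ 2 * ∫ x in Ξ, (P ρ x) ^ 2 ∂ν =
      ∫ x, (Ξ.indicator f x) ^ 2 ∂ν + 2 * ∑ k ∈ Finset.range n,
        ((∫ x, (rT P' q Ξ)^[k] (Ξ.indicator f) x * (rT P q Ξ)^[k + 1] (Ξ.indicator f) x ∂ν) +
          ∫ x, (rT P' q Ξ)^[k + 1] (Ξ.indicator f) x * (rT P q Ξ)^[k + 1] (Ξ.indicator f) x ∂ν) +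
      2 * ∫ x, Ξ.indicator f x * (rT P q Ξ)^[2 * n + 1] ρ x ∂ν := by
  have hχf := hf.indicator hΞ
  have hρ1 : Integrable ρ ν := hρ.integrable (by norm_num)
  -- ρ vanishes off Ξ
  have hind : Ξ.indicator ρ =ᵐ[ν] ρ := by
    filter_upwards [hs] with x hx
    by_cases hm : x ∈ Ξ
    · simp [hm]
    · rw [hx]; simp [hm]
  have hPind : P (Ξ.indicator ρ) =ᵐ[ν] P ρ := hP.left.congr _ _ (hρ1.indicator hΞ) hind
  have heq : ρ =ᵐ[ν] fun x => Ξ.indicator f x + rT P q Ξ ρ x := by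
    filter_upwards [hs, hPind] with x hx hy
    unfold rT
    by_cases hm : x ∈ Ξ
    · rw [hx]; simp only [Set.indicator_of_mem hm]; rw [hy]
    · rw [hx]; simp [hm]
  have hTsq : q ^ 2 * ∫ x in Ξ, (P ρ x) ^ 2 ∂ν = ∫ x, rT P q Ξ ρ x ^ 2 ∂ν := by
    rw [← integral_const_mul, ← integral_indicator hΞ]
    apply integral_congr_ae
    filter_upwards [hPind] with x hy
    unfold rT
    by_cases hm : x ∈ Ξ
    · simp only [Set.indicator_of_mem hm]; rw [hy]; ring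
    · simp [hm]
  have hT := rT_memLp (q := q) hP.left hΞ hρ
  -- rate = ∫ χf (2ρ - χf)
  have hrate : ∫ x, ρ x ^ 2 ∂ν - ∫ x, rT P q Ξ ρ x ^ 2 ∂ν =
      2 * ∫ x, Ξ.indicator f x * ρ x ∂ν - ∫ x, (Ξ.indicator f x) ^ 2 ∂ν := by
    rw [← integral_sub hρ.integrable_sq hT.integrable_sq, ← integral_const_mul,
      ← integral_sub ((rate_int hχf hρ).const_mul 2) hχf.integrable_sq]
    apply integral_congr_ae
    filter_upwards [heq] with x hx
    have : rT P q Ξ ρ x = ρ x - Ξ.indicator f x := by linarith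
    rw [this]; ring
  -- one step of the expansion
  have hstep : ∀ m : ℕ, ∫ x, Ξ.indicator f x * (rT P q Ξ)^[m] ρ x ∂ν =
      ∫ x, Ξ.indicator f x * (rT P q Ξ)^[m] (Ξ.indicator f) x ∂ν +
        ∫ x, Ξ.indicator f x * (rT P q Ξ)^[m + 1] ρ x ∂ν := by
    intro m
    have e1 := rT_adj_iter (q := q) hP.symm hΞ hχf hρ m
    have e2 := rT_adj_iter (q := q) hP.symm hΞ hχf hχf m
    have e3 := rT_adj_iter (q := q) hP.symm hΞ hχf hT m
    rw [Function.iterate_succ_apply, ← e1, ← e2, ← e3,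
      ← integral_add (rate_int (rT_iter_memLp hP.right hΞ hχf m) hχf)
        (rate_int (rT_iter_memLp hP.right hΞ hχf m) hT)]
    apply integral_congr_ae
    filter_upwards [heq] with x hx
    rw [← mul_add, ← hx]
  have hexp : ∀ n : ℕ, ∫ x, Ξ.indicator f x * ρ x ∂ν = ∫ x, (Ξ.indicator f x) ^ 2 ∂ν +
      ∑ k ∈ Finset.range n,
        ((∫ x, (rT P' q Ξ)^[k] (Ξ.indicator f) x * (rT P q Ξ)^[k + 1] (Ξ.indicator f) x ∂ν) +
          ∫ x, (rT P' q Ξ)^[k + 1] (Ξ.indicator f) x * (rT P q Ξ)^[k + 1] (Ξ.indicator f) x ∂ν) +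
      ∫ x, Ξ.indicator f x * (rT P q Ξ)^[2 * n + 1] ρ x ∂ν := by
    intro n
    induction n with
    | zero =>
      have := hstep 0
      simp only [Function.iterate_zero, id_eq, zero_add] at this
      rw [this]
      simp only [Finset.range_zero, Finset.sum_empty, add_zero, mul_zero, zero_add]
      congr 1
      congr 1; ext x; ring
    | succ n ih =>
      rw [ih, Finset.sum_range_succ]
      have h1 := hstep (2 * n + 1)
      have h2 := hstep (2 * n + 2)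
      have e1 : ∫ x, (rT P' q Ξ)^[n] (Ξ.indicator f) x * (rT P q Ξ)^[n + 1] (Ξ.indicator f) x ∂ν =
          ∫ x, Ξ.indicator f x * (rT P q Ξ)^[2 * n + 1] (Ξ.indicator f) x ∂ν := by
        have := rT_adj_iter (q := q) hP.symm hΞ hχf (rT_iter_memLp (q := q) hP.left hΞ hχf (n + 1)) n
        rw [this, ← Function.iterate_add_apply, show n + (n + 1) = 2 * n + 1 by ring]
      have e2 : ∫ x, (rT P' q Ξ)^[n + 1] (Ξ.indicator f) x *
          (rT P q Ξ)^[n + 1] (Ξ.indicator f) x ∂ν =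
          ∫ x, Ξ.indicator f x * (rT P q Ξ)^[2 * n + 2] (Ξ.indicator f) x ∂ν := by
        have := rT_adj_iter (q := q) hP.symm hΞ hχf (rT_iter_memLp (q := q) hP.left hΞ hχf (n + 1)) (n + 1)
        rw [this, ← Function.iterate_add_apply, show n + 1 + (n + 1) = 2 * n + 2 by ring]
      rw [e1, e2, h1, h2]
      have : 2 * (n + 1) + 1 = 2 * n + 2 + 1 := by ring
      rw [this]
      ring
  rw [hTsq, hrate, hexp n]
  ring

end Pool.NH23.MC
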