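import Pool.Agent.NH23.MC.RateB

set_option autoImplicit false
open MeasureTheory ProbabilityTheory Filter Topology

namespace Pool.NH23.MC

variable {S : Type} [MeasurableSpace S] {ν : Measure S} {P P' : (S → ℝ) → (S → ℝ)} {f : S → ℝ}

/-- the `L²` norm -/
noncomputable def nrm (ν : Measure S) (g : S → ℝ) : ℝ := Real.sqrt (∫ x, g x ^ 2 ∂ν)

theorem nrm_nonneg (g : S → ℝ) : 0 ≤ nrm ν g := Real.sqrt_nonneg _

theorem nrm_sq (g : S → ℝ) : nrm ν g ^ 2 = ∫ x, g x ^ 2 ∂ν :=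
  Real.sq_sqrt (integral_nonneg fun x => sq_nonneg _)

theorem nrm_indicator_le {Ξ : Set S} (hΞ : MeasurableSet Ξ) {g : S → ℝ} (hg : MemLp g 2 ν) {c : ℝ}
    (hc : |c| ≤ 1) : nrm ν (Ξ.indicator fun x => c * g x) ≤ nrm ν g := by
  unfold nrm
  apply Real.sqrt_le_sqrt
  apply integral_mono ((hg.const_mul c).indicator hΞ).integrable_sq hg.integrable_sq
  intro x
  by_cases hx : x ∈ Ξ
  · simp only [Set.indicator_of_mem hx]
    rw [mul_pow]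
    have : c ^ 2 ≤ 1 := by rw [← sq_abs]; exact pow_le_one₀ (abs_nonneg c) hc
    nlinarith [sq_nonneg (g x)]
  · simp only [Set.indicator_of_notMem hx]
    have := sq_nonneg (g x)
    simpa using this

theorem sum_cs {u v : ℕ → ℝ} {A B : ℝ} {n : ℕ} (hu : ∑ k ∈ Finset.range n, u k ^ 2 ≤ A)
    (hv : ∑ k ∈ Finset.range n, v k ^ 2 ≤ B) :
    ∑ k ∈ Finset.range n, u k * v k ≤ Real.sqrt A * Real.sqrt B :=
  (Real.sum_mul_le_sqrt_mul_sqrt _ _ _).trans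
    (mul_le_mul (Real.sqrt_le_sqrt hu) (Real.sqrt_le_sqrt hv) (Real.sqrt_nonneg _)
      (Real.sqrt_nonneg _))

/-- comparison of a product of killed iterates with the unkilled product -/
theorem prod_diff [IsProbabilityMeasure ν] (hP : Pair ν P P') {q : ℝ} (hq0 : 0 ≤ q) (hq1 : q < 1)
    {Ξ : Set S} (hΞ : MeasurableSet Ξ) (hf : MemLp f 2 ν) (j i : ℕ) :
    |∫ x, (rT P' q Ξ)^[j] (Ξ.indicator f) x * (rT P q Ξ)^[i] (Ξ.indicator f) x ∂ν -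
      q ^ (j + i) * ∫ x in Ξ, P'^[j] f x * P^[i] f x ∂ν| ≤
      nrm ν (P'^[j] f) * nrm ν (rE P q Ξ f i) + nrm ν (rE P' q Ξ f j) * nrm ν (P^[i] f) +
        nrm ν (rE P' q Ξ f j) * nrm ν (rE P q Ξ f i) := by
  have hF := hP.left.iter_memLp hf i
  have hG := hP.right.iter_memLp hf j
  have hE := rE_memLp (q := q) hP.left hΞ hf i
  have hE' := rE_memLp (q := q) hP.right hΞ hf j
  set X : S → ℝ := Ξ.indicator (fun y => q ^ i * P^[i] f y) with hX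
  set Y : S → ℝ := Ξ.indicator (fun y => q ^ j * P'^[j] f y) with hY
  have hXm : MemLp X 2 ν := (hF.const_mul _).indicator hΞ
  have hYm : MemLp Y 2 ν := (hG.const_mul _).indicator hΞ
  have e1 : q ^ (j + i) * ∫ x in Ξ, P'^[j] f x * P^[i] f x ∂ν = ∫ x, Y x * X x ∂ν := by
    rw [← integral_const_mul, ← integral_indicator hΞ]
    congr 1
    ext x
    rw [hX, hY]
    by_cases hx : x ∈ Ξ
    · simp only [Set.indicator_of_mem hx]; ring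
    · simp [hx]
  have hp : ∀ x, (rT P q Ξ)^[i] (Ξ.indicator f) x = X x - rE P q Ξ f i x := by
    intro x; unfold rE; rw [hX]; ring
  have hp' : ∀ x, (rT P' q Ξ)^[j] (Ξ.indicator f) x = Y x - rE P' q Ξ f j x := by
    intro x; unfold rE; rw [hY]; ring
  rw [e1]
  have e2 : ∫ x, (rT P' q Ξ)^[j] (Ξ.indicator f) x * (rT P q Ξ)^[i] (Ξ.indicator f) x ∂ν -
      ∫ x, Y x * X x ∂ν = - ∫ x, Y x * rE P q Ξ f i x ∂ν - ∫ x, rE P' q Ξ f j x * X x ∂ν +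
        ∫ x, rE P' q Ξ f j x * rE P q Ξ f i x ∂ν := by
    have i1 := rate_int hYm hXm
    have i2 := rate_int hYm hE
    have i3 := rate_int hE' hXm
    have i4 := rate_int hE' hE
    have : ∫ x, (rT P' q Ξ)^[j] (Ξ.indicator f) x * (rT P q Ξ)^[i] (Ξ.indicator f) x ∂ν =
        ∫ x, (((Y x * X x - Y x * rE P q Ξ f i x) - rE P' q Ξ f j x * X x) +
          rE P' q Ξ f j x * rE P q Ξ f i x) ∂ν := by
      congr 1
      ext x
      rw [hp, hp']; ring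
    rw [this]
    have : ∫ x, (((Y x * X x - Y x * rE P q Ξ f i x) - rE P' q Ξ f j x * X x) +
          rE P' q Ξ f j x * rE P q Ξ f i x) ∂ν =
        ∫ x, ((Y x * X x - Y x * rE P q Ξ f i x) - rE P' q Ξ f j x * X x) ∂ν +
          ∫ x, rE P' q Ξ f j x * rE P q Ξ f i x ∂ν := integral_add ((i1.sub i2).sub i3) i4
    rw [this]
    have : ∫ x, ((Y x * X x - Y x * rE P q Ξ f i x) - rE P' q Ξ f j x * X x) ∂ν =
        ∫ x, (Y x * X x - Y x * rE P q Ξ f i x) ∂ν - ∫ x, rE P' q Ξ f j x * X x ∂ν :=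
      integral_sub (i1.sub i2) i3
    rw [this]
    have : ∫ x, (Y x * X x - Y x * rE P q Ξ f i x) ∂ν =
        ∫ x, Y x * X x ∂ν - ∫ x, Y x * rE P q Ξ f i x ∂ν := integral_sub i1 i2
    rw [this]
    ring
  rw [e2]
  have hqi : |q ^ i| ≤ 1 := by
    rw [abs_of_nonneg (pow_nonneg hq0 _)]; exact pow_le_one₀ hq0 hq1.le
  have hqj : |q ^ j| ≤ 1 := by
    rw [abs_of_nonneg (pow_nonneg hq0 _)]; exact pow_le_one₀ hq0 hq1.le
  have nX : nrm ν X ≤ nrm ν (P^[i] f) := nrm_indicator_le hΞ hF hqi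
  have nY : nrm ν Y ≤ nrm ν (P'^[j] f) := nrm_indicator_le hΞ hG hqj
  have c1 : |∫ x, Y x * rE P q Ξ f i x ∂ν| ≤ nrm ν Y * nrm ν (rE P q Ξ f i) := rate_cs hYm hE
  have c2 : |∫ x, rE P' q Ξ f j x * X x ∂ν| ≤ nrm ν (rE P' q Ξ f j) * nrm ν X := rate_cs hE' hXm
  have c3 : |∫ x, rE P' q Ξ f j x * rE P q Ξ f i x ∂ν| ≤
      nrm ν (rE P' q Ξ f j) * nrm ν (rE P q Ξ f i) := rate_cs hE' hE
  have t := abs_add_three (- ∫ x, Y x * rE P q Ξ f i x ∂ν) (- ∫ x, rE P' q Ξ f j x * X x ∂ν)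
    (∫ x, rE P' q Ξ f j x * rE P q Ξ f i x ∂ν)
  rw [abs_neg, abs_neg] at t
  have m1 : nrm ν Y * nrm ν (rE P q Ξ f i) ≤ nrm ν (P'^[j] f) * nrm ν (rE P q Ξ f i) :=
    mul_le_mul_of_nonneg_right nY (nrm_nonneg _)
  have m2 : nrm ν (rE P' q Ξ f j) * nrm ν X ≤ nrm ν (rE P' q Ξ f j) * nrm ν (P^[i] f) :=
    mul_le_mul_of_nonneg_left nX (nrm_nonneg _)
  rw [← sub_eq_add_neg] at t
  linarith

/-- Summed comparison (lags `2k+1` for `s = 0`, `2k+2` for `s = 1`). -/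
theorem sum_prod_diff [IsProbabilityMeasure ν] (hP : Pair ν P P') {q : ℝ} (hq0 : 0 ≤ q)
    (hq1 : q < 1) {Ξ : Set S} (hΞ : MeasurableSet Ξ) (hf : MemLp f 2 ν) {A B R : ℝ}
    (hA : ∀ n, ∑ k ∈ Finset.range n, ∫ x, (P^[k] f x) ^ 2 ∂ν ≤ A)
    (hB : ∀ n, ∑ k ∈ Finset.range n, ∫ x, (P'^[k] f x) ^ 2 ∂ν ≤ B)
    (hE : ∀ n, ∑ k ∈ Finset.range n, ∫ x, (rE P q Ξ f k x) ^ 2 ∂ν ≤ R)
    (hE' : ∀ n, ∑ k ∈ Finset.range n, ∫ x, (rE P' q Ξ f k x) ^ 2 ∂ν ≤ R) (s n : ℕ)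
    (hs : s ≤ 1) :
    ∑ k ∈ Finset.range n, |∫ x, (rT P' q Ξ)^[k + s] (Ξ.indicator f) x *
        (rT P q Ξ)^[k + 1] (Ξ.indicator f) x ∂ν -
      q ^ (k + s + (k + 1)) * ∫ x in Ξ, P'^[k + s] f x * P^[k + 1] f x ∂ν| ≤
      (Real.sqrt A + Real.sqrt B) * Real.sqrt R + R := by
  have shift : ∀ (g : ℕ → ℝ) (C : ℝ) (t : ℕ), t ≤ 1 → (∀ k, 0 ≤ g k) →
      (∀ n, ∑ k ∈ Finset.range n, g k ≤ C) → ∀ n, ∑ k ∈ Finset.range n, g (k + t) ≤ C := by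
    intro g C t ht hg hC n
    have := hC (n + t)
    rw [Finset.range_eq_Ico] at this ⊢
    rw [Finset.sum_Ico_add' g 0 n t]
    refine le_trans (Finset.sum_le_sum_of_subset_of_nonneg ?_ fun i _ _ => hg i) this
    apply Finset.Ico_subset_Ico (Nat.zero_le _) le_rfl
  have sA := shift (fun k => ∫ x, (P^[k] f x) ^ 2 ∂ν) A 1 le_rfl
    (fun k => integral_nonneg fun x => sq_nonneg _) hA n
  have sB := shift (fun k => ∫ x, (P'^[k] f x) ^ 2 ∂ν) B s hs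
    (fun k => integral_nonneg fun x => sq_nonneg _) hB n
  have sE := shift (fun k => ∫ x, (rE P q Ξ f k x) ^ 2 ∂ν) R 1 le_rfl
    (fun k => integral_nonneg fun x => sq_nonneg _) hE n
  have sE' := shift (fun k => ∫ x, (rE P' q Ξ f k x) ^ 2 ∂ν) R s hs
    (fun k => integral_nonneg fun x => sq_nonneg _) hE' n
  simp only [← nrm_sq] at sA sB sE sE'
  have hR : 0 ≤ R := by simpa using hE 0
  calc _ ≤ ∑ k ∈ Finset.range n, (nrm ν (P'^[k + s] f) * nrm ν (rE P q Ξ f (k + 1)) +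
        nrm ν (rE P' q Ξ f (k + s)) * nrm ν (P^[k + 1] f) +
        nrm ν (rE P' q Ξ f (k + s)) * nrm ν (rE P q Ξ f (k + 1))) :=
        Finset.sum_le_sum fun k _ => prod_diff hP hq0 hq1 hΞ hf (k + s) (k + 1)
    _ = ∑ k ∈ Finset.range n, nrm ν (P'^[k + s] f) * nrm ν (rE P q Ξ f (k + 1)) +
        ∑ k ∈ Finset.range n, nrm ν (rE P' q Ξ f (k + s)) * nrm ν (P^[k + 1] f) +
        ∑ k ∈ Finset.range n, nrm ν (rE P' q Ξ f (k + s)) * nrm ν (rE P q Ξ f (k + 1)) := by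
        rw [Finset.sum_add_distrib, Finset.sum_add_distrib]
    _ ≤ Real.sqrt B * Real.sqrt R + Real.sqrt R * Real.sqrt A + Real.sqrt R * Real.sqrt R :=
        add_le_add (add_le_add (sum_cs sB sE) (sum_cs sE' sA)) (sum_cs sE' sE)
    _ = (Real.sqrt A + Real.sqrt B) * Real.sqrt R + R := by
        rw [Real.mul_self_sqrt hR]; ring

end Pool.NH23.MC
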