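import Pool.Agent.NH23.MC.RateC

set_option autoImplicit false
open MeasureTheory ProbabilityTheory Filter Topology

namespace Pool.NH23.MC

variable {S : Type} [MeasurableSpace S] {ν : Measure S} {P P' : (S → ℝ) → (S → ℝ)} {f : S → ℝ}

/-- series of nonnegative integrable functions -/
theorem series_nonneg {g : ℕ → S → ℝ} (hg : ∀ k, Integrable (g k) ν) (h0 : ∀ k x, 0 ≤ g k x)
    (hs : Summable fun k => ∫ x, g k x ∂ν) :
    (∀ᵐ x ∂ν, Summable fun k => g k x) ∧ Integrable (fun x => ∑' k, g k x) ν := by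
  have hm : ∀ k, AEMeasurable (fun x => ENNReal.ofReal (g k x)) ν :=
    fun k => (hg k).1.aemeasurable.ennreal_ofReal
  have hM : AEMeasurable (fun x => ∑' k, ENNReal.ofReal (g k x)) ν := AEMeasurable.tsum hm
  have hfin : ∫⁻ x, ∑' k, ENNReal.ofReal (g k x) ∂ν ≠ ⊤ := by
    rw [lintegral_tsum hm]
    have : ∀ k, ∫⁻ x, ENNReal.ofReal (g k x) ∂ν = ENNReal.ofReal (∫ x, g k x ∂ν) := fun k =>
      (ofReal_integral_eq_lintegral_ofReal (hg k) (Eventually.of_forall (h0 k))).symm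
    simp_rw [this]
    exact hs.tsum_ofReal_ne_top
  have h1 : (fun x => ∑' k, g k x) = fun x => (∑' k, ENNReal.ofReal (g k x)).toReal := by
    ext x
    rw [ENNReal.tsum_toReal_eq (fun k => ENNReal.ofReal_ne_top)]
    congr 1
    ext k
    rw [ENNReal.toReal_ofReal (h0 k x)]
  constructor
  · filter_upwards [ae_lt_top' hM hfin] with x hx
    have := ENNReal.summable_toReal hx.ne
    simpa [ENNReal.toReal_ofReal (h0 _ x)] using this
  · rw [h1]
    exact integrable_toReal_of_lintegral_ne_top hM hfin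

/-- series dominated by a nonnegative series -/
theorem series_abs {g : ℕ → S → ℝ} (hg : ∀ k, Integrable (g k) ν)
    (hs : Summable fun k => ∫ x, |g k x| ∂ν) :
    (∀ᵐ x ∂ν, Summable fun k => |g k x|) ∧ Integrable (fun x => ∑' k, g k x) ν := by
  obtain ⟨h1, h2⟩ := series_nonneg (fun k => (hg k).abs) (fun k x => abs_nonneg _) hs
  refine ⟨h1, ?_⟩
  refine h2.mono' ?_ ?_
  · refine aestronglyMeasurable_of_tendsto_ae atTop
      (f := fun n x => ∑ k ∈ Finset.range n, g k x) (fun n => ?_) ?_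
    · exact Finset.aestronglyMeasurable_fun_sum _ fun k _ => (hg k).1
    · filter_upwards [h1] with x hx
      exact (Summable.of_abs hx).hasSum.tendsto_sum_nat
  · filter_upwards [h1] with x hx
    rw [Real.norm_eq_abs]
    have := norm_tsum_le_tsum_norm (f := fun k => g k x) (by simpa using hx)
    simpa using this

/-- the lags -/
noncomputable def lag (P P' : (S → ℝ) → (S → ℝ)) (f : S → ℝ) (s k : ℕ) : S → ℝ :=
  fun x => P'^[k + s] f x * P^[k + 1] f x

theorem lag_integrable [IsProbabilityMeasure ν] (h : Ctx ν P P' f) (s k : ℕ) :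
    Integrable (lag P P' f s k) ν :=
  rate_int (h.pair.right.iter_memLp h.f2 _) (h.pair.left.iter_memLp h.f2 _)

theorem lag_summable [IsProbabilityMeasure ν] (h : Ctx ν P P' f) (s : ℕ) :
    Summable fun k => ∫ x, |lag P P' f s k x| ∂ν := by
  refine Summable.of_nonneg_of_le (fun k => integral_nonneg fun x => abs_nonneg _) (fun k => ?_)
    (((summable_nat_add_iff s).2 h.sum').add ((summable_nat_add_iff 1).2 h.sum))
  have := rate_cs_abs (h.pair.right.iter_memLp h.f2 (k + s)) (h.pair.left.iter_memLp h.f2 (k + 1))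
  refine this.trans ?_
  have a1 := Real.sq_sqrt (rate_sq_nonneg (ν := ν) (g := P'^[k + s] f))
  have a2 := Real.sq_sqrt (rate_sq_nonneg (ν := ν) (g := P^[k + 1] f))
  nlinarith [sq_nonneg (Real.sqrt (∫ x, (P'^[k + s] f x) ^ 2 ∂ν) -
    Real.sqrt (∫ x, (P^[k + 1] f x) ^ 2 ∂ν)), Real.sqrt_nonneg (∫ x, (P'^[k + s] f x) ^ 2 ∂ν),
    Real.sqrt_nonneg (∫ x, (P^[k + 1] f x) ^ 2 ∂ν)]

/-- the function `w` -/
noncomputable def wfun (P P' : (S → ℝ) → (S → ℝ)) (f : S → ℝ) : S → ℝ :=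
  fun x => f x ^ 2 + 2 * (∑' k, lag P P' f 0 k x + ∑' k, lag P P' f 1 k x)

theorem wfun_integrable [IsProbabilityMeasure ν] (h : Ctx ν P P' f) :
    Integrable (wfun P P' f) ν :=
  h.f2.integrable_sq.add (((series_abs (lag_integrable h 0) (lag_summable h 0)).2.add
    (series_abs (lag_integrable h 1) (lag_summable h 1)).2).const_mul 2)

theorem wfun_setIntegral [IsProbabilityMeasure ν] (h : Ctx ν P P' f) (Ξ : Set S) :
    ∫ x in Ξ, wfun P P' f x ∂ν = ∫ x in Ξ, f x ^ 2 ∂ν +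
      2 * (∑' k, ∫ x in Ξ, lag P P' f 0 k x ∂ν + ∑' k, ∫ x in Ξ, lag P P' f 1 k x ∂ν) := by
  have key : ∀ s, ∑' k, ∫ x in Ξ, lag P P' f s k x ∂ν = ∫ x in Ξ, ∑' k, lag P P' f s k x ∂ν := by
    intro s
    apply integral_tsum_of_summable_integral_norm (fun k => (lag_integrable h s k).integrableOn)
    refine Summable.of_nonneg_of_le (fun k => integral_nonneg fun x => norm_nonneg _) (fun k => ?_)
      (lag_summable h s)
    exact setIntegral_le_integral (lag_integrable h s k).abs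
      (Eventually.of_forall fun x => abs_nonneg _)
  rw [key 0, key 1]
  have i0 := ((series_abs (lag_integrable h 0) (lag_summable h 0)).2).integrableOn (s := Ξ)
  have i1 := ((series_abs (lag_integrable h 1) (lag_summable h 1)).2).integrableOn (s := Ξ)
  rw [← integral_add i0 i1, ← integral_const_mul, ← integral_add h.f2.integrable_sq.integrableOn]
  · rfl
  · exact (i0.add i1).const_mul 2

/-- the function `H` -/
noncomputable def Hfun (P P' : (S → ℝ) → (S → ℝ)) (f : S → ℝ) : S → ℝ :=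
  fun x => ∑' k, (P^[k] f x) ^ 2 + ∑' k, (P'^[k] f x) ^ 2

theorem Hfun_integrable [IsProbabilityMeasure ν] (h : Ctx ν P P' f) :
    Integrable (Hfun P P' f) ν :=
  (series_nonneg (fun k => (h.pair.left.iter_memLp h.f2 k).integrable_sq)
    (fun _ _ => sq_nonneg _) h.sum).2.add
  (series_nonneg (fun k => (h.pair.right.iter_memLp h.f2 k).integrable_sq)
    (fun _ _ => sq_nonneg _) h.sum').2

theorem Hfun_nonneg (x : S) : 0 ≤ Hfun P P' f x :=
  add_nonneg (tsum_nonneg fun _ => sq_nonneg _) (tsum_nonneg fun _ => sq_nonneg _)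

theorem Hfun_ae [IsProbabilityMeasure ν] (h : Ctx ν P P' f) :
    ∀ᵐ x ∂ν, (∀ N : ℕ, ∑ k ∈ Finset.range N, (P^[k] f x) ^ 2 ≤ Hfun P P' f x) ∧
      (∀ N : ℕ, ∑ k ∈ Finset.range N, (P'^[k] f x) ^ 2 ≤ Hfun P P' f x) ∧
      |wfun P P' f x| ≤ 3 * Hfun P P' f x := by
  have s1 := (series_nonneg (fun k => (h.pair.left.iter_memLp h.f2 k).integrable_sq)
    (fun _ _ => sq_nonneg _) h.sum).1
  have s2 := (series_nonneg (fun k => (h.pair.right.iter_memLp h.f2 k).integrable_sq)
    (fun _ _ => sq_nonneg _) h.sum').1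
  filter_upwards [s1, s2] with x h1 h2
  have n1 : 0 ≤ ∑' k, (P^[k] f x) ^ 2 := tsum_nonneg fun _ => sq_nonneg _
  have n2 : 0 ≤ ∑' k, (P'^[k] f x) ^ 2 := tsum_nonneg fun _ => sq_nonneg _
  have l1 : ∀ N : ℕ, ∑ k ∈ Finset.range N, (P^[k] f x) ^ 2 ≤ ∑' k, (P^[k] f x) ^ 2 := fun N =>
    h1.sum_le_tsum _ fun _ _ => sq_nonneg _
  have l2 : ∀ N : ℕ, ∑ k ∈ Finset.range N, (P'^[k] f x) ^ 2 ≤ ∑' k, (P'^[k] f x) ^ 2 := fun N =>
    h2.sum_le_tsum _ fun _ _ => sq_nonneg _
  refine ⟨fun N => (l1 N).trans (by unfold Hfun; linarith),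
    fun N => (l2 N).trans (by unfold Hfun; linarith), ?_⟩
  have lagb : ∀ s, s ≤ 1 → |∑' k, lag P P' f s k x| ≤
      (∑' k, (P^[k] f x) ^ 2 + ∑' k, (P'^[k] f x) ^ 2) / 2 := by
    intro s hs
    have hb : ∀ k, |lag P P' f s k x| ≤ (P^[k + 1] f x) ^ 2 / 2 + (P'^[k + s] f x) ^ 2 / 2 := by
      intro k
      unfold lag
      rw [abs_mul]
      nlinarith [sq_nonneg (|P'^[k + s] f x| - |P^[k + 1] f x|), sq_abs (P'^[k + s] f x),
        sq_abs (P^[k + 1] f x)]
    have t1 : Summable fun k => (P^[k + 1] f x) ^ 2 / 2 :=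
      ((summable_nat_add_iff 1).2 h1).div_const 2
    have t2 : Summable fun k => (P'^[k + s] f x) ^ 2 / 2 :=
      ((summable_nat_add_iff s).2 h2).div_const 2
    have u1 : ∑' k, (P^[k + 1] f x) ^ 2 ≤ ∑' k, (P^[k] f x) ^ 2 := by
      rw [h1.tsum_eq_zero_add]; have := sq_nonneg (P^[0] f x); linarith
    have u2 : ∑' k, (P'^[k + s] f x) ^ 2 ≤ ∑' k, (P'^[k] f x) ^ 2 := by
      interval_cases s
      · exact le_rfl
      · rw [h2.tsum_eq_zero_add]; have := sq_nonneg (P'^[0] f x); linarith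
    have hsum : Summable fun k => |lag P P' f s k x| :=
      Summable.of_nonneg_of_le (fun _ => abs_nonneg _) hb (t1.add t2)
    calc |∑' k, lag P P' f s k x| ≤ ∑' k, |lag P P' f s k x| := by
          have := norm_tsum_le_tsum_norm (f := fun k => lag P P' f s k x) (by simpa using hsum)
          simpa using this
      _ ≤ ∑' k, ((P^[k + 1] f x) ^ 2 / 2 + (P'^[k + s] f x) ^ 2 / 2) :=
          hsum.tsum_le_tsum hb (t1.add t2)
      _ = (∑' k, (P^[k + 1] f x) ^ 2) / 2 + (∑' k, (P'^[k + s] f x) ^ 2) / 2 := by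
          rw [t1.tsum_add t2, tsum_div_const, tsum_div_const]
      _ ≤ _ := by linarith
  have b0 := lagb 0 (by norm_num)
  have b1 := lagb 1 (by norm_num)
  have f2 : f x ^ 2 ≤ ∑' k, (P^[k] f x) ^ 2 := by
    have := l1 1
    simpa using this
  unfold wfun Hfun
  rw [abs_le] at b0 b1 ⊢
  constructor <;> nlinarith [sq_nonneg (f x)]

end Pool.NH23.MC
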