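import Pool.Agent.NH23.MC.BasicB

set_option autoImplicit false
open MeasureTheory ProbabilityTheory Filter Topology

namespace Pool.NH23.MC

variable {S : Type} [MeasurableSpace S] {ν : Measure S} {P P' : (S → ℝ) → (S → ℝ)} {f : S → ℝ}

/-! ### the norm of `L²` -/

/-- the norm of `L²` -/
noncomputable def resN (ν : Measure S) (g : S → ℝ) : ℝ := Real.sqrt (∫ x, g x ^ 2 ∂ν)

theorem resN_nonneg (g : S → ℝ) : 0 ≤ resN ν g := Real.sqrt_nonneg _

theorem resN_sq (g : S → ℝ) : resN ν g ^ 2 = ∫ x, g x ^ 2 ∂ν :=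
  Real.sq_sqrt (integral_nonneg fun x => sq_nonneg (g x))

theorem resN_congr {g h : S → ℝ} (hgh : g =ᵐ[ν] h) : resN ν g = resN ν h := by
  unfold resN
  congr 1
  refine integral_congr_ae ?_
  filter_upwards [hgh] with x hx
  rw [hx]

theorem resN_mul (c : ℝ) (g : S → ℝ) : resN ν (fun x => c * g x) = |c| * resN ν g := by
  unfold resN
  have h1 : ∫ x, (c * g x) ^ 2 ∂ν = c ^ 2 * ∫ x, g x ^ 2 ∂ν := by
    rw [← integral_const_mul]
    congr 1
    funext x
    ring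
  rw [h1, Real.sqrt_mul (sq_nonneg c), Real.sqrt_sq_eq_abs]

/-- the inequality of Cauchy and Schwarz -/
theorem res_cs {g h : S → ℝ} (hg : MemLp g 2 ν) (hh : MemLp h 2 ν) :
    ∫ x, g x * h x ∂ν ≤ resN ν g * resN ν h := by
  have hg2 : Integrable (fun y => g y ^ 2) ν := hg.integrable_sq
  have hh2 : Integrable (fun y => h y ^ 2) ν := hh.integrable_sq
  have hgh : Integrable (fun y => g y * h y) ν := hg.integrable_mul hh
  have h1 : ∀ t : ℝ, 0 ≤ (∫ x, h x ^ 2 ∂ν) * (t * t) + (2 * ∫ x, g x * h x ∂ν) * t +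
      ∫ x, g x ^ 2 ∂ν := by
    intro t
    have h2 : 0 ≤ ∫ x, (g x + t * h x) ^ 2 ∂ν := integral_nonneg fun x => sq_nonneg _
    have h3 : ∫ x, (g x + t * h x) ^ 2 ∂ν =
        ∫ x, (g x ^ 2 + ((2 * t) * (g x * h x) + (t * t) * h x ^ 2)) ∂ν := by
      congr 1
      funext x
      ring
    have h4 : ∫ x, (g x ^ 2 + ((2 * t) * (g x * h x) + (t * t) * h x ^ 2)) ∂ν =
        ∫ x, g x ^ 2 ∂ν + ∫ x, ((2 * t) * (g x * h x) + (t * t) * h x ^ 2) ∂ν :=
      integral_add hg2 ((hgh.const_mul _).add (hh2.const_mul _))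
    have h5 : ∫ x, ((2 * t) * (g x * h x) + (t * t) * h x ^ 2) ∂ν =
        ∫ x, (2 * t) * (g x * h x) ∂ν + ∫ x, (t * t) * h x ^ 2 ∂ν :=
      integral_add (hgh.const_mul _) (hh2.const_mul _)
    rw [h3, h4, h5, integral_const_mul, integral_const_mul] at h2
    linarith
  have h6 := discrim_le_zero h1
  unfold discrim at h6
  have h7 : (∫ x, g x * h x ∂ν) ^ 2 ≤ (∫ x, g x ^ 2 ∂ν) * ∫ x, h x ^ 2 ∂ν := by linarith
  unfold resN
  rw [← Real.sqrt_mul (integral_nonneg fun x => sq_nonneg (g x))]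
  exact Real.le_sqrt_of_sq_le h7

/-- the triangle inequality -/
theorem resN_add {g h : S → ℝ} (hg : MemLp g 2 ν) (hh : MemLp h 2 ν) :
    resN ν (fun x => g x + h x) ≤ resN ν g + resN ν h := by
  have hg2 : Integrable (fun y => g y ^ 2) ν := hg.integrable_sq
  have hh2 : Integrable (fun y => h y ^ 2) ν := hh.integrable_sq
  have hgh : Integrable (fun y => g y * h y) ν := hg.integrable_mul hh
  have h1 : resN ν (fun x => g x + h x) ^ 2 ≤ (resN ν g + resN ν h) ^ 2 := by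
    rw [resN_sq]
    have h3 : ∫ x, (g x + h x) ^ 2 ∂ν = ∫ x, (g x ^ 2 + (2 * (g x * h x) + h x ^ 2)) ∂ν := by
      congr 1
      funext x
      ring
    have h4 : ∫ x, (g x ^ 2 + (2 * (g x * h x) + h x ^ 2)) ∂ν =
        ∫ x, g x ^ 2 ∂ν + ∫ x, (2 * (g x * h x) + h x ^ 2) ∂ν :=
      integral_add hg2 ((hgh.const_mul _).add hh2)
    have h5 : ∫ x, (2 * (g x * h x) + h x ^ 2) ∂ν =
        ∫ x, 2 * (g x * h x) ∂ν + ∫ x, h x ^ 2 ∂ν := integral_add (hgh.const_mul _) hh2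
    have h6 := res_cs hg hh
    rw [h3, h4, h5, integral_const_mul, ← resN_sq, ← resN_sq]
    nlinarith
  exact (pow_le_pow_iff_left₀ (resN_nonneg _)
    (add_nonneg (resN_nonneg _) (resN_nonneg _)) two_ne_zero).1 h1

theorem resN_P [IsProbabilityMeasure ν] (hP : MOp ν P) {g : S → ℝ} (hg : MemLp g 2 ν) :
    resN ν (P g) ≤ resN ν g :=
  Real.sqrt_le_sqrt (hP.integral_sq_le hg)

theorem resN_iter [IsProbabilityMeasure ν] (hP : MOp ν P) {g : S → ℝ} (hg : MemLp g 2 ν)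
    (k : ℕ) : resN ν (P^[k] g) ≤ resN ν g := by
  induction k with
  | zero => exact le_rfl
  | succ k ih =>
    rw [Function.iterate_succ_apply']
    exact (resN_P hP (hP.iter_memLp hg k)).trans ih

theorem res_eq {q : ℝ} {r : S → ℝ} (h : IsSol ν P q Set.univ f r) :
    r =ᵐ[ν] fun x => f x + q * P r x := by
  have h' : r =ᵐ[ν] Set.univ.indicator (fun x => f x + q * P r x) := h
  rwa [Set.indicator_univ] at h'

/-- the iterated equation -/
theorem res_iter_eq [IsProbabilityMeasure ν] (hP : MOp ν P) (hf : MemLp f 2 ν) {q : ℝ}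
    {r : S → ℝ} (hr : MemLp r 2 ν) (h : IsSol ν P q Set.univ f r) (k : ℕ) :
    P^[k] r =ᵐ[ν] fun x => P^[k] f x + q * P^[k + 1] r x := by
  induction k with
  | zero => exact res_eq h
  | succ k ih =>
    have hf1 : Integrable (P^[k] f) ν := hP.iter_integrable (hf.integrable (by norm_num)) k
    have hr1 : Integrable (P^[k] r) ν := hP.iter_integrable (hr.integrable (by norm_num)) k
    have hr2 : Integrable (P^[k + 1] r) ν := hP.iter_integrable (hr.integrable (by norm_num)) _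
    have e1 : P^[k + 1] r = P (P^[k] r) := Function.iterate_succ_apply' _ _ _
    have e2 : P^[k + 1] f = P (P^[k] f) := Function.iterate_succ_apply' _ _ _
    have e3 : P^[k + 1 + 1] r = P (P^[k + 1] r) := Function.iterate_succ_apply' _ _ _
    have h1 := hP.congr _ _ hr1 ih
    have h2 := hP.add' hf1 (hr2.const_mul q)
    have h3 := hP.const_mul q hr2
    filter_upwards [h1, h2, h3] with x x1 x2 x3
    rw [e2, e3, ← x3, ← x2, ← x1, e1]

theorem res_bound [IsProbabilityMeasure ν] (hP : MOp ν P) (hf : MemLp f 2 ν) {q : ℝ}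
    (hq0 : 0 ≤ q) {r : S → ℝ} (hr : MemLp r 2 ν) (h : IsSol ν P q Set.univ f r) (n : ℕ) :
    resN ν r ≤ ∑ k ∈ Finset.range n, q ^ k * resN ν (P^[k] f) + q ^ n * resN ν (P^[n] r) := by
  induction n with
  | zero => simp
  | succ n ih =>
    have h1 := res_iter_eq hP hf hr h n
    have h2 : resN ν (P^[n] r) ≤ resN ν (P^[n] f) + q * resN ν (P^[n + 1] r) := by
      rw [resN_congr h1]
      have h3 := resN_add (hP.iter_memLp hf n) ((hP.iter_memLp hr (n + 1)).const_mul q)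
      refine h3.trans (add_le_add le_rfl ?_)
      exact (resN_mul q (P^[n + 1] r)).le.trans (by rw [abs_of_nonneg hq0])
    rw [Finset.sum_range_succ]
    have h4 : q ^ n * resN ν (P^[n] r) ≤
        q ^ n * (resN ν (P^[n] f) + q * resN ν (P^[n + 1] r)) :=
      mul_le_mul_of_nonneg_left h2 (pow_nonneg hq0 n)
    rw [pow_succ]
    linarith

/-- `(1-q) ‖r_q‖² → 0`. -/
theorem res_small [IsProbabilityMeasure ν] (h : Ctx ν P P' f) {ε : ℝ} (hε : 0 < ε) :
    ∃ q₀ : ℝ, q₀ < 1 ∧ ∀ q : ℝ, q₀ < q → 0 ≤ q → q < 1 → ∀ r : S → ℝ,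
    MemLp r 2 ν → IsSol ν P q Set.univ f r → (1 - q) * ∫ x, r x ^ 2 ∂ν ≤ ε := by
  have hP := h.pair.left
  obtain ⟨b, hb⟩ : ∃ b : ℕ → ℝ, b = fun k => resN ν (P^[k] f) := ⟨_, rfl⟩
  have hb0 : ∀ k, 0 ≤ b k := fun k => by rw [hb]; exact resN_nonneg _
  have hsum : Summable fun k => b k ^ 2 := by
    have e : (fun k => b k ^ 2) = fun k : ℕ => ∫ x, (P^[k] f x) ^ 2 ∂ν := by
      funext k
      rw [hb]
      exact resN_sq _
    rw [e]
    exact h.sum
  obtain ⟨m, hm⟩ : ∃ m : ℕ, ∀ p : ℕ, ∑ j ∈ Finset.range p, b (m + j) ^ 2 ≤ ε / 4 := by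
    have h1 := hsum.hasSum.tendsto_sum_nat
    have h2 := (h1.eventually (lt_mem_nhds (a := (∑' k, b k ^ 2) - ε / 4) (by linarith))).exists
    obtain ⟨m, hm⟩ := h2
    refine ⟨m, fun p => ?_⟩
    have h3 : ∑ k ∈ Finset.range (m + p), b k ^ 2 ≤ ∑' k, b k ^ 2 :=
      hsum.sum_le_tsum _ fun k _ => sq_nonneg _
    rw [Finset.sum_range_add] at h3
    linarith
  obtain ⟨A, hA⟩ : ∃ A, A = ∑ k ∈ Finset.range m, b k := ⟨_, rfl⟩
  have hA0 : 0 ≤ A := by rw [hA]; exact Finset.sum_nonneg fun k _ => hb0 k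
  refine ⟨1 - ε / (4 * (A ^ 2 + 1)), by have : 0 < ε / (4 * (A ^ 2 + 1)) := by positivity
                                        linarith, fun q hq hq0 hq1 r hr hrs => ?_⟩
  have hlam : 0 < 1 - q := by linarith
  have hs0 : 0 < Real.sqrt (1 - q) := Real.sqrt_pos.2 hlam
  have hss : Real.sqrt (1 - q) ^ 2 = 1 - q := Real.sq_sqrt hlam.le
  obtain ⟨C, hC⟩ : ∃ C, C = A + Real.sqrt (ε / 4) / Real.sqrt (1 - q) := ⟨_, rfl⟩
  have hgeo : ∀ p : ℕ, ∑ j ∈ Finset.range p, (q ^ (m + j)) ^ 2 ≤ 1 / (1 - q) := by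
    intro p
    calc ∑ j ∈ Finset.range p, (q ^ (m + j)) ^ 2 ≤ ∑ j ∈ Finset.range p, q ^ j := by
          refine Finset.sum_le_sum fun j _ => ?_
          rw [← pow_mul]
          exact pow_le_pow_of_le_one hq0 hq1.le (by omega)
      _ ≤ 1 / (1 - q) := by
          rw [le_div_iff₀ hlam]
          have h1 := mul_neg_geom_sum q p
          have h2 : 0 ≤ q ^ p := pow_nonneg hq0 p
          linarith [mul_comm (1 - q) (∑ j ∈ Finset.range p, q ^ j)]
  have hfin : ∀ p : ℕ, (1 - q ^ (m + p)) * resN ν r ≤ C := by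
    intro p
    have h1 := res_bound hP h.f2 hq0 hr hrs (m + p)
    have h2 := resN_iter hP hr (m + p)
    have h3 : q ^ (m + p) * resN ν (P^[m + p] r) ≤ q ^ (m + p) * resN ν r :=
      mul_le_mul_of_nonneg_left h2 (pow_nonneg hq0 _)
    have h4 : ∑ k ∈ Finset.range (m + p), q ^ k * resN ν (P^[k] f) ≤ C := by
      have e : ∑ k ∈ Finset.range (m + p), q ^ k * resN ν (P^[k] f) =
          ∑ k ∈ Finset.range (m + p), q ^ k * b k := by rw [hb]
      rw [e, Finset.sum_range_add, hC]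
      refine add_le_add ?_ ?_
      · rw [hA]
        refine Finset.sum_le_sum fun k _ => ?_
        have : q ^ k ≤ 1 := pow_le_one₀ hq0 hq1.le
        have := mul_le_mul_of_nonneg_right this (hb0 k)
        linarith
      · refine (Real.sum_mul_le_sqrt_mul_sqrt _ _ _).trans ?_
        have h5 : Real.sqrt (∑ j ∈ Finset.range p, (q ^ (m + j)) ^ 2) ≤
            1 / Real.sqrt (1 - q) := by
          refine (Real.sqrt_le_sqrt (hgeo p)).trans ?_
          rw [Real.sqrt_div zero_le_one, Real.sqrt_one]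
        have h6 := Real.sqrt_le_sqrt (hm p)
        calc _ ≤ 1 / Real.sqrt (1 - q) * Real.sqrt (ε / 4) :=
              mul_le_mul h5 h6 (Real.sqrt_nonneg _) (by positivity)
          _ = _ := by ring
    linarith
  have hlim : resN ν r ≤ C := by
    have h1 : Tendsto (fun p : ℕ => (1 - q ^ (m + p)) * resN ν r) atTop
        (𝓝 ((1 - 0) * resN ν r)) := by
      refine Tendsto.mul_const _ (Tendsto.const_sub _ ?_)
      have h2 := tendsto_pow_atTop_nhds_zero_of_lt_one hq0 hq1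
      exact h2.comp (tendsto_add_atTop_nat m |>.congr fun p => add_comm _ _)
    have h2 := le_of_tendsto' h1 hfin
    linarith
  rw [← resN_sq]
  have h5 : resN ν r ^ 2 ≤ C ^ 2 := pow_le_pow_left₀ (resN_nonneg _) hlim 2
  have h6 : C ^ 2 ≤ 2 * A ^ 2 + 2 * (ε / 4) / (1 - q) := by
    have h7 : (Real.sqrt (ε / 4) / Real.sqrt (1 - q)) ^ 2 = (ε / 4) / (1 - q) := by
      rw [div_pow, hss, Real.sq_sqrt (by positivity)]
    rw [hC]
    have h8 := sq_nonneg (A - Real.sqrt (ε / 4) / Real.sqrt (1 - q))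
    have h9 : 2 * (ε / 4) / (1 - q) = 2 * ((ε / 4) / (1 - q)) := by ring
    rw [h9, ← h7]
    nlinarith
  have h7 : (1 - q) * resN ν r ^ 2 ≤ (1 - q) * (2 * A ^ 2 + 2 * (ε / 4) / (1 - q)) :=
    mul_le_mul_of_nonneg_left (h5.trans h6) hlam.le
  have h8 : (1 - q) * (2 * A ^ 2 + 2 * (ε / 4) / (1 - q)) = 2 * ((1 - q) * A ^ 2) + ε / 2 := by
    field_simp
    ring
  have h9 : (1 - q) * A ^ 2 ≤ ε / 4 := by
    have h10 : 1 - q < ε / (4 * (A ^ 2 + 1)) := by linarith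
    calc (1 - q) * A ^ 2 ≤ ε / (4 * (A ^ 2 + 1)) * (A ^ 2 + 1) :=
          mul_le_mul h10.le (by linarith) (sq_nonneg A) (by positivity)
      _ = ε / 4 := by field_simp
  linarith

/-- the energy of the difference of two resolvents -/
theorem res_gam [IsProbabilityMeasure ν] (hP : MOp ν P) {q q₁ : ℝ}
    (hq1 : q ≤ 1) (hq1' : q₁ ≤ 1) (hqq : q ≤ q₁) {r r₁ : S → ℝ} (hr : MemLp r 2 ν)
    (hrs : IsSol ν P q Set.univ f r) (hr₁ : MemLp r₁ 2 ν) (hrs₁ : IsSol ν P q₁ Set.univ f r₁) :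
    ∫ x, Gam P (fun x => r₁ x - r x) x ∂ν ≤
      4 * ((1 - q) * resN ν r ^ 2 + (1 - q) * resN ν r₁ ^ 2) := by
  have hD : MemLp (fun x => r₁ x - r x) 2 ν := hr₁.sub hr
  have hPD := hP.memLp hD
  have hr' : Integrable r ν := hr.integrable (by norm_num)
  have hr₁' : Integrable r₁ ν := hr₁.integrable (by norm_num)
  obtain ⟨D, hDdef⟩ : ∃ D : S → ℝ, D = fun x => r₁ x - r x := ⟨_, rfl⟩
  rw [← hDdef] at hD hPD ⊢
  rw [hP.integral_gam hD]
  have hm : MemLp (fun x => D x - P D x) 2 ν := hD.sub hPD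
  have hp : MemLp (fun x => D x + P D x) 2 ν := hD.add hPD
  have e1 : ∫ x, D x ^ 2 ∂ν - ∫ x, (P D x) ^ 2 ∂ν = ∫ x, (D x - P D x) * (D x + P D x) ∂ν := by
    rw [← integral_sub hD.integrable_sq hPD.integrable_sq]
    congr 1
    funext x
    ring
  rw [e1]
  refine (res_cs hm hp).trans ?_
  have n0 := resN_nonneg (ν := ν) r
  have n1 := resN_nonneg (ν := ν) r₁
  have hnD : resN ν D ≤ resN ν r₁ + resN ν r := by
    have e : D = fun x => r₁ x + (fun y => -1 * r y) x := by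
      rw [hDdef]
      funext x
      ring
    rw [e]
    refine (resN_add hr₁ (hr.const_mul (-1))).trans (add_le_add le_rfl ?_)
    exact (resN_mul (-1) r).le.trans (by simp)
  have hnp : resN ν (fun x => D x + P D x) ≤ 2 * (resN ν r₁ + resN ν r) := by
    refine (resN_add hD hPD).trans ?_
    have := resN_P hP hD
    linarith
  have hnm : resN ν (fun x => D x - P D x) ≤ (1 - q) * resN ν r + (1 - q₁) * resN ν r₁ := by
    have h1 : (fun x => D x - P D x) =ᵐ[ν]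
        fun x => (1 - q) * P r x + (fun y => (-(1 - q₁)) * P r₁ y) x := by
      have h2 := hP.sub' hr₁' hr'
      rw [← hDdef] at h2
      filter_upwards [h2, res_eq hrs, res_eq hrs₁] with x x1 x2 x3
      rw [x1, hDdef]
      simp only
      linarith
    rw [resN_congr h1]
    have h3 := resN_add ((hP.memLp hr).const_mul (1 - q)) ((hP.memLp hr₁).const_mul (-(1 - q₁)))
    refine h3.trans (add_le_add ?_ ?_)
    · refine (resN_mul (1 - q) (P r)).le.trans ?_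
      rw [abs_of_nonneg (by linarith)]
      exact mul_le_mul_of_nonneg_left (resN_P hP hr) (by linarith)
    · refine (resN_mul (-(1 - q₁)) (P r₁)).le.trans ?_
      rw [abs_neg, abs_of_nonneg (by linarith)]
      exact mul_le_mul_of_nonneg_left (resN_P hP hr₁) (by linarith)
  have hnm' : resN ν (fun x => D x - P D x) ≤ (1 - q) * (resN ν r + resN ν r₁) := by
    have : (1 - q₁) * resN ν r₁ ≤ (1 - q) * resN ν r₁ :=
      mul_le_mul_of_nonneg_right (by linarith) n1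
    linarith
  calc _ ≤ (1 - q) * (resN ν r + resN ν r₁) * (2 * (resN ν r₁ + resN ν r)) :=
        mul_le_mul hnm' hnp (resN_nonneg _) (mul_nonneg (by linarith) (by linarith))
    _ ≤ _ := by
      have h1 := mul_nonneg (by linarith : (0 : ℝ) ≤ 1 - q) (sq_nonneg (resN ν r - resN ν r₁))
      nlinarith

/-- The energies of `r_q` and `r_{q'}` at comparable scales are asymptotically the same in `L¹`:
here `1 - q₁ = θ (1 - q)`, `0 < θ ≤ 1`. -/
theorem gam_diff [IsProbabilityMeasure ν] (h : Ctx ν P P' f) {C₀ : ℝ}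
    (hC : ∀ q : ℝ, 0 ≤ q → q < 1 → ∀ r : S → ℝ, MemLp r 2 ν → IsSol ν P q Set.univ f r →
      ∫ x, r x ^ 2 ∂ν - ∫ x, (P r x) ^ 2 ∂ν ≤ C₀)
    {θ : ℝ} (hθ0 : 0 < θ) (hθ1 : θ ≤ 1) {ε : ℝ} (hε : 0 < ε) :
    ∃ q₀ : ℝ, q₀ < 1 ∧ ∀ q : ℝ, q₀ < q → 0 ≤ q → q < 1 → ∀ q₁ : ℝ, 1 - q₁ = θ * (1 - q) →
    ∀ r r₁ : S → ℝ, MemLp r 2 ν → IsSol ν P q Set.univ f r →
      MemLp r₁ 2 ν → IsSol ν P q₁ Set.univ f r₁ →
      ∫ x, |Gam P r₁ x - Gam P r x| ∂ν ≤ ε := by
  have hP := h.pair.left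
  obtain ⟨a, ha⟩ : ∃ a, a = ε / (4 * (|C₀| + 1)) := ⟨_, rfl⟩
  have ha0 : 0 < a := by rw [ha]; positivity
  obtain ⟨ε', hε'⟩ : ∃ ε', ε' = ε / (2 * ((1 + a⁻¹) * (4 * (1 + 1 / θ)))) := ⟨_, rfl⟩
  have hε'0 : 0 < ε' := by rw [hε']; positivity
  obtain ⟨q₀, hq₀, hq₀'⟩ := res_small h hε'0
  refine ⟨q₀, hq₀, fun q hq hq0 hq1 q₁ hq₁ r r₁ hr hrs hr₁ hrs₁ => ?_⟩
  have hlam : 0 < 1 - q := by linarith
  have hqq : q ≤ q₁ := by nlinarith
  have hq1' : q₁ < 1 := by nlinarith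
  have b1 := hq₀' q hq hq0 hq1 r hr hrs
  have b2 := hq₀' q₁ (hq.trans_le hqq) (hq0.trans hqq) hq1' r₁ hr₁ hrs₁
  rw [← resN_sq] at b1 b2
  have b3 : (1 - q) * resN ν r₁ ^ 2 ≤ ε' / θ := by
    rw [le_div_iff₀ hθ0]
    rw [hq₁] at b2
    linarith
  have hG := res_gam hP hq1.le hq1'.le hqq hr hrs hr₁ hrs₁
  have hD : MemLp (fun x => r₁ x - r x) 2 ν := hr₁.sub hr
  have c1 := hP.gam_split hr₁ hr hD (by filter_upwards with x; ring) ha0
  have hD' : MemLp (fun x => -1 * (r₁ x - r x) + 0 * (r₁ x - r x)) 2 ν :=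
    (hD.const_mul _).add (hD.const_mul _)
  have c2 := hP.gam_split hr hr₁ hD' (by filter_upwards with x; ring) ha0
  have c3 := hP.basicA_gam_lin hD hD (-1) 0
  have c4 := hP.gam_nonneg hr
  have c5 := hP.gam_nonneg hr₁
  have i1 := hP.gam_integrable hr
  have i2 := hP.gam_integrable hr₁
  have i3 := hP.gam_integrable hD
  have c6 : ∀ᵐ x ∂ν, |Gam P r₁ x - Gam P r x| ≤ a * Gam P r x + (a * Gam P r₁ x +
      (1 + a⁻¹) * Gam P (fun x => r₁ x - r x) x) := by
    filter_upwards [c1, c2, c3, c4, c5] with x x1 x2 x3 x4 x5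
    rw [x3] at x2
    have y1 := mul_nonneg ha0.le x4
    have y2 := mul_nonneg ha0.le x5
    rw [abs_sub_le_iff]
    constructor <;> linarith
  have hint := integral_mono_ae (i2.sub i1).abs
    ((i1.const_mul a).add ((i2.const_mul a).add (i3.const_mul (1 + a⁻¹)))) c6
  refine hint.trans ?_
  have e1 : ∫ x, (a * Gam P r x + (a * Gam P r₁ x +
      (1 + a⁻¹) * Gam P (fun x => r₁ x - r x) x)) ∂ν = ∫ x, a * Gam P r x ∂ν +
      ∫ x, (a * Gam P r₁ x + (1 + a⁻¹) * Gam P (fun x => r₁ x - r x) x) ∂ν :=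
    integral_add (i1.const_mul a) ((i2.const_mul a).add (i3.const_mul (1 + a⁻¹)))
  have e2 : ∫ x, (a * Gam P r₁ x + (1 + a⁻¹) * Gam P (fun x => r₁ x - r x) x) ∂ν =
      ∫ x, a * Gam P r₁ x ∂ν + ∫ x, (1 + a⁻¹) * Gam P (fun x => r₁ x - r x) x ∂ν :=
    integral_add (i2.const_mul a) (i3.const_mul (1 + a⁻¹))
  refine (e1.trans (by rw [e2])).le.trans ?_
  rw [integral_const_mul, integral_const_mul, integral_const_mul, hP.integral_gam hr,
    hP.integral_gam hr₁]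
  have d1 := hC q hq0 hq1 r hr hrs
  have d2 := hC q₁ (hq0.trans hqq) hq1' r₁ hr₁ hrs₁
  have d3 : a * C₀ ≤ ε / 4 := by
    have : a * C₀ ≤ a * (|C₀| + 1) :=
      mul_le_mul_of_nonneg_left (by linarith [le_abs_self C₀]) ha0.le
    refine this.trans (le_of_eq ?_)
    rw [ha]
    field_simp
  have d4 : ∫ x, Gam P (fun x => r₁ x - r x) x ∂ν ≤ 4 * (1 + 1 / θ) * ε' := by
    refine hG.trans ?_
    have : ε' / θ = 1 / θ * ε' := by ring
    rw [this] at b3
    linarith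
  have d5 : (1 + a⁻¹) * ∫ x, Gam P (fun x => r₁ x - r x) x ∂ν ≤ ε / 2 := by
    have h1 : (1 + a⁻¹) * ∫ x, Gam P (fun x => r₁ x - r x) x ∂ν ≤
        (1 + a⁻¹) * (4 * (1 + 1 / θ) * ε') := mul_le_mul_of_nonneg_left d4 (by positivity)
    refine h1.trans (le_of_eq ?_)
    rw [hε']
    field_simp
  have d6 := mul_le_mul_of_nonneg_left d1 ha0.le
  have d7 := mul_le_mul_of_nonneg_left d2 ha0.le
  linarith

end Pool.NH23.MC
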