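import Pool.Agent.NH23.MC.RI
import Pool.Agent.NH23.MC.Lev

set_option autoImplicit false
open MeasureTheory ProbabilityTheory Filter Topology

namespace Pool.NH23.MC

variable {S : Type} [MeasurableSpace S] {ν : Measure S} {P P' : (S → ℝ) → (S → ℝ)} {f : S → ℝ}
  {H w : S → ℝ} {o : ℝ → ℝ} {M : ℝ}

theorem TestStep_vol {y : ℝ} (hy : |y| ≤ 1) :
    (volume.restrict (Set.Ioo (-1 : ℝ) 1)).real (Set.Iio y) = y + 1 := by
  have h1 := abs_le.1 hy
  rw [measureReal_restrict_apply measurableSet_Iio]
  have h2 : Set.Iio y ∩ Set.Ioo (-1 : ℝ) 1 = Set.Ioo (-1) y := by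
    ext c
    simp only [Set.mem_inter_iff, Set.mem_Iio, Set.mem_Ioo]
    constructor
    · rintro ⟨h3, h4, _⟩
      exact ⟨h4, h3⟩
    · rintro ⟨h3, h4⟩
      exact ⟨h4, h3, by linarith⟩
  rw [h2, Real.volume_real_Ioo_of_le h1.1]
  ring

theorem TestStep_vol' (y κ : ℝ) (hκ : 0 ≤ κ) :
    (volume.restrict (Set.Ioo (-1 : ℝ) 1)).real {c | c < y ∧ y ≤ c + κ} ≤ κ := by
  have h2 : {c : ℝ | c < y ∧ y ≤ c + κ} = Set.Ico (y - κ) y := by
    ext c
    constructor
    · rintro ⟨h3, h4⟩
      exact ⟨by linarith, h3⟩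
    · rintro ⟨h3, h4⟩
      exact ⟨h4, by linarith⟩
  rw [h2, measureReal_restrict_apply measurableSet_Ico]
  calc volume.real (Set.Ico (y - κ) y ∩ Set.Ioo (-1) 1) ≤ volume.real (Set.Ico (y - κ) y) := by
        refine measureReal_mono Set.inter_subset_left ?_
        rw [Real.volume_Ico]
        exact ENNReal.ofReal_ne_top
    _ = κ := by
        rw [Real.volume_real_Ico_of_le (by linarith)]
        ring

/-- The layers of the test function. -/
theorem TestStep_layer [IsProbabilityMeasure ν] {U g : S → ℝ} (hUm : Measurable U)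
    (hU1 : ∀ᵐ x ∂ν, |U x| ≤ 1) (hg : Integrable g ν) {L κ a δ : ℝ} (hL : 0 ≤ L) (hκ : 0 ≤ κ)
    (hle : ∀ c, ∫ x in {x | c < U x}, g x ∂ν ≤
      L * (ν.real {x | c < U x ∧ U x ≤ c + κ} + a) + δ) :
    ∫ x, (U x + 1) * g x ∂ν ≤ L * κ + 2 * (L * a + δ) := by
  set m : Measure ℝ := volume.restrict (Set.Ioo (-1 : ℝ) 1) with hm
  have : IsFiniteMeasure m := by
    rw [hm]
    infer_instance
  have hm2 : m.real Set.univ = 2 := by
    rw [hm, measureReal_restrict_apply MeasurableSet.univ, Set.univ_inter,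
      Real.volume_real_Ioo_of_le (by norm_num)]
    norm_num
  have hT : MeasurableSet {p : S × ℝ | p.2 < U p.1} :=
    measurableSet_lt measurable_snd (hUm.comp measurable_fst)
  have hT' : MeasurableSet {p : S × ℝ | p.2 < U p.1 ∧ U p.1 ≤ p.2 + κ} :=
    hT.inter (measurableSet_le (hUm.comp measurable_fst) (measurable_snd.add_const κ))
  set F : S × ℝ → ℝ := {p : S × ℝ | p.2 < U p.1}.indicator (fun p => g p.1) with hF
  set G : S × ℝ → ℝ := {p : S × ℝ | p.2 < U p.1 ∧ U p.1 ≤ p.2 + κ}.indicator (fun _ => 1)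
    with hG
  have hFi : Integrable F (ν.prod m) := (hg.comp_fst m).indicator hT
  have hGi : Integrable G (ν.prod m) := (integrable_const (1 : ℝ)).indicator hT'
  have h1 : ∫ x, (U x + 1) * g x ∂ν = ∫ x, ∫ c, F (x, c) ∂m ∂ν := by
    refine integral_congr_ae ?_
    filter_upwards [hU1] with x hx
    have h2 : (fun c => F (x, c)) = (Set.Iio (U x)).indicator (fun _ => g x) := by
      funext c
      rw [hF]
      by_cases hc : c < U x
      · rw [Set.indicator_of_mem (by exact hc), Set.indicator_of_mem (by exact hc)]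
      · rw [Set.indicator_of_notMem (by exact hc), Set.indicator_of_notMem (by exact hc)]
    rw [h2, integral_indicator_const _ measurableSet_Iio, hm, TestStep_vol hx, smul_eq_mul]
  have h3 : ∀ c, ∫ x, F (x, c) ∂ν = ∫ x in {x | c < U x}, g x ∂ν := by
    intro c
    rw [← integral_indicator (measurableSet_lt measurable_const hUm)]
    rfl
  have h4 : ∀ c, ∫ x, G (x, c) ∂ν = ν.real {x | c < U x ∧ U x ≤ c + κ} := by
    intro c
    have h5 : MeasurableSet {x | c < U x ∧ U x ≤ c + κ} :=
      (measurableSet_lt measurable_const hUm).inter (measurableSet_le hUm measurable_const)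
    have h6 : (fun x => G (x, c)) = {x | c < U x ∧ U x ≤ c + κ}.indicator (fun _ => (1 : ℝ)) := rfl
    rw [h6, integral_indicator_const _ h5, smul_eq_mul, mul_one]
  have hGc : Integrable (fun c => ν.real {x | c < U x ∧ U x ≤ c + κ}) m := by
    have h5 := hGi.integral_prod_right
    simpa only [h4] using h5
  have h7 : ∫ c, ν.real {x | c < U x ∧ U x ≤ c + κ} ∂m ≤ κ := by
    have h8 : ∫ c, ν.real {x | c < U x ∧ U x ≤ c + κ} ∂m = ∫ x, ∫ c, G (x, c) ∂m ∂ν := by
      rw [integral_integral_swap (f := fun x c => G (x, c)) hGi]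
      simp only [h4]
    rw [h8]
    calc ∫ x, ∫ c, G (x, c) ∂m ∂ν ≤ ∫ _x, κ ∂ν := by
          refine integral_mono hGi.integral_prod_left (integrable_const κ) fun x => ?_
          have h9 : (fun c => G (x, c)) = {c | c < U x ∧ U x ≤ c + κ}.indicator
            (fun _ => (1 : ℝ)) := rfl
          have h10 : MeasurableSet {c | c < U x ∧ U x ≤ c + κ} :=
            (measurableSet_lt measurable_id measurable_const).inter
              (measurableSet_le measurable_const (measurable_id.add_const κ))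
          show ∫ c, G (x, c) ∂m ≤ κ
          rw [h9, integral_indicator_const _ h10, smul_eq_mul, mul_one]
          exact TestStep_vol' (U x) κ hκ
      _ = κ := by simp
  rw [h1, integral_integral_swap (f := fun x c => F (x, c)) hFi]
  calc ∫ c, ∫ x, F (x, c) ∂ν ∂m ≤
      ∫ c, (L * (ν.real {x | c < U x ∧ U x ≤ c + κ} + a) + δ) ∂m := by
        refine integral_mono hFi.integral_prod_right
          (((hGc.add (integrable_const a)).const_mul L).add (integrable_const δ)) fun c => ?_
        show ∫ x, F (x, c) ∂ν ≤ _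
        rw [h3]
        exact hle c
    _ = L * (∫ c, ν.real {x | c < U x ∧ U x ≤ c + κ} ∂m) + 2 * (L * a + δ) := by
        have e1 : Integrable (fun c => L * (ν.real {x | c < U x ∧ U x ≤ c + κ} + a)) m :=
          (hGc.add (integrable_const a)).const_mul L
        rw [integral_add e1 (integrable_const δ), integral_const_mul,
          integral_add hGc (integrable_const a), integral_const, integral_const, hm2]
        simp only [smul_eq_mul]
        ring
    _ ≤ L * κ + 2 * (L * a + δ) := by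
        have := mul_le_mul_of_nonneg_left h7 hL
        linarith

/-- Duality: `∫ |b| = ∫ U h` when `b = λ h + q P b` and `U = λ sign b + q P' U`. -/
theorem TestStep_dual [IsProbabilityMeasure ν] (hP : Pair ν P P') {q lam : ℝ} (hlam : 0 < lam)
    {U b g s : S → ℝ} (hbi : Integrable b ν) (hUi : Integrable U ν)
    (hU1 : ∀ᵐ x ∂ν, |U x| ≤ 1) (hs : ∀ᵐ x ∂ν, s x * b x = |b x|)
    (hb : ∀ᵐ x ∂ν, b x = lam * g x + q * P b x)
    (hU : ∀ᵐ x ∂ν, U x = lam * s x + q * P' U x) : ∫ x, |b x| ∂ν = ∫ x, U x * g x ∂ν := by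
  have h1 := hP.adj1 b U hbi hUi.1 ⟨1, hU1⟩
  have hPb : Integrable (P b) ν := hP.left.integrable b hbi
  have hP'U : ∀ᵐ x ∂ν, |P' U x| ≤ 1 := hP.right.abs_le_of_abs_le hUi hU1
  have i1 : Integrable (fun x => b x * U x) ν := by
    refine hbi.mul_bdd (c := 1) hUi.1 ?_
    filter_upwards [hU1] with x hx
    rwa [Real.norm_eq_abs]
  have i2 : Integrable (fun x => P b x * U x) ν := by
    refine hPb.mul_bdd (c := 1) hUi.1 ?_
    filter_upwards [hU1] with x hx
    rwa [Real.norm_eq_abs]
  have i3 : Integrable (fun x => b x * P' U x) ν := by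
    refine hbi.mul_bdd (c := 1) (hP.right.integrable U hUi).1 ?_
    filter_upwards [hP'U] with x hx
    rwa [Real.norm_eq_abs]
  have h2 : lam * ∫ x, |b x| ∂ν = lam * ∫ x, U x * g x ∂ν := by
    calc lam * ∫ x, |b x| ∂ν = ∫ x, lam * |b x| ∂ν := (integral_const_mul _ _).symm
      _ = ∫ x, (b x * U x - q * (b x * P' U x)) ∂ν := by
          refine integral_congr_ae ?_
          filter_upwards [hs, hU] with x hx1 hx2
          rw [← hx1]
          have h3 : lam * s x = U x - q * P' U x := by linarith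
          calc lam * (s x * b x) = (lam * s x) * b x := by ring
            _ = (U x - q * P' U x) * b x := by rw [h3]
            _ = _ := by ring
      _ = ∫ x, b x * U x ∂ν - q * ∫ x, b x * P' U x ∂ν := by
          rw [integral_sub i1 (i3.const_mul q), integral_const_mul]
      _ = ∫ x, b x * U x ∂ν - q * ∫ x, P b x * U x ∂ν := by rw [h1]
      _ = ∫ x, (b x * U x - q * (P b x * U x)) ∂ν := by
          rw [integral_sub i1 (i2.const_mul q), integral_const_mul]
      _ = ∫ x, lam * (U x * g x) ∂ν := by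
          refine integral_congr_ae ?_
          filter_upwards [hb] with x hx
          have h3 : lam * g x = b x - q * P b x := by linarith
          calc b x * U x - q * (P b x * U x) = (b x - q * P b x) * U x := by ring
            _ = (lam * g x) * U x := by rw [h3]
            _ = _ := by ring
      _ = lam * ∫ x, U x * g x ∂ν := integral_const_mul _ _
  exact mul_left_cancel₀ hlam.ne' h2

/-- Test function step.  `g = (1-q) Γ + q P g` (`g = (1-q) u_q`), `b = (1-q₁)(g - V) + q₁ P b`:
then `∫|b|` is small. -/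
theorem test_step [IsProbabilityMeasure ν] (h : Ctx ν P P' f)
    (hR : RateData ν P f H w o M) {ε : ℝ} (hε : 0 < ε) :
    ∃ η : ℝ, 0 < η ∧ η ≤ 1 ∧ η ≤ ε ∧ ∃ q₀ : ℝ, q₀ < 1 ∧ ∀ q : ℝ, q₀ < q → 0 ≤ q → q < 1 →
      ∀ q₁ : ℝ, 1 - q₁ = η * (1 - q) →
      ∀ r u : S → ℝ, Measurable r → MemLp r 2 ν → IsSol ν P q Set.univ f r →
      Measurable u → Integrable u ν → IsSol ν P q Set.univ (Gam P r) u →
      ∀ b : S → ℝ, Measurable b → Integrable b ν →
      IsSol ν P q₁ Set.univ (fun x => (1 - q₁) * ((1 - q) * u x - ∫ y, w y ∂ν)) b →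
      ∫ x, |b x| ∂ν ≤ ε := by
  have hV : 0 ≤ ∫ y, w y ∂ν := integral_w_nonneg h hR
  obtain ⟨L, hL, qa, hqa, hset⟩ := set_ineq h hR (δ := ε / 16) (by positivity)
  obtain ⟨qb, hqb, hres⟩ := res_small h (ε := ε / 16) (by positivity)
  obtain ⟨K, hK, Λ, hΛ, qc, hqc, hbad⟩ := bad_small h hR (ε := ε / 8) (by positivity)
  set κ : ℝ := ε / (8 * (L + 1)) with hκdef
  have hL1 : 0 < L + 1 := by linarith
  have hκ : 0 < κ := by positivity
  set η : ℝ := min (min 1 ε) (min (κ / 4) (ε * κ / (64 * (L + 1)))) with hηdef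
  have hη : 0 < η := by
    rw [hηdef]
    exact lt_min (lt_min one_pos hε) (lt_min (by positivity) (by positivity))
  have hη1 : η ≤ 1 := (min_le_left _ _).trans (min_le_left _ _)
  have hηε : η ≤ ε := (min_le_left _ _).trans (min_le_right _ _)
  have hηκ : η ≤ κ / 4 := (min_le_right _ _).trans (min_le_left _ _)
  have hηL : η ≤ ε * κ / (64 * (L + 1)) := (min_le_right _ _).trans (min_le_right _ _)
  refine ⟨η, hη, hη1, hηε, max qa (max qb qc), max_lt hqa (max_lt hqb hqc), ?_⟩
  intro q hq hq0 hq1 q₁ hq₁ r u hrm hr hrs hum hui hus b hbm hbi hbs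
  have hq1' : 0 < 1 - q := by linarith
  have hqqa : qa < q := (le_max_left _ _).trans_lt hq
  have hqqb : qb < q := ((le_max_left _ _).trans (le_max_right _ _)).trans_lt hq
  have hqqc : qc < q := ((le_max_right _ _).trans (le_max_right _ _)).trans_lt hq
  have hlam : 0 < 1 - q₁ := by rw [hq₁]; positivity
  have hq₁1 : q₁ < 1 := by linarith
  have hq₁0 : 0 ≤ q₁ := by
    have : η * (1 - q) ≤ 1 * (1 - q) := mul_le_mul_of_nonneg_right hη1 hq1'.le
    linarith
  -- the test function
  set s : S → ℝ := fun x => (SignType.sign (b x) : ℝ) with hs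
  have hsm : Measurable s := by
    have : s = fun x => if 0 < b x then (1 : ℝ) else if b x < 0 then -1 else 0 := by
      funext x
      rw [hs]
      rcases lt_trichotomy (b x) 0 with h0 | h0 | h0
      · simp [h0, not_lt.2 h0.le]
      · simp [h0]
      · simp [h0]
    rw [this]
    exact Measurable.ite (measurableSet_lt measurable_const hbm) measurable_const
      (Measurable.ite (measurableSet_lt hbm measurable_const) measurable_const measurable_const)
  have hs1 : ∀ x, |s x| ≤ 1 := by
    intro x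
    rw [hs]
    rcases lt_trichotomy (b x) 0 with h0 | h0 | h0
    · simp [h0]
    · simp [h0]
    · simp [h0]
  have hsb : ∀ x, s x * b x = |b x| := by
    intro x
    rw [hs]
    exact sign_mul_self (b x)
  have hsi : Integrable s ν := by
    refine Integrable.of_bound hsm.aestronglyMeasurable 1 (ae_of_all _ fun x => ?_)
    rw [Real.norm_eq_abs]
    exact hs1 x
  obtain ⟨U, hUm, hUi, hUs⟩ := exists_sol h.pair.right hq₁0 hq₁1 MeasurableSet.univ
    (hsi.const_mul (1 - q₁))
  have hU : ∀ᵐ x ∂ν, U x = (1 - q₁) * s x + q₁ * P' U x := by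
    filter_upwards [hUs] with x hx
    rw [hx, Set.indicator_univ]
  have hU1 : ∀ᵐ x ∂ν, |U x| ≤ 1 := by
    have h1 := hUs.abs_le h.pair.right hq₁0 hq₁1 hUi (C := 1 - q₁) (ae_of_all _ fun x => by
      rw [abs_mul, abs_of_pos hlam]
      exact mul_le_of_le_one_right hlam.le (hs1 x))
    filter_upwards [h1] with x hx
    by_contra hc
    push Not at hc
    nlinarith
  -- the centred function
  set g : S → ℝ := fun x => (1 - q) * u x - ∫ y, w y ∂ν with hg
  have hgi : Integrable g ν := (hui.const_mul _).sub (integrable_const _)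
  have hb : ∀ᵐ x ∂ν, b x = (1 - q₁) * g x + q₁ * P b x := by
    filter_upwards [hbs] with x hx
    rw [hx, Set.indicator_univ]
  have hdual : ∫ x, |b x| ∂ν = ∫ x, U x * g x ∂ν :=
    TestStep_dual h.pair hlam hbi hUi hU1 (ae_of_all _ hsb) hb hU
  -- the level sets
  have hlev : ∀ c, ∫ x in {x | c < U x}, g x ∂ν ≤
      L * (ν.real {x | c < U x ∧ U x ≤ c + κ} + 2 * η / (κ - 2 * η)) + ε / 16 := by
    intro c
    have hRm : MeasurableSet {x | c < U x} := measurableSet_lt measurable_const hUm
    obtain ⟨e, hem, he⟩ := exists_exit h.pair.left hq0 hq1 hRm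
    have h1 := hset q hqqa hq0 hq1 r u hrm hr hrs hum hui hus {x | c < U x} hRm e he
    have h2 := level_exit h.pair hq₁0 hq₁1 hq0 hq1 hq₁.le hsi (ae_of_all _ hs1) hUm hUi hU
      (c := c) (κ := κ) (by linarith) he
    have h3 : ∫ x in {x | c < U x}, g x ∂ν =
        (1 - q) * ∫ x in {x | c < U x}, u x ∂ν - (∫ y, w y ∂ν) * ν.real {x | c < U x} := by
      rw [hg, integral_sub (hui.const_mul _).integrableOn (integrable_const _), integral_const_mul,
        integral_const, smul_eq_mul, measureReal_restrict_apply MeasurableSet.univ,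
        Set.univ_inter]
      ring
    have h4 := mul_le_mul_of_nonneg_left h2 hL
    rw [h3]
    linarith
  have hlay := TestStep_layer hUm hU1 hgi hL hκ.le hlev
  -- the mean
  have hmean : -∫ x, g x ∂ν ≤ ε / 4 := by
    have h1 := energy_tendsto h hR hq0 hq1 hr hrs
    have h2 := (hbad q hqqc hq0 hq1 r u hrm hr hrs hum hui hus).2.2
    have h3 := hres q hqqb hq0 hq1 r hr hrs
    have h4 := h.pair.left.integral_sq_le hr
    have h5 := hus.integral_eq h.pair.left hq0 hq1 (h.pair.left.gam_integrable hr) hui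
    have h6 := h.pair.left.integral_gam hr
    have h7 : ∫ x, g x ∂ν = (1 - q) * ∫ x, u x ∂ν - ∫ y, w y ∂ν := by
      rw [hg, integral_sub (hui.const_mul _) (integrable_const _), integral_const_mul,
        integral_const, probReal_univ, one_smul]
    have h8 : 0 ≤ ∫ x, (P r x) ^ 2 ∂ν := integral_nonneg fun x => sq_nonneg _
    have h9 := (abs_le.1 h1).2
    have h10 : (1 - q ^ 2) * ∫ x, (P r x) ^ 2 ∂ν ≤ 2 * ((1 - q) * ∫ x, r x ^ 2 ∂ν) := by
      have e1 : (1 - q ^ 2) * ∫ x, (P r x) ^ 2 ∂ν ≤ (2 * (1 - q)) * ∫ x, (P r x) ^ 2 ∂ν := by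
        refine mul_le_mul_of_nonneg_right ?_ h8
        nlinarith
      have e2 : (2 * (1 - q)) * ∫ x, (P r x) ^ 2 ∂ν ≤ (2 * (1 - q)) * ∫ x, r x ^ 2 ∂ν :=
        mul_le_mul_of_nonneg_left h4 (by linarith)
      linarith
    have h11 := (abs_le.1 h1).1
    rw [h7, h5, h6]
    linarith
  -- conclusion
  have hUg : Integrable (fun x => U x * g x) ν := by
    have i1 : Integrable (fun x => g x * U x) ν := by
      refine hgi.mul_bdd (c := 1) hUi.1 ?_
      filter_upwards [hU1] with x hx
      rwa [Real.norm_eq_abs]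
    refine i1.congr (ae_of_all _ fun x => mul_comm _ _)
  have h12 : ∫ x, (U x + 1) * g x ∂ν = ∫ x, U x * g x ∂ν + ∫ x, g x ∂ν := by
    rw [← integral_add hUg hgi]
    refine integral_congr_ae (ae_of_all _ fun x => ?_)
    show (U x + 1) * g x = U x * g x + g x
    ring
  have h13 : L * κ ≤ ε / 8 := by
    rw [hκdef, mul_div_assoc', div_le_div_iff₀ (by positivity) (by norm_num)]
    nlinarith
  have h14 : L * (2 * η / (κ - 2 * η)) ≤ ε / 16 := by
    have e1 : κ / 2 ≤ κ - 2 * η := by linarith
    have e2 : 0 < κ - 2 * η := by linarith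
    rw [mul_div_assoc', div_le_div_iff₀ e2 (by norm_num)]
    have e3 : η * (64 * (L + 1)) ≤ ε * κ := by
      rwa [le_div_iff₀ (by positivity)] at hηL
    nlinarith
  rw [hdual]
  linarith

end Pool.NH23.MC
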